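import Pool.Agent.Helper10.Qc.ChkU

set_option autoImplicit false

/-!
# Sums over the cubic lattice (computation)

Coordinates in units of `1 / 1024`.
-/

namespace Pool.Agent.Helper10.Qc

/-- `(B - m)₊²` -/
def sqF (B m : ℕ) : ℕ := Nat.mul (Nat.sub B m) (Nat.sub B m)

/-- sum over the third coordinate -/
def lineF (B m a b c : ℕ) : ℕ :=
  Nat.add (sqF B (Nat.add m a)) (Nat.add (sqF B (Nat.add m b)) (sqF B (Nat.add m c)))

/-- sum over the second and third coordinates -/
def planeF (B m a b c a' b' c' : ℕ) : ℕ :=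
  Nat.add (lineF B (Nat.add m a) a' b' c')
    (Nat.add (lineF B (Nat.add m b) a' b' c') (lineF B (Nat.add m c) a' b' c'))

/-- sum over all points, for three sets of squared distances -/
def spaceF (B a b c a' b' c' a'' b'' c'' : ℕ) : ℕ :=
  Nat.add (planeF B a a' b' c' a'' b'' c'')
    (Nat.add (planeF B b a' b' c' a'' b'' c'') (planeF B c a' b' c' a'' b'' c''))

/-- bound of the sum on a box, for `B = k / 8` -/
def okF (k l0 h0 l1 h1 l2 h2 : ℕ) : Bool :=
  Nat.ble (Nat.mul 10000 (spaceF (Nat.mul 131072 k)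
      (Nat.mul l0 l0) (Nat.mul (Nat.sub 1024 h0) (Nat.sub 1024 h0))
      (Nat.mul (Nat.add 1024 l0) (Nat.add 1024 l0))
      (Nat.mul l1 l1) (Nat.mul (Nat.sub 1024 h1) (Nat.sub 1024 h1))
      (Nat.mul (Nat.add 1024 l1) (Nat.add 1024 l1))
      (Nat.mul l2 l2) (Nat.mul (Nat.sub 1024 h2) (Nat.sub 1024 h2))
      (Nat.mul (Nat.add 1024 l2) (Nat.add 1024 l2))))
    (Nat.mul (tabF k) 1099511627776)

/-- subdivision of the region `1/2 ≥ x₀ ≥ x₁ ≥ x₂ ≥ 0` -/
def recF (k : ℕ) : ℕ → ℕ → ℕ → ℕ → ℕ → ℕ → ℕ → Bool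
  | 0, _, _, _, _, _, _ => false
  | n + 1, l0, h0, l1, h1, l2, h2 =>
    cond (Nat.blt h0 l1) true <| cond (Nat.blt h1 l2) true <|
    cond (okF k l0 h0 l1 h1 l2 h2) true <|
    cond (cond (Nat.ble (Nat.sub h1 l1) (Nat.sub h0 l0)) (Nat.ble (Nat.sub h2 l2) (Nat.sub h0 l0))
        false)
      (cond (recF k n l0 (mid l0 h0) l1 h1 l2 h2) (recF k n (mid l0 h0) h0 l1 h1 l2 h2) false)
      (cond (Nat.ble (Nat.sub h2 l2) (Nat.sub h1 l1))
        (cond (recF k n l0 h0 l1 (mid l1 h1) l2 h2) (recF k n l0 h0 (mid l1 h1) h1 l2 h2) false)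
        (cond (recF k n l0 h0 l1 h1 l2 (mid l2 h2)) (recF k n l0 h0 l1 h1 (mid l2 h2) h2) false))

theorem chkF7 : recF 7 30 0 512 0 512 0 512 = true := by decide +kernel
theorem chkF8 : recF 8 30 0 512 0 512 0 512 = true := by decide +kernel
theorem chkF9 : recF 9 30 0 512 0 512 0 512 = true := by decide +kernel
theorem chkF10 : recF 10 30 0 512 0 512 0 512 = true := by decide +kernel
theorem chkF11 : recF 11 30 0 512 0 512 0 512 = true := by decide +kernel
theorem chkF12 : recF 12 30 0 512 0 512 0 512 = true := by decide +kernel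
theorem chkF13 : recF 13 30 0 512 0 512 0 512 = true := by decide +kernel

end Pool.Agent.Helper10.Qc
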