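import Pool.Agent.Helper10.Qc.Defs
import Pool.Agent.Helper10.Qc.WU
import Pool.Agent.Helper10.Qc.ChkF

set_option autoImplicit false

/-!
# Statements of the modules
-/

namespace Pool.Agent.Helper10.Qc

open MeasureTheory
open Pool.Agent.Helper19.Qh Pool.Agent.Helper19.Qc

/-! ## Hurwitz integers -/

/-- coordinates of the Hurwitz integers -/
def ST_HZ : Prop := ∀ q : Q, q ∈ HO ↔ ∃ x : Fin 4 → ℤ,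
  (2 : ℤ) ∣ x 1 - x 0 ∧ (2 : ℤ) ∣ x 2 - x 0 ∧ (2 : ℤ) ∣ x 3 - x 0 ∧ q = hf x

/-- the 24 units -/
def ST_UNI : Prop := ∃ U : Finset Q, U.card = 24 ∧ ∀ q, q ∈ U ↔ q ∈ HO ∧ ‖q‖ = 1

/-- representatives of the small Hurwitz integers -/
def ST_REP : Prop := ∀ c ∈ HO, c ≠ 0 → ‖c‖ ^ 2 ≤ 4 →
  ∃ u ∈ HO, ‖u‖ = 1 ∧ ∃ i : Fin 7, c = u * rho i

/-- the four classes modulo `1 + i` -/
def ST_COL : Prop := ∃ col : Q → Fin 4,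
  (∀ a ∈ HO, ∀ a' ∈ HO, col a = col a' → EvN (a - a')) ∧ ∀ a ∈ HO, (col a = 0 ↔ EvN a)

/-- even norm means divisible by `1 + i` -/
def ST_PI : Prop := ∀ a : Q, (a ∈ HO ∧ EvN a) ↔ ∃ q ∈ HO, a = rho 1 * q

/-- conjugation by a unit makes the third imaginary coordinate the smallest one -/
def ST_CONJ : Prop := ∀ x : Q, ∃ t ∈ HO, ‖t‖ = 1 ∧ (star t * x * t).re = x.re ∧
  |(star t * x * t).imI| + |(star t * x * t).imJ| + |(star t * x * t).imK| =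
    |x.imI| + |x.imJ| + |x.imK| ∧
  |(star t * x * t).imK| ≤ (star t * x * t).imI ∧ |(star t * x * t).imK| ≤ (star t * x * t).imJ

/-- reduction of `ζ` -/
def ST_DOMR : Prop := ∀ ζ : Q, ∃ b ∈ HO, ∃ u ∈ HO, ∃ v ∈ HO, ‖u‖ = 1 ∧ ‖v‖ = 1 ∧
  Dom (star u * (ζ + b) * v)

/-! ## The group and the orbit of cusp vectors -/

/-- multiplication of the coordinates by units -/
def ST_DIAG : Prop := ∀ u ∈ HO, ∀ v ∈ HO, ‖u‖ = 1 → ‖v‖ = 1 → ∃ g ∈ Gam MO,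
  (∀ x : V 1, g x = (x.1 * u, e1 (x.2.1 0 * v), x.2.2 * u)) ∧
  ∀ p ∈ SD 1, act g p = (star u * p.1 * u, e1 (star u * p.2 0 * v)) ∧ hgt (act g p) = hgt p

/-- sums over the orbit are invariant -/
def ST_INV : Prop := ∀ F : ℝ → ENNReal, ∀ g ∈ Gam MO, ∀ p ∈ SD 1,
  ∑' w : Orb MO, F (uval w (act g p)) = ∑' w : Orb MO, F (uval w p)

/-- the height condition is invariant under transformations which preserve the height -/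
def ST_TOPI : Prop := ∀ g ∈ Gam MO, ∀ p : Pt 1, hgt (act g p) = hgt p → Top p → Top (act g p)

/-- every point is equivalent to a reduced point -/
def ST_RED : Prop := ∀ p ∈ SD 1, ∃ g ∈ Gam MO, Top (act g p) ∧ Dom ((act g p).2 0)

/-- translation in the centre -/
def ST_CENT : Prop := ∀ p : Pt 1, Top p → ∀ s : Q, ∃ g ∈ Gam MO, Top (act g p) ∧
  hgt (act g p) = hgt p ∧ (act g p).2 = p.2 ∧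
  (0 ≤ ((act g p).1 + s).imI ∧ ((act g p).1 + s).imI ≤ 1) ∧
  (0 ≤ ((act g p).1 + s).imJ ∧ ((act g p).1 + s).imJ ≤ 1) ∧
  (0 ≤ ((act g p).1 + s).imK ∧ ((act g p).1 + s).imK ≤ 1)

/-- orbit vectors are in the lattice -/
def ST_OM : Prop := ∀ w ∈ Orb MO, w ∈ MO

/-- unit multiples of orbit vectors -/
def ST_OU : Prop := ∀ u ∈ HO, ‖u‖ = 1 → ∀ w ∈ Orb MO, u • w ∈ Orb MO

/-- cusp vectors of type 1 -/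
def ST_OT : Prop := ∀ a b, NO a b → ((a, b, 1) : V 1) ∈ Orb MO

/-- orbit vectors are primitive -/
def ST_OP : Prop := ∀ w ∈ Orb MO, ∀ q ∈ HO, ∀ w' ∈ MO, w = q • w' → ‖q‖ = 1

/-- orbit vectors with third coordinate zero -/
def ST_O0 : Prop := ∀ w ∈ Orb MO, w.2.2 = 0 → ∃ u ∈ HO, ‖u‖ = 1 ∧ w = u • w0

/-- lower bound of a sum over the orbit by the sum over explicit cusp vectors -/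
def ST_OL : Prop := ∀ F : ℝ → ENNReal, ∀ p ∈ SD 1, ∀ W : List ℕ, W.Nodup → (∀ c ∈ W, cOK c) →
  24 * (F (1 / hgt p) + (W.map fun c => F (uval (wv c) p)).sum) ≤ ∑' w : Orb MO, F (uval w p)

/-- the product of a point and an isotropic vector, with third coordinate `c` -/
def ST_HLOW : Prop := ∀ (p : Pt 1) (w : V 1), herm w w = 0 →
  ‖w.2.2‖ ^ 2 * hgt p + ‖w.2.2 * p.2 0 - w.2.1 0‖ ^ 2 = -2 * (herm (vec p) w * w.2.2).re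

/-! ## Inequalities for reduced points -/

def ST_H1 : Prop := ∀ p : Pt 1, Top p → ‖p.2 0‖ ^ 2 ≤ 1 / 2 →
  2 ≤ (hgt p + ‖p.2 0‖ ^ 2) ^ 2 + (hgt p + ‖p.2 0‖ ^ 2) ∧
  4 * (‖p.2 0‖ ^ 2 * (2 - ‖p.2 0‖ ^ 2)) ≤
    ((hgt p + ‖p.2 0‖ ^ 2) ^ 2 + (hgt p + ‖p.2 0‖ ^ 2) - 2) ^ 2

def ST_H2 : Prop := ∀ p : Pt 1, Top p → Dom (p.2 0) →
  2 + 2 * ‖p.2 0‖ ^ 2 ≤ (hgt p + 1 - ‖p.2 0‖ ^ 2) ^ 2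

/-- the height of a reduced point is at least `1` -/
def ST_HG1 : Prop := ∀ (h : ℝ) (ζ : Q), 0 < h → ‖ζ‖ ^ 2 ≤ 1 / 2 → RedI h ζ → 1 ≤ h

/-- the norm in the domain -/
def ST_DN : Prop := ∀ ζ : Q, Dom ζ → ‖ζ‖ ^ 2 ≤ 1 / 2

/-- boxes -/
def ST_BOX : Prop := ∀ p : Pt 1, Dom (p.2 0) → ∃ z0 z1 z2 z3 : ℕ,
  z0 ∈ [9, 11, 13, 15] ∧ z1 ∈ [9, 11, 13, 15] ∧ z2 ∈ [9, 11, 13, 15] ∧
  z3 ∈ [1, 3, 5, 7, 9, 11, 13, 15] ∧ (∀ i, 0 ≤ eC z0 z1 z2 z3 p i ∧ eC z0 z1 z2 z3 p i ≤ 128) ∧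
  zE z0 z1 z2 z3 (eC z0 z1 z2 z3 p) = p.2 0

/-! ## Lower bound -/

/-- tangents -/
def ST_TAB : Prop := ∀ j : ℕ, j ≤ 64 → ∀ x : ℝ, 0 < x →
  ((linI j : ℝ) - (linA j : ℝ) * x) / 10 ^ 6 ≤ phL x

/-- comparison of the minorant with the weights -/
def ST_MIN : Prop := ∀ x : ℝ, 1 / (23829 / 10000) ≤ x →
  0 ≤ phL x ∧ 4 * Real.pi ^ 2 * phL x ≤ muP 1 2 1 (1 / x) * psi (1 / x)

/-- large heights -/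
def ST_HIGH : Prop := ∀ h : ℝ, 2367 / 1000 ≤ h →
  4 * Real.pi ^ 2 * (32376 / 10000) ≤ muP 1 2 1 h * psi h

/-- the coefficients of a valid code -/
def ST_MKP : Prop := ∀ z0 z1 z2 z3 c : ℕ, z0 ≤ 15 → z1 ≤ 15 → z2 ≤ 15 → z3 ≤ 15 → 1 ≤ z0 →
  1 ≤ z1 → 1 ≤ z2 → 1 ≤ z3 → mkP z0 z1 z2 z3 c ≠ 0 → c < 34359738368 →
  cOK c ∧ ∃ (n2 d0 d1 d2 d3 k0 k1 k2 k3 q0 q1 q2 q3 kk : ℕ),
    mkP z0 z1 z2 z3 c = pack n2 d0 d1 d2 d3 k0 k1 k2 k3 q0 q1 q2 q3 kk ∧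
    (n2 < 2 ^ 38 ∧ d0 < 2 ^ 38 ∧ d1 < 2 ^ 38 ∧ d2 < 2 ^ 38 ∧ d3 < 2 ^ 38 ∧ k0 < 2 ^ 38 ∧
      k1 < 2 ^ 38 ∧ k2 < 2 ^ 38 ∧ k3 < 2 ^ 38 ∧ q0 < 2 ^ 38 ∧ q1 < 2 ^ 38 ∧ q2 < 2 ^ 38 ∧
      q3 < 2 ^ 38 ∧ kk ≤ 2 ^ 38) ∧
    (n2 : ℝ) = dt (cD z0 z1 z2 z3 c) (cD z0 z1 z2 z3 c) ∧
    ((d0 : ℝ) = cD z0 z1 z2 z3 c 0 + 64 ∧ (d1 : ℝ) = cD z0 z1 z2 z3 c 1 + 64 ∧
      (d2 : ℝ) = cD z0 z1 z2 z3 c 2 + 64 ∧ (d3 : ℝ) = cD z0 z1 z2 z3 c 3 + 64) ∧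
    ((k0 : ℝ) = cK z0 z1 z2 z3 c 0 + 262144 ∧ (k1 : ℝ) = cK z0 z1 z2 z3 c 1 + 262144 ∧
      (k2 : ℝ) = cK z0 z1 z2 z3 c 2 + 262144 ∧ (k3 : ℝ) = cK z0 z1 z2 z3 c 3 + 262144) ∧
    ((q0 : ℝ) = mu (cK z0 z1 z2 z3 c) (cD z0 z1 z2 z3 c) 0 + 67108864 ∧
      (q1 : ℝ) = mu (cK z0 z1 z2 z3 c) (cD z0 z1 z2 z3 c) 1 + 67108864 ∧
      (q2 : ℝ) = mu (cK z0 z1 z2 z3 c) (cD z0 z1 z2 z3 c) 2 + 67108864 ∧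
      (q3 : ℝ) = mu (cK z0 z1 z2 z3 c) (cD z0 z1 z2 z3 c) 3 + 67108864) ∧
    (kk : ℝ) = dt (cK z0 z1 z2 z3 c) (cK z0 z1 z2 z3 c)

/-- entries of the table -/
def ST_MKT : Prop := ∀ (z0 z1 z2 z3 : ℕ) (W : List ℕ), (∀ c ∈ W, mkP z0 z1 z2 z3 c < 2 ^ 1200) →
  ∀ i (hi : i < W.length), big (mkT z0 z1 z2 z3 W) i = mkP z0 z1 z2 z3 W[i]

/-- first accumulation: the selected indices are increasing -/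
def ST_SUMA : Prop := ∀ (TT m n code prev K S : ℕ) (f : ℕ → ℕ → Bool),
  sumA TT m n code prev K S f = true → ∃ l : List (ℕ × ℕ), l.length = n ∧
    (l.map Prod.fst).Pairwise (· < ·) ∧ (∀ x ∈ l, prev ≤ x.1 ∧ x.1 < m ∧ x.2 < 64) ∧
    f (K + (l.map fun x => linI x.2).sum) (S + (l.map fun x => linA x.2 * big TT x.1).sum) = true

/-- second accumulation -/
def ST_SUMB : Prop := ∀ (TT m n code b S : ℕ) (f : ℕ → ℕ → Bool),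
  sumB TT m n code b S f = true → ∃ l : List (ℕ × ℕ), (∀ x ∈ l, x.1 < m) ∧
    f (b + (l.map Prod.snd).sum) (S + (l.map fun x => x.2 * big TT x.1).sum) = true

/-- digits of a sum: no carries -/
def ST_DIG : Prop := ∀ (A n2 d0 d1 d2 d3 k0 k1 k2 k3 q0 q1 q2 q3 kk : ℕ),
  A < 2 ^ 80 → n2 < 2 ^ 80 → d0 < 2 ^ 80 → d1 < 2 ^ 80 → d2 < 2 ^ 80 → d3 < 2 ^ 80 →
  k0 < 2 ^ 80 → k1 < 2 ^ 80 → k2 < 2 ^ 80 → k3 < 2 ^ 80 → q0 < 2 ^ 80 → q1 < 2 ^ 80 →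
  q2 < 2 ^ 80 → q3 < 2 ^ 80 → kk < 2 ^ 80 → ∀ S : ℕ, S = cons80 A (cons80 n2 (cons80 d0
    (cons80 d1 (cons80 d2 (cons80 d3 (cons80 k0 (cons80 k1 (cons80 k2 (cons80 k3 (cons80 q0
    (cons80 q1 (cons80 q2 (cons80 q3 kk))))))))))))) →
  S < 2 ^ 1200 ∧ dig S 0 = A ∧ dig S 1 = n2 ∧ dig S 2 = d0 ∧ dig S 3 = d1 ∧ dig S 4 = d2 ∧
  dig S 5 = d3 ∧ dig S 6 = k0 ∧ dig S 7 = k1 ∧ dig S 8 = k2 ∧ dig S 9 = k3 ∧ dig S 10 = q0 ∧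
  dig S 11 = q1 ∧ dig S 12 = q2 ∧ dig S 13 = q3 ∧ dig S 14 = kk

/-- the final comparison: the quadratic polynomial is nonnegative on the box.  The numbers `d`,
`k`, `q` are coded with the offsets `64 A`, `2^18 A`, `2^26 A` -/
def ST_FIN : Prop := ∀ (K b ai A C kk d0 d1 d2 d3 k0 k1 k2 k3 q0 q1 q2 q3
    l0 h0 l1 h1 l2 h2 l3 h3 l4 h4 l5 h5 l6 h6 l7 h7 : ℕ),
  l0 ≤ h0 → l1 ≤ h1 → l2 ≤ h2 → l3 ≤ h3 → l4 ≤ h4 → l5 ≤ h5 → l6 ≤ h6 → l7 ≤ h7 →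
  fin4 K b ai A C kk (Nat.add l0 h0) (Nat.add l1 h1) (Nat.add l2 h2) (Nat.add l3 h3)
    (Nat.add l4 h4) (Nat.add l5 h5) (Nat.add l6 h6) (Nat.add l7 h7)
    (Nat.sub h0 l0) (Nat.sub h1 l1) (Nat.sub h2 l2) (Nat.sub h3 l3)
    (Nat.sub h4 l4) (Nat.sub h5 l5) (Nat.sub h6 l6) (Nat.sub h7 l7)
    d0 d1 d2 d3 k0 k1 k2 k3 q0 q1 q2 q3 (Nat.mul 64 A) = true →
  ∀ e u : Fin 4 → ℝ, InL l0 h0 l1 h1 l2 h2 l3 h3 l4 h4 l5 h5 l6 h6 l7 h7 e u →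
  ∀ D k q : Fin 4 → ℝ,
    ((d0 : ℝ) = D 0 + 64 * A ∧ (d1 : ℝ) = D 1 + 64 * A ∧ (d2 : ℝ) = D 2 + 64 * A ∧
      (d3 : ℝ) = D 3 + 64 * A) →
    ((k0 : ℝ) = k 0 + 262144 * A ∧ (k1 : ℝ) = k 1 + 262144 * A ∧ (k2 : ℝ) = k 2 + 262144 * A ∧
      (k3 : ℝ) = k 3 + 262144 * A) →
    ((q0 : ℝ) = q 0 + 67108864 * A ∧ (q1 : ℝ) = q 1 + 67108864 * A ∧
      (q2 : ℝ) = q 2 + 67108864 * A ∧ (q3 : ℝ) = q 3 + 67108864 * A) →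
    1024 * A * dt u u + 4 * C * dt e e + kk + 128 * dt u (ms e D) + 64 * dt u k + 4 * dt e q
      + 2 ^ 30 * ai ≤ K * HH e u + 2 ^ 30 * b

/-- the certificate of a leaf -/
def ST_LEAF : Prop := ∀ (z0 z1 z2 z3 : ℕ) (W : List ℕ), z0 ≤ 15 → z1 ≤ 15 → z2 ≤ 15 → z3 ≤ 15 →
  1 ≤ z0 → 1 ≤ z1 → 1 ≤ z2 → 1 ≤ z3 → decr W = true → allOK z0 z1 z2 z3 W = true →
  ∀ (ji na ca nb cb l0 h0 l1 h1 l2 h2 l3 h3 l4 h4 l5 h5 l6 h6 l7 h7 : ℕ),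
  l0 ≤ h0 → l1 ≤ h1 → l2 ≤ h2 → l3 ≤ h3 → l4 ≤ h4 → l5 ≤ h5 → l6 ≤ h6 → l7 ≤ h7 →
  leaf (mkT z0 z1 z2 z3 W) W.length ji na ca nb cb
    l0 h0 l1 h1 l2 h2 l3 h3 l4 h4 l5 h5 l6 h6 l7 h7 = true →
  ∀ e u : Fin 4 → ℝ, InL l0 h0 l1 h1 l2 h2 l3 h3 l4 h4 l5 h5 l6 h6 l7 h7 e u →
    ConcL z0 z1 z2 z3 W e u

/-- a box which does not meet the domain -/
def ST_OUT : Prop := ∀ z0 z1 z2 z3 l0 h0 l1 h1 l2 h2 l3 h3 : ℕ,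
  out z0 z1 z2 z3 l0 h0 l1 h1 l2 h2 l3 h3 = true → ∀ e : Fin 4 → ℝ,
  ((l0 : ℝ) ≤ e 0 ∧ e 0 ≤ h0) → ((l1 : ℝ) ≤ e 1 ∧ e 1 ≤ h1) → ((l2 : ℝ) ≤ e 2 ∧ e 2 ≤ h2) →
  ((l3 : ℝ) ≤ e 3 ∧ e 3 ≤ h3) → ¬ Dom (zE z0 z1 z2 z3 e)

/-- the check of a box -/
def ST_CHK : Prop := ∀ (z0 z1 z2 z3 : ℕ) (W : List ℕ) (t : Tr), z0 ≤ 15 → z1 ≤ 15 → z2 ≤ 15 →
  z3 ≤ 15 → 1 ≤ z0 → 1 ≤ z1 → 1 ≤ z2 → 1 ≤ z3 → chkBox z0 z1 z2 z3 W t = true →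
  W.Nodup ∧ (∀ c ∈ W, cOK c) ∧ ∀ e u : Fin 4 → ℝ,
    InL 0 128 0 128 0 128 0 128 0 708 0 1024 0 1024 0 1024 e u → ConcL z0 z1 z2 z3 W e u

/-- the coordinates -/
def ST_CRD : Prop := ∀ (z0 z1 z2 z3 : ℕ) (p : Pt 1),
  HH (eC z0 z1 z2 z3 p) (uC z0 z1 z2 z3 p) = 2 ^ 30 * hgt p ∧
  ∀ c, cOK c → Qv (cD z0 z1 z2 z3 c) (cK z0 z1 z2 z3 c) (eC z0 z1 z2 z3 p) (uC z0 z1 z2 z3 p) =
    2 ^ 30 * ‖herm (vec p) (wv c)‖ ^ 2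

/-! ## Sums over fibres -/

def ST_GRAM : Prop := ∀ (ι : Type) (s : Finset ι) (x : ι → Q) (B σ : ℝ),
  (∀ i ∈ s, 0 < B - ‖x i‖ ^ 2) → (∀ i ∈ s, ∀ j ∈ s, i ≠ j → σ ≤ ‖x i - x j‖ ^ 2) →
  (∑ i ∈ s, (B - ‖x i‖ ^ 2) ^ 2) * (2 * ∑ i ∈ s, (B - ‖x i‖ ^ 2) - σ) ≤
    (2 * B - σ) * (∑ i ∈ s, (B - ‖x i‖ ^ 2)) ^ 2

def ST_S1 : Prop := ∀ (ι : Type) (s : Finset ι) (x : ι → Q) (B σ : ℝ),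
  (∀ i ∈ s, ∀ j ∈ s, i ≠ j → σ ≤ ‖x i - x j‖ ^ 2) → 0 ≤ B → B ≤ σ / 2 →
  ∑ i ∈ s, (B - ‖x i‖ ^ 2) ≤ B

/-- all distances are at least `1` -/
def ST_C1 : Prop := ∀ (ι : Type) (x : ι → Q) (B : ℝ), B ≤ 1 / 2 →
  (∀ i j, i ≠ j → 1 ≤ ‖x i - x j‖ ^ 2) →
  ∑' i, ENNReal.ofReal ((max (B - ‖x i‖ ^ 2) 0) ^ 2) ≤ ENNReal.ofReal ((max B 0) ^ 2)

/-- two colours -/
def ST_C2 : Prop := ∀ (ι : Type) (x : ι → Q) (col : ι → Fin 2) (B : ℝ), B ≤ 3 / 4 →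
  (∀ i j, i ≠ j → 1 ≤ ‖x i - x j‖ ^ 2) → (∀ i j, i ≠ j → col i = col j → 2 ≤ ‖x i - x j‖ ^ 2) →
  ∑' i, ENNReal.ofReal ((max (B - ‖x i‖ ^ 2) 0) ^ 2) ≤ ENNReal.ofReal ((max B 0) ^ 2)

/-- three colours -/
def ST_C3 : Prop := ∀ (ι : Type) (x : ι → Q) (col : ι → Fin 3) (B : ℝ), B ≤ 1 →
  (∀ i j, i ≠ j → 1 ≤ ‖x i - x j‖ ^ 2) → (∀ i j, i ≠ j → col i = col j → 2 ≤ ‖x i - x j‖ ^ 2) →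
  ∑' i, ENNReal.ofReal ((max (B - ‖x i‖ ^ 2) 0) ^ 2) ≤ ENNReal.ofReal (Psi 2 B)

/-- folding -/
def ST_FOLD : Prop := ∀ (B : ℝ) (c : Fin 3 → ℝ), ∃ c' : Fin 3 → ℝ, 0 ≤ c' 2 ∧ c' 2 ≤ c' 1 ∧
  c' 1 ≤ c' 0 ∧ c' 0 ≤ 1 / 2 ∧ S3 B c = S3 B c'

/-- soundness of the subdivision -/
def ST_FB : Prop := ∀ (k n l0 h0 l1 h1 l2 h2 : ℕ), k ≤ 13 → h0 ≤ 512 → h1 ≤ 512 → h2 ≤ 512 →
  recF k n l0 h0 l1 h1 l2 h2 = true → ∀ c : Fin 3 → ℝ, 0 ≤ c 2 → c 2 ≤ c 1 → c 1 ≤ c 0 →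
  ((l0 : ℝ) ≤ 1024 * c 0 ∧ 1024 * c 0 ≤ h0) → ((l1 : ℝ) ≤ 1024 * c 1 ∧ 1024 * c 1 ≤ h1) →
  ((l2 : ℝ) ≤ 1024 * c 2 ∧ 1024 * c 2 ≤ h2) →
  S3 ((k : ℝ) / 8) c ≤ ENNReal.ofReal ((tabF k : ℝ) / 10000)

/-- sum over a coset of the cubic lattice -/
def ST_F1 : Prop := ∀ (B : ℝ) (c : Fin 3 → ℝ), B ≤ 13 / 8 → S3 B c ≤ ENNReal.ofReal (Psi 1 B)

/-- `Psi 1` -/
def ST_PS1 : Prop := Monotone (Psi 1) ∧ ConvexOn ℝ Set.univ (Psi 1) ∧ Psi 1 0 = 0 ∧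
  ∀ x : ℕ, x ≤ 1099511627776 → (sS : ℝ) * Psi 1 ((x : ℝ) / sS) ≤ (F1 x : ℝ)

/-- `Psi 2` -/
def ST_PS2 : Prop := Monotone (Psi 2) ∧ ConvexOn ℝ Set.univ (Psi 2) ∧ Psi 2 0 = 0 ∧
  ∀ x : ℕ, (sS : ℝ) * Psi 2 ((x : ℝ) / sS) ≤ (F2 x : ℝ)

/-- `Psi n`, `n ≠ 1, 2` -/
def ST_PS3 : Prop := ∀ n : ℕ, n ≠ 1 → n ≠ 2 → (∀ x, Psi n x = (max x 0) ^ 2) ∧
  Monotone (Psi n) ∧ ConvexOn ℝ Set.univ (Psi n) ∧ Psi n 0 = 0 ∧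
  ∀ x : ℕ, (sS : ℝ) * Psi n ((x : ℝ) / sS) ≤ (FF n x : ℝ)

/-- the points of a fibre -/
def ST_FG : Prop := ∀ (p : Pt 1) (i : Fin 7) (b a : Q),
  2 * (a * star (rho i)).re + ‖b‖ ^ 2 = 0 →
  ‖herm (vec p) ((a, e1 b, rho i) : V 1) +
      ((hgt p + ‖p.2 0 - (rho i)⁻¹ * b‖ ^ 2) / 2) • star (rho i)‖ ^ 2 =
    ‖herm (vec p) ((a, e1 b, rho i) : V 1)‖ ^ 2 -
      (rN i : ℝ) * (hgt p + ‖p.2 0 - (rho i)⁻¹ * b‖ ^ 2) ^ 2 / 4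

def ST_FIB1 : Prop := ∀ p ∈ SD 1, ∀ b ∈ HO,
  ∑' a : FibA 0 b, F5 (uval (((a : Q), e1 b, rho 0) : V 1) p) ≤
    ENNReal.ofReal (Psi 1 (Bv 1 (hgt p) (p.2 0) b) / hgt p ^ 2)

/-- type 2; `b = (1 + i) β` -/
def ST_FIB2 : Prop := ∀ p ∈ SD 1, ∀ b ∈ HO,
  (∑' a : FibA 1 (rho 1 * b), F5 (uval (((a : Q), e1 (rho 1 * b), rho 1) : V 1) p) ≤
    ENNReal.ofReal (Psi 2 (Bv 2 (hgt p) (p.2 0) b) / hgt p ^ 2)) ∧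
  (¬ EvN b → FibA 1 b = ∅)

def ST_FIB3 : Prop := ∀ p ∈ SD 1, 1 ≤ hgt p → ∀ b ∈ HO, ∀ i : Fin 7, 2 ≤ i → i ≤ 5 →
  ∑' a : FibA i b, F5 (uval (((a : Q), e1 b, rho i) : V 1) p) ≤
    ENNReal.ofReal (Psi 3 (Bv 3 (hgt p) (p.2 0) ((rho i)⁻¹ * b)) / hgt p ^ 2)

/-- type 4 -/
def ST_N4 : Prop := ∀ p ∈ SD 1, 1 ≤ hgt p →
  ∑' b : HO, ∑' a : FibA 6 (b : Q), F5 (uval (((a : Q), e1 (b : Q), rho 6) : V 1) p) ≤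
    ENNReal.ofReal (1 / (16 * hgt p ^ 2))

/-- decomposition of the sum over the orbit -/
def ST_DEC : Prop := ∀ p ∈ SD 1, 1 ≤ hgt p → ∑' w : Orb MO, F5 (uval w p) ≤
  24 * (F5 (1 / hgt p) + ∑ i : Fin 7, ∑' b : HO, ∑' a : FibA i (b : Q),
    F5 (uval (((a : Q), e1 (b : Q), rho i) : V 1) p))

/-- sums over the positions which are not far from the origin -/
def ST_LST : Prop := ∀ g : ℕ → Q → ENNReal, (∀ β, 4 ≤ ‖β‖ ^ 2 → g 1 β = 0) →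
  (∀ β, 3 ≤ ‖β‖ ^ 2 → g 2 β = 0) → (∀ β, 5 / 3 ≤ ‖β‖ ^ 2 → g 3 β = 0) →
  (∑' b : HO, g 1 b) + (∑' b : HO, g 2 b) + (∑' b : HO, g 3 ((rho 2)⁻¹ * b)) +
    (∑' b : HO, g 3 ((rho 3)⁻¹ * b)) + (∑' b : HO, g 3 ((rho 4)⁻¹ * b)) +
    (∑' b : HO, g 3 ((rho 5)⁻¹ * b)) = (WU.map fun c => g (d32 c 0) (bet c)).sum

/-- positions far from the origin do not contribute -/
def ST_FAR : Prop := ∀ (h : ℝ) (ζ β : Q), 1 ≤ h → ‖ζ‖ ^ 2 ≤ 1 / 2 →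
  (4 ≤ ‖β‖ ^ 2 → Bv 1 h ζ β ≤ 0) ∧ (3 ≤ ‖β‖ ^ 2 → Bv 2 h ζ β ≤ 0) ∧
  (5 / 3 ≤ ‖β‖ ^ 2 → Bv 3 h ζ β ≤ 0)

/-! ## The certificate for the upper bound -/

/-- a leaf -/
def ST_UL : Prop := ∀ (L : List En) (l0 h0 l1 h1 l2 h2 l3 h3 l h : ℕ), (∀ n ∈ L, GoodE n) →
  l0 ≤ h0 → l1 ≤ h1 → l2 ≤ h2 → l3 ≤ h3 → l ≤ h →
  (withB l0 h0 l1 h1 l2 h2 l3 h3 l h fun b => leafU b L) = true →
  ∀ (e : Fin 4 → ℝ) (Y : ℝ), InU l0 h0 l1 h1 l2 h2 l3 h3 l h e Y →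
    SU L e Y ≤ 505 / 100 * (hU e Y / 2 ^ 22) ^ 2

/-- the filter -/
def ST_UF : Prop := ∀ (L : List En) (l0 h0 l1 h1 l2 h2 l3 h3 l h : ℕ) (f : Bx → List En → Bool),
  (∀ n ∈ L, GoodE n) → l0 ≤ h0 → l1 ≤ h1 → l2 ≤ h2 → l3 ≤ h3 → l ≤ h →
  (withB l0 h0 l1 h1 l2 h2 l3 h3 l h fun b => f b (filt b L)) = true →
  ∃ L' : List En, (∀ n ∈ L', GoodE n) ∧ (∃ b, f b L' = true) ∧
    ∀ (e : Fin 4 → ℝ) (Y : ℝ), InU l0 h0 l1 h1 l2 h2 l3 h3 l h e Y → SU L e Y ≤ SU L' e Y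

/-- a box without reduced points -/
def ST_UO : Prop := ∀ z0 z1 z2 z3 l0 h0 l1 h1 l2 h2 l3 h3 l h : ℕ, z0 ≤ 15 → z1 ≤ 15 → z2 ≤ 15 →
  z3 ≤ 15 → outU z0 z1 z2 z3 l0 h0 l1 h1 l2 h2 l3 h3 h = true →
  ∀ (e : Fin 4 → ℝ) (Y : ℝ), InU l0 h0 l1 h1 l2 h2 l3 h3 l h e Y →
    Dom (zE z0 z1 z2 z3 e) → 1 ≤ hU e Y / 2 ^ 22 →
    ¬ RedI (hU e Y / 2 ^ 22) (zE z0 z1 z2 z3 e)

/-- the tree -/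
def ST_UT : Prop := ∀ (z0 z1 z2 z3 : ℕ) (t : TU) (L : List En) (l0 h0 l1 h1 l2 h2 l3 h3 l h : ℕ),
  z0 ≤ 15 → z1 ≤ 15 → z2 ≤ 15 → z3 ≤ 15 → (∀ n ∈ L, GoodE n) →
  l0 ≤ h0 → l1 ≤ h1 → l2 ≤ h2 → l3 ≤ h3 → l ≤ h →
  chkU z0 z1 z2 z3 t L l0 h0 l1 h1 l2 h2 l3 h3 l h = true →
  ∀ (e : Fin 4 → ℝ) (Y : ℝ), InU l0 h0 l1 h1 l2 h2 l3 h3 l h e Y → ConcU z0 z1 z2 z3 L e Y

/-- the check of a box, in terms of the positions -/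
def ST_UB : Prop := ∀ (z0 z1 z2 z3 : ℕ) (t : TU), z0 ≤ 15 → z1 ≤ 15 → z2 ≤ 15 → z3 ≤ 15 →
  chkBoxU z0 z1 z2 z3 WU t = true → ∀ (h : ℝ) (ζ : Q), 1 ≤ h → h ≤ 5 → Dom ζ → RedI h ζ →
  (∃ e : Fin 4 → ℝ, (∀ i, 0 ≤ e i ∧ e i ≤ 128) ∧ zE z0 z1 z2 z3 e = ζ) →
  Psi 3 (5 / 4 * h - 1) + (WU.map fun c => Psi (d32 c 0) (Bv (d32 c 0) h ζ (bet c))).sum ≤
    505 / 100 * h ^ 2

/-! ## Assembly -/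

/-- data of the lower bound -/
def ST_BL : Prop := ∀ z0 ∈ [9, 11, 13, 15], ∀ z1 ∈ [9, 11, 13, 15], ∀ z2 ∈ [9, 11, 13, 15],
  ∀ z3 ∈ [1, 3, 5, 7, 9, 11, 13, 15], (∃ W t, chkBox z0 z1 z2 z3 W t = true) ∨
    out z0 z1 z2 z3 0 128 0 128 0 128 0 128 = true

/-- data of the upper bound -/
def ST_BU : Prop := ∀ z0 ∈ [9, 11, 13, 15], ∀ z1 ∈ [9, 11, 13, 15], ∀ z2 ∈ [9, 11, 13, 15],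
  ∀ z3 ∈ [1, 3, 5, 7, 9, 11, 13, 15], (∃ t, chkBoxU z0 z1 z2 z3 WU t = true) ∨
    out z0 z1 z2 z3 0 128 0 128 0 128 0 128 = true

/-- the lower bound for reduced points -/
def ST_LOWA : Prop := ∀ p : Pt 1, Top p → Dom (p.2 0) → 1 ≤ hgt p →
  ENNReal.ofReal (24 * (4 * Real.pi ^ 2 * (32376 / 10000))) ≤
    ∑' w : Orb MO, ENNReal.ofReal (muP 1 2 1 (1 / uval w p) * psi (1 / uval w p))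

/-- the upper bound for reduced points -/
def ST_UPA : Prop := ∀ p : Pt 1, Top p → Dom (p.2 0) → RedI (hgt p) (p.2 0) → 1 ≤ hgt p →
  ∑' w : Orb MO, ENNReal.ofReal (psi (1 / uval w p)) ≤ ENNReal.ofReal (1227 / 10)

/-- the weights -/
def ST_WTS : Prop := Wts MO 2 1 psi (1227 / 10) 25

end Pool.Agent.Helper10.Qc
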