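import Pool.Agent.Helper10.Qc.L0
import Pool.Agent.Helper10.Qc.L1
import Pool.Agent.Helper10.Qc.L2
import Pool.Agent.Helper10.Qc.L3
import Pool.Agent.Helper10.Qc.L4
import Pool.Agent.Helper10.Qc.L5
import Pool.Agent.Helper10.Qc.L6
import Pool.Agent.Helper10.Qc.L7
import Pool.Agent.Helper10.Qc.L8
import Pool.Agent.Helper10.Qc.L9
import Pool.Agent.Helper10.Qc.L10
import Pool.Agent.Helper10.Qc.Stmts

set_option autoImplicit false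

/-! # Module BL : the data of all boxes -/

namespace Pool.Agent.Helper10.Qc

/-- the boxes which meet the domain -/
def bl_list : List (ℕ × ℕ × ℕ × ℕ) := [
  (9, 9, 9, 7), (9, 9, 9, 9), (9, 9, 11, 7), (9, 9, 11, 9), (9, 11, 9, 7), (9, 11, 9, 9),
  (11, 9, 9, 7), (11, 9, 9, 9), (11, 9, 11, 7), (11, 9, 11, 9), (11, 9, 13, 7), (11, 9, 13, 9),
  (11, 11, 9, 7), (11, 11, 9, 9), (11, 11, 11, 7), (11, 11, 11, 9), (11, 13, 9, 7),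
  (11, 13, 9, 9), (13, 9, 9, 5), (13, 9, 9, 7), (13, 9, 9, 9), (13, 9, 9, 11), (13, 9, 11, 5),
  (13, 9, 11, 7), (13, 9, 11, 9), (13, 9, 11, 11), (13, 9, 13, 7), (13, 9, 13, 9),
  (13, 9, 15, 7), (13, 9, 15, 9), (13, 11, 9, 5), (13, 11, 9, 7), (13, 11, 9, 9),
  (13, 11, 9, 11), (13, 11, 11, 5), (13, 11, 11, 7), (13, 11, 11, 9), (13, 11, 11, 11),
  (13, 11, 13, 7), (13, 11, 13, 9), (13, 13, 9, 7), (13, 13, 9, 9), (13, 13, 11, 7),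
  (13, 13, 11, 9), (13, 15, 9, 7), (13, 15, 9, 9), (15, 9, 9, 5), (15, 9, 9, 7), (15, 9, 9, 9),
  (15, 9, 9, 11), (15, 9, 11, 5), (15, 9, 11, 7), (15, 9, 11, 9), (15, 9, 11, 11),
  (15, 9, 13, 5), (15, 9, 13, 7), (15, 9, 13, 9), (15, 9, 13, 11), (15, 9, 15, 7),
  (15, 9, 15, 9), (15, 11, 9, 5), (15, 11, 9, 7), (15, 11, 9, 9), (15, 11, 9, 11),
  (15, 11, 11, 5), (15, 11, 11, 7), (15, 11, 11, 9), (15, 11, 11, 11), (15, 11, 13, 5),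
  (15, 11, 13, 7), (15, 11, 13, 9), (15, 11, 13, 11), (15, 11, 15, 7), (15, 11, 15, 9),
  (15, 13, 9, 5), (15, 13, 9, 7), (15, 13, 9, 9), (15, 13, 9, 11), (15, 13, 11, 5),
  (15, 13, 11, 7), (15, 13, 11, 9), (15, 13, 11, 11), (15, 13, 13, 7), (15, 13, 13, 9),
  (15, 15, 9, 7), (15, 15, 9, 9), (15, 15, 11, 7), (15, 15, 11, 9)]

theorem bl_data : ∀ q ∈ bl_list, ∃ W t, chkBox q.1 q.2.1 q.2.2.1 q.2.2.2 W t = true := by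
  unfold bl_list
  refine List.forall_mem_cons.2 ⟨⟨W0, T0, chk0⟩, ?_⟩
  refine List.forall_mem_cons.2 ⟨⟨W1, T1, chk1⟩, ?_⟩
  refine List.forall_mem_cons.2 ⟨⟨W2, T2, chk2⟩, ?_⟩
  refine List.forall_mem_cons.2 ⟨⟨W3, T3, chk3⟩, ?_⟩
  refine List.forall_mem_cons.2 ⟨⟨W4, T4, chk4⟩, ?_⟩
  refine List.forall_mem_cons.2 ⟨⟨W5, T5, chk5⟩, ?_⟩
  refine List.forall_mem_cons.2 ⟨⟨W6, T6, chk6⟩, ?_⟩
  refine List.forall_mem_cons.2 ⟨⟨W7, T7, chk7⟩, ?_⟩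
  refine List.forall_mem_cons.2 ⟨⟨W8, T8, chk8⟩, ?_⟩
  refine List.forall_mem_cons.2 ⟨⟨W9, T9, chk9⟩, ?_⟩
  refine List.forall_mem_cons.2 ⟨⟨W10, T10, chk10⟩, ?_⟩
  refine List.forall_mem_cons.2 ⟨⟨W11, T11, chk11⟩, ?_⟩
  refine List.forall_mem_cons.2 ⟨⟨W12, T12, chk12⟩, ?_⟩
  refine List.forall_mem_cons.2 ⟨⟨W13, T13, chk13⟩, ?_⟩
  refine List.forall_mem_cons.2 ⟨⟨W14, T14, chk14⟩, ?_⟩
  refine List.forall_mem_cons.2 ⟨⟨W15, T15, chk15⟩, ?_⟩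
  refine List.forall_mem_cons.2 ⟨⟨W16, T16, chk16⟩, ?_⟩
  refine List.forall_mem_cons.2 ⟨⟨W17, T17, chk17⟩, ?_⟩
  refine List.forall_mem_cons.2 ⟨⟨W18, T18, chk18⟩, ?_⟩
  refine List.forall_mem_cons.2 ⟨⟨W19, T19, chk19⟩, ?_⟩
  refine List.forall_mem_cons.2 ⟨⟨W20, T20, chk20⟩, ?_⟩
  refine List.forall_mem_cons.2 ⟨⟨W21, T21, chk21⟩, ?_⟩
  refine List.forall_mem_cons.2 ⟨⟨W22, T22, chk22⟩, ?_⟩
  refine List.forall_mem_cons.2 ⟨⟨W23, T23, chk23⟩, ?_⟩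
  refine List.forall_mem_cons.2 ⟨⟨W24, T24, chk24⟩, ?_⟩
  refine List.forall_mem_cons.2 ⟨⟨W25, T25, chk25⟩, ?_⟩
  refine List.forall_mem_cons.2 ⟨⟨W26, T26, chk26⟩, ?_⟩
  refine List.forall_mem_cons.2 ⟨⟨W27, T27, chk27⟩, ?_⟩
  refine List.forall_mem_cons.2 ⟨⟨W28, T28, chk28⟩, ?_⟩
  refine List.forall_mem_cons.2 ⟨⟨W29, T29, chk29⟩, ?_⟩
  refine List.forall_mem_cons.2 ⟨⟨W30, T30, chk30⟩, ?_⟩
  refine List.forall_mem_cons.2 ⟨⟨W31, T31, chk31⟩, ?_⟩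
  refine List.forall_mem_cons.2 ⟨⟨W32, T32, chk32⟩, ?_⟩
  refine List.forall_mem_cons.2 ⟨⟨W33, T33, chk33⟩, ?_⟩
  refine List.forall_mem_cons.2 ⟨⟨W34, T34, chk34⟩, ?_⟩
  refine List.forall_mem_cons.2 ⟨⟨W35, T35, chk35⟩, ?_⟩
  refine List.forall_mem_cons.2 ⟨⟨W36, T36, chk36⟩, ?_⟩
  refine List.forall_mem_cons.2 ⟨⟨W37, T37, chk37⟩, ?_⟩
  refine List.forall_mem_cons.2 ⟨⟨W38, T38, chk38⟩, ?_⟩
  refine List.forall_mem_cons.2 ⟨⟨W39, T39, chk39⟩, ?_⟩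
  refine List.forall_mem_cons.2 ⟨⟨W40, T40, chk40⟩, ?_⟩
  refine List.forall_mem_cons.2 ⟨⟨W41, T41, chk41⟩, ?_⟩
  refine List.forall_mem_cons.2 ⟨⟨W42, T42, chk42⟩, ?_⟩
  refine List.forall_mem_cons.2 ⟨⟨W43, T43, chk43⟩, ?_⟩
  refine List.forall_mem_cons.2 ⟨⟨W44, T44, chk44⟩, ?_⟩
  refine List.forall_mem_cons.2 ⟨⟨W45, T45, chk45⟩, ?_⟩
  refine List.forall_mem_cons.2 ⟨⟨W46, T46, chk46⟩, ?_⟩
  refine List.forall_mem_cons.2 ⟨⟨W47, T47, chk47⟩, ?_⟩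
  refine List.forall_mem_cons.2 ⟨⟨W48, T48, chk48⟩, ?_⟩
  refine List.forall_mem_cons.2 ⟨⟨W49, T49, chk49⟩, ?_⟩
  refine List.forall_mem_cons.2 ⟨⟨W50, T50, chk50⟩, ?_⟩
  refine List.forall_mem_cons.2 ⟨⟨W51, T51, chk51⟩, ?_⟩
  refine List.forall_mem_cons.2 ⟨⟨W52, T52, chk52⟩, ?_⟩
  refine List.forall_mem_cons.2 ⟨⟨W53, T53, chk53⟩, ?_⟩
  refine List.forall_mem_cons.2 ⟨⟨W54, T54, chk54⟩, ?_⟩
  refine List.forall_mem_cons.2 ⟨⟨W55, T55, chk55⟩, ?_⟩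
  refine List.forall_mem_cons.2 ⟨⟨W56, T56, chk56⟩, ?_⟩
  refine List.forall_mem_cons.2 ⟨⟨W57, T57, chk57⟩, ?_⟩
  refine List.forall_mem_cons.2 ⟨⟨W58, T58, chk58⟩, ?_⟩
  refine List.forall_mem_cons.2 ⟨⟨W59, T59, chk59⟩, ?_⟩
  refine List.forall_mem_cons.2 ⟨⟨W60, T60, chk60⟩, ?_⟩
  refine List.forall_mem_cons.2 ⟨⟨W61, T61, chk61⟩, ?_⟩
  refine List.forall_mem_cons.2 ⟨⟨W62, T62, chk62⟩, ?_⟩
  refine List.forall_mem_cons.2 ⟨⟨W63, T63, chk63⟩, ?_⟩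
  refine List.forall_mem_cons.2 ⟨⟨W64, T64, chk64⟩, ?_⟩
  refine List.forall_mem_cons.2 ⟨⟨W65, T65, chk65⟩, ?_⟩
  refine List.forall_mem_cons.2 ⟨⟨W66, T66, chk66⟩, ?_⟩
  refine List.forall_mem_cons.2 ⟨⟨W67, T67, chk67⟩, ?_⟩
  refine List.forall_mem_cons.2 ⟨⟨W68, T68, chk68⟩, ?_⟩
  refine List.forall_mem_cons.2 ⟨⟨W69, T69, chk69⟩, ?_⟩
  refine List.forall_mem_cons.2 ⟨⟨W70, T70, chk70⟩, ?_⟩
  refine List.forall_mem_cons.2 ⟨⟨W71, T71, chk71⟩, ?_⟩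
  refine List.forall_mem_cons.2 ⟨⟨W72, T72, chk72⟩, ?_⟩
  refine List.forall_mem_cons.2 ⟨⟨W73, T73, chk73⟩, ?_⟩
  refine List.forall_mem_cons.2 ⟨⟨W74, T74, chk74⟩, ?_⟩
  refine List.forall_mem_cons.2 ⟨⟨W75, T75, chk75⟩, ?_⟩
  refine List.forall_mem_cons.2 ⟨⟨W76, T76, chk76⟩, ?_⟩
  refine List.forall_mem_cons.2 ⟨⟨W77, T77, chk77⟩, ?_⟩
  refine List.forall_mem_cons.2 ⟨⟨W78, T78, chk78⟩, ?_⟩
  refine List.forall_mem_cons.2 ⟨⟨W79, T79, chk79⟩, ?_⟩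
  refine List.forall_mem_cons.2 ⟨⟨W80, T80, chk80⟩, ?_⟩
  refine List.forall_mem_cons.2 ⟨⟨W81, T81, chk81⟩, ?_⟩
  refine List.forall_mem_cons.2 ⟨⟨W82, T82, chk82⟩, ?_⟩
  refine List.forall_mem_cons.2 ⟨⟨W83, T83, chk83⟩, ?_⟩
  refine List.forall_mem_cons.2 ⟨⟨W84, T84, chk84⟩, ?_⟩
  refine List.forall_mem_cons.2 ⟨⟨W85, T85, chk85⟩, ?_⟩
  refine List.forall_mem_cons.2 ⟨⟨W86, T86, chk86⟩, ?_⟩
  refine List.forall_mem_cons.2 ⟨⟨W87, T87, chk87⟩, ?_⟩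
  intro q hq
  exact absurd hq List.not_mem_nil

theorem bl_grid : ∀ z0 ∈ [9, 11, 13, 15], ∀ z1 ∈ [9, 11, 13, 15], ∀ z2 ∈ [9, 11, 13, 15],
  ∀ z3 ∈ [1, 3, 5, 7, 9, 11, 13, 15], (z0, z1, z2, z3) ∈ bl_list ∨
    out z0 z1 z2 z3 0 128 0 128 0 128 0 128 = true := by decide +kernel

theorem st_BL : ST_BL := by
  intro z0 h0 z1 h1 z2 h2 z3 h3
  rcases bl_grid z0 h0 z1 h1 z2 h2 z3 h3 with h | h
  · exact Or.inl (bl_data _ h)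
  · exact Or.inr h

end Pool.Agent.Helper10.Qc
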