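import Pool.Agent.Helper10.Qc.WU

set_option autoImplicit false

/-! # Certificates for the upper bound: boxes 11 to 21 -/

namespace Pool.Agent.Helper10.Qc

/-- subdivision tree of the box 11 -/
def TU11 : TU :=
  .s 4 (.f (.s 4 (.f (.s 4 (.s 4 (.s 1 (.s 3 (.f (.s 2 (.s 0 (.o)
  (.s 4 (.s 4 (.o)
  (.s 1 (.s 3 (.s 0 (.o)
  (.l))
  (.o))
  (.o)))
  (.l)))
  (.o)))
  (.o))
  (.o))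
  (.f (.s 4 (.s 0 (.o)
  (.l))
  (.l))))
  (.f (.l))))
  (.f (.l))))
  (.f (.s 4 (.l)
  (.f (.l))))

theorem chkU11 : chkBoxU 11 9 13 9 WU TU11 = true := by decide +kernel

/-- subdivision tree of the box 12 -/
def TU12 : TU :=
  .s 4 (.f (.s 4 (.f (.s 4 (.s 4 (.s 4 (.s 2 (.s 3 (.f (.s 1 (.s 0 (.o)
  (.s 4 (.o)
  (.s 3 (.o)
  (.s 1 (.l)
  (.o)))))
  (.o)))
  (.s 0 (.f (.s 1 (.s 4 (.o)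
  (.s 0 (.l)
  (.l)))
  (.s 4 (.o)
  (.s 1 (.s 0 (.o)
  (.l))
  (.o)))))
  (.f (.s 1 (.s 4 (.o)
  (.s 0 (.s 0 (.l)
  (.l))
  (.s 1 (.o)
  (.o))))
  (.s 4 (.o)
  (.s 0 (.s 1 (.o)
  (.o))
  (.s 0 (.o)
  (.o))))))))
  (.s 0 (.f (.s 3 (.o)
  (.s 1 (.s 4 (.o)
  (.s 2 (.s 0 (.o)
  (.l))
  (.o)))
  (.o))))
  (.f (.s 3 (.s 1 (.s 4 (.o)
  (.s 2 (.s 3 (.o)
  (.s 0 (.o)
  (.l)))
  (.o)))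
  (.o))
  (.s 1 (.s 4 (.o)
  (.s 2 (.s 1 (.l)
  (.l))
  (.s 0 (.l)
  (.s 0 (.o)
  (.o)))))
  (.s 4 (.o)
  (.s 2 (.s 1 (.s 0 (.o)
  (.o))
  (.o))
  (.o))))))))
  (.f (.s 2 (.s 3 (.s 1 (.s 0 (.o)
  (.l))
  (.o))
  (.s 0 (.s 0 (.l)
  (.l))
  (.s 0 (.l)
  (.l))))
  (.s 3 (.s 1 (.s 0 (.o)
  (.l))
  (.o))
  (.s 0 (.s 0 (.o)
  (.l))
  (.s 1 (.l)
  (.l)))))))
  (.f (.s 4 (.s 0 (.l)
  (.l))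
  (.l))))
  (.f (.l))))
  (.f (.l))))
  (.f (.s 4 (.l)
  (.f (.l))))

theorem chkU12 : chkBoxU 11 11 9 7 WU TU12 = true := by decide +kernel

/-- subdivision tree of the box 13 -/
def TU13 : TU :=
  .s 4 (.f (.s 4 (.f (.s 4 (.s 4 (.s 4 (.s 2 (.s 3 (.s 0 (.f (.s 1 (.s 4 (.o)
  (.s 0 (.l)
  (.l)))
  (.s 4 (.o)
  (.s 1 (.s 0 (.o)
  (.l))
  (.o)))))
  (.f (.s 1 (.s 4 (.o)
  (.s 0 (.s 0 (.l)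
  (.l))
  (.s 1 (.o)
  (.o))))
  (.s 4 (.o)
  (.s 0 (.s 1 (.o)
  (.o))
  (.s 0 (.o)
  (.o)))))))
  (.f (.s 1 (.s 0 (.o)
  (.s 4 (.o)
  (.s 3 (.s 1 (.l)
  (.o))
  (.o))))
  (.o))))
  (.s 0 (.f (.s 3 (.s 1 (.s 4 (.o)
  (.s 2 (.s 0 (.o)
  (.l))
  (.o)))
  (.o))
  (.o)))
  (.f (.s 3 (.s 1 (.s 4 (.o)
  (.s 2 (.s 1 (.l)
  (.l))
  (.s 0 (.l)
  (.s 0 (.o)
  (.o)))))
  (.s 4 (.o)
  (.s 2 (.s 1 (.s 0 (.o)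
  (.o))
  (.o))
  (.o))))
  (.s 1 (.s 4 (.o)
  (.s 2 (.s 3 (.s 0 (.o)
  (.l))
  (.o))
  (.o)))
  (.o))))))
  (.f (.s 2 (.s 3 (.s 0 (.s 0 (.l)
  (.l))
  (.s 0 (.l)
  (.l)))
  (.s 1 (.s 0 (.o)
  (.l))
  (.o)))
  (.s 3 (.s 0 (.s 0 (.o)
  (.l))
  (.s 1 (.l)
  (.l)))
  (.s 1 (.s 0 (.o)
  (.l))
  (.o))))))
  (.f (.s 4 (.s 0 (.l)
  (.l))
  (.l))))
  (.f (.l))))
  (.f (.l))))
  (.f (.s 4 (.l)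
  (.f (.l))))

theorem chkU13 : chkBoxU 11 11 9 9 WU TU13 = true := by decide +kernel

/-- subdivision tree of the box 14 -/
def TU14 : TU :=
  .s 4 (.f (.s 4 (.f (.s 4 (.s 4 (.s 3 (.o)
  (.s 1 (.s 2 (.f (.s 0 (.o)
  (.s 4 (.s 4 (.o)
  (.s 1 (.s 2 (.s 0 (.o)
  (.o))
  (.o))
  (.o)))
  (.l))))
  (.o))
  (.o)))
  (.f (.s 4 (.s 0 (.o)
  (.l))
  (.l))))
  (.f (.l))))
  (.f (.l))))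
  (.f (.s 4 (.l)
  (.f (.l))))

theorem chkU14 : chkBoxU 11 11 11 7 WU TU14 = true := by decide +kernel

/-- subdivision tree of the box 15 -/
def TU15 : TU :=
  .s 4 (.f (.s 4 (.f (.s 4 (.s 4 (.s 3 (.s 1 (.s 2 (.f (.s 0 (.o)
  (.s 4 (.s 4 (.o)
  (.s 1 (.s 2 (.s 0 (.o)
  (.o))
  (.o))
  (.o)))
  (.l))))
  (.o))
  (.o))
  (.o))
  (.f (.s 4 (.s 0 (.o)
  (.l))
  (.l))))
  (.f (.l))))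
  (.f (.l))))
  (.f (.s 4 (.l)
  (.f (.l))))

theorem chkU15 : chkBoxU 11 11 11 9 WU TU15 = true := by decide +kernel

/-- subdivision tree of the box 16 -/
def TU16 : TU :=
  .s 4 (.f (.s 4 (.f (.s 4 (.s 4 (.s 2 (.s 3 (.o)
  (.f (.s 1 (.s 0 (.o)
  (.s 4 (.s 4 (.o)
  (.s 2 (.s 3 (.o)
  (.s 0 (.o)
  (.l)))
  (.o)))
  (.l)))
  (.o))))
  (.o))
  (.f (.s 4 (.s 0 (.o)
  (.l))
  (.l))))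
  (.f (.l))))
  (.f (.l))))
  (.f (.s 4 (.l)
  (.f (.l))))

theorem chkU16 : chkBoxU 11 13 9 7 WU TU16 = true := by decide +kernel

/-- subdivision tree of the box 17 -/
def TU17 : TU :=
  .s 4 (.f (.s 4 (.f (.s 4 (.s 4 (.s 2 (.s 3 (.f (.s 1 (.s 0 (.o)
  (.s 4 (.s 4 (.o)
  (.s 2 (.s 3 (.s 0 (.o)
  (.l))
  (.o))
  (.o)))
  (.l)))
  (.o)))
  (.o))
  (.o))
  (.f (.s 4 (.s 0 (.o)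
  (.l))
  (.l))))
  (.f (.l))))
  (.f (.l))))
  (.f (.s 4 (.l)
  (.f (.l))))

theorem chkU17 : chkBoxU 11 13 9 9 WU TU17 = true := by decide +kernel

/-- subdivision tree of the box 18 -/
def TU18 : TU :=
  .s 4 (.f (.s 4 (.f (.s 4 (.s 4 (.s 3 (.o)
  (.s 1 (.o)
  (.f (.s 2 (.o)
  (.s 0 (.o)
  (.s 4 (.s 4 (.o)
  (.s 0 (.o)
  (.s 3 (.o)
  (.o))))
  (.l)))))))
  (.f (.s 4 (.s 0 (.o)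
  (.l))
  (.l))))
  (.f (.l))))
  (.f (.l))))
  (.f (.s 4 (.l)
  (.f (.l))))

theorem chkU18 : chkBoxU 13 9 9 5 WU TU18 = true := by decide +kernel

/-- subdivision tree of the box 19 -/
def TU19 : TU :=
  .s 4 (.f (.s 4 (.f (.s 4 (.s 4 (.s 4 (.s 1 (.s 2 (.s 3 (.f (.s 3 (.o)
  (.s 1 (.o)
  (.s 2 (.o)
  (.s 0 (.s 0 (.o)
  (.o))
  (.s 0 (.o)
  (.o)))))))
  (.f (.s 0 (.s 0 (.o)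
  (.o))
  (.s 0 (.o)
  (.o)))))
  (.f (.s 0 (.s 3 (.s 4 (.o)
  (.s 3 (.o)
  (.s 0 (.o)
  (.o))))
  (.s 4 (.o)
  (.s 0 (.s 0 (.o)
  (.o))
  (.o))))
  (.s 0 (.s 1 (.o)
  (.o))
  (.o)))))
  (.s 2 (.f (.s 0 (.s 3 (.s 4 (.o)
  (.s 3 (.o)
  (.s 0 (.o)
  (.o))))
  (.s 4 (.o)
  (.s 0 (.s 0 (.o)
  (.o))
  (.o))))
  (.s 0 (.s 1 (.o)
  (.o))
  (.o))))
  (.f (.s 3 (.s 0 (.s 4 (.o)
  (.s 1 (.s 0 (.s 0 (.o)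
  (.o))
  (.o))
  (.s 0 (.o)
  (.o))))
  (.s 0 (.o)
  (.o)))
  (.s 0 (.s 4 (.o)
  (.s 0 (.s 0 (.o)
  (.o))
  (.o)))
  (.s 0 (.o)
  (.o)))))))
  (.f (.s 1 (.s 0 (.s 2 (.s 0 (.l)
  (.l))
  (.s 0 (.l)
  (.l)))
  (.s 2 (.s 1 (.l)
  (.l))
  (.s 3 (.l)
  (.l))))
  (.s 0 (.s 2 (.s 0 (.l)
  (.l))
  (.s 3 (.l)
  (.l)))
  (.s 2 (.s 3 (.l)
  (.l))
  (.s 3 (.l)
  (.l)))))))
  (.f (.s 4 (.s 0 (.l)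
  (.l))
  (.l))))
  (.f (.l))))
  (.f (.l))))
  (.f (.s 4 (.l)
  (.f (.l))))

theorem chkU19 : chkBoxU 13 9 9 7 WU TU19 = true := by decide +kernel

/-- subdivision tree of the box 20 -/
def TU20 : TU :=
  .s 4 (.f (.s 4 (.f (.s 4 (.s 4 (.s 4 (.s 1 (.s 2 (.s 3 (.f (.s 0 (.s 0 (.o)
  (.o))
  (.s 0 (.o)
  (.o))))
  (.f (.s 3 (.s 1 (.o)
  (.s 2 (.o)
  (.s 0 (.s 0 (.o)
  (.o))
  (.s 0 (.o)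
  (.o)))))
  (.o))))
  (.f (.s 0 (.s 3 (.s 4 (.o)
  (.s 0 (.s 0 (.o)
  (.o))
  (.o)))
  (.s 4 (.o)
  (.s 3 (.s 0 (.o)
  (.o))
  (.o))))
  (.s 0 (.s 1 (.o)
  (.o))
  (.o)))))
  (.s 2 (.f (.s 0 (.s 3 (.s 4 (.o)
  (.s 0 (.s 0 (.o)
  (.o))
  (.o)))
  (.s 4 (.o)
  (.s 3 (.s 0 (.o)
  (.o))
  (.o))))
  (.s 0 (.s 1 (.o)
  (.o))
  (.o))))
  (.f (.s 3 (.s 0 (.s 4 (.o)
  (.s 0 (.s 0 (.o)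
  (.o))
  (.o)))
  (.s 0 (.o)
  (.o)))
  (.s 0 (.s 4 (.o)
  (.s 1 (.s 0 (.s 0 (.o)
  (.o))
  (.o))
  (.s 0 (.o)
  (.o))))
  (.s 0 (.o)
  (.o)))))))
  (.f (.s 1 (.s 0 (.s 2 (.s 0 (.l)
  (.l))
  (.s 0 (.l)
  (.l)))
  (.s 2 (.s 1 (.l)
  (.l))
  (.s 3 (.l)
  (.l))))
  (.s 0 (.s 2 (.s 0 (.l)
  (.l))
  (.s 3 (.l)
  (.l)))
  (.s 2 (.s 3 (.l)
  (.l))
  (.s 3 (.l)
  (.l)))))))
  (.f (.s 4 (.s 0 (.l)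
  (.l))
  (.l))))
  (.f (.l))))
  (.f (.l))))
  (.f (.s 4 (.l)
  (.f (.l))))

theorem chkU20 : chkBoxU 13 9 9 9 WU TU20 = true := by decide +kernel

/-- subdivision tree of the box 21 -/
def TU21 : TU :=
  .s 4 (.f (.s 4 (.f (.s 4 (.s 4 (.s 3 (.s 1 (.o)
  (.f (.s 2 (.o)
  (.s 0 (.o)
  (.s 4 (.s 4 (.o)
  (.s 0 (.o)
  (.s 3 (.o)
  (.o))))
  (.l))))))
  (.o))
  (.f (.s 4 (.s 0 (.o)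
  (.l))
  (.l))))
  (.f (.l))))
  (.f (.l))))
  (.f (.s 4 (.l)
  (.f (.l))))

theorem chkU21 : chkBoxU 13 9 9 11 WU TU21 = true := by decide +kernel

end Pool.Agent.Helper10.Qc
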