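import Pool.Agent.Helper10.Qc.WU

set_option autoImplicit false

/-! # Certificates for the upper bound: boxes 22 to 32 -/

namespace Pool.Agent.Helper10.Qc

/-- subdivision tree of the box 22 -/
def TU22 : TU :=
  .s 4 (.f (.s 4 (.f (.s 4 (.s 4 (.s 2 (.s 1 (.o)
  (.f (.s 3 (.o)
  (.s 0 (.o)
  (.s 4 (.s 4 (.o)
  (.s 1 (.o)
  (.s 0 (.o)
  (.s 2 (.s 0 (.o)
  (.o))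
  (.o)))))
  (.l))))))
  (.o))
  (.f (.s 4 (.s 0 (.o)
  (.l))
  (.l))))
  (.f (.l))))
  (.f (.l))))
  (.f (.s 4 (.l)
  (.f (.l))))

theorem chkU22 : chkBoxU 13 9 11 5 WU TU22 = true := by decide +kernel

/-- subdivision tree of the box 23 -/
def TU23 : TU :=
  .s 4 (.f (.s 4 (.f (.s 4 (.s 4 (.s 4 (.s 1 (.f (.s 3 (.s 3 (.o)
  (.s 1 (.o)
  (.s 0 (.s 2 (.s 4 (.o)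
  (.s 0 (.l)
  (.l)))
  (.s 4 (.o)
  (.s 0 (.o)
  (.l))))
  (.s 2 (.s 4 (.o)
  (.s 0 (.l)
  (.l)))
  (.s 4 (.o)
  (.s 0 (.l)
  (.l)))))))
  (.s 0 (.s 2 (.s 4 (.o)
  (.s 2 (.s 0 (.o)
  (.o))
  (.s 0 (.o)
  (.o))))
  (.s 4 (.o)
  (.s 2 (.s 0 (.o)
  (.o))
  (.s 0 (.o)
  (.o)))))
  (.s 2 (.s 4 (.o)
  (.s 2 (.s 0 (.o)
  (.o))
  (.s 0 (.o)
  (.o))))
  (.s 4 (.o)
  (.s 0 (.s 0 (.o)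
  (.o))
  (.s 0 (.o)
  (.o))))))))
  (.f (.s 2 (.s 3 (.s 0 (.s 4 (.o)
  (.s 1 (.s 3 (.s 0 (.o)
  (.l))
  (.s 0 (.l)
  (.l)))
  (.s 3 (.s 0 (.o)
  (.s 0 (.o)
  (.o)))
  (.s 0 (.l)
  (.l)))))
  (.s 4 (.o)
  (.s 1 (.s 0 (.s 0 (.o)
  (.o))
  (.s 0 (.o)
  (.o)))
  (.s 3 (.s 0 (.s 0 (.o)
  (.o))
  (.s 0 (.o)
  (.o)))
  (.s 0 (.l)
  (.s 0 (.o)
  (.o)))))))
  (.s 0 (.s 4 (.o)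
  (.s 1 (.s 2 (.s 0 (.o)
  (.o))
  (.s 0 (.o)
  (.o)))
  (.s 2 (.s 0 (.o)
  (.o))
  (.s 0 (.o)
  (.o)))))
  (.s 4 (.o)
  (.s 2 (.s 0 (.o)
  (.o))
  (.s 0 (.o)
  (.o))))))
  (.s 3 (.s 0 (.s 4 (.o)
  (.s 1 (.s 3 (.o)
  (.s 0 (.o)
  (.l)))
  (.o)))
  (.s 4 (.o)
  (.s 1 (.s 3 (.s 2 (.l)
  (.o))
  (.s 0 (.l)
  (.l)))
  (.s 3 (.s 2 (.s 0 (.o)
  (.o))
  (.o))
  (.s 2 (.l)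
  (.s 0 (.o)
  (.o)))))))
  (.s 0 (.s 4 (.o)
  (.s 1 (.s 2 (.s 0 (.o)
  (.o))
  (.s 0 (.o)
  (.o)))
  (.s 2 (.s 0 (.o)
  (.o))
  (.s 0 (.o)
  (.o)))))
  (.s 4 (.o)
  (.s 1 (.s 2 (.s 0 (.o)
  (.o))
  (.s 0 (.o)
  (.o)))
  (.s 2 (.s 0 (.o)
  (.o))
  (.s 0 (.o)
  (.o))))))))))
  (.f (.s 1 (.s 2 (.s 0 (.s 2 (.l)
  (.l))
  (.s 3 (.l)
  (.l)))
  (.s 0 (.s 3 (.l)
  (.l))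
  (.s 3 (.l)
  (.l))))
  (.s 0 (.s 3 (.s 2 (.l)
  (.l))
  (.s 2 (.l)
  (.l)))
  (.s 3 (.s 2 (.l)
  (.l))
  (.s 2 (.l)
  (.l)))))))
  (.f (.s 4 (.s 0 (.l)
  (.l))
  (.l))))
  (.f (.l))))
  (.f (.l))))
  (.f (.s 4 (.l)
  (.f (.l))))

theorem chkU23 : chkBoxU 13 9 11 7 WU TU23 = true := by decide +kernel

/-- subdivision tree of the box 24 -/
def TU24 : TU :=
  .s 4 (.f (.s 4 (.f (.s 4 (.s 4 (.s 4 (.s 1 (.f (.s 3 (.s 0 (.s 2 (.s 4 (.o)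
  (.s 2 (.s 0 (.o)
  (.o))
  (.s 0 (.o)
  (.o))))
  (.s 4 (.o)
  (.s 2 (.s 0 (.o)
  (.o))
  (.s 0 (.o)
  (.o)))))
  (.s 2 (.s 4 (.o)
  (.s 2 (.s 0 (.o)
  (.o))
  (.s 0 (.o)
  (.o))))
  (.s 4 (.o)
  (.s 0 (.s 0 (.o)
  (.o))
  (.s 0 (.o)
  (.o))))))
  (.s 3 (.s 1 (.o)
  (.s 0 (.s 2 (.s 4 (.o)
  (.s 0 (.l)
  (.l)))
  (.s 4 (.o)
  (.s 0 (.o)
  (.l))))
  (.s 2 (.s 4 (.o)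
  (.s 0 (.l)
  (.l)))
  (.s 4 (.o)
  (.s 0 (.l)
  (.l))))))
  (.o))))
  (.f (.s 2 (.s 3 (.s 0 (.s 4 (.o)
  (.s 1 (.s 2 (.s 0 (.o)
  (.o))
  (.s 0 (.o)
  (.o)))
  (.s 2 (.s 0 (.o)
  (.o))
  (.s 0 (.o)
  (.o)))))
  (.s 4 (.o)
  (.s 2 (.s 0 (.o)
  (.o))
  (.s 0 (.o)
  (.o)))))
  (.s 0 (.s 4 (.o)
  (.s 1 (.s 3 (.s 0 (.l)
  (.l))
  (.s 0 (.o)
  (.l)))
  (.s 3 (.s 0 (.l)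
  (.l))
  (.s 0 (.o)
  (.s 0 (.o)
  (.o))))))
  (.s 4 (.o)
  (.s 1 (.s 0 (.s 0 (.o)
  (.o))
  (.s 0 (.o)
  (.o)))
  (.s 3 (.s 0 (.l)
  (.s 0 (.o)
  (.o)))
  (.s 0 (.s 0 (.o)
  (.o))
  (.s 0 (.o)
  (.o))))))))
  (.s 3 (.s 0 (.s 4 (.o)
  (.s 1 (.s 2 (.s 0 (.o)
  (.o))
  (.s 0 (.o)
  (.o)))
  (.s 2 (.s 0 (.o)
  (.o))
  (.s 0 (.o)
  (.o)))))
  (.s 4 (.o)
  (.s 1 (.s 2 (.s 0 (.o)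
  (.o))
  (.s 0 (.o)
  (.o)))
  (.s 2 (.s 0 (.o)
  (.o))
  (.s 0 (.o)
  (.o))))))
  (.s 0 (.s 4 (.o)
  (.s 1 (.s 3 (.s 0 (.o)
  (.l))
  (.o))
  (.o)))
  (.s 4 (.o)
  (.s 1 (.s 3 (.s 0 (.l)
  (.l))
  (.s 2 (.l)
  (.o)))
  (.s 3 (.s 2 (.l)
  (.s 0 (.o)
  (.o)))
  (.s 2 (.s 0 (.o)
  (.o))
  (.o))))))))))
  (.f (.s 1 (.s 2 (.s 0 (.s 2 (.l)
  (.l))
  (.s 3 (.l)
  (.l)))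
  (.s 0 (.s 3 (.l)
  (.l))
  (.s 3 (.l)
  (.l))))
  (.s 0 (.s 3 (.s 2 (.l)
  (.l))
  (.s 2 (.l)
  (.l)))
  (.s 3 (.s 2 (.l)
  (.l))
  (.s 2 (.l)
  (.l)))))))
  (.f (.s 4 (.s 0 (.l)
  (.l))
  (.l))))
  (.f (.l))))
  (.f (.l))))
  (.f (.s 4 (.l)
  (.f (.l))))

theorem chkU24 : chkBoxU 13 9 11 9 WU TU24 = true := by decide +kernel

/-- subdivision tree of the box 25 -/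
def TU25 : TU :=
  .s 4 (.f (.s 4 (.f (.s 4 (.s 4 (.s 2 (.s 1 (.o)
  (.f (.s 3 (.s 0 (.o)
  (.s 4 (.s 4 (.o)
  (.s 1 (.o)
  (.s 0 (.o)
  (.s 2 (.s 0 (.o)
  (.o))
  (.o)))))
  (.l)))
  (.o))))
  (.o))
  (.f (.s 4 (.s 0 (.o)
  (.l))
  (.l))))
  (.f (.l))))
  (.f (.l))))
  (.f (.s 4 (.l)
  (.f (.l))))

theorem chkU25 : chkBoxU 13 9 11 11 WU TU25 = true := by decide +kernel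

/-- subdivision tree of the box 26 -/
def TU26 : TU :=
  .s 4 (.f (.s 4 (.s 4 (.f (.s 4 (.s 4 (.s 0 (.s 3 (.o)
  (.s 1 (.s 2 (.s 4 (.o)
  (.s 0 (.s 2 (.o)
  (.o))
  (.s 1 (.l)
  (.l))))
  (.s 4 (.o)
  (.s 2 (.s 0 (.o)
  (.l))
  (.o))))
  (.s 2 (.s 4 (.o)
  (.s 1 (.s 0 (.o)
  (.s 0 (.o)
  (.f (.l))))
  (.o)))
  (.o))))
  (.s 2 (.s 1 (.s 3 (.s 4 (.o)
  (.s 3 (.o)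
  (.s 1 (.o)
  (.f (.s 0 (.o)
  (.l))))))
  (.s 4 (.o)
  (.s 2 (.s 0 (.s 0 (.o)
  (.o))
  (.s 0 (.o)
  (.o)))
  (.s 0 (.l)
  (.s 0 (.l)
  (.l))))))
  (.s 3 (.s 4 (.o)
  (.s 1 (.s 3 (.o)
  (.f (.s 0 (.o)
  (.l))))
  (.o)))
  (.s 4 (.o)
  (.s 1 (.s 0 (.f (.s 0 (.l)
  (.l)))
  (.f (.s 2 (.l)
  (.l))))
  (.s 2 (.f (.s 0 (.l)
  (.s 0 (.o)
  (.o))))
  (.f (.s 0 (.o)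
  (.l))))))))
  (.s 3 (.o)
  (.s 1 (.s 4 (.o)
  (.s 0 (.s 3 (.o)
  (.f (.s 1 (.l)
  (.l))))
  (.s 2 (.s 1 (.f (.l))
  (.l))
  (.s 3 (.o)
  (.s 1 (.l)
  (.f (.l)))))))
  (.s 4 (.o)
  (.s 2 (.s 1 (.s 0 (.o)
  (.l))
  (.o))
  (.o)))))))
  (.s 1 (.s 3 (.s 0 (.o)
  (.s 2 (.f (.l))
  (.o)))
  (.s 0 (.s 0 (.l)
  (.l))
  (.s 2 (.l)
  (.l))))
  (.s 3 (.s 0 (.o)
  (.s 2 (.f (.l))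
  (.o)))
  (.s 0 (.s 2 (.f (.l))
  (.o))
  (.s 2 (.f (.l))
  (.l))))))
  (.s 4 (.s 0 (.l)
  (.l))
  (.f (.l)))))
  (.f (.l)))
  (.f (.l))))
  (.f (.s 4 (.l)
  (.f (.l))))

theorem chkU26 : chkBoxU 13 9 13 7 WU TU26 = true := by decide +kernel

/-- subdivision tree of the box 27 -/
def TU27 : TU :=
  .s 4 (.f (.s 4 (.s 4 (.f (.s 4 (.s 4 (.s 0 (.s 3 (.s 1 (.s 2 (.s 4 (.o)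
  (.s 0 (.s 2 (.o)
  (.o))
  (.s 1 (.l)
  (.l))))
  (.s 4 (.o)
  (.s 2 (.s 0 (.o)
  (.l))
  (.o))))
  (.s 2 (.s 4 (.o)
  (.s 1 (.s 0 (.o)
  (.s 0 (.o)
  (.f (.l))))
  (.o)))
  (.o)))
  (.o))
  (.s 2 (.s 1 (.s 3 (.s 4 (.o)
  (.s 2 (.s 0 (.s 0 (.o)
  (.o))
  (.s 0 (.o)
  (.o)))
  (.s 0 (.l)
  (.s 0 (.l)
  (.l)))))
  (.s 4 (.o)
  (.s 3 (.s 1 (.o)
  (.f (.s 0 (.o)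
  (.l))))
  (.o))))
  (.s 3 (.s 4 (.o)
  (.s 1 (.s 0 (.f (.s 0 (.l)
  (.l)))
  (.f (.s 2 (.l)
  (.l))))
  (.s 2 (.f (.s 0 (.l)
  (.s 0 (.o)
  (.o))))
  (.f (.s 0 (.o)
  (.l))))))
  (.s 4 (.o)
  (.s 1 (.s 3 (.f (.s 0 (.o)
  (.l)))
  (.o))
  (.o)))))
  (.s 3 (.s 1 (.s 4 (.o)
  (.s 0 (.s 3 (.f (.s 1 (.l)
  (.l)))
  (.o))
  (.s 2 (.s 1 (.f (.l))
  (.l))
  (.s 3 (.s 1 (.l)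
  (.f (.l)))
  (.o)))))
  (.s 4 (.o)
  (.s 2 (.s 1 (.s 0 (.o)
  (.l))
  (.o))
  (.o))))
  (.o))))
  (.s 1 (.s 3 (.s 0 (.s 0 (.l)
  (.l))
  (.s 2 (.l)
  (.l)))
  (.s 0 (.o)
  (.s 2 (.f (.l))
  (.o))))
  (.s 3 (.s 0 (.s 2 (.f (.l))
  (.o))
  (.s 2 (.f (.l))
  (.l)))
  (.s 0 (.o)
  (.s 2 (.f (.l))
  (.o))))))
  (.s 4 (.s 0 (.l)
  (.l))
  (.f (.l)))))
  (.f (.l)))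
  (.f (.l))))
  (.f (.s 4 (.l)
  (.f (.l))))

theorem chkU27 : chkBoxU 13 9 13 9 WU TU27 = true := by decide +kernel

/-- subdivision tree of the box 28 -/
def TU28 : TU :=
  .s 4 (.f (.s 4 (.s 4 (.f (.s 4 (.s 0 (.o)
  (.s 2 (.s 1 (.s 3 (.o)
  (.s 4 (.s 2 (.s 4 (.o)
  (.s 1 (.s 3 (.o)
  (.s 0 (.o)
  (.f (.l))))
  (.o)))
  (.o))
  (.l)))
  (.o))
  (.o)))
  (.s 4 (.s 0 (.o)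
  (.l))
  (.f (.l)))))
  (.f (.l)))
  (.f (.l))))
  (.f (.l))

theorem chkU28 : chkBoxU 13 9 15 7 WU TU28 = true := by decide +kernel

/-- subdivision tree of the box 29 -/
def TU29 : TU :=
  .s 4 (.f (.s 4 (.s 4 (.f (.s 4 (.s 0 (.o)
  (.s 2 (.s 1 (.s 3 (.s 4 (.s 2 (.s 4 (.o)
  (.s 1 (.s 3 (.s 0 (.o)
  (.f (.l)))
  (.o))
  (.o)))
  (.o))
  (.l))
  (.o))
  (.o))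
  (.o)))
  (.s 4 (.s 0 (.o)
  (.l))
  (.f (.l)))))
  (.f (.l)))
  (.f (.l))))
  (.f (.l))

theorem chkU29 : chkBoxU 13 9 15 9 WU TU29 = true := by decide +kernel

/-- subdivision tree of the box 30 -/
def TU30 : TU :=
  .s 4 (.f (.s 4 (.f (.s 4 (.s 4 (.s 1 (.s 2 (.o)
  (.f (.s 3 (.o)
  (.s 0 (.o)
  (.s 4 (.s 4 (.o)
  (.s 2 (.o)
  (.s 0 (.o)
  (.s 1 (.s 0 (.o)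
  (.o))
  (.o)))))
  (.l))))))
  (.o))
  (.f (.s 4 (.s 0 (.o)
  (.l))
  (.l))))
  (.f (.l))))
  (.f (.l))))
  (.f (.s 4 (.l)
  (.f (.l))))

theorem chkU30 : chkBoxU 13 11 9 5 WU TU30 = true := by decide +kernel

/-- subdivision tree of the box 31 -/
def TU31 : TU :=
  .s 4 (.f (.s 4 (.f (.s 4 (.s 4 (.s 4 (.s 2 (.f (.s 3 (.s 3 (.o)
  (.s 2 (.o)
  (.s 0 (.s 1 (.s 4 (.o)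
  (.s 0 (.l)
  (.l)))
  (.s 4 (.o)
  (.s 0 (.o)
  (.l))))
  (.s 1 (.s 4 (.o)
  (.s 0 (.l)
  (.l)))
  (.s 4 (.o)
  (.s 0 (.l)
  (.l)))))))
  (.s 0 (.s 1 (.s 4 (.o)
  (.s 1 (.s 0 (.o)
  (.o))
  (.s 0 (.o)
  (.o))))
  (.s 4 (.o)
  (.s 1 (.s 0 (.o)
  (.o))
  (.s 0 (.o)
  (.o)))))
  (.s 1 (.s 4 (.o)
  (.s 1 (.s 0 (.o)
  (.o))
  (.s 0 (.o)
  (.o))))
  (.s 4 (.o)
  (.s 0 (.s 0 (.o)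
  (.o))
  (.s 0 (.o)
  (.o))))))))
  (.f (.s 1 (.s 3 (.s 0 (.s 4 (.o)
  (.s 2 (.s 3 (.s 0 (.o)
  (.l))
  (.s 0 (.l)
  (.l)))
  (.s 3 (.s 0 (.o)
  (.s 0 (.o)
  (.o)))
  (.s 0 (.l)
  (.l)))))
  (.s 4 (.o)
  (.s 2 (.s 0 (.s 0 (.o)
  (.o))
  (.s 0 (.o)
  (.o)))
  (.s 3 (.s 0 (.s 0 (.o)
  (.o))
  (.s 0 (.o)
  (.o)))
  (.s 0 (.l)
  (.s 0 (.o)
  (.o)))))))
  (.s 0 (.s 4 (.o)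
  (.s 2 (.s 1 (.s 0 (.o)
  (.o))
  (.s 0 (.o)
  (.o)))
  (.s 1 (.s 0 (.o)
  (.o))
  (.s 0 (.o)
  (.o)))))
  (.s 4 (.o)
  (.s 1 (.s 0 (.o)
  (.o))
  (.s 0 (.o)
  (.o))))))
  (.s 3 (.s 0 (.s 4 (.o)
  (.s 2 (.s 3 (.o)
  (.s 0 (.o)
  (.l)))
  (.o)))
  (.s 4 (.o)
  (.s 2 (.s 3 (.s 1 (.l)
  (.o))
  (.s 0 (.l)
  (.l)))
  (.s 3 (.s 1 (.s 0 (.o)
  (.o))
  (.o))
  (.s 1 (.l)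
  (.s 0 (.o)
  (.o)))))))
  (.s 0 (.s 4 (.o)
  (.s 2 (.s 1 (.s 0 (.o)
  (.o))
  (.s 0 (.o)
  (.o)))
  (.s 1 (.s 0 (.o)
  (.o))
  (.s 0 (.o)
  (.o)))))
  (.s 4 (.o)
  (.s 2 (.s 1 (.s 0 (.o)
  (.o))
  (.s 0 (.o)
  (.o)))
  (.s 1 (.s 0 (.o)
  (.o))
  (.s 0 (.o)
  (.o))))))))))
  (.f (.s 2 (.s 1 (.s 0 (.s 1 (.l)
  (.l))
  (.s 3 (.l)
  (.l)))
  (.s 0 (.s 3 (.l)
  (.l))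
  (.s 3 (.l)
  (.l))))
  (.s 0 (.s 3 (.s 1 (.l)
  (.l))
  (.s 1 (.l)
  (.l)))
  (.s 3 (.s 1 (.l)
  (.l))
  (.s 1 (.l)
  (.l)))))))
  (.f (.s 4 (.s 0 (.l)
  (.l))
  (.l))))
  (.f (.l))))
  (.f (.l))))
  (.f (.s 4 (.l)
  (.f (.l))))

theorem chkU31 : chkBoxU 13 11 9 7 WU TU31 = true := by decide +kernel

/-- subdivision tree of the box 32 -/
def TU32 : TU :=
  .s 4 (.f (.s 4 (.f (.s 4 (.s 4 (.s 4 (.s 2 (.f (.s 3 (.s 0 (.s 1 (.s 4 (.o)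
  (.s 1 (.s 0 (.o)
  (.o))
  (.s 0 (.o)
  (.o))))
  (.s 4 (.o)
  (.s 1 (.s 0 (.o)
  (.o))
  (.s 0 (.o)
  (.o)))))
  (.s 1 (.s 4 (.o)
  (.s 1 (.s 0 (.o)
  (.o))
  (.s 0 (.o)
  (.o))))
  (.s 4 (.o)
  (.s 0 (.s 0 (.o)
  (.o))
  (.s 0 (.o)
  (.o))))))
  (.s 3 (.s 2 (.o)
  (.s 0 (.s 1 (.s 4 (.o)
  (.s 0 (.l)
  (.l)))
  (.s 4 (.o)
  (.s 0 (.o)
  (.l))))
  (.s 1 (.s 4 (.o)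
  (.s 0 (.l)
  (.l)))
  (.s 4 (.o)
  (.s 0 (.l)
  (.l))))))
  (.o))))
  (.f (.s 1 (.s 3 (.s 0 (.s 4 (.o)
  (.s 2 (.s 1 (.s 0 (.o)
  (.o))
  (.s 0 (.o)
  (.o)))
  (.s 1 (.s 0 (.o)
  (.o))
  (.s 0 (.o)
  (.o)))))
  (.s 4 (.o)
  (.s 1 (.s 0 (.o)
  (.o))
  (.s 0 (.o)
  (.o)))))
  (.s 0 (.s 4 (.o)
  (.s 2 (.s 3 (.s 0 (.l)
  (.l))
  (.s 0 (.o)
  (.l)))
  (.s 3 (.s 0 (.l)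
  (.l))
  (.s 0 (.o)
  (.s 0 (.o)
  (.o))))))
  (.s 4 (.o)
  (.s 2 (.s 0 (.s 0 (.o)
  (.o))
  (.s 0 (.o)
  (.o)))
  (.s 3 (.s 0 (.l)
  (.s 0 (.o)
  (.o)))
  (.s 0 (.s 0 (.o)
  (.o))
  (.s 0 (.o)
  (.o))))))))
  (.s 3 (.s 0 (.s 4 (.o)
  (.s 2 (.s 1 (.s 0 (.o)
  (.o))
  (.s 0 (.o)
  (.o)))
  (.s 1 (.s 0 (.o)
  (.o))
  (.s 0 (.o)
  (.o)))))
  (.s 4 (.o)
  (.s 2 (.s 1 (.s 0 (.o)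
  (.o))
  (.s 0 (.o)
  (.o)))
  (.s 1 (.s 0 (.o)
  (.o))
  (.s 0 (.o)
  (.o))))))
  (.s 0 (.s 4 (.o)
  (.s 2 (.s 3 (.s 0 (.o)
  (.l))
  (.o))
  (.o)))
  (.s 4 (.o)
  (.s 2 (.s 3 (.s 0 (.l)
  (.l))
  (.s 1 (.l)
  (.o)))
  (.s 3 (.s 1 (.l)
  (.s 0 (.o)
  (.o)))
  (.s 1 (.s 0 (.o)
  (.o))
  (.o))))))))))
  (.f (.s 2 (.s 1 (.s 0 (.s 1 (.l)
  (.l))
  (.s 3 (.l)
  (.l)))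
  (.s 0 (.s 3 (.l)
  (.l))
  (.s 3 (.l)
  (.l))))
  (.s 0 (.s 3 (.s 1 (.l)
  (.l))
  (.s 1 (.l)
  (.l)))
  (.s 3 (.s 1 (.l)
  (.l))
  (.s 1 (.l)
  (.l)))))))
  (.f (.s 4 (.s 0 (.l)
  (.l))
  (.l))))
  (.f (.l))))
  (.f (.l))))
  (.f (.s 4 (.l)
  (.f (.l))))

theorem chkU32 : chkBoxU 13 11 9 9 WU TU32 = true := by decide +kernel

end Pool.Agent.Helper10.Qc
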