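import Pool.Agent.Helper10.Qc.WU

set_option autoImplicit false

/-! # Certificates for the upper bound: boxes 33 to 43 -/

namespace Pool.Agent.Helper10.Qc

/-- subdivision tree of the box 33 -/
def TU33 : TU :=
  .s 4 (.f (.s 4 (.f (.s 4 (.s 4 (.s 1 (.s 2 (.o)
  (.f (.s 3 (.s 0 (.o)
  (.s 4 (.s 4 (.o)
  (.s 2 (.o)
  (.s 0 (.o)
  (.s 1 (.s 0 (.o)
  (.o))
  (.o)))))
  (.l)))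
  (.o))))
  (.o))
  (.f (.s 4 (.s 0 (.o)
  (.l))
  (.l))))
  (.f (.l))))
  (.f (.l))))
  (.f (.s 4 (.l)
  (.f (.l))))

theorem chkU33 : chkBoxU 13 11 9 11 WU TU33 = true := by decide +kernel

/-- subdivision tree of the box 34 -/
def TU34 : TU :=
  .s 4 (.f (.s 4 (.s 4 (.f (.s 4 (.s 1 (.s 2 (.s 3 (.o)
  (.s 0 (.o)
  (.s 4 (.s 4 (.o)
  (.s 0 (.o)
  (.s 1 (.f (.s 2 (.s 0 (.o)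
  (.l))
  (.o)))
  (.o))))
  (.f (.l)))))
  (.o))
  (.o))
  (.s 4 (.s 0 (.o)
  (.l))
  (.f (.l)))))
  (.f (.l)))
  (.f (.l))))
  (.f (.s 4 (.l)
  (.f (.l))))

theorem chkU34 : chkBoxU 13 11 11 5 WU TU34 = true := by decide +kernel

/-- subdivision tree of the box 35 -/
def TU35 : TU :=
  .s 4 (.f (.s 4 (.f (.s 4 (.s 4 (.s 4 (.s 1 (.s 2 (.f (.s 3 (.s 0 (.s 4 (.o)
  (.s 3 (.o)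
  (.s 0 (.o)
  (.s 1 (.l)
  (.o)))))
  (.s 4 (.o)
  (.s 3 (.s 0 (.s 1 (.s 0 (.o)
  (.o))
  (.o))
  (.s 1 (.s 0 (.o)
  (.o))
  (.s 0 (.o)
  (.l))))
  (.s 0 (.s 1 (.l)
  (.l))
  (.s 1 (.s 0 (.o)
  (.o))
  (.l))))))
  (.s 0 (.s 4 (.o)
  (.s 1 (.s 2 (.s 0 (.o)
  (.o))
  (.s 0 (.o)
  (.o)))
  (.s 0 (.s 0 (.o)
  (.o))
  (.s 0 (.o)
  (.o)))))
  (.s 4 (.o)
  (.s 1 (.s 2 (.s 0 (.o)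
  (.o))
  (.s 0 (.o)
  (.o)))
  (.s 0 (.s 1 (.l)
  (.l))
  (.s 2 (.o)
  (.l))))))))
  (.f (.s 3 (.s 0 (.o)
  (.s 4 (.o)
  (.s 3 (.o)
  (.s 2 (.s 0 (.o)
  (.l))
  (.o)))))
  (.s 0 (.s 4 (.o)
  (.s 2 (.s 0 (.o)
  (.s 0 (.o)
  (.l)))
  (.o)))
  (.s 4 (.o)
  (.s 2 (.s 0 (.s 1 (.l)
  (.l))
  (.s 1 (.l)
  (.l)))
  (.s 0 (.s 1 (.l)
  (.o))
  (.s 1 (.s 0 (.o)
  (.o))
  (.l)))))))))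
  (.s 2 (.f (.s 3 (.s 0 (.o)
  (.s 4 (.o)
  (.s 3 (.o)
  (.s 1 (.s 0 (.o)
  (.l))
  (.o)))))
  (.s 0 (.s 4 (.o)
  (.s 1 (.s 0 (.o)
  (.s 0 (.o)
  (.l)))
  (.o)))
  (.s 4 (.o)
  (.s 1 (.s 0 (.s 1 (.l)
  (.l))
  (.s 2 (.l)
  (.l)))
  (.s 0 (.s 2 (.l)
  (.o))
  (.s 2 (.s 0 (.o)
  (.o))
  (.l))))))))
  (.f (.s 0 (.o)
  (.s 3 (.o)
  (.s 4 (.o)
  (.s 1 (.s 2 (.s 0 (.o)
  (.l))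
  (.o))
  (.o))))))))
  (.f (.s 1 (.s 3 (.s 0 (.s 2 (.l)
  (.o))
  (.s 2 (.l)
  (.l)))
  (.s 2 (.s 0 (.l)
  (.l))
  (.s 0 (.l)
  (.l))))
  (.s 2 (.s 3 (.s 0 (.o)
  (.l))
  (.s 0 (.l)
  (.l)))
  (.s 3 (.o)
  (.s 0 (.o)
  (.l)))))))
  (.f (.s 4 (.s 0 (.l)
  (.l))
  (.l))))
  (.f (.l))))
  (.f (.l))))
  (.f (.s 4 (.l)
  (.f (.l))))

theorem chkU35 : chkBoxU 13 11 11 7 WU TU35 = true := by decide +kernel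

/-- subdivision tree of the box 36 -/
def TU36 : TU :=
  .s 4 (.f (.s 4 (.f (.s 4 (.s 4 (.s 4 (.s 1 (.s 2 (.f (.s 3 (.s 0 (.s 4 (.o)
  (.s 1 (.s 2 (.s 0 (.o)
  (.o))
  (.s 0 (.o)
  (.o)))
  (.s 0 (.s 0 (.o)
  (.o))
  (.s 0 (.o)
  (.o)))))
  (.s 4 (.o)
  (.s 1 (.s 2 (.s 0 (.o)
  (.o))
  (.s 0 (.o)
  (.o)))
  (.s 0 (.s 1 (.l)
  (.l))
  (.s 2 (.o)
  (.l))))))
  (.s 0 (.s 4 (.o)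
  (.s 3 (.s 0 (.o)
  (.s 1 (.l)
  (.o)))
  (.o)))
  (.s 4 (.o)
  (.s 3 (.s 0 (.s 1 (.l)
  (.l))
  (.s 1 (.s 0 (.o)
  (.o))
  (.l)))
  (.s 0 (.s 1 (.s 0 (.o)
  (.o))
  (.o))
  (.s 1 (.s 0 (.o)
  (.o))
  (.s 0 (.o)
  (.l)))))))))
  (.f (.s 3 (.s 0 (.s 4 (.o)
  (.s 2 (.s 0 (.o)
  (.s 0 (.o)
  (.l)))
  (.o)))
  (.s 4 (.o)
  (.s 2 (.s 0 (.s 1 (.l)
  (.l))
  (.s 1 (.l)
  (.l)))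
  (.s 0 (.s 1 (.l)
  (.o))
  (.s 1 (.s 0 (.o)
  (.o))
  (.l))))))
  (.s 0 (.o)
  (.s 4 (.o)
  (.s 3 (.s 2 (.s 0 (.o)
  (.l))
  (.o))
  (.o)))))))
  (.s 2 (.f (.s 3 (.s 0 (.s 4 (.o)
  (.s 1 (.s 0 (.o)
  (.s 0 (.o)
  (.l)))
  (.o)))
  (.s 4 (.o)
  (.s 1 (.s 0 (.s 1 (.l)
  (.l))
  (.s 2 (.l)
  (.l)))
  (.s 0 (.s 2 (.l)
  (.o))
  (.s 2 (.s 0 (.o)
  (.o))
  (.l))))))
  (.s 0 (.o)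
  (.s 4 (.o)
  (.s 3 (.s 1 (.s 0 (.o)
  (.l))
  (.o))
  (.o))))))
  (.f (.s 0 (.o)
  (.s 3 (.s 4 (.o)
  (.s 1 (.s 2 (.s 0 (.o)
  (.l))
  (.o))
  (.o)))
  (.o))))))
  (.f (.s 1 (.s 3 (.s 2 (.s 0 (.l)
  (.l))
  (.s 0 (.l)
  (.l)))
  (.s 0 (.s 2 (.l)
  (.o))
  (.s 2 (.l)
  (.l))))
  (.s 2 (.s 3 (.s 0 (.l)
  (.l))
  (.s 0 (.o)
  (.l)))
  (.s 3 (.s 0 (.o)
  (.l))
  (.o))))))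
  (.f (.s 4 (.s 0 (.l)
  (.l))
  (.l))))
  (.f (.l))))
  (.f (.l))))
  (.f (.s 4 (.l)
  (.f (.l))))

theorem chkU36 : chkBoxU 13 11 11 9 WU TU36 = true := by decide +kernel

/-- subdivision tree of the box 37 -/
def TU37 : TU :=
  .s 4 (.f (.s 4 (.s 4 (.f (.s 4 (.s 1 (.s 2 (.s 3 (.s 0 (.o)
  (.s 4 (.s 4 (.o)
  (.s 0 (.o)
  (.s 1 (.f (.s 2 (.s 0 (.o)
  (.l))
  (.o)))
  (.o))))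
  (.f (.l))))
  (.o))
  (.o))
  (.o))
  (.s 4 (.s 0 (.o)
  (.l))
  (.f (.l)))))
  (.f (.l)))
  (.f (.l))))
  (.f (.s 4 (.l)
  (.f (.l))))

theorem chkU37 : chkBoxU 13 11 11 11 WU TU37 = true := by decide +kernel

/-- subdivision tree of the box 38 -/
def TU38 : TU :=
  .s 4 (.f (.s 4 (.f (.s 4 (.s 4 (.s 1 (.s 2 (.s 0 (.o)
  (.f (.s 3 (.o)
  (.s 4 (.s 4 (.o)
  (.s 3 (.o)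
  (.s 0 (.o)
  (.s 2 (.s 0 (.o)
  (.l))
  (.o)))))
  (.l)))))
  (.o))
  (.o))
  (.f (.s 4 (.s 0 (.o)
  (.l))
  (.l))))
  (.f (.l))))
  (.f (.l))))
  (.f (.l))

theorem chkU38 : chkBoxU 13 11 13 7 WU TU38 = true := by decide +kernel

/-- subdivision tree of the box 39 -/
def TU39 : TU :=
  .s 4 (.f (.s 4 (.f (.s 4 (.s 4 (.s 1 (.s 2 (.s 0 (.o)
  (.f (.s 3 (.s 4 (.s 4 (.o)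
  (.s 3 (.s 0 (.o)
  (.s 2 (.s 0 (.o)
  (.l))
  (.o)))
  (.o)))
  (.l))
  (.o))))
  (.o))
  (.o))
  (.f (.s 4 (.s 0 (.o)
  (.l))
  (.l))))
  (.f (.l))))
  (.f (.l))))
  (.f (.l))

theorem chkU39 : chkBoxU 13 11 13 9 WU TU39 = true := by decide +kernel

/-- subdivision tree of the box 40 -/
def TU40 : TU :=
  .s 4 (.f (.s 4 (.s 4 (.f (.s 4 (.s 4 (.s 0 (.s 3 (.o)
  (.s 2 (.s 1 (.s 4 (.o)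
  (.s 0 (.s 1 (.o)
  (.o))
  (.s 1 (.o)
  (.l))))
  (.s 4 (.o)
  (.s 1 (.s 0 (.o)
  (.l))
  (.o))))
  (.s 1 (.s 4 (.o)
  (.s 2 (.s 0 (.o)
  (.s 0 (.o)
  (.f (.l))))
  (.o)))
  (.o))))
  (.s 1 (.s 2 (.s 3 (.s 4 (.o)
  (.s 3 (.o)
  (.s 2 (.o)
  (.f (.s 0 (.o)
  (.l))))))
  (.s 4 (.o)
  (.s 1 (.s 0 (.s 0 (.o)
  (.o))
  (.s 0 (.o)
  (.o)))
  (.s 0 (.l)
  (.s 0 (.l)
  (.l))))))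
  (.s 3 (.s 4 (.o)
  (.s 2 (.s 3 (.o)
  (.f (.s 0 (.o)
  (.l))))
  (.o)))
  (.s 4 (.o)
  (.s 2 (.s 0 (.f (.s 0 (.l)
  (.l)))
  (.f (.s 1 (.l)
  (.l))))
  (.s 1 (.f (.s 0 (.l)
  (.s 0 (.o)
  (.o))))
  (.f (.s 0 (.o)
  (.l))))))))
  (.s 3 (.o)
  (.s 2 (.s 4 (.o)
  (.s 0 (.s 3 (.o)
  (.f (.s 1 (.l)
  (.l))))
  (.s 1 (.s 2 (.f (.l))
  (.l))
  (.s 3 (.o)
  (.s 2 (.l)
  (.f (.l)))))))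
  (.s 4 (.o)
  (.s 1 (.s 2 (.s 0 (.o)
  (.l))
  (.o))
  (.o)))))))
  (.s 2 (.s 3 (.s 0 (.o)
  (.s 1 (.f (.l))
  (.o)))
  (.s 0 (.s 0 (.l)
  (.l))
  (.s 1 (.l)
  (.l))))
  (.s 3 (.s 0 (.o)
  (.s 1 (.f (.l))
  (.o)))
  (.s 0 (.s 1 (.f (.l))
  (.o))
  (.s 1 (.f (.l))
  (.l))))))
  (.s 4 (.s 0 (.l)
  (.l))
  (.f (.l)))))
  (.f (.l)))
  (.f (.l))))
  (.f (.s 4 (.l)
  (.f (.l))))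

theorem chkU40 : chkBoxU 13 13 9 7 WU TU40 = true := by decide +kernel

/-- subdivision tree of the box 41 -/
def TU41 : TU :=
  .s 4 (.f (.s 4 (.s 4 (.f (.s 4 (.s 4 (.s 0 (.s 3 (.s 2 (.s 1 (.s 4 (.o)
  (.s 0 (.s 1 (.o)
  (.o))
  (.s 1 (.o)
  (.l))))
  (.s 4 (.o)
  (.s 1 (.s 0 (.o)
  (.l))
  (.o))))
  (.s 1 (.s 4 (.o)
  (.s 2 (.s 0 (.o)
  (.s 0 (.o)
  (.f (.l))))
  (.o)))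
  (.o)))
  (.o))
  (.s 1 (.s 2 (.s 3 (.s 4 (.o)
  (.s 1 (.s 0 (.s 0 (.o)
  (.o))
  (.s 0 (.o)
  (.o)))
  (.s 0 (.l)
  (.s 0 (.l)
  (.l)))))
  (.s 4 (.o)
  (.s 3 (.s 2 (.o)
  (.f (.s 0 (.o)
  (.l))))
  (.o))))
  (.s 3 (.s 4 (.o)
  (.s 2 (.s 0 (.f (.s 0 (.l)
  (.l)))
  (.f (.s 1 (.l)
  (.l))))
  (.s 1 (.f (.s 0 (.l)
  (.s 0 (.o)
  (.o))))
  (.f (.s 0 (.o)
  (.l))))))
  (.s 4 (.o)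
  (.s 2 (.s 3 (.f (.s 0 (.o)
  (.l)))
  (.o))
  (.o)))))
  (.s 3 (.s 2 (.s 4 (.o)
  (.s 0 (.s 3 (.f (.s 1 (.l)
  (.l)))
  (.o))
  (.s 1 (.s 2 (.f (.l))
  (.l))
  (.s 3 (.s 2 (.l)
  (.f (.l)))
  (.o)))))
  (.s 4 (.o)
  (.s 1 (.s 2 (.s 0 (.o)
  (.l))
  (.o))
  (.o))))
  (.o))))
  (.s 2 (.s 3 (.s 0 (.s 0 (.l)
  (.l))
  (.s 1 (.l)
  (.l)))
  (.s 0 (.o)
  (.s 1 (.f (.l))
  (.o))))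
  (.s 3 (.s 0 (.s 1 (.f (.l))
  (.o))
  (.s 1 (.f (.l))
  (.l)))
  (.s 0 (.o)
  (.s 1 (.f (.l))
  (.o))))))
  (.s 4 (.s 0 (.l)
  (.l))
  (.f (.l)))))
  (.f (.l)))
  (.f (.l))))
  (.f (.s 4 (.l)
  (.f (.l))))

theorem chkU41 : chkBoxU 13 13 9 9 WU TU41 = true := by decide +kernel

/-- subdivision tree of the box 42 -/
def TU42 : TU :=
  .s 4 (.f (.s 4 (.f (.s 4 (.s 4 (.s 2 (.s 1 (.s 0 (.o)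
  (.f (.s 3 (.o)
  (.s 4 (.s 4 (.o)
  (.s 3 (.o)
  (.s 0 (.o)
  (.s 1 (.s 0 (.o)
  (.l))
  (.o)))))
  (.l)))))
  (.o))
  (.o))
  (.f (.s 4 (.s 0 (.o)
  (.l))
  (.l))))
  (.f (.l))))
  (.f (.l))))
  (.f (.l))

theorem chkU42 : chkBoxU 13 13 11 7 WU TU42 = true := by decide +kernel

/-- subdivision tree of the box 43 -/
def TU43 : TU :=
  .s 4 (.f (.s 4 (.f (.s 4 (.s 4 (.s 2 (.s 1 (.s 0 (.o)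
  (.f (.s 3 (.s 4 (.s 4 (.o)
  (.s 3 (.s 0 (.o)
  (.s 1 (.s 0 (.o)
  (.l))
  (.o)))
  (.o)))
  (.l))
  (.o))))
  (.o))
  (.o))
  (.f (.s 4 (.s 0 (.o)
  (.l))
  (.l))))
  (.f (.l))))
  (.f (.l))))
  (.f (.l))

theorem chkU43 : chkBoxU 13 13 11 9 WU TU43 = true := by decide +kernel

end Pool.Agent.Helper10.Qc
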