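import Pool.Agent.Helper10.Qc.WU

set_option autoImplicit false

/-! # Certificates for the upper bound: boxes 44 to 54 -/

namespace Pool.Agent.Helper10.Qc

/-- subdivision tree of the box 44 -/
def TU44 : TU :=
  .s 4 (.f (.s 4 (.s 4 (.f (.s 4 (.s 0 (.o)
  (.s 1 (.s 2 (.s 3 (.o)
  (.s 4 (.s 1 (.s 4 (.o)
  (.s 2 (.s 3 (.o)
  (.s 0 (.o)
  (.f (.l))))
  (.o)))
  (.o))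
  (.l)))
  (.o))
  (.o)))
  (.s 4 (.s 0 (.o)
  (.l))
  (.f (.l)))))
  (.f (.l)))
  (.f (.l))))
  (.f (.l))

theorem chkU44 : chkBoxU 13 15 9 7 WU TU44 = true := by decide +kernel

/-- subdivision tree of the box 45 -/
def TU45 : TU :=
  .s 4 (.f (.s 4 (.s 4 (.f (.s 4 (.s 0 (.o)
  (.s 1 (.s 2 (.s 3 (.s 4 (.s 1 (.s 4 (.o)
  (.s 2 (.s 3 (.s 0 (.o)
  (.f (.l)))
  (.o))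
  (.o)))
  (.o))
  (.l))
  (.o))
  (.o))
  (.o)))
  (.s 4 (.s 0 (.o)
  (.l))
  (.f (.l)))))
  (.f (.l)))
  (.f (.l))))
  (.f (.l))

theorem chkU45 : chkBoxU 13 15 9 9 WU TU45 = true := by decide +kernel

/-- subdivision tree of the box 46 -/
def TU46 : TU :=
  .s 4 (.f (.s 4 (.f (.s 4 (.s 4 (.s 3 (.o)
  (.s 1 (.o)
  (.s 2 (.o)
  (.f (.s 4 (.s 3 (.o)
  (.s 1 (.o)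
  (.s 2 (.o)
  (.s 0 (.s 4 (.o)
  (.s 0 (.o)
  (.l)))
  (.s 4 (.o)
  (.s 0 (.l)
  (.l)))))))
  (.s 0 (.l)
  (.l)))))))
  (.f (.s 4 (.s 0 (.l)
  (.l))
  (.l))))
  (.f (.l))))
  (.f (.l))))
  (.f (.l))

theorem chkU46 : chkBoxU 15 9 9 5 WU TU46 = true := by decide +kernel

/-- subdivision tree of the box 47 -/
def TU47 : TU :=
  .s 4 (.f (.s 4 (.f (.s 4 (.s 4 (.s 4 (.s 1 (.s 2 (.f (.s 3 (.s 3 (.o)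
  (.s 1 (.o)
  (.s 2 (.o)
  (.s 0 (.s 0 (.o)
  (.o))
  (.s 4 (.o)
  (.l))))))
  (.s 0 (.s 0 (.o)
  (.o))
  (.s 4 (.o)
  (.s 1 (.s 2 (.s 0 (.o)
  (.l))
  (.s 0 (.o)
  (.l)))
  (.s 2 (.s 0 (.o)
  (.l))
  (.s 0 (.l)
  (.l))))))))
  (.s 3 (.f (.s 3 (.o)
  (.s 1 (.o)
  (.s 0 (.s 4 (.o)
  (.s 0 (.o)
  (.l)))
  (.s 4 (.o)
  (.s 0 (.l)
  (.l)))))))
  (.f (.s 0 (.s 4 (.o)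
  (.s 0 (.o)
  (.s 0 (.o)
  (.o))))
  (.s 4 (.o)
  (.s 1 (.s 3 (.s 0 (.l)
  (.l))
  (.s 2 (.l)
  (.s 0 (.o)
  (.l))))
  (.s 3 (.s 0 (.l)
  (.l))
  (.s 0 (.l)
  (.l)))))))))
  (.s 2 (.s 3 (.f (.s 3 (.o)
  (.s 2 (.o)
  (.s 0 (.s 4 (.o)
  (.s 0 (.o)
  (.l)))
  (.s 4 (.o)
  (.s 0 (.l)
  (.l)))))))
  (.f (.s 0 (.s 4 (.o)
  (.s 0 (.o)
  (.s 0 (.o)
  (.o))))
  (.s 4 (.o)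
  (.s 2 (.s 3 (.s 0 (.l)
  (.l))
  (.s 1 (.l)
  (.s 0 (.o)
  (.l))))
  (.s 3 (.s 0 (.l)
  (.l))
  (.s 0 (.l)
  (.l))))))))
  (.f (.s 3 (.s 0 (.s 4 (.o)
  (.s 1 (.s 2 (.s 0 (.o)
  (.l))
  (.s 0 (.o)
  (.l)))
  (.s 2 (.s 0 (.o)
  (.l))
  (.s 0 (.o)
  (.s 0 (.o)
  (.o))))))
  (.s 4 (.o)
  (.s 1 (.s 2 (.s 0 (.l)
  (.l))
  (.s 0 (.l)
  (.l)))
  (.s 2 (.s 0 (.l)
  (.l))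
  (.s 3 (.s 0 (.l)
  (.l))
  (.s 0 (.l)
  (.l)))))))
  (.s 0 (.s 4 (.o)
  (.s 3 (.s 0 (.o)
  (.s 0 (.o)
  (.o)))
  (.s 0 (.o)
  (.s 0 (.o)
  (.o)))))
  (.s 4 (.o)
  (.s 1 (.s 3 (.s 0 (.l)
  (.l))
  (.s 0 (.l)
  (.l)))
  (.s 2 (.s 0 (.l)
  (.l))
  (.s 3 (.l)
  (.s 0 (.l)
  (.l)))))))))))
  (.f (.s 1 (.s 2 (.s 3 (.s 0 (.l)
  (.l))
  (.s 0 (.l)
  (.l)))
  (.s 0 (.s 3 (.l)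
  (.l))
  (.s 3 (.l)
  (.l))))
  (.s 2 (.s 0 (.s 3 (.l)
  (.l))
  (.s 3 (.l)
  (.l)))
  (.s 0 (.s 3 (.l)
  (.l))
  (.s 3 (.l)
  (.l)))))))
  (.f (.s 4 (.l)
  (.l))))
  (.f (.l))))
  (.f (.l))))
  (.f (.l))

theorem chkU47 : chkBoxU 15 9 9 7 WU TU47 = true := by decide +kernel

/-- subdivision tree of the box 48 -/
def TU48 : TU :=
  .s 4 (.f (.s 4 (.f (.s 4 (.s 4 (.s 4 (.s 1 (.s 2 (.f (.s 3 (.s 0 (.s 0 (.o)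
  (.o))
  (.s 4 (.o)
  (.s 1 (.s 2 (.s 0 (.o)
  (.l))
  (.s 0 (.o)
  (.l)))
  (.s 2 (.s 0 (.o)
  (.l))
  (.s 0 (.l)
  (.l))))))
  (.s 3 (.s 1 (.o)
  (.s 2 (.o)
  (.s 0 (.s 0 (.o)
  (.o))
  (.s 4 (.o)
  (.l)))))
  (.o))))
  (.s 3 (.f (.s 0 (.s 4 (.o)
  (.s 0 (.o)
  (.s 0 (.o)
  (.o))))
  (.s 4 (.o)
  (.s 1 (.s 3 (.s 2 (.l)
  (.s 0 (.o)
  (.l)))
  (.s 0 (.l)
  (.l)))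
  (.s 3 (.s 0 (.l)
  (.l))
  (.s 0 (.l)
  (.l)))))))
  (.f (.s 3 (.s 1 (.o)
  (.s 0 (.s 4 (.o)
  (.s 0 (.o)
  (.l)))
  (.s 4 (.o)
  (.s 0 (.l)
  (.l)))))
  (.o)))))
  (.s 2 (.s 3 (.f (.s 0 (.s 4 (.o)
  (.s 0 (.o)
  (.s 0 (.o)
  (.o))))
  (.s 4 (.o)
  (.s 2 (.s 3 (.s 1 (.l)
  (.s 0 (.o)
  (.l)))
  (.s 0 (.l)
  (.l)))
  (.s 3 (.s 0 (.l)
  (.l))
  (.s 0 (.l)
  (.l)))))))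
  (.f (.s 3 (.s 2 (.o)
  (.s 0 (.s 4 (.o)
  (.s 0 (.o)
  (.l)))
  (.s 4 (.o)
  (.s 0 (.l)
  (.l)))))
  (.o))))
  (.f (.s 3 (.s 0 (.s 4 (.o)
  (.s 3 (.s 0 (.o)
  (.s 0 (.o)
  (.o)))
  (.s 0 (.o)
  (.s 0 (.o)
  (.o)))))
  (.s 4 (.o)
  (.s 1 (.s 3 (.s 0 (.l)
  (.l))
  (.s 0 (.l)
  (.l)))
  (.s 2 (.s 0 (.l)
  (.l))
  (.s 3 (.s 0 (.l)
  (.l))
  (.l))))))
  (.s 0 (.s 4 (.o)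
  (.s 1 (.s 2 (.s 0 (.o)
  (.l))
  (.s 0 (.o)
  (.l)))
  (.s 2 (.s 0 (.o)
  (.l))
  (.s 0 (.o)
  (.s 0 (.o)
  (.o))))))
  (.s 4 (.o)
  (.s 1 (.s 2 (.s 0 (.l)
  (.l))
  (.s 0 (.l)
  (.l)))
  (.s 2 (.s 0 (.l)
  (.l))
  (.s 3 (.s 0 (.l)
  (.l))
  (.s 0 (.l)
  (.l)))))))))))
  (.f (.s 1 (.s 2 (.s 3 (.s 0 (.l)
  (.l))
  (.s 0 (.l)
  (.l)))
  (.s 0 (.s 3 (.l)
  (.l))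
  (.s 3 (.l)
  (.l))))
  (.s 2 (.s 0 (.s 3 (.l)
  (.l))
  (.s 3 (.l)
  (.l)))
  (.s 0 (.s 3 (.l)
  (.l))
  (.s 3 (.l)
  (.l)))))))
  (.f (.s 4 (.l)
  (.l))))
  (.f (.l))))
  (.f (.l))))
  (.f (.l))

theorem chkU48 : chkBoxU 15 9 9 9 WU TU48 = true := by decide +kernel

/-- subdivision tree of the box 49 -/
def TU49 : TU :=
  .s 4 (.f (.s 4 (.f (.s 4 (.s 4 (.s 3 (.s 1 (.o)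
  (.s 2 (.o)
  (.f (.s 4 (.s 3 (.s 1 (.o)
  (.s 2 (.o)
  (.s 0 (.s 4 (.o)
  (.s 0 (.o)
  (.l)))
  (.s 4 (.o)
  (.s 0 (.l)
  (.l))))))
  (.o))
  (.s 0 (.l)
  (.l))))))
  (.o))
  (.f (.s 4 (.s 0 (.l)
  (.l))
  (.l))))
  (.f (.l))))
  (.f (.l))))
  (.f (.l))

theorem chkU49 : chkBoxU 15 9 9 11 WU TU49 = true := by decide +kernel

/-- subdivision tree of the box 50 -/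
def TU50 : TU :=
  .s 4 (.f (.s 4 (.s 4 (.f (.s 4 (.s 3 (.o)
  (.s 1 (.o)
  (.s 1 (.o)
  (.s 3 (.o)
  (.s 4 (.s 0 (.s 2 (.s 4 (.o)
  (.f (.s 2 (.s 0 (.l)
  (.l))
  (.s 0 (.l)
  (.l)))))
  (.s 4 (.o)
  (.f (.s 0 (.o)
  (.l)))))
  (.s 2 (.s 1 (.o)
  (.s 4 (.o)
  (.f (.s 0 (.l)
  (.l)))))
  (.s 1 (.o)
  (.s 4 (.s 0 (.o)
  (.o))
  (.f (.s 0 (.l)
  (.l)))))))
  (.s 0 (.f (.l))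
  (.f (.l))))))))
  (.s 4 (.s 0 (.f (.l))
  (.f (.l)))
  (.f (.l)))))
  (.f (.l)))
  (.f (.l))))
  (.f (.l))

theorem chkU50 : chkBoxU 15 9 11 5 WU TU50 = true := by decide +kernel

/-- subdivision tree of the box 51 -/
def TU51 : TU :=
  .s 4 (.f (.s 4 (.f (.s 4 (.s 4 (.s 4 (.s 2 (.s 1 (.f (.s 3 (.s 3 (.o)
  (.s 1 (.o)
  (.s 0 (.s 4 (.o)
  (.s 0 (.l)
  (.l)))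
  (.s 4 (.o)
  (.s 0 (.l)
  (.l))))))
  (.s 0 (.s 4 (.o)
  (.s 2 (.s 0 (.o)
  (.s 0 (.o)
  (.o)))
  (.s 1 (.s 0 (.o)
  (.l))
  (.s 0 (.l)
  (.l)))))
  (.s 4 (.o)
  (.s 2 (.s 1 (.s 3 (.s 0 (.l)
  (.l))
  (.s 0 (.l)
  (.l)))
  (.s 0 (.l)
  (.l)))
  (.s 1 (.s 0 (.l)
  (.l))
  (.s 0 (.l)
  (.l))))))))
  (.f (.s 0 (.s 3 (.s 4 (.o)
  (.s 1 (.s 2 (.s 3 (.s 0 (.o)
  (.l))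
  (.l))
  (.s 0 (.l)
  (.l)))
  (.s 3 (.s 2 (.s 0 (.o)
  (.l))
  (.s 0 (.l)
  (.l)))
  (.s 2 (.s 0 (.o)
  (.l))
  (.l)))))
  (.s 4 (.o)
  (.s 2 (.s 1 (.s 0 (.o)
  (.l))
  (.s 0 (.o)
  (.s 0 (.o)
  (.o))))
  (.s 1 (.s 0 (.l)
  (.l))
  (.s 0 (.l)
  (.l))))))
  (.s 3 (.s 4 (.o)
  (.s 1 (.s 2 (.s 0 (.l)
  (.s 0 (.l)
  (.l)))
  (.s 0 (.l)
  (.l)))
  (.s 3 (.s 0 (.s 0 (.l)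
  (.l))
  (.s 2 (.l)
  (.l)))
  (.s 2 (.s 0 (.l)
  (.l))
  (.l)))))
  (.s 4 (.o)
  (.s 2 (.s 1 (.s 0 (.l)
  (.l))
  (.s 3 (.s 0 (.l)
  (.l))
  (.s 0 (.l)
  (.l))))
  (.s 1 (.s 0 (.l)
  (.l))
  (.s 0 (.l)
  (.s 0 (.l)
  (.l))))))))))
  (.s 1 (.f (.s 3 (.s 3 (.o)
  (.s 1 (.o)
  (.s 0 (.s 4 (.o)
  (.s 0 (.l)
  (.l)))
  (.s 4 (.s 0 (.o)
  (.o))
  (.s 0 (.l)
  (.l))))))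
  (.s 0 (.s 4 (.o)
  (.s 2 (.s 1 (.s 0 (.l)
  (.l))
  (.s 0 (.l)
  (.l)))
  (.s 1 (.s 0 (.l)
  (.l))
  (.s 0 (.l)
  (.l)))))
  (.s 4 (.o)
  (.s 2 (.s 1 (.s 0 (.l)
  (.l))
  (.s 0 (.l)
  (.l)))
  (.s 1 (.s 3 (.l)
  (.s 0 (.l)
  (.l)))
  (.s 0 (.l)
  (.l))))))))
  (.f (.s 0 (.s 3 (.s 4 (.o)
  (.s 1 (.s 2 (.s 0 (.l)
  (.l))
  (.s 0 (.l)
  (.l)))
  (.s 3 (.s 2 (.s 0 (.l)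
  (.l))
  (.s 0 (.l)
  (.l)))
  (.s 2 (.l)
  (.l)))))
  (.s 4 (.o)
  (.s 2 (.s 1 (.s 0 (.l)
  (.l))
  (.s 0 (.l)
  (.l)))
  (.s 1 (.s 0 (.l)
  (.l))
  (.s 3 (.l)
  (.l))))))
  (.s 3 (.s 4 (.s 0 (.o)
  (.o))
  (.s 2 (.s 1 (.s 0 (.l)
  (.l))
  (.s 3 (.s 0 (.l)
  (.l))
  (.l)))
  (.s 1 (.s 3 (.s 0 (.l)
  (.l))
  (.l))
  (.s 3 (.s 0 (.l)
  (.l))
  (.s 0 (.l)
  (.l))))))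
  (.s 4 (.s 0 (.o)
  (.o))
  (.s 2 (.s 1 (.s 0 (.l)
  (.l))
  (.s 0 (.l)
  (.l)))
  (.s 1 (.s 0 (.l)
  (.l))
  (.s 3 (.l)
  (.s 0 (.l)
  (.l)))))))))))
  (.f (.s 2 (.s 1 (.s 3 (.s 0 (.l)
  (.l))
  (.s 0 (.l)
  (.l)))
  (.s 3 (.s 0 (.l)
  (.l))
  (.s 0 (.l)
  (.l))))
  (.s 1 (.s 3 (.s 0 (.l)
  (.l))
  (.s 0 (.l)
  (.l)))
  (.s 3 (.s 0 (.l)
  (.l))
  (.s 0 (.l)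
  (.l)))))))
  (.f (.s 4 (.s 0 (.l)
  (.l))
  (.l))))
  (.f (.l))))
  (.f (.l))))
  (.f (.l))

theorem chkU51 : chkBoxU 15 9 11 7 WU TU51 = true := by decide +kernel

/-- subdivision tree of the box 52 -/
def TU52 : TU :=
  .s 4 (.f (.s 4 (.f (.s 4 (.s 4 (.s 4 (.s 2 (.s 1 (.f (.s 3 (.s 0 (.s 4 (.o)
  (.s 2 (.s 0 (.o)
  (.s 0 (.o)
  (.o)))
  (.s 1 (.s 0 (.o)
  (.l))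
  (.s 0 (.l)
  (.l)))))
  (.s 4 (.o)
  (.s 2 (.s 1 (.s 3 (.s 0 (.l)
  (.l))
  (.s 0 (.l)
  (.l)))
  (.s 0 (.l)
  (.l)))
  (.s 1 (.s 0 (.l)
  (.l))
  (.s 0 (.l)
  (.l))))))
  (.s 3 (.s 1 (.o)
  (.s 0 (.s 4 (.o)
  (.s 0 (.l)
  (.l)))
  (.s 4 (.o)
  (.s 0 (.l)
  (.l)))))
  (.o))))
  (.f (.s 0 (.s 3 (.s 4 (.o)
  (.s 2 (.s 1 (.s 0 (.o)
  (.l))
  (.s 0 (.o)
  (.s 0 (.o)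
  (.o))))
  (.s 1 (.s 0 (.l)
  (.l))
  (.s 0 (.l)
  (.l)))))
  (.s 4 (.o)
  (.s 1 (.s 2 (.s 3 (.l)
  (.s 0 (.o)
  (.l)))
  (.s 0 (.l)
  (.l)))
  (.s 3 (.s 2 (.s 0 (.o)
  (.l))
  (.l))
  (.s 2 (.s 0 (.o)
  (.l))
  (.s 0 (.l)
  (.l)))))))
  (.s 3 (.s 4 (.o)
  (.s 2 (.s 1 (.s 0 (.l)
  (.l))
  (.s 3 (.s 0 (.l)
  (.l))
  (.s 0 (.l)
  (.l))))
  (.s 1 (.s 0 (.l)
  (.l))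
  (.s 0 (.l)
  (.s 0 (.l)
  (.l))))))
  (.s 4 (.o)
  (.s 1 (.s 2 (.s 0 (.l)
  (.s 0 (.l)
  (.l)))
  (.s 0 (.l)
  (.l)))
  (.s 3 (.s 2 (.s 0 (.l)
  (.l))
  (.l))
  (.s 0 (.s 0 (.l)
  (.l))
  (.s 2 (.l)
  (.l))))))))))
  (.s 1 (.f (.s 3 (.s 0 (.s 4 (.o)
  (.s 2 (.s 1 (.s 0 (.l)
  (.l))
  (.s 0 (.l)
  (.l)))
  (.s 1 (.s 0 (.l)
  (.l))
  (.s 0 (.l)
  (.l)))))
  (.s 4 (.o)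
  (.s 2 (.s 1 (.s 0 (.l)
  (.l))
  (.s 0 (.l)
  (.l)))
  (.s 1 (.s 3 (.s 0 (.l)
  (.l))
  (.l))
  (.s 0 (.l)
  (.l))))))
  (.s 3 (.s 1 (.o)
  (.s 0 (.s 4 (.o)
  (.s 0 (.l)
  (.l)))
  (.s 4 (.s 0 (.o)
  (.o))
  (.s 0 (.l)
  (.l)))))
  (.o))))
  (.f (.s 0 (.s 3 (.s 4 (.o)
  (.s 2 (.s 1 (.s 0 (.l)
  (.l))
  (.s 0 (.l)
  (.l)))
  (.s 1 (.s 0 (.l)
  (.l))
  (.s 3 (.l)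
  (.l)))))
  (.s 4 (.o)
  (.s 1 (.s 2 (.s 0 (.l)
  (.l))
  (.s 0 (.l)
  (.l)))
  (.s 3 (.s 2 (.l)
  (.l))
  (.s 2 (.s 0 (.l)
  (.l))
  (.s 0 (.l)
  (.l)))))))
  (.s 3 (.s 4 (.s 0 (.o)
  (.o))
  (.s 2 (.s 1 (.s 0 (.l)
  (.l))
  (.s 0 (.l)
  (.l)))
  (.s 1 (.s 0 (.l)
  (.l))
  (.s 3 (.s 0 (.l)
  (.l))
  (.l)))))
  (.s 4 (.s 0 (.o)
  (.o))
  (.s 2 (.s 1 (.s 0 (.l)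
  (.l))
  (.s 3 (.l)
  (.s 0 (.l)
  (.l))))
  (.s 1 (.s 3 (.l)
  (.s 0 (.l)
  (.l)))
  (.s 3 (.s 0 (.l)
  (.l))
  (.s 0 (.l)
  (.l)))))))))))
  (.f (.s 2 (.s 1 (.s 3 (.s 0 (.l)
  (.l))
  (.s 0 (.l)
  (.l)))
  (.s 3 (.s 0 (.l)
  (.l))
  (.s 0 (.l)
  (.l))))
  (.s 1 (.s 3 (.s 0 (.l)
  (.l))
  (.s 0 (.l)
  (.l)))
  (.s 3 (.s 0 (.l)
  (.l))
  (.s 0 (.l)
  (.l)))))))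
  (.f (.s 4 (.s 0 (.l)
  (.l))
  (.l))))
  (.f (.l))))
  (.f (.l))))
  (.f (.l))

theorem chkU52 : chkBoxU 15 9 11 9 WU TU52 = true := by decide +kernel

/-- subdivision tree of the box 53 -/
def TU53 : TU :=
  .s 4 (.f (.s 4 (.s 4 (.f (.s 4 (.s 3 (.s 1 (.o)
  (.s 1 (.o)
  (.s 3 (.s 4 (.s 0 (.s 2 (.s 4 (.o)
  (.f (.s 2 (.s 0 (.l)
  (.l))
  (.s 0 (.l)
  (.l)))))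
  (.s 4 (.o)
  (.f (.s 0 (.o)
  (.l)))))
  (.s 2 (.s 1 (.o)
  (.s 4 (.o)
  (.f (.s 0 (.l)
  (.l)))))
  (.s 1 (.o)
  (.s 4 (.s 0 (.o)
  (.o))
  (.f (.s 0 (.l)
  (.l)))))))
  (.s 0 (.f (.l))
  (.f (.l))))
  (.o))))
  (.o))
  (.s 4 (.s 0 (.f (.l))
  (.f (.l)))
  (.f (.l)))))
  (.f (.l)))
  (.f (.l))))
  (.f (.l))

theorem chkU53 : chkBoxU 15 9 11 11 WU TU53 = true := by decide +kernel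

/-- subdivision tree of the box 54 -/
def TU54 : TU :=
  .s 4 (.f (.s 4 (.s 4 (.f (.s 4 (.s 3 (.o)
  (.s 2 (.s 0 (.o)
  (.s 1 (.o)
  (.s 4 (.s 2 (.s 0 (.o)
  (.s 1 (.o)
  (.s 3 (.o)
  (.f (.s 4 (.s 0 (.o)
  (.o))
  (.l))))))
  (.o))
  (.f (.l)))))
  (.o)))
  (.s 4 (.s 0 (.o)
  (.l))
  (.f (.l)))))
  (.f (.l)))
  (.f (.l))))
  (.f (.l))

theorem chkU54 : chkBoxU 15 9 13 5 WU TU54 = true := by decide +kernel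

end Pool.Agent.Helper10.Qc
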