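import Pool.Agent.Helper10.Qc.WU

set_option autoImplicit false

/-! # Certificates for the upper bound: boxes 55 to 65 -/

namespace Pool.Agent.Helper10.Qc

/-- subdivision tree of the box 55 -/
def TU55 : TU :=
  .s 4 (.f (.s 4 (.s 4 (.f (.s 4 (.s 4 (.s 2 (.s 1 (.s 3 (.s 3 (.o)
  (.s 1 (.o)
  (.s 0 (.s 4 (.s 0 (.o)
  (.o))
  (.s 0 (.l)
  (.l)))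
  (.s 1 (.o)
  (.s 4 (.s 0 (.o)
  (.s 0 (.o)
  (.o)))
  (.f (.s 0 (.l)
  (.l))))))))
  (.s 0 (.s 4 (.o)
  (.s 2 (.s 1 (.s 0 (.f (.l))
  (.f (.l)))
  (.s 0 (.f (.l))
  (.f (.l))))
  (.s 1 (.s 0 (.l)
  (.f (.l)))
  (.s 0 (.f (.l))
  (.f (.l))))))
  (.s 4 (.s 0 (.o)
  (.s 0 (.o)
  (.o)))
  (.s 2 (.s 1 (.s 3 (.f (.l))
  (.f (.s 0 (.l)
  (.l))))
  (.f (.s 3 (.l)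
  (.l))))
  (.s 1 (.s 3 (.f (.l))
  (.f (.s 0 (.l)
  (.l))))
  (.s 3 (.f (.l))
  (.f (.l))))))))
  (.s 0 (.s 3 (.s 4 (.s 0 (.o)
  (.o))
  (.s 2 (.s 0 (.s 3 (.o)
  (.f (.l)))
  (.s 1 (.l)
  (.l)))
  (.s 3 (.o)
  (.s 0 (.f (.l))
  (.f (.l))))))
  (.s 4 (.s 0 (.o)
  (.o))
  (.s 2 (.s 1 (.s 0 (.f (.l))
  (.l))
  (.s 3 (.f (.l))
  (.l)))
  (.s 1 (.s 0 (.f (.l))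
  (.l))
  (.s 0 (.f (.l))
  (.f (.l)))))))
  (.s 3 (.s 4 (.s 1 (.s 3 (.s 0 (.o)
  (.s 2 (.o)
  (.f (.s 0 (.o)
  (.o)))))
  (.s 0 (.o)
  (.s 2 (.o)
  (.f (.s 0 (.o)
  (.o))))))
  (.s 0 (.s 0 (.o)
  (.o))
  (.s 2 (.o)
  (.f (.s 0 (.o)
  (.o))))))
  (.s 2 (.s 1 (.s 3 (.l)
  (.f (.l)))
  (.s 3 (.f (.s 0 (.l)
  (.l)))
  (.l)))
  (.f (.s 1 (.s 0 (.l)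
  (.l))
  (.s 3 (.s 0 (.l)
  (.l))
  (.l))))))
  (.s 4 (.s 0 (.o)
  (.s 2 (.o)
  (.s 0 (.o)
  (.o))))
  (.s 1 (.s 3 (.f (.s 0 (.l)
  (.l)))
  (.s 2 (.f (.l))
  (.f (.l))))
  (.s 3 (.s 2 (.l)
  (.f (.l)))
  (.s 0 (.f (.s 0 (.l)
  (.l)))
  (.f (.s 2 (.l)
  (.l))))))))))
  (.s 1 (.s 0 (.s 3 (.s 2 (.s 1 (.o)
  (.s 3 (.o)
  (.s 4 (.o)
  (.f (.l)))))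
  (.o))
  (.s 4 (.s 2 (.o)
  (.s 0 (.o)
  (.o)))
  (.s 2 (.s 1 (.s 3 (.f (.l))
  (.f (.s 0 (.l)
  (.l))))
  (.s 0 (.f (.l))
  (.f (.l))))
  (.s 1 (.s 3 (.f (.s 0 (.l)
  (.l)))
  (.f (.s 0 (.l)
  (.s 0 (.l)
  (.l)))))
  (.s 3 (.f (.s 0 (.l)
  (.l)))
  (.f (.s 0 (.l)
  (.l))))))))
  (.s 3 (.s 1 (.o)
  (.s 3 (.o)
  (.s 1 (.o)
  (.s 3 (.o)
  (.s 4 (.f (.s 2 (.s 0 (.o)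
  (.s 0 (.o)
  (.o)))
  (.s 0 (.s 0 (.o)
  (.o))
  (.s 4 (.o)
  (.s 1 (.o)
  (.s 3 (.o)
  (.s 2 (.s 0 (.o)
  (.o))
  (.s 0 (.o)
  (.s 4 (.o)
  (.s 1 (.o)
  (.s 0 (.o)
  (.s 0 (.o)
  (.o)))))))))))))
  (.f (.s 0 (.l)
  (.l))))))))
  (.s 4 (.s 2 (.s 0 (.o)
  (.s 0 (.o)
  (.o)))
  (.f (.s 1 (.s 0 (.o)
  (.s 0 (.o)
  (.s 2 (.o)
  (.s 3 (.s 0 (.o)
  (.o))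
  (.o)))))
  (.s 3 (.s 0 (.s 0 (.o)
  (.o))
  (.s 4 (.o)
  (.s 2 (.s 0 (.o)
  (.o))
  (.s 0 (.o)
  (.s 2 (.o)
  (.s 0 (.o)
  (.o)))))))
  (.s 0 (.o)
  (.s 4 (.o)
  (.s 0 (.o)
  (.s 2 (.o)
  (.s 0 (.o)
  (.o))))))))))
  (.s 2 (.f (.s 1 (.s 3 (.s 0 (.l)
  (.l))
  (.s 0 (.l)
  (.s 0 (.l)
  (.l))))
  (.s 3 (.s 0 (.l)
  (.l))
  (.s 0 (.l)
  (.l)))))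
  (.f (.s 1 (.s 3 (.s 1 (.o)
  (.s 0 (.l)
  (.s 0 (.l)
  (.l))))
  (.s 0 (.s 4 (.s 0 (.l)
  (.l))
  (.l))
  (.s 4 (.s 2 (.l)
  (.s 1 (.s 0 (.l)
  (.l))
  (.l)))
  (.l))))
  (.s 3 (.s 0 (.l)
  (.s 0 (.l)
  (.l)))
  (.s 0 (.s 0 (.l)
  (.l))
  (.s 4 (.s 0 (.l)
  (.l))
  (.l))))))))))
  (.s 0 (.s 3 (.s 2 (.s 1 (.s 3 (.o)
  (.s 4 (.o)
  (.f (.l))))
  (.o))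
  (.o))
  (.s 4 (.s 0 (.o)
  (.s 0 (.o)
  (.o)))
  (.s 2 (.s 1 (.s 0 (.l)
  (.l))
  (.s 0 (.f (.l))
  (.f (.l))))
  (.s 1 (.s 3 (.f (.s 0 (.o)
  (.l)))
  (.f (.s 0 (.l)
  (.l))))
  (.s 0 (.o)
  (.f (.s 2 (.l)
  (.o))))))))
  (.s 3 (.s 4 (.s 2 (.s 0 (.s 0 (.o)
  (.o))
  (.s 1 (.f (.s 3 (.s 4 (.o)
  (.s 2 (.s 0 (.o)
  (.o))
  (.o)))
  (.s 4 (.o)
  (.s 0 (.o)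
  (.s 2 (.o)
  (.o))))))
  (.f (.s 3 (.s 4 (.o)
  (.s 2 (.s 0 (.o)
  (.o))
  (.o)))
  (.s 4 (.o)
  (.s 0 (.o)
  (.s 2 (.o)
  (.s 0 (.o)
  (.o)))))))))
  (.s 3 (.o)
  (.s 0 (.f (.s 2 (.s 0 (.o)
  (.o))
  (.o)))
  (.f (.s 1 (.s 4 (.o)
  (.s 2 (.s 0 (.o)
  (.s 0 (.o)
  (.s 2 (.o)
  (.o))))
  (.s 3 (.o)
  (.s 0 (.s 0 (.o)
  (.o))
  (.s 1 (.s 4 (.o)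
  (.s 0 (.o)
  (.s 2 (.o)
  (.s 0 (.o)
  (.o)))))
  (.s 4 (.o)
  (.s 2 (.l)
  (.o))))))))
  (.s 4 (.o)
  (.s 2 (.s 1 (.s 2 (.s 0 (.o)
  (.o))
  (.o))
  (.o))
  (.o))))))))
  (.s 2 (.f (.s 1 (.s 3 (.s 0 (.o)
  (.l))
  (.l))
  (.s 3 (.s 0 (.o)
  (.l))
  (.s 0 (.l)
  (.l)))))
  (.f (.s 3 (.o)
  (.s 0 (.s 0 (.o)
  (.l))
  (.s 1 (.l)
  (.l)))))))
  (.s 4 (.s 2 (.s 0 (.o)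
  (.s 0 (.o)
  (.s 2 (.o)
  (.s 1 (.o)
  (.o)))))
  (.s 3 (.f (.s 0 (.s 0 (.o)
  (.s 1 (.o)
  (.o)))
  (.s 1 (.s 4 (.o)
  (.s 2 (.s 0 (.o)
  (.s 0 (.o)
  (.o)))
  (.s 0 (.s 0 (.o)
  (.o))
  (.s 3 (.s 1 (.s 4 (.o)
  (.s 0 (.o)
  (.s 2 (.o)
  (.o))))
  (.s 4 (.o)
  (.s 0 (.o)
  (.s 2 (.o)
  (.s 0 (.o)
  (.o))))))
  (.s 0 (.o)
  (.s 2 (.o)
  (.s 1 (.o)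
  (.o))))))))
  (.s 4 (.o)
  (.s 2 (.s 0 (.o)
  (.s 2 (.o)
  (.s 0 (.o)
  (.o))))
  (.s 0 (.s 0 (.o)
  (.o))
  (.s 3 (.s 2 (.s 1 (.s 0 (.o)
  (.o))
  (.o))
  (.o))
  (.s 1 (.s 4 (.o)
  (.s 0 (.o)
  (.s 2 (.o)
  (.s 0 (.o)
  (.o)))))
  (.s 4 (.o)
  (.s 2 (.s 0 (.o)
  (.o))
  (.o)))))))))))
  (.f (.s 0 (.s 0 (.o)
  (.o))
  (.s 1 (.s 4 (.o)
  (.s 2 (.s 0 (.o)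
  (.o))
  (.s 0 (.o)
  (.s 2 (.o)
  (.s 0 (.o)
  (.o))))))
  (.s 4 (.o)
  (.s 2 (.s 0 (.o)
  (.s 0 (.o)
  (.o)))
  (.s 0 (.o)
  (.s 0 (.o)
  (.s 2 (.o)
  (.s 1 (.o)
  (.o))))))))))))
  (.s 2 (.f (.s 1 (.s 3 (.s 0 (.l)
  (.l))
  (.s 0 (.l)
  (.l)))
  (.s 0 (.s 0 (.l)
  (.l))
  (.s 3 (.l)
  (.l)))))
  (.f (.s 0 (.s 3 (.s 1 (.l)
  (.l))
  (.s 1 (.s 0 (.l)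
  (.l))
  (.s 0 (.l)
  (.l))))
  (.s 3 (.s 1 (.s 0 (.l)
  (.l))
  (.s 0 (.l)
  (.l)))
  (.s 1 (.s 4 (.s 0 (.l)
  (.l))
  (.l))
  (.s 4 (.s 0 (.l)
  (.l))
  (.l))))))))))))
  (.s 2 (.s 1 (.s 3 (.s 0 (.f (.l))
  (.f (.l)))
  (.s 0 (.l)
  (.l)))
  (.s 3 (.s 0 (.l)
  (.f (.l)))
  (.s 0 (.f (.l))
  (.f (.l)))))
  (.s 0 (.s 1 (.s 3 (.l)
  (.l))
  (.s 3 (.l)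
  (.l)))
  (.s 1 (.f (.s 3 (.l)
  (.l)))
  (.f (.s 3 (.l)
  (.l)))))))
  (.s 4 (.s 0 (.l)
  (.f (.l)))
  (.f (.l)))))
  (.f (.l)))
  (.f (.l))))
  (.f (.l))

theorem chkU55 : chkBoxU 15 9 13 7 WU TU55 = true := by decide +kernel

/-- subdivision tree of the box 56 -/
def TU56 : TU :=
  .s 4 (.f (.s 4 (.s 4 (.f (.s 4 (.s 4 (.s 2 (.s 1 (.s 3 (.s 0 (.s 4 (.o)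
  (.s 2 (.s 1 (.s 0 (.f (.l))
  (.f (.l)))
  (.s 0 (.f (.l))
  (.f (.l))))
  (.s 1 (.s 0 (.l)
  (.f (.l)))
  (.s 0 (.f (.l))
  (.f (.l))))))
  (.s 4 (.s 0 (.o)
  (.s 0 (.o)
  (.o)))
  (.s 2 (.s 1 (.s 3 (.f (.s 0 (.l)
  (.l)))
  (.f (.l)))
  (.f (.s 3 (.l)
  (.l))))
  (.s 1 (.s 3 (.f (.s 0 (.l)
  (.l)))
  (.f (.l)))
  (.s 3 (.f (.l))
  (.f (.l)))))))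
  (.s 3 (.s 1 (.o)
  (.s 0 (.s 4 (.s 0 (.o)
  (.o))
  (.s 0 (.l)
  (.l)))
  (.s 1 (.o)
  (.s 4 (.s 0 (.o)
  (.s 0 (.o)
  (.o)))
  (.f (.s 0 (.l)
  (.l)))))))
  (.o)))
  (.s 0 (.s 3 (.s 4 (.s 0 (.o)
  (.o))
  (.s 2 (.s 1 (.s 0 (.f (.l))
  (.l))
  (.s 3 (.l)
  (.f (.l))))
  (.s 1 (.s 0 (.f (.l))
  (.l))
  (.s 0 (.f (.l))
  (.f (.l))))))
  (.s 4 (.s 0 (.o)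
  (.o))
  (.s 2 (.s 0 (.s 3 (.f (.l))
  (.o))
  (.s 1 (.l)
  (.l)))
  (.s 3 (.s 0 (.f (.l))
  (.f (.l)))
  (.o)))))
  (.s 3 (.s 4 (.s 0 (.o)
  (.s 2 (.o)
  (.s 0 (.o)
  (.o))))
  (.s 1 (.s 3 (.s 2 (.f (.l))
  (.f (.l)))
  (.f (.s 0 (.l)
  (.l))))
  (.s 3 (.s 0 (.f (.s 0 (.l)
  (.l)))
  (.f (.s 2 (.l)
  (.l))))
  (.s 2 (.l)
  (.f (.l))))))
  (.s 4 (.s 1 (.s 3 (.s 0 (.o)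
  (.s 2 (.o)
  (.f (.s 0 (.o)
  (.o)))))
  (.s 0 (.o)
  (.s 2 (.o)
  (.f (.s 0 (.o)
  (.o))))))
  (.s 0 (.s 0 (.o)
  (.o))
  (.s 2 (.o)
  (.f (.s 0 (.o)
  (.o))))))
  (.s 2 (.s 1 (.s 3 (.f (.l))
  (.l))
  (.s 3 (.l)
  (.f (.s 0 (.l)
  (.l)))))
  (.f (.s 1 (.s 0 (.l)
  (.l))
  (.s 3 (.l)
  (.s 0 (.l)
  (.l))))))))))
  (.s 1 (.s 0 (.s 3 (.s 4 (.s 2 (.o)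
  (.s 0 (.o)
  (.o)))
  (.s 2 (.s 1 (.s 3 (.f (.s 0 (.l)
  (.l)))
  (.f (.l)))
  (.s 0 (.f (.l))
  (.f (.l))))
  (.s 1 (.s 3 (.f (.s 0 (.l)
  (.s 0 (.l)
  (.l))))
  (.f (.s 0 (.l)
  (.l))))
  (.s 3 (.f (.s 0 (.l)
  (.l)))
  (.f (.s 0 (.l)
  (.l)))))))
  (.s 2 (.s 1 (.o)
  (.s 3 (.s 4 (.o)
  (.f (.l)))
  (.o)))
  (.o)))
  (.s 3 (.s 4 (.s 2 (.s 0 (.o)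
  (.s 0 (.o)
  (.o)))
  (.f (.s 1 (.s 0 (.o)
  (.s 0 (.o)
  (.s 2 (.o)
  (.s 3 (.o)
  (.s 0 (.o)
  (.o))))))
  (.s 3 (.s 0 (.o)
  (.s 4 (.o)
  (.s 0 (.o)
  (.s 2 (.o)
  (.s 0 (.o)
  (.o))))))
  (.s 0 (.s 0 (.o)
  (.o))
  (.s 4 (.o)
  (.s 2 (.s 0 (.o)
  (.o))
  (.s 0 (.o)
  (.s 2 (.o)
  (.s 0 (.o)
  (.o)))))))))))
  (.s 2 (.f (.s 1 (.s 3 (.s 0 (.l)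
  (.s 0 (.l)
  (.l)))
  (.s 0 (.l)
  (.l)))
  (.s 3 (.s 0 (.l)
  (.l))
  (.s 0 (.l)
  (.l)))))
  (.f (.s 1 (.s 3 (.s 0 (.s 4 (.s 0 (.l)
  (.l))
  (.l))
  (.s 4 (.s 2 (.l)
  (.s 1 (.s 0 (.l)
  (.l))
  (.l)))
  (.l)))
  (.s 1 (.o)
  (.s 0 (.l)
  (.s 0 (.l)
  (.l)))))
  (.s 3 (.s 0 (.s 0 (.l)
  (.l))
  (.s 4 (.s 0 (.l)
  (.l))
  (.l)))
  (.s 0 (.l)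
  (.s 0 (.l)
  (.l))))))))
  (.s 1 (.o)
  (.s 3 (.s 1 (.o)
  (.s 3 (.s 4 (.f (.s 2 (.s 0 (.o)
  (.s 0 (.o)
  (.o)))
  (.s 0 (.s 0 (.o)
  (.o))
  (.s 4 (.o)
  (.s 1 (.o)
  (.s 3 (.s 2 (.s 0 (.o)
  (.o))
  (.s 0 (.o)
  (.s 4 (.o)
  (.s 1 (.o)
  (.s 0 (.o)
  (.s 0 (.o)
  (.o)))))))
  (.o)))))))
  (.f (.s 0 (.l)
  (.l))))
  (.o)))
  (.o)))))
  (.s 0 (.s 3 (.s 4 (.s 0 (.o)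
  (.s 0 (.o)
  (.o)))
  (.s 2 (.s 1 (.s 0 (.l)
  (.l))
  (.s 0 (.f (.l))
  (.f (.l))))
  (.s 1 (.s 3 (.f (.s 0 (.l)
  (.l)))
  (.f (.s 0 (.o)
  (.l))))
  (.s 0 (.o)
  (.f (.s 2 (.l)
  (.o)))))))
  (.s 2 (.s 1 (.s 3 (.s 4 (.o)
  (.f (.l)))
  (.o))
  (.o))
  (.o)))
  (.s 3 (.s 4 (.s 2 (.s 0 (.o)
  (.s 0 (.o)
  (.s 2 (.o)
  (.s 1 (.o)
  (.o)))))
  (.s 3 (.f (.s 0 (.s 0 (.o)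
  (.o))
  (.s 1 (.s 4 (.o)
  (.s 2 (.s 0 (.o)
  (.o))
  (.s 0 (.o)
  (.s 2 (.o)
  (.s 0 (.o)
  (.o))))))
  (.s 4 (.o)
  (.s 2 (.s 0 (.o)
  (.s 0 (.o)
  (.o)))
  (.s 0 (.o)
  (.s 0 (.o)
  (.s 2 (.o)
  (.s 1 (.o)
  (.o))))))))))
  (.f (.s 0 (.s 0 (.o)
  (.s 1 (.o)
  (.o)))
  (.s 1 (.s 4 (.o)
  (.s 2 (.s 0 (.o)
  (.s 0 (.o)
  (.o)))
  (.s 0 (.s 0 (.o)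
  (.o))
  (.s 3 (.s 0 (.o)
  (.s 2 (.o)
  (.s 1 (.o)
  (.o))))
  (.s 1 (.s 4 (.o)
  (.s 0 (.o)
  (.s 2 (.o)
  (.o))))
  (.s 4 (.o)
  (.s 0 (.o)
  (.s 2 (.o)
  (.s 0 (.o)
  (.o))))))))))
  (.s 4 (.o)
  (.s 2 (.s 0 (.o)
  (.s 2 (.o)
  (.s 0 (.o)
  (.o))))
  (.s 0 (.s 0 (.o)
  (.o))
  (.s 3 (.s 1 (.s 4 (.o)
  (.s 0 (.o)
  (.s 2 (.o)
  (.s 0 (.o)
  (.o)))))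
  (.s 4 (.o)
  (.s 2 (.s 0 (.o)
  (.o))
  (.o))))
  (.s 2 (.s 1 (.s 0 (.o)
  (.o))
  (.o))
  (.o)))))))))))
  (.s 2 (.f (.s 1 (.s 3 (.s 0 (.l)
  (.l))
  (.s 0 (.l)
  (.l)))
  (.s 0 (.s 0 (.l)
  (.l))
  (.s 3 (.l)
  (.l)))))
  (.f (.s 0 (.s 3 (.s 1 (.s 0 (.l)
  (.l))
  (.s 0 (.l)
  (.l)))
  (.s 1 (.l)
  (.l)))
  (.s 3 (.s 1 (.s 4 (.s 0 (.l)
  (.l))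
  (.l))
  (.s 4 (.s 0 (.l)
  (.l))
  (.l)))
  (.s 1 (.s 0 (.l)
  (.l))
  (.s 0 (.l)
  (.l))))))))
  (.s 4 (.s 2 (.s 0 (.s 0 (.o)
  (.o))
  (.s 1 (.f (.s 3 (.s 4 (.o)
  (.s 0 (.o)
  (.s 2 (.o)
  (.o))))
  (.s 4 (.o)
  (.s 2 (.s 0 (.o)
  (.o))
  (.o)))))
  (.f (.s 3 (.s 4 (.o)
  (.s 0 (.o)
  (.s 2 (.o)
  (.s 0 (.o)
  (.o)))))
  (.s 4 (.o)
  (.s 2 (.s 0 (.o)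
  (.o))
  (.o)))))))
  (.s 3 (.s 0 (.f (.s 2 (.s 0 (.o)
  (.o))
  (.o)))
  (.f (.s 1 (.s 4 (.o)
  (.s 2 (.s 0 (.o)
  (.s 0 (.o)
  (.s 2 (.o)
  (.o))))
  (.s 3 (.s 0 (.s 0 (.o)
  (.o))
  (.s 1 (.s 4 (.o)
  (.s 0 (.o)
  (.s 2 (.o)
  (.s 0 (.o)
  (.o)))))
  (.s 4 (.o)
  (.s 2 (.l)
  (.o)))))
  (.o))))
  (.s 4 (.o)
  (.s 2 (.s 1 (.s 2 (.s 0 (.o)
  (.o))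
  (.o))
  (.o))
  (.o))))))
  (.o)))
  (.s 2 (.f (.s 1 (.s 3 (.l)
  (.s 0 (.o)
  (.l)))
  (.s 3 (.s 0 (.l)
  (.l))
  (.s 0 (.o)
  (.l)))))
  (.f (.s 3 (.s 0 (.s 0 (.o)
  (.l))
  (.s 1 (.l)
  (.l)))
  (.o)))))))))
  (.s 2 (.s 1 (.s 3 (.s 0 (.l)
  (.l))
  (.s 0 (.f (.l))
  (.f (.l))))
  (.s 3 (.s 0 (.f (.l))
  (.f (.l)))
  (.s 0 (.l)
  (.f (.l)))))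
  (.s 0 (.s 1 (.s 3 (.l)
  (.l))
  (.s 3 (.l)
  (.l)))
  (.s 1 (.f (.s 3 (.l)
  (.l)))
  (.f (.s 3 (.l)
  (.l)))))))
  (.s 4 (.s 0 (.l)
  (.f (.l)))
  (.f (.l)))))
  (.f (.l)))
  (.f (.l))))
  (.f (.l))

theorem chkU56 : chkBoxU 15 9 13 9 WU TU56 = true := by decide +kernel

/-- subdivision tree of the box 57 -/
def TU57 : TU :=
  .s 4 (.f (.s 4 (.s 4 (.f (.s 4 (.s 3 (.s 2 (.s 0 (.o)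
  (.s 1 (.o)
  (.s 4 (.s 2 (.s 0 (.o)
  (.s 1 (.o)
  (.s 3 (.f (.s 4 (.s 0 (.o)
  (.o))
  (.l)))
  (.o))))
  (.o))
  (.f (.l)))))
  (.o))
  (.o))
  (.s 4 (.s 0 (.o)
  (.l))
  (.f (.l)))))
  (.f (.l)))
  (.f (.l))))
  (.f (.l))

theorem chkU57 : chkBoxU 15 9 13 11 WU TU57 = true := by decide +kernel

/-- subdivision tree of the box 58 -/
def TU58 : TU :=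
  .s 4 (.f (.s 4 (.s 4 (.f (.s 4 (.s 4 (.s 0 (.s 3 (.o)
  (.s 1 (.s 2 (.s 4 (.s 1 (.f (.s 0 (.s 3 (.o)
  (.s 2 (.o)
  (.o)))
  (.s 3 (.s 2 (.s 0 (.o)
  (.o))
  (.o))
  (.s 2 (.o)
  (.s 4 (.o)
  (.s 0 (.o)
  (.s 2 (.o)
  (.s 0 (.o)
  (.o)))))))))
  (.s 0 (.s 2 (.o)
  (.o))
  (.f (.s 3 (.s 2 (.s 0 (.o)
  (.o))
  (.o))
  (.s 2 (.s 0 (.o)
  (.o))
  (.s 4 (.o)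
  (.s 2 (.s 0 (.o)
  (.o))
  (.o))))))))
  (.f (.s 1 (.s 3 (.s 2 (.s 0 (.o)
  (.l))
  (.o))
  (.s 0 (.s 2 (.s 0 (.l)
  (.l))
  (.s 2 (.l)
  (.o)))
  (.s 2 (.s 4 (.l)
  (.l))
  (.s 4 (.s 0 (.l)
  (.l))
  (.l)))))
  (.s 3 (.s 2 (.s 0 (.o)
  (.l))
  (.o))
  (.s 0 (.s 2 (.l)
  (.o))
  (.s 2 (.l)
  (.s 0 (.o)
  (.l))))))))
  (.f (.s 2 (.s 1 (.s 3 (.o)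
  (.s 0 (.o)
  (.s 2 (.s 1 (.s 4 (.s 4 (.o)
  (.s 2 (.s 3 (.o)
  (.s 0 (.o)
  (.o)))
  (.o)))
  (.s 0 (.o)
  (.l)))
  (.o))
  (.o))))
  (.o))
  (.o))))
  (.s 2 (.s 2 (.s 1 (.s 3 (.o)
  (.f (.s 0 (.o)
  (.s 4 (.s 0 (.o)
  (.o))
  (.l)))))
  (.o))
  (.o))
  (.o))))
  (.s 1 (.s 2 (.s 3 (.f (.s 1 (.o)
  (.s 2 (.s 3 (.o)
  (.s 0 (.o)
  (.s 1 (.o)
  (.s 4 (.s 2 (.s 4 (.o)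
  (.s 0 (.o)
  (.s 3 (.o)
  (.s 4 (.o)
  (.s 1 (.o)
  (.s 2 (.s 0 (.o)
  (.o))
  (.o)))))))
  (.o))
  (.l)))))
  (.o))))
  (.f (.s 4 (.s 1 (.s 0 (.s 3 (.s 1 (.o)
  (.s 3 (.o)
  (.s 2 (.s 4 (.o)
  (.s 0 (.o)
  (.s 1 (.o)
  (.s 2 (.o)
  (.s 0 (.o)
  (.o))))))
  (.s 4 (.o)
  (.s 2 (.s 1 (.o)
  (.s 0 (.o)
  (.s 4 (.o)
  (.s 2 (.s 2 (.o)
  (.o))
  (.o)))))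
  (.o))))))
  (.s 2 (.s 4 (.o)
  (.s 0 (.o)
  (.s 2 (.o)
  (.s 0 (.o)
  (.o)))))
  (.s 4 (.o)
  (.s 1 (.s 3 (.s 1 (.o)
  (.s 3 (.o)
  (.s 0 (.s 2 (.o)
  (.s 2 (.o)
  (.o)))
  (.s 2 (.s 4 (.o)
  (.s 1 (.o)
  (.s 2 (.o)
  (.s 0 (.o)
  (.s 0 (.o)
  (.o))))))
  (.s 4 (.o)
  (.s 0 (.s 1 (.o)
  (.s 3 (.o)
  (.s 2 (.o)
  (.s 0 (.o)
  (.o)))))
  (.o)))))))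
  (.s 0 (.s 2 (.o)
  (.s 4 (.o)
  (.s 2 (.o)
  (.s 0 (.o)
  (.o)))))
  (.s 2 (.s 4 (.o)
  (.s 2 (.o)
  (.s 0 (.o)
  (.o))))
  (.s 4 (.o)
  (.s 0 (.s 2 (.o)
  (.s 1 (.o)
  (.s 3 (.s 4 (.o)
  (.l))
  (.o))))
  (.o))))))
  (.s 3 (.s 0 (.s 2 (.s 0 (.o)
  (.o))
  (.s 4 (.o)
  (.s 2 (.s 0 (.o)
  (.o))
  (.o))))
  (.s 2 (.s 4 (.o)
  (.s 0 (.s 2 (.o)
  (.o))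
  (.s 2 (.o)
  (.s 2 (.o)
  (.s 0 (.o)
  (.s 1 (.o)
  (.o)))))))
  (.s 4 (.o)
  (.s 1 (.s 3 (.s 2 (.s 1 (.o)
  (.s 0 (.o)
  (.o)))
  (.o))
  (.s 0 (.s 2 (.s 0 (.o)
  (.o))
  (.s 0 (.o)
  (.o)))
  (.s 1 (.o)
  (.o))))
  (.s 3 (.s 2 (.s 2 (.s 0 (.o)
  (.s 0 (.o)
  (.o)))
  (.o))
  (.o))
  (.s 0 (.s 2 (.s 2 (.o)
  (.o))
  (.o))
  (.s 1 (.o)
  (.o))))))))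
  (.s 0 (.s 2 (.o)
  (.s 4 (.o)
  (.s 3 (.s 1 (.s 0 (.o)
  (.s 2 (.o)
  (.s 0 (.o)
  (.o))))
  (.s 2 (.s 0 (.o)
  (.o))
  (.o)))
  (.s 0 (.o)
  (.s 2 (.o)
  (.s 0 (.o)
  (.o)))))))
  (.s 2 (.s 4 (.o)
  (.s 2 (.o)
  (.s 0 (.o)
  (.s 0 (.o)
  (.o)))))
  (.s 4 (.o)
  (.s 3 (.s 1 (.s 0 (.s 2 (.s 0 (.o)
  (.o))
  (.s 4 (.o)
  (.l)))
  (.o))
  (.s 0 (.s 2 (.s 0 (.o)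
  (.o))
  (.s 0 (.o)
  (.o)))
  (.o)))
  (.s 0 (.s 1 (.s 2 (.o)
  (.s 1 (.o)
  (.o)))
  (.s 2 (.s 0 (.o)
  (.o))
  (.s 1 (.o)
  (.o))))
  (.o)))))))))))
  (.s 3 (.s 1 (.o)
  (.s 3 (.o)
  (.s 2 (.s 4 (.o)
  (.s 1 (.o)
  (.s 3 (.o)
  (.s 0 (.s 2 (.o)
  (.s 4 (.o)
  (.s 1 (.o)
  (.s 3 (.o)
  (.s 0 (.s 0 (.o)
  (.o))
  (.s 2 (.o)
  (.s 0 (.o)
  (.o))))))))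
  (.s 2 (.s 4 (.o)
  (.s 1 (.o)
  (.s 3 (.o)
  (.s 0 (.o)
  (.s 2 (.o)
  (.o))))))
  (.s 4 (.o)
  (.s 0 (.s 0 (.s 2 (.o)
  (.o))
  (.o))
  (.o))))))))
  (.s 4 (.o)
  (.s 0 (.s 2 (.s 4 (.o)
  (.s 0 (.s 1 (.o)
  (.s 2 (.s 1 (.o)
  (.s 3 (.o)
  (.s 4 (.o)
  (.l))))
  (.o)))
  (.o)))
  (.o))
  (.o))))))
  (.s 2 (.s 4 (.o)
  (.s 1 (.s 0 (.s 2 (.o)
  (.s 0 (.o)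
  (.s 2 (.o)
  (.s 3 (.s 0 (.o)
  (.o))
  (.o)))))
  (.s 3 (.s 1 (.o)
  (.s 3 (.o)
  (.s 2 (.s 4 (.o)
  (.s 1 (.o)
  (.s 0 (.o)
  (.s 0 (.o)
  (.o)))))
  (.s 4 (.o)
  (.s 0 (.s 2 (.o)
  (.o))
  (.o))))))
  (.s 2 (.s 0 (.o)
  (.o))
  (.s 4 (.o)
  (.s 0 (.s 2 (.o)
  (.o))
  (.o))))))
  (.s 0 (.s 2 (.o)
  (.s 3 (.s 4 (.o)
  (.s 0 (.s 0 (.o)
  (.o))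
  (.s 2 (.o)
  (.s 2 (.o)
  (.s 0 (.o)
  (.o))))))
  (.s 4 (.o)
  (.s 0 (.o)
  (.s 2 (.o)
  (.s 0 (.o)
  (.o)))))))
  (.s 3 (.s 2 (.s 4 (.o)
  (.s 2 (.o)
  (.s 0 (.o)
  (.o))))
  (.s 4 (.o)
  (.s 0 (.s 2 (.s 0 (.o)
  (.o))
  (.o))
  (.o))))
  (.s 2 (.s 4 (.o)
  (.s 2 (.o)
  (.s 0 (.o)
  (.o))))
  (.s 4 (.o)
  (.s 0 (.s 2 (.o)
  (.o))
  (.o))))))))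
  (.s 4 (.o)
  (.s 0 (.s 2 (.s 0 (.s 1 (.s 2 (.s 3 (.s 0 (.o)
  (.o))
  (.o))
  (.o))
  (.s 2 (.s 3 (.s 4 (.o)
  (.s 0 (.o)
  (.s 2 (.o)
  (.o))))
  (.s 0 (.o)
  (.o)))
  (.o)))
  (.o))
  (.o))
  (.o))))))
  (.s 0 (.s 3 (.s 2 (.s 4 (.o)
  (.s 0 (.s 2 (.o)
  (.o))
  (.s 2 (.o)
  (.s 3 (.o)
  (.s 0 (.o)
  (.s 2 (.o)
  (.o)))))))
  (.s 2 (.s 4 (.o)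
  (.s 1 (.s 0 (.o)
  (.s 3 (.o)
  (.s 4 (.o)
  (.s 2 (.s 0 (.o)
  (.s 2 (.o)
  (.o)))
  (.o)))))
  (.o)))
  (.o)))
  (.s 2 (.s 4 (.o)
  (.s 3 (.s 0 (.s 0 (.o)
  (.o))
  (.s 2 (.o)
  (.s 0 (.o)
  (.s 2 (.o)
  (.o)))))
  (.s 0 (.o)
  (.s 2 (.o)
  (.s 0 (.o)
  (.o))))))
  (.s 4 (.s 0 (.o)
  (.o))
  (.s 3 (.s 0 (.s 2 (.s 2 (.o)
  (.o))
  (.o))
  (.s 1 (.s 2 (.s 4 (.o)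
  (.s 0 (.s 2 (.o)
  (.s 0 (.o)
  (.o)))
  (.s 3 (.s 1 (.s 2 (.o)
  (.s 4 (.o)
  (.l)))
  (.s 2 (.o)
  (.o)))
  (.s 2 (.o)
  (.s 1 (.s 4 (.o)
  (.l))
  (.s 2 (.o)
  (.o)))))))
  (.s 4 (.o)
  (.s 2 (.s 2 (.s 3 (.o)
  (.s 1 (.s 0 (.o)
  (.o))
  (.o)))
  (.o))
  (.o))))
  (.s 2 (.s 4 (.o)
  (.s 2 (.s 0 (.o)
  (.s 2 (.o)
  (.o)))
  (.o)))
  (.o))))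
  (.s 0 (.s 1 (.s 2 (.s 0 (.o)
  (.o))
  (.s 4 (.o)
  (.s 2 (.s 0 (.o)
  (.o))
  (.o))))
  (.s 2 (.s 0 (.o)
  (.o))
  (.o)))
  (.s 1 (.s 2 (.s 4 (.o)
  (.s 3 (.s 0 (.s 0 (.o)
  (.o))
  (.s 2 (.o)
  (.s 2 (.o)
  (.s 0 (.o)
  (.o)))))
  (.s 0 (.s 0 (.o)
  (.o))
  (.s 2 (.o)
  (.s 0 (.o)
  (.s 2 (.o)
  (.o)))))))
  (.s 4 (.o)
  (.s 0 (.s 3 (.s 2 (.s 2 (.o)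
  (.o))
  (.o))
  (.s 1 (.s 2 (.s 0 (.o)
  (.o))
  (.o))
  (.s 2 (.s 2 (.o)
  (.o))
  (.o))))
  (.o))))
  (.s 2 (.s 4 (.o)
  (.s 3 (.s 0 (.s 2 (.o)
  (.o))
  (.s 2 (.o)
  (.s 2 (.s 0 (.o)
  (.o))
  (.o))))
  (.s 0 (.s 2 (.o)
  (.o))
  (.s 2 (.o)
  (.s 2 (.o)
  (.s 0 (.o)
  (.o)))))))
  (.s 0 (.o)
  (.o)))))))))
  (.s 3 (.s 2 (.s 4 (.s 0 (.o)
  (.o))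
  (.s 0 (.s 1 (.s 3 (.s 1 (.o)
  (.s 3 (.o)
  (.s 2 (.s 0 (.o)
  (.o))
  (.s 4 (.o)
  (.s 2 (.s 1 (.o)
  (.s 0 (.o)
  (.s 0 (.o)
  (.o))))
  (.o))))))
  (.s 2 (.s 0 (.o)
  (.o))
  (.s 4 (.o)
  (.s 0 (.s 2 (.o)
  (.s 0 (.o)
  (.s 1 (.o)
  (.o))))
  (.s 1 (.s 3 (.s 1 (.o)
  (.s 2 (.o)
  (.s 4 (.o)
  (.l))))
  (.s 2 (.o)
  (.s 4 (.o)
  (.l))))
  (.s 3 (.s 2 (.s 0 (.o)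
  (.o))
  (.s 4 (.o)
  (.l)))
  (.s 2 (.o)
  (.s 4 (.o)
  (.l)))))))))
  (.s 3 (.s 2 (.s 4 (.o)
  (.s 2 (.o)
  (.s 0 (.o)
  (.o))))
  (.s 4 (.o)
  (.s 2 (.s 1 (.s 3 (.o)
  (.s 0 (.o)
  (.l)))
  (.o))
  (.o))))
  (.s 2 (.s 4 (.o)
  (.s 2 (.o)
  (.s 0 (.o)
  (.o))))
  (.s 4 (.o)
  (.s 0 (.s 2 (.o)
  (.s 2 (.o)
  (.o)))
  (.s 3 (.s 1 (.s 2 (.s 0 (.o)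
  (.o))
  (.s 0 (.o)
  (.o)))
  (.s 2 (.s 0 (.o)
  (.l))
  (.o)))
  (.s 1 (.s 2 (.s 0 (.o)
  (.o))
  (.s 4 (.o)
  (.l)))
  (.s 2 (.s 0 (.o)
  (.o))
  (.s 0 (.o)
  (.o))))))))))
  (.s 1 (.s 3 (.s 1 (.o)
  (.s 3 (.o)
  (.s 2 (.s 4 (.o)
  (.s 1 (.o)
  (.s 3 (.o)
  (.s 0 (.s 2 (.o)
  (.s 0 (.o)
  (.o)))
  (.s 2 (.o)
  (.o))))))
  (.s 1 (.o)
  (.o)))))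
  (.s 2 (.s 4 (.o)
  (.s 0 (.s 2 (.o)
  (.s 0 (.o)
  (.o)))
  (.s 2 (.o)
  (.o))))
  (.s 4 (.o)
  (.s 0 (.s 2 (.s 0 (.s 2 (.o)
  (.o))
  (.o))
  (.o))
  (.o)))))
  (.s 3 (.s 2 (.s 4 (.o)
  (.s 0 (.s 2 (.o)
  (.s 1 (.s 2 (.o)
  (.s 0 (.o)
  (.o)))
  (.s 3 (.l)
  (.s 4 (.o)
  (.l)))))
  (.s 0 (.s 2 (.o)
  (.o))
  (.o))))
  (.o))
  (.s 2 (.s 4 (.o)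
  (.s 0 (.s 2 (.o)
  (.s 2 (.o)
  (.s 0 (.o)
  (.o))))
  (.s 0 (.s 2 (.o)
  (.o))
  (.o))))
  (.s 4 (.o)
  (.s 0 (.s 0 (.s 2 (.s 2 (.o)
  (.o))
  (.o))
  (.o))
  (.o))))))))
  (.s 4 (.o)
  (.s 0 (.s 2 (.s 0 (.s 1 (.s 3 (.o)
  (.s 4 (.o)
  (.s 2 (.s 3 (.o)
  (.s 1 (.s 4 (.o)
  (.l))
  (.s 4 (.o)
  (.l))))
  (.o))))
  (.o))
  (.o))
  (.o))
  (.o))))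
  (.s 2 (.s 4 (.o)
  (.s 3 (.s 0 (.s 1 (.s 2 (.s 0 (.o)
  (.o))
  (.s 4 (.o)
  (.s 0 (.s 2 (.o)
  (.o))
  (.s 2 (.o)
  (.s 0 (.s 2 (.o)
  (.o))
  (.o))))))
  (.s 2 (.s 0 (.o)
  (.o))
  (.s 4 (.o)
  (.s 0 (.s 2 (.o)
  (.s 0 (.o)
  (.o)))
  (.s 3 (.s 1 (.s 2 (.o)
  (.s 4 (.o)
  (.l)))
  (.s 2 (.s 0 (.o)
  (.o))
  (.s 4 (.o)
  (.l))))
  (.s 2 (.o)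
  (.s 0 (.s 2 (.o)
  (.o))
  (.o))))))))
  (.s 1 (.s 2 (.s 4 (.o)
  (.s 0 (.s 0 (.o)
  (.o))
  (.s 2 (.o)
  (.o))))
  (.s 4 (.o)
  (.s 0 (.s 2 (.s 0 (.o)
  (.o))
  (.o))
  (.o))))
  (.s 2 (.s 4 (.o)
  (.s 0 (.s 2 (.o)
  (.s 0 (.o)
  (.o)))
  (.s 2 (.o)
  (.o))))
  (.s 4 (.o)
  (.s 0 (.s 0 (.s 2 (.s 2 (.o)
  (.o))
  (.o))
  (.o))
  (.o))))))
  (.s 0 (.s 1 (.s 2 (.o)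
  (.s 4 (.o)
  (.s 0 (.s 0 (.o)
  (.o))
  (.s 2 (.o)
  (.s 0 (.o)
  (.o))))))
  (.s 2 (.s 0 (.o)
  (.o))
  (.s 4 (.o)
  (.s 3 (.s 0 (.s 2 (.o)
  (.o))
  (.s 2 (.o)
  (.s 0 (.o)
  (.o))))
  (.s 0 (.s 0 (.o)
  (.o))
  (.s 2 (.o)
  (.s 0 (.o)
  (.o))))))))
  (.s 1 (.s 2 (.s 4 (.o)
  (.s 2 (.o)
  (.s 0 (.o)
  (.o))))
  (.s 4 (.o)
  (.s 0 (.s 2 (.s 0 (.o)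
  (.o))
  (.o))
  (.o))))
  (.s 2 (.s 4 (.o)
  (.s 3 (.s 0 (.s 0 (.o)
  (.o))
  (.s 2 (.o)
  (.o)))
  (.s 2 (.o)
  (.s 0 (.o)
  (.o)))))
  (.s 4 (.o)
  (.s 3 (.s 0 (.s 0 (.s 2 (.o)
  (.o))
  (.o))
  (.o))
  (.o))))))))
  (.s 4 (.o)
  (.s 0 (.s 2 (.s 0 (.s 2 (.s 3 (.s 1 (.s 4 (.o)
  (.s 3 (.s 1 (.s 4 (.o)
  (.l))
  (.s 4 (.o)
  (.l)))
  (.s 0 (.o)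
  (.s 2 (.o)
  (.o)))))
  (.s 4 (.o)
  (.s 3 (.s 1 (.s 4 (.o)
  (.l))
  (.o))
  (.s 1 (.s 4 (.o)
  (.l))
  (.s 0 (.o)
  (.o))))))
  (.s 1 (.s 4 (.o)
  (.s 0 (.o)
  (.s 2 (.o)
  (.o))))
  (.s 4 (.o)
  (.s 3 (.s 1 (.s 4 (.o)
  (.l))
  (.s 4 (.o)
  (.l)))
  (.s 0 (.o)
  (.o))))))
  (.o))
  (.o))
  (.o))
  (.o)))))))
  (.s 1 (.s 3 (.s 1 (.o)
  (.s 3 (.o)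
  (.s 0 (.s 2 (.l)
  (.l))
  (.s 2 (.s 0 (.l)
  (.l))
  (.s 0 (.l)
  (.l))))))
  (.s 0 (.s 2 (.s 4 (.s 0 (.l)
  (.l))
  (.l))
  (.s 4 (.s 0 (.l)
  (.s 1 (.l)
  (.l)))
  (.l)))
  (.s 2 (.s 4 (.s 1 (.s 3 (.l)
  (.s 0 (.l)
  (.l)))
  (.s 0 (.l)
  (.l)))
  (.l))
  (.s 4 (.s 1 (.s 0 (.s 2 (.l)
  (.l))
  (.s 2 (.s 0 (.l)
  (.l))
  (.o)))
  (.s 0 (.l)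
  (.s 2 (.l)
  (.o))))
  (.l)))))
  (.s 3 (.s 0 (.s 2 (.l)
  (.s 0 (.o)
  (.l)))
  (.s 2 (.s 4 (.l)
  (.l))
  (.s 4 (.l)
  (.l))))
  (.s 0 (.s 2 (.s 4 (.l)
  (.l))
  (.s 4 (.s 0 (.l)
  (.l))
  (.l)))
  (.s 2 (.s 4 (.s 3 (.l)
  (.s 0 (.l)
  (.l)))
  (.l))
  (.s 4 (.s 0 (.l)
  (.s 1 (.l)
  (.l)))
  (.l)))))))))
  (.f (.s 3 (.o)
  (.s 4 (.s 0 (.s 2 (.s 3 (.o)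
  (.s 0 (.s 1 (.s 4 (.o)
  (.s 2 (.s 3 (.o)
  (.s 1 (.s 4 (.o)
  (.s 1 (.s 3 (.s 2 (.s 1 (.o)
  (.s 2 (.s 0 (.o)
  (.o))
  (.o)))
  (.o))
  (.s 0 (.s 2 (.o)
  (.o))
  (.o)))
  (.s 3 (.s 2 (.s 2 (.s 0 (.o)
  (.s 0 (.o)
  (.o)))
  (.o))
  (.o))
  (.s 0 (.s 2 (.o)
  (.o))
  (.s 2 (.s 0 (.o)
  (.o))
  (.o))))))
  (.s 4 (.o)
  (.s 2 (.s 2 (.s 3 (.o)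
  (.s 1 (.s 0 (.o)
  (.s 0 (.o)
  (.o)))
  (.o)))
  (.o))
  (.o)))))
  (.o)))
  (.o))
  (.o)))
  (.o))
  (.o))
  (.s 0 (.s 3 (.o)
  (.s 1 (.s 2 (.s 4 (.s 1 (.s 3 (.l)
  (.s 0 (.l)
  (.s 0 (.l)
  (.l))))
  (.s 0 (.l)
  (.l)))
  (.l))
  (.s 4 (.o)
  (.l)))
  (.s 2 (.s 4 (.s 2 (.l)
  (.o))
  (.l))
  (.o))))
  (.s 2 (.s 1 (.s 3 (.s 4 (.o)
  (.l))
  (.s 4 (.o)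
  (.l)))
  (.s 3 (.s 4 (.o)
  (.l))
  (.s 4 (.o)
  (.l))))
  (.o)))))))
  (.s 2 (.s 3 (.s 2 (.s 1 (.f (.s 3 (.o)
  (.s 0 (.o)
  (.s 4 (.s 2 (.s 4 (.o)
  (.s 1 (.s 0 (.o)
  (.s 0 (.o)
  (.o)))
  (.o)))
  (.o))
  (.l)))))
  (.o))
  (.o))
  (.f (.s 4 (.s 0 (.s 3 (.s 2 (.s 1 (.s 4 (.o)
  (.s 2 (.s 3 (.o)
  (.s 0 (.o)
  (.o)))
  (.o)))
  (.o))
  (.o))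
  (.s 2 (.s 1 (.s 4 (.o)
  (.s 3 (.s 0 (.s 2 (.o)
  (.o))
  (.s 2 (.o)
  (.s 2 (.o)
  (.o))))
  (.s 0 (.s 0 (.o)
  (.o))
  (.s 2 (.o)
  (.s 2 (.o)
  (.s 0 (.o)
  (.o)))))))
  (.s 4 (.o)
  (.s 1 (.s 2 (.s 0 (.o)
  (.o))
  (.o))
  (.o))))
  (.s 1 (.s 2 (.s 4 (.o)
  (.s 3 (.o)
  (.s 0 (.o)
  (.s 1 (.s 4 (.o)
  (.s 2 (.s 3 (.o)
  (.s 2 (.o)
  (.o)))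
  (.o)))
  (.o)))))
  (.o))
  (.o))))
  (.s 3 (.s 1 (.s 2 (.s 4 (.s 0 (.o)
  (.o))
  (.s 0 (.s 3 (.s 2 (.s 1 (.s 2 (.o)
  (.o))
  (.o))
  (.o))
  (.s 1 (.s 2 (.s 4 (.o)
  (.s 2 (.o)
  (.s 0 (.o)
  (.o))))
  (.s 4 (.o)
  (.s 2 (.s 3 (.o)
  (.s 1 (.s 0 (.o)
  (.s 2 (.o)
  (.o)))
  (.o)))
  (.o))))
  (.s 2 (.s 2 (.o)
  (.o))
  (.o))))
  (.s 2 (.s 3 (.s 1 (.s 4 (.o)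
  (.s 0 (.s 3 (.s 2 (.o)
  (.o))
  (.s 2 (.o)
  (.s 0 (.o)
  (.o))))
  (.s 0 (.s 2 (.s 1 (.o)
  (.o))
  (.o))
  (.o))))
  (.s 0 (.o)
  (.o)))
  (.s 1 (.s 4 (.o)
  (.s 0 (.s 2 (.o)
  (.s 2 (.o)
  (.s 0 (.o)
  (.o))))
  (.s 0 (.s 2 (.o)
  (.o))
  (.o))))
  (.s 4 (.o)
  (.s 0 (.s 2 (.o)
  (.s 0 (.o)
  (.o)))
  (.o)))))
  (.o))))
  (.s 0 (.o)
  (.o)))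
  (.s 2 (.s 2 (.s 4 (.o)
  (.s 1 (.s 0 (.o)
  (.s 0 (.o)
  (.o)))
  (.o)))
  (.o))
  (.o)))
  (.s 1 (.s 2 (.s 4 (.s 0 (.o)
  (.o))
  (.s 3 (.s 0 (.s 1 (.s 2 (.s 4 (.o)
  (.s 2 (.o)
  (.s 0 (.o)
  (.o))))
  (.s 4 (.o)
  (.s 0 (.s 2 (.o)
  (.s 2 (.o)
  (.o)))
  (.s 3 (.s 1 (.s 2 (.s 0 (.o)
  (.o))
  (.s 0 (.o)
  (.o)))
  (.s 2 (.s 2 (.o)
  (.o))
  (.o)))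
  (.s 1 (.s 2 (.s 0 (.o)
  (.o))
  (.s 4 (.o)
  (.l)))
  (.s 2 (.s 0 (.o)
  (.o))
  (.o)))))))
  (.s 2 (.s 4 (.o)
  (.s 2 (.o)
  (.s 0 (.o)
  (.o))))
  (.s 4 (.o)
  (.s 2 (.s 3 (.o)
  (.s 0 (.o)
  (.s 2 (.o)
  (.o))))
  (.o)))))
  (.s 2 (.s 1 (.s 4 (.o)
  (.s 0 (.s 2 (.o)
  (.s 2 (.o)
  (.s 0 (.o)
  (.o))))
  (.s 0 (.s 2 (.o)
  (.o))
  (.o))))
  (.s 4 (.o)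
  (.s 0 (.s 2 (.o)
  (.s 0 (.o)
  (.o)))
  (.s 2 (.o)
  (.o)))))
  (.o)))
  (.s 0 (.s 1 (.s 2 (.s 0 (.o)
  (.o))
  (.s 4 (.o)
  (.s 3 (.s 0 (.s 2 (.o)
  (.s 0 (.o)
  (.o)))
  (.s 1 (.s 2 (.o)
  (.s 4 (.o)
  (.l)))
  (.s 2 (.o)
  (.o))))
  (.s 0 (.s 2 (.o)
  (.o))
  (.s 2 (.o)
  (.s 2 (.o)
  (.o)))))))
  (.s 2 (.s 0 (.o)
  (.o))
  (.s 4 (.o)
  (.s 0 (.s 2 (.o)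
  (.s 2 (.o)
  (.o)))
  (.s 2 (.s 0 (.o)
  (.o))
  (.o))))))
  (.s 2 (.s 1 (.s 4 (.o)
  (.s 3 (.s 0 (.s 2 (.o)
  (.o))
  (.s 2 (.o)
  (.o)))
  (.s 0 (.s 0 (.o)
  (.o))
  (.s 2 (.o)
  (.o)))))
  (.s 4 (.o)
  (.s 0 (.s 2 (.o)
  (.s 0 (.o)
  (.o)))
  (.o))))
  (.o)))))
  (.s 4 (.o)
  (.s 0 (.s 2 (.s 0 (.s 3 (.o)
  (.s 1 (.s 4 (.o)
  (.s 2 (.s 0 (.s 2 (.o)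
  (.o))
  (.o))
  (.o)))
  (.o)))
  (.o))
  (.o))
  (.o))))
  (.s 2 (.s 4 (.s 0 (.o)
  (.o))
  (.s 0 (.s 3 (.s 1 (.s 2 (.s 2 (.o)
  (.o))
  (.o))
  (.o))
  (.s 1 (.s 2 (.s 4 (.o)
  (.s 2 (.o)
  (.s 0 (.o)
  (.o))))
  (.s 4 (.o)
  (.s 2 (.s 1 (.s 0 (.o)
  (.s 0 (.o)
  (.o)))
  (.o))
  (.o))))
  (.s 2 (.s 2 (.o)
  (.o))
  (.o))))
  (.s 2 (.s 0 (.s 2 (.s 1 (.o)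
  (.o))
  (.o))
  (.o))
  (.o))))
  (.o)))))
  (.s 0 (.s 3 (.s 1 (.s 2 (.l)
  (.o))
  (.o))
  (.s 1 (.s 2 (.s 0 (.l)
  (.l))
  (.s 0 (.o)
  (.l)))
  (.s 2 (.s 0 (.o)
  (.l))
  (.o))))
  (.s 3 (.s 2 (.s 1 (.s 0 (.l)
  (.l))
  (.s 0 (.o)
  (.l)))
  (.s 1 (.s 0 (.o)
  (.l))
  (.o)))
  (.s 1 (.s 2 (.s 4 (.s 0 (.l)
  (.l))
  (.l))
  (.s 4 (.s 0 (.l)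
  (.l))
  (.l)))
  (.s 2 (.s 4 (.s 0 (.l)
  (.l))
  (.l))
  (.s 4 (.s 0 (.o)
  (.l))
  (.l)))))))))
  (.s 3 (.o)
  (.f (.s 2 (.s 3 (.o)
  (.s 0 (.o)
  (.s 4 (.o)
  (.s 1 (.s 4 (.o)
  (.l))
  (.o)))))
  (.o)))))))
  (.s 0 (.s 3 (.o)
  (.s 1 (.f (.s 2 (.l)
  (.l)))
  (.f (.s 2 (.l)
  (.o)))))
  (.s 1 (.f (.s 2 (.s 3 (.l)
  (.l))
  (.s 3 (.o)
  (.s 0 (.l)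
  (.l)))))
  (.s 2 (.f (.s 3 (.l)
  (.l)))
  (.f (.s 3 (.o)
  (.l)))))))
  (.s 4 (.s 0 (.f (.l))
  (.l))
  (.l))))
  (.f (.l)))
  (.f (.l))))
  (.f (.l))

theorem chkU58 : chkBoxU 15 9 15 7 WU TU58 = true := by decide +kernel

/-- subdivision tree of the box 59 -/
def TU59 : TU :=
  .s 4 (.f (.s 4 (.s 4 (.f (.s 4 (.s 4 (.s 0 (.s 3 (.s 1 (.s 2 (.s 4 (.s 1 (.f (.s 0 (.s 3 (.s 2 (.o)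
  (.o))
  (.o))
  (.s 3 (.s 2 (.o)
  (.s 4 (.o)
  (.s 0 (.o)
  (.s 2 (.o)
  (.s 0 (.o)
  (.o))))))
  (.s 2 (.s 0 (.o)
  (.o))
  (.o)))))
  (.s 0 (.s 2 (.o)
  (.o))
  (.f (.s 3 (.s 2 (.s 0 (.o)
  (.o))
  (.s 4 (.o)
  (.s 2 (.s 0 (.o)
  (.o))
  (.o))))
  (.s 2 (.s 0 (.o)
  (.o))
  (.o))))))
  (.f (.s 1 (.s 3 (.s 0 (.s 2 (.s 0 (.l)
  (.l))
  (.s 2 (.l)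
  (.o)))
  (.s 2 (.s 4 (.l)
  (.l))
  (.s 4 (.s 0 (.l)
  (.l))
  (.l))))
  (.s 2 (.s 0 (.o)
  (.l))
  (.o)))
  (.s 3 (.s 0 (.s 2 (.l)
  (.o))
  (.s 2 (.l)
  (.s 0 (.o)
  (.l))))
  (.s 2 (.s 0 (.o)
  (.l))
  (.o))))))
  (.f (.s 2 (.s 1 (.s 3 (.s 0 (.o)
  (.s 2 (.s 1 (.s 4 (.s 4 (.o)
  (.s 2 (.s 3 (.s 0 (.o)
  (.o))
  (.o))
  (.o)))
  (.s 0 (.o)
  (.l)))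
  (.o))
  (.o)))
  (.o))
  (.o))
  (.o))))
  (.s 2 (.s 2 (.s 1 (.s 3 (.f (.s 0 (.o)
  (.s 4 (.s 0 (.o)
  (.o))
  (.l))))
  (.o))
  (.o))
  (.o))
  (.o)))
  (.o))
  (.s 1 (.s 2 (.s 3 (.f (.s 4 (.s 1 (.s 0 (.s 3 (.s 2 (.s 4 (.o)
  (.s 0 (.o)
  (.s 2 (.o)
  (.s 0 (.o)
  (.o)))))
  (.s 4 (.o)
  (.s 1 (.s 3 (.s 0 (.s 2 (.o)
  (.s 4 (.o)
  (.s 2 (.o)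
  (.s 0 (.o)
  (.o)))))
  (.s 2 (.s 4 (.o)
  (.s 2 (.o)
  (.s 0 (.o)
  (.o))))
  (.s 4 (.o)
  (.s 0 (.s 2 (.o)
  (.s 1 (.o)
  (.s 3 (.o)
  (.s 4 (.o)
  (.l)))))
  (.o)))))
  (.s 1 (.o)
  (.s 3 (.s 0 (.s 2 (.o)
  (.s 2 (.o)
  (.o)))
  (.s 2 (.s 4 (.o)
  (.s 1 (.o)
  (.s 2 (.o)
  (.s 0 (.o)
  (.s 0 (.o)
  (.o))))))
  (.s 4 (.o)
  (.s 0 (.s 1 (.o)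
  (.s 3 (.s 2 (.o)
  (.s 0 (.o)
  (.o)))
  (.o)))
  (.o)))))
  (.o))))
  (.s 3 (.s 0 (.s 2 (.o)
  (.s 4 (.o)
  (.s 3 (.s 0 (.o)
  (.s 2 (.o)
  (.s 0 (.o)
  (.o))))
  (.s 1 (.s 0 (.o)
  (.s 2 (.o)
  (.s 0 (.o)
  (.o))))
  (.s 2 (.s 0 (.o)
  (.o))
  (.o))))))
  (.s 2 (.s 4 (.o)
  (.s 2 (.o)
  (.s 0 (.o)
  (.s 0 (.o)
  (.o)))))
  (.s 4 (.o)
  (.s 3 (.s 0 (.s 1 (.s 2 (.o)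
  (.s 1 (.o)
  (.o)))
  (.s 2 (.s 0 (.o)
  (.o))
  (.s 1 (.o)
  (.o))))
  (.o))
  (.s 1 (.s 0 (.s 2 (.s 0 (.o)
  (.o))
  (.s 4 (.o)
  (.l)))
  (.o))
  (.s 0 (.s 2 (.s 0 (.o)
  (.o))
  (.s 0 (.o)
  (.o)))
  (.o)))))))
  (.s 0 (.s 2 (.s 0 (.o)
  (.o))
  (.s 4 (.o)
  (.s 2 (.s 0 (.o)
  (.o))
  (.o))))
  (.s 2 (.s 4 (.o)
  (.s 0 (.s 2 (.o)
  (.o))
  (.s 2 (.o)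
  (.s 2 (.o)
  (.s 0 (.o)
  (.s 1 (.o)
  (.o)))))))
  (.s 4 (.o)
  (.s 1 (.s 3 (.s 0 (.s 2 (.s 0 (.o)
  (.o))
  (.s 0 (.o)
  (.o)))
  (.s 1 (.o)
  (.o)))
  (.s 2 (.s 1 (.o)
  (.s 0 (.o)
  (.o)))
  (.o)))
  (.s 3 (.s 0 (.s 2 (.s 2 (.o)
  (.o))
  (.o))
  (.s 1 (.o)
  (.o)))
  (.s 2 (.s 2 (.s 0 (.o)
  (.s 0 (.o)
  (.o)))
  (.o))
  (.o)))))))))))
  (.s 1 (.o)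
  (.s 3 (.s 2 (.s 4 (.o)
  (.s 0 (.o)
  (.s 1 (.o)
  (.s 2 (.o)
  (.s 0 (.o)
  (.o))))))
  (.s 4 (.o)
  (.s 2 (.s 1 (.o)
  (.s 0 (.o)
  (.s 4 (.o)
  (.s 2 (.s 2 (.o)
  (.o))
  (.o)))))
  (.o))))
  (.o))))
  (.s 3 (.s 2 (.s 4 (.o)
  (.s 1 (.s 0 (.s 2 (.o)
  (.s 0 (.o)
  (.s 2 (.o)
  (.s 3 (.o)
  (.s 0 (.o)
  (.o))))))
  (.s 3 (.s 2 (.s 0 (.o)
  (.o))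
  (.s 4 (.o)
  (.s 0 (.s 2 (.o)
  (.o))
  (.o))))
  (.s 1 (.o)
  (.s 3 (.s 2 (.s 4 (.o)
  (.s 1 (.o)
  (.s 0 (.o)
  (.s 0 (.o)
  (.o)))))
  (.s 4 (.o)
  (.s 0 (.s 2 (.o)
  (.o))
  (.o))))
  (.o)))))
  (.s 0 (.s 2 (.o)
  (.s 3 (.s 4 (.o)
  (.s 0 (.o)
  (.s 2 (.o)
  (.s 0 (.o)
  (.o)))))
  (.s 4 (.o)
  (.s 0 (.s 0 (.o)
  (.o))
  (.s 2 (.o)
  (.s 2 (.o)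
  (.s 0 (.o)
  (.o))))))))
  (.s 3 (.s 2 (.s 4 (.o)
  (.s 2 (.o)
  (.s 0 (.o)
  (.o))))
  (.s 4 (.o)
  (.s 0 (.s 2 (.o)
  (.o))
  (.o))))
  (.s 2 (.s 4 (.o)
  (.s 2 (.o)
  (.s 0 (.o)
  (.o))))
  (.s 4 (.o)
  (.s 0 (.s 2 (.s 0 (.o)
  (.o))
  (.o))
  (.o))))))))
  (.s 4 (.o)
  (.s 0 (.s 2 (.s 0 (.s 1 (.s 2 (.s 3 (.o)
  (.s 0 (.o)
  (.o)))
  (.o))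
  (.s 2 (.s 3 (.s 0 (.o)
  (.o))
  (.s 4 (.o)
  (.s 0 (.o)
  (.s 2 (.o)
  (.o)))))
  (.o)))
  (.o))
  (.o))
  (.o))))
  (.s 1 (.o)
  (.s 3 (.s 2 (.s 4 (.o)
  (.s 1 (.o)
  (.s 3 (.s 0 (.s 2 (.o)
  (.s 4 (.o)
  (.s 1 (.o)
  (.s 3 (.s 0 (.s 0 (.o)
  (.o))
  (.s 2 (.o)
  (.s 0 (.o)
  (.o))))
  (.o)))))
  (.s 2 (.s 4 (.o)
  (.s 1 (.o)
  (.s 3 (.s 0 (.o)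
  (.s 2 (.o)
  (.o)))
  (.o))))
  (.s 4 (.o)
  (.s 0 (.s 0 (.s 2 (.o)
  (.o))
  (.o))
  (.o)))))
  (.o))))
  (.s 4 (.o)
  (.s 0 (.s 2 (.s 4 (.o)
  (.s 0 (.s 1 (.o)
  (.s 2 (.s 1 (.o)
  (.s 3 (.s 4 (.o)
  (.l))
  (.o)))
  (.o)))
  (.o)))
  (.o))
  (.o))))
  (.o)))))
  (.s 0 (.s 3 (.s 2 (.s 4 (.o)
  (.s 3 (.s 0 (.o)
  (.s 2 (.o)
  (.s 0 (.o)
  (.o))))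
  (.s 0 (.s 0 (.o)
  (.o))
  (.s 2 (.o)
  (.s 0 (.o)
  (.s 2 (.o)
  (.o)))))))
  (.s 4 (.s 0 (.o)
  (.o))
  (.s 3 (.s 0 (.s 1 (.s 2 (.s 0 (.o)
  (.o))
  (.s 4 (.o)
  (.s 2 (.s 0 (.o)
  (.o))
  (.o))))
  (.s 2 (.s 0 (.o)
  (.o))
  (.o)))
  (.s 1 (.s 2 (.s 4 (.o)
  (.s 3 (.s 0 (.s 0 (.o)
  (.o))
  (.s 2 (.o)
  (.s 0 (.o)
  (.s 2 (.o)
  (.o)))))
  (.s 0 (.s 0 (.o)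
  (.o))
  (.s 2 (.o)
  (.s 2 (.o)
  (.s 0 (.o)
  (.o)))))))
  (.s 4 (.o)
  (.s 0 (.s 3 (.s 1 (.s 2 (.s 0 (.o)
  (.o))
  (.o))
  (.s 2 (.s 2 (.o)
  (.o))
  (.o)))
  (.s 2 (.s 2 (.o)
  (.o))
  (.o)))
  (.o))))
  (.s 2 (.s 4 (.o)
  (.s 3 (.s 0 (.s 2 (.o)
  (.o))
  (.s 2 (.o)
  (.s 2 (.o)
  (.s 0 (.o)
  (.o)))))
  (.s 0 (.s 2 (.o)
  (.o))
  (.s 2 (.o)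
  (.s 2 (.s 0 (.o)
  (.o))
  (.o))))))
  (.s 0 (.o)
  (.o)))))
  (.s 0 (.s 2 (.s 2 (.o)
  (.o))
  (.o))
  (.s 1 (.s 2 (.s 4 (.o)
  (.s 0 (.s 2 (.o)
  (.s 0 (.o)
  (.o)))
  (.s 3 (.s 2 (.o)
  (.s 1 (.s 4 (.o)
  (.l))
  (.s 2 (.o)
  (.o))))
  (.s 1 (.s 2 (.o)
  (.s 4 (.o)
  (.l)))
  (.s 2 (.o)
  (.o))))))
  (.s 4 (.o)
  (.s 2 (.s 2 (.s 3 (.s 1 (.s 0 (.o)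
  (.o))
  (.o))
  (.o))
  (.o))
  (.o))))
  (.s 2 (.s 4 (.o)
  (.s 2 (.s 0 (.o)
  (.s 2 (.o)
  (.o)))
  (.o)))
  (.o)))))))
  (.s 2 (.s 4 (.o)
  (.s 0 (.s 2 (.o)
  (.o))
  (.s 2 (.o)
  (.s 3 (.s 0 (.o)
  (.s 2 (.o)
  (.o)))
  (.o)))))
  (.s 2 (.s 4 (.o)
  (.s 1 (.s 0 (.o)
  (.s 3 (.s 4 (.o)
  (.s 2 (.s 0 (.o)
  (.s 2 (.o)
  (.o)))
  (.o)))
  (.o)))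
  (.o)))
  (.o))))
  (.s 3 (.s 2 (.s 4 (.o)
  (.s 3 (.s 0 (.s 1 (.s 2 (.o)
  (.s 4 (.o)
  (.s 0 (.s 0 (.o)
  (.o))
  (.s 2 (.o)
  (.s 0 (.o)
  (.o))))))
  (.s 2 (.s 0 (.o)
  (.o))
  (.s 4 (.o)
  (.s 3 (.s 0 (.s 0 (.o)
  (.o))
  (.s 2 (.o)
  (.s 0 (.o)
  (.o))))
  (.s 0 (.s 2 (.o)
  (.o))
  (.s 2 (.o)
  (.s 0 (.o)
  (.o))))))))
  (.s 1 (.s 2 (.s 4 (.o)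
  (.s 2 (.o)
  (.s 0 (.o)
  (.o))))
  (.s 4 (.o)
  (.s 0 (.s 2 (.s 0 (.o)
  (.o))
  (.o))
  (.o))))
  (.s 2 (.s 4 (.o)
  (.s 3 (.s 2 (.o)
  (.s 0 (.o)
  (.o)))
  (.s 0 (.s 0 (.o)
  (.o))
  (.s 2 (.o)
  (.o)))))
  (.s 4 (.o)
  (.s 3 (.o)
  (.s 0 (.s 0 (.s 2 (.o)
  (.o))
  (.o))
  (.o)))))))
  (.s 0 (.s 1 (.s 2 (.s 0 (.o)
  (.o))
  (.s 4 (.o)
  (.s 0 (.s 2 (.o)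
  (.o))
  (.s 2 (.o)
  (.s 0 (.s 2 (.o)
  (.o))
  (.o))))))
  (.s 2 (.s 0 (.o)
  (.o))
  (.s 4 (.o)
  (.s 0 (.s 2 (.o)
  (.s 0 (.o)
  (.o)))
  (.s 3 (.s 2 (.o)
  (.s 0 (.s 2 (.o)
  (.o))
  (.o)))
  (.s 1 (.s 2 (.o)
  (.s 4 (.o)
  (.l)))
  (.s 2 (.s 0 (.o)
  (.o))
  (.s 4 (.o)
  (.l)))))))))
  (.s 1 (.s 2 (.s 4 (.o)
  (.s 0 (.s 0 (.o)
  (.o))
  (.s 2 (.o)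
  (.o))))
  (.s 4 (.o)
  (.s 0 (.s 2 (.s 0 (.o)
  (.o))
  (.o))
  (.o))))
  (.s 2 (.s 4 (.o)
  (.s 0 (.s 2 (.o)
  (.s 0 (.o)
  (.o)))
  (.s 2 (.o)
  (.o))))
  (.s 4 (.o)
  (.s 0 (.s 0 (.s 2 (.s 2 (.o)
  (.o))
  (.o))
  (.o))
  (.o))))))))
  (.s 4 (.o)
  (.s 0 (.s 2 (.s 0 (.s 2 (.s 3 (.s 1 (.s 4 (.o)
  (.s 0 (.o)
  (.s 2 (.o)
  (.o))))
  (.s 4 (.o)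
  (.s 3 (.s 0 (.o)
  (.o))
  (.s 1 (.s 4 (.o)
  (.l))
  (.s 4 (.o)
  (.l))))))
  (.s 1 (.s 4 (.o)
  (.s 3 (.s 0 (.o)
  (.s 2 (.o)
  (.o)))
  (.s 1 (.s 4 (.o)
  (.l))
  (.s 4 (.o)
  (.l)))))
  (.s 4 (.o)
  (.s 3 (.s 1 (.s 4 (.o)
  (.l))
  (.s 0 (.o)
  (.o)))
  (.s 1 (.s 4 (.o)
  (.l))
  (.o))))))
  (.o))
  (.o))
  (.o))
  (.o))))
  (.s 2 (.s 4 (.s 0 (.o)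
  (.o))
  (.s 0 (.s 1 (.s 3 (.s 2 (.s 0 (.o)
  (.o))
  (.s 4 (.o)
  (.s 0 (.s 2 (.o)
  (.s 0 (.o)
  (.s 1 (.o)
  (.o))))
  (.s 1 (.s 3 (.s 2 (.o)
  (.s 4 (.o)
  (.l)))
  (.s 1 (.o)
  (.s 2 (.o)
  (.s 4 (.o)
  (.l)))))
  (.s 3 (.s 2 (.o)
  (.s 4 (.o)
  (.l)))
  (.s 2 (.s 0 (.o)
  (.o))
  (.s 4 (.o)
  (.l))))))))
  (.s 1 (.o)
  (.s 3 (.s 2 (.s 0 (.o)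
  (.o))
  (.s 4 (.o)
  (.s 2 (.s 1 (.o)
  (.s 0 (.o)
  (.s 0 (.o)
  (.o))))
  (.o))))
  (.o))))
  (.s 3 (.s 2 (.s 4 (.o)
  (.s 2 (.o)
  (.s 0 (.o)
  (.o))))
  (.s 4 (.o)
  (.s 0 (.s 2 (.o)
  (.s 2 (.o)
  (.o)))
  (.s 3 (.s 1 (.s 2 (.s 0 (.o)
  (.o))
  (.s 4 (.o)
  (.l)))
  (.s 2 (.s 0 (.o)
  (.o))
  (.s 0 (.o)
  (.o))))
  (.s 1 (.s 2 (.s 0 (.o)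
  (.o))
  (.s 0 (.o)
  (.o)))
  (.s 2 (.s 0 (.o)
  (.l))
  (.o)))))))
  (.s 2 (.s 4 (.o)
  (.s 2 (.o)
  (.s 0 (.o)
  (.o))))
  (.s 4 (.o)
  (.s 2 (.s 1 (.s 3 (.s 0 (.o)
  (.l))
  (.o))
  (.o))
  (.o))))))
  (.s 1 (.s 3 (.s 2 (.s 4 (.o)
  (.s 0 (.s 2 (.o)
  (.s 0 (.o)
  (.o)))
  (.s 2 (.o)
  (.o))))
  (.s 4 (.o)
  (.s 0 (.s 2 (.s 0 (.s 2 (.o)
  (.o))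
  (.o))
  (.o))
  (.o))))
  (.s 1 (.o)
  (.s 3 (.s 2 (.s 4 (.o)
  (.s 1 (.o)
  (.s 3 (.s 0 (.s 2 (.o)
  (.s 0 (.o)
  (.o)))
  (.s 2 (.o)
  (.o)))
  (.o))))
  (.s 1 (.o)
  (.o)))
  (.o))))
  (.s 3 (.s 2 (.s 4 (.o)
  (.s 0 (.s 2 (.o)
  (.s 2 (.o)
  (.s 0 (.o)
  (.o))))
  (.s 0 (.s 2 (.o)
  (.o))
  (.o))))
  (.s 4 (.o)
  (.s 0 (.s 0 (.s 2 (.s 2 (.o)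
  (.o))
  (.o))
  (.o))
  (.o))))
  (.s 2 (.s 4 (.o)
  (.s 0 (.s 2 (.o)
  (.s 1 (.s 2 (.o)
  (.s 0 (.o)
  (.o)))
  (.s 3 (.s 4 (.o)
  (.l))
  (.l))))
  (.s 0 (.s 2 (.o)
  (.o))
  (.o))))
  (.o))))))
  (.s 4 (.o)
  (.s 0 (.s 2 (.s 0 (.s 1 (.s 3 (.s 4 (.o)
  (.s 2 (.s 3 (.s 1 (.s 4 (.o)
  (.l))
  (.s 4 (.o)
  (.l)))
  (.o))
  (.o)))
  (.o))
  (.o))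
  (.o))
  (.o))
  (.o)))))))
  (.s 1 (.s 3 (.s 0 (.s 2 (.s 4 (.s 0 (.l)
  (.l))
  (.l))
  (.s 4 (.s 0 (.l)
  (.s 1 (.l)
  (.l)))
  (.l)))
  (.s 2 (.s 4 (.s 1 (.s 3 (.s 0 (.l)
  (.l))
  (.l))
  (.s 0 (.l)
  (.l)))
  (.l))
  (.s 4 (.s 1 (.s 0 (.s 2 (.l)
  (.l))
  (.s 2 (.s 0 (.l)
  (.l))
  (.o)))
  (.s 0 (.l)
  (.s 2 (.l)
  (.o))))
  (.l))))
  (.s 1 (.o)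
  (.s 3 (.s 0 (.s 2 (.l)
  (.l))
  (.s 2 (.s 0 (.l)
  (.l))
  (.s 0 (.l)
  (.l))))
  (.o))))
  (.s 3 (.s 0 (.s 2 (.s 4 (.l)
  (.l))
  (.s 4 (.s 0 (.l)
  (.l))
  (.l)))
  (.s 2 (.s 4 (.s 3 (.s 0 (.l)
  (.l))
  (.l))
  (.l))
  (.s 4 (.s 0 (.l)
  (.s 1 (.l)
  (.l)))
  (.l))))
  (.s 0 (.s 2 (.l)
  (.s 0 (.o)
  (.l)))
  (.s 2 (.s 4 (.l)
  (.l))
  (.s 4 (.l)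
  (.l))))))))
  (.f (.s 1 (.o)
  (.s 2 (.s 3 (.s 0 (.o)
  (.s 1 (.o)
  (.s 4 (.s 2 (.s 4 (.o)
  (.s 0 (.o)
  (.s 3 (.s 4 (.o)
  (.s 1 (.o)
  (.s 2 (.s 0 (.o)
  (.o))
  (.o))))
  (.o))))
  (.o))
  (.l))))
  (.o))
  (.o)))))
  (.f (.s 3 (.s 4 (.s 0 (.s 2 (.s 3 (.s 0 (.s 1 (.s 4 (.o)
  (.s 2 (.s 3 (.s 1 (.s 4 (.o)
  (.s 1 (.s 3 (.s 0 (.s 2 (.o)
  (.o))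
  (.o))
  (.s 2 (.s 1 (.o)
  (.s 2 (.s 0 (.o)
  (.o))
  (.o)))
  (.o)))
  (.s 3 (.s 0 (.s 2 (.o)
  (.o))
  (.s 2 (.s 0 (.o)
  (.o))
  (.o)))
  (.s 2 (.s 2 (.s 0 (.o)
  (.s 0 (.o)
  (.o)))
  (.o))
  (.o)))))
  (.s 4 (.o)
  (.s 2 (.s 2 (.s 3 (.s 1 (.s 0 (.o)
  (.s 0 (.o)
  (.o)))
  (.o))
  (.o))
  (.o))
  (.o))))
  (.o))
  (.o)))
  (.o))
  (.o))
  (.o))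
  (.o))
  (.o))
  (.s 0 (.s 3 (.s 1 (.s 2 (.s 4 (.s 1 (.s 3 (.s 0 (.l)
  (.s 0 (.l)
  (.l)))
  (.l))
  (.s 0 (.l)
  (.l)))
  (.l))
  (.s 4 (.o)
  (.l)))
  (.s 2 (.s 4 (.s 2 (.l)
  (.o))
  (.l))
  (.o)))
  (.o))
  (.s 2 (.s 1 (.s 3 (.s 4 (.o)
  (.l))
  (.s 4 (.o)
  (.l)))
  (.s 3 (.s 4 (.o)
  (.l))
  (.s 4 (.o)
  (.l))))
  (.o))))
  (.o))))
  (.s 2 (.s 3 (.f (.s 4 (.s 0 (.s 3 (.s 2 (.s 1 (.s 4 (.o)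
  (.s 3 (.s 0 (.s 0 (.o)
  (.o))
  (.s 2 (.o)
  (.s 2 (.o)
  (.s 0 (.o)
  (.o)))))
  (.s 0 (.s 2 (.o)
  (.o))
  (.s 2 (.o)
  (.s 2 (.o)
  (.o))))))
  (.s 4 (.o)
  (.s 1 (.s 2 (.s 0 (.o)
  (.o))
  (.o))
  (.o))))
  (.s 1 (.s 2 (.s 4 (.o)
  (.s 3 (.s 0 (.o)
  (.s 1 (.s 4 (.o)
  (.s 2 (.s 3 (.s 2 (.o)
  (.o))
  (.o))
  (.o)))
  (.o)))
  (.o)))
  (.o))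
  (.o)))
  (.s 2 (.s 1 (.s 4 (.o)
  (.s 2 (.s 3 (.s 0 (.o)
  (.o))
  (.o))
  (.o)))
  (.o))
  (.o)))
  (.s 3 (.s 1 (.s 2 (.s 4 (.s 0 (.o)
  (.o))
  (.s 3 (.s 0 (.s 1 (.s 2 (.s 0 (.o)
  (.o))
  (.s 4 (.o)
  (.s 3 (.s 0 (.s 2 (.o)
  (.o))
  (.s 2 (.o)
  (.s 2 (.o)
  (.o))))
  (.s 0 (.s 2 (.o)
  (.s 0 (.o)
  (.o)))
  (.s 1 (.s 2 (.o)
  (.s 4 (.o)
  (.l)))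
  (.s 2 (.o)
  (.o)))))))
  (.s 2 (.s 0 (.o)
  (.o))
  (.s 4 (.o)
  (.s 0 (.s 2 (.o)
  (.s 2 (.o)
  (.o)))
  (.s 2 (.s 0 (.o)
  (.o))
  (.o))))))
  (.s 2 (.s 1 (.s 4 (.o)
  (.s 3 (.s 0 (.s 0 (.o)
  (.o))
  (.s 2 (.o)
  (.o)))
  (.s 0 (.s 2 (.o)
  (.o))
  (.s 2 (.o)
  (.o)))))
  (.s 4 (.o)
  (.s 0 (.s 2 (.o)
  (.s 0 (.o)
  (.o)))
  (.o))))
  (.o)))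
  (.s 0 (.s 1 (.s 2 (.s 4 (.o)
  (.s 2 (.o)
  (.s 0 (.o)
  (.o))))
  (.s 4 (.o)
  (.s 0 (.s 2 (.o)
  (.s 2 (.o)
  (.o)))
  (.s 3 (.s 1 (.s 2 (.s 0 (.o)
  (.o))
  (.s 4 (.o)
  (.l)))
  (.s 2 (.s 0 (.o)
  (.o))
  (.o)))
  (.s 1 (.s 2 (.s 0 (.o)
  (.o))
  (.s 0 (.o)
  (.o)))
  (.s 2 (.s 2 (.o)
  (.o))
  (.o)))))))
  (.s 2 (.s 4 (.o)
  (.s 2 (.o)
  (.s 0 (.o)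
  (.o))))
  (.s 4 (.o)
  (.s 2 (.s 3 (.s 0 (.o)
  (.s 2 (.o)
  (.o)))
  (.o))
  (.o)))))
  (.s 2 (.s 1 (.s 4 (.o)
  (.s 0 (.s 2 (.o)
  (.s 2 (.o)
  (.s 0 (.o)
  (.o))))
  (.s 0 (.s 2 (.o)
  (.o))
  (.o))))
  (.s 4 (.o)
  (.s 0 (.s 2 (.o)
  (.s 0 (.o)
  (.o)))
  (.s 2 (.o)
  (.o)))))
  (.o)))))
  (.s 4 (.o)
  (.s 0 (.s 2 (.s 0 (.s 3 (.s 1 (.s 4 (.o)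
  (.s 2 (.s 0 (.s 2 (.o)
  (.o))
  (.o))
  (.o)))
  (.o))
  (.o))
  (.o))
  (.o))
  (.o))))
  (.s 2 (.s 4 (.s 0 (.o)
  (.o))
  (.s 0 (.s 3 (.s 1 (.s 2 (.s 4 (.o)
  (.s 2 (.o)
  (.s 0 (.o)
  (.o))))
  (.s 4 (.o)
  (.s 2 (.s 1 (.s 0 (.o)
  (.s 0 (.o)
  (.o)))
  (.o))
  (.o))))
  (.s 2 (.s 2 (.o)
  (.o))
  (.o)))
  (.s 1 (.s 2 (.s 2 (.o)
  (.o))
  (.o))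
  (.o)))
  (.s 2 (.s 0 (.s 2 (.s 1 (.o)
  (.o))
  (.o))
  (.o))
  (.o))))
  (.o)))
  (.s 1 (.s 2 (.s 4 (.s 0 (.o)
  (.o))
  (.s 0 (.s 3 (.s 1 (.s 2 (.s 4 (.o)
  (.s 2 (.o)
  (.s 0 (.o)
  (.o))))
  (.s 4 (.o)
  (.s 2 (.s 3 (.s 1 (.s 0 (.o)
  (.s 2 (.o)
  (.o)))
  (.o))
  (.o))
  (.o))))
  (.s 2 (.s 2 (.o)
  (.o))
  (.o)))
  (.s 2 (.s 1 (.s 2 (.o)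
  (.o))
  (.o))
  (.o)))
  (.s 2 (.s 3 (.s 1 (.s 4 (.o)
  (.s 0 (.s 2 (.o)
  (.s 2 (.o)
  (.s 0 (.o)
  (.o))))
  (.s 0 (.s 2 (.o)
  (.o))
  (.o))))
  (.s 4 (.o)
  (.s 0 (.s 2 (.o)
  (.s 0 (.o)
  (.o)))
  (.o))))
  (.s 1 (.s 4 (.o)
  (.s 0 (.s 3 (.s 2 (.o)
  (.s 0 (.o)
  (.o)))
  (.s 2 (.o)
  (.o)))
  (.s 0 (.s 2 (.s 1 (.o)
  (.o))
  (.o))
  (.o))))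
  (.s 0 (.o)
  (.o))))
  (.o))))
  (.s 0 (.o)
  (.o)))
  (.s 2 (.s 2 (.s 4 (.o)
  (.s 1 (.s 0 (.o)
  (.s 0 (.o)
  (.o)))
  (.o)))
  (.o))
  (.o)))))
  (.s 0 (.s 3 (.s 1 (.s 2 (.s 0 (.l)
  (.l))
  (.s 0 (.o)
  (.l)))
  (.s 2 (.s 0 (.o)
  (.l))
  (.o)))
  (.s 1 (.s 2 (.l)
  (.o))
  (.o)))
  (.s 3 (.s 1 (.s 2 (.s 4 (.s 0 (.l)
  (.l))
  (.l))
  (.s 4 (.s 0 (.l)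
  (.l))
  (.l)))
  (.s 2 (.s 4 (.s 0 (.l)
  (.l))
  (.l))
  (.s 4 (.s 0 (.o)
  (.l))
  (.l))))
  (.s 2 (.s 1 (.s 0 (.l)
  (.l))
  (.s 0 (.o)
  (.l)))
  (.s 1 (.s 0 (.o)
  (.l))
  (.o)))))))
  (.s 2 (.s 1 (.f (.s 3 (.s 0 (.o)
  (.s 4 (.s 2 (.s 4 (.o)
  (.s 1 (.s 0 (.o)
  (.s 0 (.o)
  (.o)))
  (.o)))
  (.o))
  (.l)))
  (.o)))
  (.o))
  (.o)))
  (.s 3 (.f (.s 2 (.s 3 (.s 0 (.o)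
  (.s 4 (.o)
  (.s 1 (.s 4 (.o)
  (.l))
  (.o))))
  (.o))
  (.o)))
  (.o)))))
  (.s 0 (.s 3 (.s 1 (.f (.s 2 (.l)
  (.l)))
  (.f (.s 2 (.l)
  (.o))))
  (.o))
  (.s 1 (.f (.s 2 (.s 3 (.l)
  (.l))
  (.s 3 (.s 0 (.l)
  (.l))
  (.o))))
  (.s 2 (.f (.s 3 (.l)
  (.l)))
  (.f (.s 3 (.l)
  (.o)))))))
  (.s 4 (.s 0 (.f (.l))
  (.l))
  (.l))))
  (.f (.l)))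
  (.f (.l))))
  (.f (.l))

theorem chkU59 : chkBoxU 15 9 15 9 WU TU59 = true := by decide +kernel

/-- subdivision tree of the box 60 -/
def TU60 : TU :=
  .s 4 (.f (.s 4 (.s 4 (.f (.s 4 (.s 3 (.o)
  (.s 2 (.o)
  (.s 2 (.o)
  (.s 3 (.o)
  (.s 4 (.s 0 (.s 1 (.s 4 (.o)
  (.f (.s 1 (.s 0 (.l)
  (.l))
  (.s 0 (.l)
  (.l)))))
  (.s 4 (.o)
  (.f (.s 0 (.o)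
  (.l)))))
  (.s 1 (.s 2 (.o)
  (.s 4 (.o)
  (.f (.s 0 (.l)
  (.l)))))
  (.s 2 (.o)
  (.s 4 (.s 0 (.o)
  (.o))
  (.f (.s 0 (.l)
  (.l)))))))
  (.s 0 (.f (.l))
  (.f (.l))))))))
  (.s 4 (.s 0 (.f (.l))
  (.f (.l)))
  (.f (.l)))))
  (.f (.l)))
  (.f (.l))))
  (.f (.l))

theorem chkU60 : chkBoxU 15 11 9 5 WU TU60 = true := by decide +kernel

/-- subdivision tree of the box 61 -/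
def TU61 : TU :=
  .s 4 (.f (.s 4 (.f (.s 4 (.s 4 (.s 4 (.s 1 (.s 2 (.f (.s 3 (.s 3 (.o)
  (.s 2 (.o)
  (.s 0 (.s 4 (.o)
  (.s 0 (.l)
  (.l)))
  (.s 4 (.o)
  (.s 0 (.l)
  (.l))))))
  (.s 0 (.s 4 (.o)
  (.s 1 (.s 0 (.o)
  (.s 0 (.o)
  (.o)))
  (.s 2 (.s 0 (.o)
  (.l))
  (.s 0 (.l)
  (.l)))))
  (.s 4 (.o)
  (.s 1 (.s 2 (.s 3 (.s 0 (.l)
  (.l))
  (.s 0 (.l)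
  (.l)))
  (.s 0 (.l)
  (.l)))
  (.s 2 (.s 0 (.l)
  (.l))
  (.s 0 (.l)
  (.l))))))))
  (.f (.s 0 (.s 3 (.s 4 (.o)
  (.s 2 (.s 1 (.s 3 (.s 0 (.o)
  (.l))
  (.l))
  (.s 0 (.l)
  (.l)))
  (.s 3 (.s 1 (.s 0 (.o)
  (.l))
  (.s 0 (.l)
  (.l)))
  (.s 1 (.s 0 (.o)
  (.l))
  (.l)))))
  (.s 4 (.o)
  (.s 1 (.s 2 (.s 0 (.o)
  (.l))
  (.s 0 (.o)
  (.s 0 (.o)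
  (.o))))
  (.s 2 (.s 0 (.l)
  (.l))
  (.s 0 (.l)
  (.l))))))
  (.s 3 (.s 4 (.o)
  (.s 2 (.s 1 (.s 0 (.l)
  (.s 0 (.l)
  (.l)))
  (.s 0 (.l)
  (.l)))
  (.s 3 (.s 0 (.s 0 (.l)
  (.l))
  (.s 1 (.l)
  (.l)))
  (.s 1 (.s 0 (.l)
  (.l))
  (.l)))))
  (.s 4 (.o)
  (.s 1 (.s 2 (.s 0 (.l)
  (.l))
  (.s 3 (.s 0 (.l)
  (.l))
  (.s 0 (.l)
  (.l))))
  (.s 2 (.s 0 (.l)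
  (.l))
  (.s 0 (.l)
  (.s 0 (.l)
  (.l))))))))))
  (.s 2 (.f (.s 3 (.s 3 (.o)
  (.s 2 (.o)
  (.s 0 (.s 4 (.o)
  (.s 0 (.l)
  (.l)))
  (.s 4 (.s 0 (.o)
  (.o))
  (.s 0 (.l)
  (.l))))))
  (.s 0 (.s 4 (.o)
  (.s 1 (.s 2 (.s 0 (.l)
  (.l))
  (.s 0 (.l)
  (.l)))
  (.s 2 (.s 0 (.l)
  (.l))
  (.s 0 (.l)
  (.l)))))
  (.s 4 (.o)
  (.s 1 (.s 2 (.s 0 (.l)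
  (.l))
  (.s 0 (.l)
  (.l)))
  (.s 2 (.s 3 (.l)
  (.s 0 (.l)
  (.l)))
  (.s 0 (.l)
  (.l))))))))
  (.f (.s 0 (.s 3 (.s 4 (.o)
  (.s 2 (.s 1 (.s 0 (.l)
  (.l))
  (.s 0 (.l)
  (.l)))
  (.s 3 (.s 1 (.s 0 (.l)
  (.l))
  (.s 0 (.l)
  (.l)))
  (.s 1 (.l)
  (.l)))))
  (.s 4 (.o)
  (.s 1 (.s 2 (.s 0 (.l)
  (.l))
  (.s 0 (.l)
  (.l)))
  (.s 2 (.s 0 (.l)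
  (.l))
  (.s 3 (.l)
  (.l))))))
  (.s 3 (.s 4 (.s 0 (.o)
  (.o))
  (.s 1 (.s 2 (.s 0 (.l)
  (.l))
  (.s 3 (.s 0 (.l)
  (.l))
  (.l)))
  (.s 2 (.s 3 (.s 0 (.l)
  (.l))
  (.l))
  (.s 3 (.s 0 (.l)
  (.l))
  (.s 0 (.l)
  (.l))))))
  (.s 4 (.s 0 (.o)
  (.o))
  (.s 1 (.s 2 (.s 0 (.l)
  (.l))
  (.s 0 (.l)
  (.l)))
  (.s 2 (.s 0 (.l)
  (.l))
  (.s 3 (.l)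
  (.s 0 (.l)
  (.l)))))))))))
  (.f (.s 1 (.s 2 (.s 3 (.s 0 (.l)
  (.l))
  (.s 0 (.l)
  (.l)))
  (.s 3 (.s 0 (.l)
  (.l))
  (.s 0 (.l)
  (.l))))
  (.s 2 (.s 3 (.s 0 (.l)
  (.l))
  (.s 0 (.l)
  (.l)))
  (.s 3 (.s 0 (.l)
  (.l))
  (.s 0 (.l)
  (.l)))))))
  (.f (.s 4 (.s 0 (.l)
  (.l))
  (.l))))
  (.f (.l))))
  (.f (.l))))
  (.f (.l))

theorem chkU61 : chkBoxU 15 11 9 7 WU TU61 = true := by decide +kernel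

/-- subdivision tree of the box 62 -/
def TU62 : TU :=
  .s 4 (.f (.s 4 (.f (.s 4 (.s 4 (.s 4 (.s 1 (.s 2 (.f (.s 3 (.s 0 (.s 4 (.o)
  (.s 1 (.s 0 (.o)
  (.s 0 (.o)
  (.o)))
  (.s 2 (.s 0 (.o)
  (.l))
  (.s 0 (.l)
  (.l)))))
  (.s 4 (.o)
  (.s 1 (.s 2 (.s 3 (.s 0 (.l)
  (.l))
  (.s 0 (.l)
  (.l)))
  (.s 0 (.l)
  (.l)))
  (.s 2 (.s 0 (.l)
  (.l))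
  (.s 0 (.l)
  (.l))))))
  (.s 3 (.s 2 (.o)
  (.s 0 (.s 4 (.o)
  (.s 0 (.l)
  (.l)))
  (.s 4 (.o)
  (.s 0 (.l)
  (.l)))))
  (.o))))
  (.f (.s 0 (.s 3 (.s 4 (.o)
  (.s 1 (.s 2 (.s 0 (.o)
  (.l))
  (.s 0 (.o)
  (.s 0 (.o)
  (.o))))
  (.s 2 (.s 0 (.l)
  (.l))
  (.s 0 (.l)
  (.l)))))
  (.s 4 (.o)
  (.s 2 (.s 1 (.s 3 (.l)
  (.s 0 (.o)
  (.l)))
  (.s 0 (.l)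
  (.l)))
  (.s 3 (.s 1 (.s 0 (.o)
  (.l))
  (.l))
  (.s 1 (.s 0 (.o)
  (.l))
  (.s 0 (.l)
  (.l)))))))
  (.s 3 (.s 4 (.o)
  (.s 1 (.s 2 (.s 0 (.l)
  (.l))
  (.s 3 (.s 0 (.l)
  (.l))
  (.s 0 (.l)
  (.l))))
  (.s 2 (.s 0 (.l)
  (.l))
  (.s 0 (.l)
  (.s 0 (.l)
  (.l))))))
  (.s 4 (.o)
  (.s 2 (.s 1 (.s 0 (.l)
  (.s 0 (.l)
  (.l)))
  (.s 0 (.l)
  (.l)))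
  (.s 3 (.s 1 (.s 0 (.l)
  (.l))
  (.l))
  (.s 0 (.s 0 (.l)
  (.l))
  (.s 1 (.l)
  (.l))))))))))
  (.s 2 (.f (.s 3 (.s 0 (.s 4 (.o)
  (.s 1 (.s 2 (.s 0 (.l)
  (.l))
  (.s 0 (.l)
  (.l)))
  (.s 2 (.s 0 (.l)
  (.l))
  (.s 0 (.l)
  (.l)))))
  (.s 4 (.o)
  (.s 1 (.s 2 (.s 0 (.l)
  (.l))
  (.s 0 (.l)
  (.l)))
  (.s 2 (.s 3 (.s 0 (.l)
  (.l))
  (.l))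
  (.s 0 (.l)
  (.l))))))
  (.s 3 (.s 2 (.o)
  (.s 0 (.s 4 (.o)
  (.s 0 (.l)
  (.l)))
  (.s 4 (.s 0 (.o)
  (.o))
  (.s 0 (.l)
  (.l)))))
  (.o))))
  (.f (.s 0 (.s 3 (.s 4 (.o)
  (.s 1 (.s 2 (.s 0 (.l)
  (.l))
  (.s 0 (.l)
  (.l)))
  (.s 2 (.s 0 (.l)
  (.l))
  (.s 3 (.l)
  (.l)))))
  (.s 4 (.o)
  (.s 2 (.s 1 (.s 0 (.l)
  (.l))
  (.s 0 (.l)
  (.l)))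
  (.s 3 (.s 1 (.l)
  (.l))
  (.s 1 (.s 0 (.l)
  (.l))
  (.s 0 (.l)
  (.l)))))))
  (.s 3 (.s 4 (.s 0 (.o)
  (.o))
  (.s 1 (.s 2 (.s 0 (.l)
  (.l))
  (.s 0 (.l)
  (.l)))
  (.s 2 (.s 0 (.l)
  (.l))
  (.s 3 (.s 0 (.l)
  (.l))
  (.l)))))
  (.s 4 (.s 0 (.o)
  (.o))
  (.s 1 (.s 2 (.s 0 (.l)
  (.l))
  (.s 3 (.l)
  (.s 0 (.l)
  (.l))))
  (.s 2 (.s 3 (.l)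
  (.s 0 (.l)
  (.l)))
  (.s 3 (.s 0 (.l)
  (.l))
  (.s 0 (.l)
  (.l)))))))))))
  (.f (.s 1 (.s 2 (.s 3 (.s 0 (.l)
  (.l))
  (.s 0 (.l)
  (.l)))
  (.s 3 (.s 0 (.l)
  (.l))
  (.s 0 (.l)
  (.l))))
  (.s 2 (.s 3 (.s 0 (.l)
  (.l))
  (.s 0 (.l)
  (.l)))
  (.s 3 (.s 0 (.l)
  (.l))
  (.s 0 (.l)
  (.l)))))))
  (.f (.s 4 (.s 0 (.l)
  (.l))
  (.l))))
  (.f (.l))))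
  (.f (.l))))
  (.f (.l))

theorem chkU62 : chkBoxU 15 11 9 9 WU TU62 = true := by decide +kernel

/-- subdivision tree of the box 63 -/
def TU63 : TU :=
  .s 4 (.f (.s 4 (.s 4 (.f (.s 4 (.s 3 (.s 2 (.o)
  (.s 2 (.o)
  (.s 3 (.s 4 (.s 0 (.s 1 (.s 4 (.o)
  (.f (.s 1 (.s 0 (.l)
  (.l))
  (.s 0 (.l)
  (.l)))))
  (.s 4 (.o)
  (.f (.s 0 (.o)
  (.l)))))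
  (.s 1 (.s 2 (.o)
  (.s 4 (.o)
  (.f (.s 0 (.l)
  (.l)))))
  (.s 2 (.o)
  (.s 4 (.s 0 (.o)
  (.o))
  (.f (.s 0 (.l)
  (.l)))))))
  (.s 0 (.f (.l))
  (.f (.l))))
  (.o))))
  (.o))
  (.s 4 (.s 0 (.f (.l))
  (.f (.l)))
  (.f (.l)))))
  (.f (.l)))
  (.f (.l))))
  (.f (.l))

theorem chkU63 : chkBoxU 15 11 9 11 WU TU63 = true := by decide +kernel

/-- subdivision tree of the box 64 -/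
def TU64 : TU :=
  .s 4 (.f (.s 4 (.s 4 (.f (.s 4 (.s 3 (.o)
  (.s 4 (.s 0 (.s 3 (.o)
  (.s 1 (.s 2 (.s 4 (.o)
  (.f (.s 0 (.s 1 (.s 0 (.l)
  (.l))
  (.l))
  (.s 1 (.l)
  (.l)))))
  (.s 0 (.o)
  (.s 4 (.o)
  (.f (.s 1 (.l)
  (.o))))))
  (.s 2 (.s 0 (.o)
  (.s 4 (.o)
  (.f (.s 1 (.l)
  (.o)))))
  (.o))))
  (.s 1 (.s 2 (.s 4 (.s 0 (.s 0 (.o)
  (.o))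
  (.s 1 (.s 0 (.o)
  (.o))
  (.s 2 (.o)
  (.s 0 (.o)
  (.o)))))
  (.s 0 (.f (.s 1 (.s 2 (.l)
  (.l))
  (.s 2 (.l)
  (.l))))
  (.s 1 (.f (.s 2 (.s 0 (.l)
  (.l))
  (.l)))
  (.f (.s 2 (.l)
  (.l))))))
  (.s 4 (.s 2 (.s 0 (.s 0 (.o)
  (.o))
  (.s 1 (.s 0 (.o)
  (.o))
  (.s 3 (.f (.s 0 (.o)
  (.o)))
  (.o))))
  (.s 3 (.o)
  (.s 0 (.o)
  (.s 1 (.o)
  (.s 0 (.o)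
  (.o))))))
  (.s 0 (.s 3 (.o)
  (.f (.s 1 (.l)
  (.l))))
  (.s 2 (.f (.s 1 (.l)
  (.l)))
  (.s 1 (.f (.s 0 (.l)
  (.l)))
  (.f (.l)))))))
  (.s 2 (.s 4 (.s 1 (.s 0 (.s 0 (.o)
  (.o))
  (.s 2 (.s 0 (.o)
  (.o))
  (.s 3 (.f (.s 0 (.o)
  (.o)))
  (.o))))
  (.s 3 (.o)
  (.s 0 (.o)
  (.s 2 (.o)
  (.s 0 (.o)
  (.o))))))
  (.s 0 (.s 3 (.o)
  (.f (.s 1 (.l)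
  (.l))))
  (.s 1 (.f (.s 2 (.l)
  (.l)))
  (.s 2 (.f (.s 0 (.l)
  (.l)))
  (.f (.l))))))
  (.s 1 (.s 2 (.s 0 (.o)
  (.s 4 (.s 3 (.o)
  (.s 0 (.o)
  (.o)))
  (.f (.l))))
  (.o))
  (.o)))))
  (.s 0 (.s 1 (.s 2 (.f (.l))
  (.f (.l)))
  (.s 0 (.o)
  (.l)))
  (.s 1 (.s 2 (.f (.l))
  (.f (.l)))
  (.s 0 (.f (.l))
  (.l))))))
  (.s 4 (.s 0 (.l)
  (.f (.l)))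
  (.f (.l)))))
  (.f (.l)))
  (.f (.l))))
  (.f (.l))

theorem chkU64 : chkBoxU 15 11 11 5 WU TU64 = true := by decide +kernel

/-- subdivision tree of the box 65 -/
def TU65 : TU :=
  .s 4 (.f (.s 4 (.s 4 (.f (.s 4 (.s 4 (.s 1 (.s 2 (.s 0 (.s 3 (.s 4 (.o)
  (.s 3 (.s 1 (.f (.s 2 (.s 0 (.l)
  (.l))
  (.s 0 (.l)
  (.l))))
  (.f (.s 2 (.s 0 (.l)
  (.l))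
  (.l))))
  (.f (.s 1 (.s 2 (.s 0 (.l)
  (.l))
  (.l))
  (.s 0 (.l)
  (.l))))))
  (.s 4 (.o)
  (.s 1 (.f (.s 2 (.s 3 (.l)
  (.s 0 (.o)
  (.l)))
  (.s 0 (.l)
  (.l))))
  (.s 2 (.f (.s 0 (.l)
  (.l)))
  (.s 0 (.f (.l))
  (.f (.l)))))))
  (.s 3 (.s 4 (.s 0 (.o)
  (.o))
  (.s 3 (.f (.s 0 (.s 1 (.s 0 (.l)
  (.l))
  (.l))
  (.s 1 (.s 2 (.l)
  (.l))
  (.s 0 (.l)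
  (.l)))))
  (.s 0 (.f (.s 1 (.l)
  (.l)))
  (.f (.s 1 (.s 0 (.l)
  (.l))
  (.l))))))
  (.s 4 (.s 0 (.o)
  (.o))
  (.s 1 (.f (.s 2 (.s 3 (.s 0 (.l)
  (.l))
  (.s 0 (.l)
  (.l)))
  (.s 0 (.l)
  (.l))))
  (.f (.s 2 (.s 0 (.l)
  (.l))
  (.s 0 (.l)
  (.l))))))))
  (.s 0 (.s 3 (.s 4 (.s 0 (.o)
  (.o))
  (.s 3 (.f (.s 0 (.s 2 (.s 0 (.o)
  (.l))
  (.o))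
  (.s 1 (.l)
  (.l))))
  (.s 2 (.f (.s 0 (.l)
  (.l)))
  (.f (.s 0 (.l)
  (.l))))))
  (.s 4 (.s 0 (.o)
  (.o))
  (.s 2 (.s 1 (.f (.s 0 (.l)
  (.l)))
  (.f (.s 0 (.l)
  (.l))))
  (.s 1 (.s 3 (.f (.l))
  (.f (.l)))
  (.f (.s 0 (.l)
  (.l)))))))
  (.s 3 (.s 4 (.s 0 (.o)
  (.s 1 (.o)
  (.s 0 (.o)
  (.o))))
  (.s 3 (.s 0 (.f (.s 1 (.l)
  (.l)))
  (.f (.s 2 (.l)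
  (.s 0 (.l)
  (.l)))))
  (.s 2 (.f (.s 0 (.l)
  (.l)))
  (.s 0 (.f (.l))
  (.f (.l))))))
  (.s 4 (.s 0 (.o)
  (.s 0 (.o)
  (.o)))
  (.s 2 (.s 3 (.f (.s 0 (.l)
  (.l)))
  (.f (.s 1 (.l)
  (.l))))
  (.s 3 (.s 0 (.f (.l))
  (.f (.l)))
  (.f (.s 0 (.l)
  (.s 1 (.l)
  (.l))))))))))
  (.s 2 (.s 0 (.s 3 (.s 4 (.s 0 (.o)
  (.o))
  (.s 3 (.f (.s 0 (.s 1 (.s 0 (.o)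
  (.l))
  (.o))
  (.s 1 (.l)
  (.l))))
  (.s 1 (.f (.s 0 (.l)
  (.l)))
  (.f (.s 0 (.l)
  (.l))))))
  (.s 4 (.s 0 (.o)
  (.o))
  (.s 1 (.s 2 (.f (.s 0 (.l)
  (.l)))
  (.f (.s 0 (.l)
  (.l))))
  (.s 2 (.s 3 (.f (.l))
  (.f (.l)))
  (.f (.s 0 (.l)
  (.l)))))))
  (.s 3 (.s 4 (.s 0 (.o)
  (.s 2 (.o)
  (.s 0 (.o)
  (.o))))
  (.s 3 (.s 0 (.f (.s 1 (.l)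
  (.l)))
  (.f (.s 1 (.l)
  (.s 0 (.l)
  (.l)))))
  (.s 1 (.f (.s 0 (.l)
  (.l)))
  (.s 0 (.f (.l))
  (.f (.l))))))
  (.s 4 (.s 0 (.o)
  (.s 0 (.o)
  (.o)))
  (.s 1 (.s 3 (.f (.s 0 (.l)
  (.l)))
  (.f (.s 2 (.l)
  (.l))))
  (.s 3 (.s 0 (.f (.l))
  (.f (.l)))
  (.f (.s 0 (.l)
  (.s 1 (.l)
  (.l)))))))))
  (.s 0 (.s 3 (.s 0 (.o)
  (.s 4 (.o)
  (.s 3 (.o)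
  (.f (.s 1 (.l)
  (.o))))))
  (.s 4 (.s 0 (.o)
  (.o))
  (.s 1 (.s 2 (.f (.s 0 (.l)
  (.l)))
  (.f (.s 0 (.l)
  (.l))))
  (.s 2 (.f (.s 0 (.l)
  (.l)))
  (.f (.s 0 (.o)
  (.s 0 (.o)
  (.l))))))))
  (.s 3 (.s 4 (.s 1 (.s 0 (.o)
  (.s 2 (.o)
  (.f (.s 0 (.o)
  (.o)))))
  (.s 2 (.s 0 (.o)
  (.f (.s 0 (.o)
  (.o))))
  (.s 3 (.o)
  (.s 0 (.o)
  (.f (.s 0 (.o)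
  (.o)))))))
  (.s 3 (.s 0 (.s 1 (.f (.l))
  (.o))
  (.f (.s 1 (.s 0 (.l)
  (.l))
  (.s 0 (.o)
  (.l)))))
  (.f (.s 1 (.s 0 (.l)
  (.l))
  (.s 2 (.l)
  (.s 0 (.o)
  (.l)))))))
  (.s 4 (.s 1 (.s 0 (.o)
  (.f (.s 0 (.o)
  (.o))))
  (.s 0 (.o)
  (.f (.s 2 (.o)
  (.s 0 (.o)
  (.o))))))
  (.f (.s 1 (.s 2 (.s 3 (.l)
  (.s 0 (.l)
  (.l)))
  (.s 3 (.s 0 (.l)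
  (.l))
  (.s 0 (.l)
  (.l))))
  (.s 2 (.s 3 (.s 0 (.l)
  (.l))
  (.s 0 (.l)
  (.l)))
  (.s 3 (.s 0 (.l)
  (.l))
  (.s 0 (.l)
  (.s 0 (.l)
  (.l))))))))))))
  (.s 1 (.s 3 (.s 0 (.s 2 (.f (.l))
  (.f (.l)))
  (.s 2 (.f (.l))
  (.f (.l))))
  (.s 2 (.s 0 (.f (.l))
  (.f (.l)))
  (.s 0 (.f (.l))
  (.f (.l)))))
  (.s 0 (.s 2 (.s 3 (.f (.l))
  (.f (.l)))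
  (.s 3 (.f (.l))
  (.f (.l))))
  (.s 3 (.s 2 (.f (.l))
  (.f (.l)))
  (.s 2 (.f (.l))
  (.f (.l)))))))
  (.s 4 (.s 0 (.f (.l))
  (.f (.l)))
  (.f (.l)))))
  (.f (.l)))
  (.f (.l))))
  (.f (.l))

theorem chkU65 : chkBoxU 15 11 11 7 WU TU65 = true := by decide +kernel

end Pool.Agent.Helper10.Qc
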