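import Pool.Agent.Helper10.Qc.WU

set_option autoImplicit false

/-! # Certificates for the upper bound: boxes 66 to 76 -/

namespace Pool.Agent.Helper10.Qc

/-- subdivision tree of the box 66 -/
def TU66 : TU :=
  .s 4 (.f (.s 4 (.s 4 (.f (.s 4 (.s 4 (.s 1 (.s 2 (.s 0 (.s 3 (.s 4 (.o)
  (.s 1 (.f (.s 2 (.s 3 (.s 0 (.o)
  (.l))
  (.l))
  (.s 0 (.l)
  (.l))))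
  (.s 2 (.f (.s 0 (.l)
  (.l)))
  (.s 0 (.f (.l))
  (.f (.l))))))
  (.s 4 (.o)
  (.s 3 (.f (.s 1 (.s 2 (.s 0 (.l)
  (.l))
  (.l))
  (.s 0 (.l)
  (.l))))
  (.s 1 (.f (.s 2 (.s 0 (.l)
  (.l))
  (.s 0 (.l)
  (.l))))
  (.f (.s 2 (.s 0 (.l)
  (.l))
  (.l)))))))
  (.s 3 (.s 4 (.s 0 (.o)
  (.o))
  (.s 1 (.f (.s 2 (.s 3 (.s 0 (.l)
  (.l))
  (.s 0 (.l)
  (.l)))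
  (.s 0 (.l)
  (.l))))
  (.f (.s 2 (.s 0 (.l)
  (.l))
  (.s 0 (.l)
  (.l))))))
  (.s 4 (.s 0 (.o)
  (.o))
  (.s 3 (.s 0 (.f (.s 1 (.l)
  (.l)))
  (.f (.s 1 (.s 0 (.l)
  (.l))
  (.l))))
  (.f (.s 0 (.s 1 (.s 0 (.l)
  (.l))
  (.l))
  (.s 1 (.s 2 (.l)
  (.l))
  (.s 0 (.l)
  (.l)))))))))
  (.s 0 (.s 3 (.s 4 (.s 0 (.o)
  (.o))
  (.s 2 (.s 1 (.f (.s 0 (.l)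
  (.l)))
  (.f (.s 0 (.l)
  (.l))))
  (.s 1 (.s 3 (.f (.l))
  (.f (.l)))
  (.f (.s 0 (.l)
  (.l))))))
  (.s 4 (.s 0 (.o)
  (.o))
  (.s 3 (.s 2 (.f (.s 0 (.l)
  (.l)))
  (.f (.s 0 (.l)
  (.l))))
  (.f (.s 0 (.s 2 (.s 0 (.o)
  (.l))
  (.o))
  (.s 1 (.l)
  (.l)))))))
  (.s 3 (.s 4 (.s 0 (.o)
  (.s 0 (.o)
  (.o)))
  (.s 2 (.s 3 (.f (.s 1 (.l)
  (.l)))
  (.f (.s 0 (.l)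
  (.l))))
  (.s 3 (.f (.s 0 (.l)
  (.s 1 (.l)
  (.l))))
  (.s 0 (.f (.l))
  (.f (.l))))))
  (.s 4 (.s 0 (.o)
  (.s 1 (.o)
  (.s 0 (.o)
  (.o))))
  (.s 3 (.s 2 (.f (.s 0 (.l)
  (.l)))
  (.s 0 (.f (.l))
  (.f (.l))))
  (.s 0 (.f (.s 1 (.l)
  (.l)))
  (.f (.s 2 (.l)
  (.s 0 (.l)
  (.l))))))))))
  (.s 2 (.s 0 (.s 3 (.s 4 (.s 0 (.o)
  (.o))
  (.s 1 (.s 2 (.f (.s 0 (.l)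
  (.l)))
  (.f (.s 0 (.l)
  (.l))))
  (.s 2 (.s 3 (.f (.l))
  (.f (.l)))
  (.f (.s 0 (.l)
  (.l))))))
  (.s 4 (.s 0 (.o)
  (.o))
  (.s 3 (.s 1 (.f (.s 0 (.l)
  (.l)))
  (.f (.s 0 (.l)
  (.l))))
  (.f (.s 0 (.s 1 (.s 0 (.o)
  (.l))
  (.o))
  (.s 1 (.l)
  (.l)))))))
  (.s 3 (.s 4 (.s 0 (.o)
  (.s 0 (.o)
  (.o)))
  (.s 1 (.s 3 (.f (.s 2 (.l)
  (.l)))
  (.f (.s 0 (.l)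
  (.l))))
  (.s 3 (.f (.s 0 (.l)
  (.s 1 (.l)
  (.l))))
  (.s 0 (.f (.l))
  (.f (.l))))))
  (.s 4 (.s 0 (.o)
  (.s 2 (.o)
  (.s 0 (.o)
  (.o))))
  (.s 3 (.s 1 (.f (.s 0 (.l)
  (.l)))
  (.s 0 (.f (.l))
  (.f (.l))))
  (.s 0 (.f (.s 1 (.l)
  (.l)))
  (.f (.s 1 (.l)
  (.s 0 (.l)
  (.l)))))))))
  (.s 0 (.s 3 (.s 4 (.s 0 (.o)
  (.o))
  (.s 1 (.s 2 (.f (.s 0 (.l)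
  (.l)))
  (.f (.s 0 (.l)
  (.l))))
  (.s 2 (.f (.s 0 (.l)
  (.l)))
  (.f (.s 0 (.o)
  (.s 0 (.o)
  (.l)))))))
  (.s 0 (.o)
  (.s 4 (.o)
  (.s 3 (.f (.s 1 (.l)
  (.o)))
  (.o)))))
  (.s 3 (.s 4 (.s 1 (.s 0 (.o)
  (.f (.s 0 (.o)
  (.o))))
  (.s 0 (.o)
  (.f (.s 2 (.o)
  (.s 0 (.o)
  (.o))))))
  (.f (.s 1 (.s 2 (.s 3 (.s 0 (.l)
  (.l))
  (.l))
  (.s 3 (.s 0 (.l)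
  (.l))
  (.s 0 (.l)
  (.l))))
  (.s 2 (.s 3 (.s 0 (.l)
  (.l))
  (.s 0 (.l)
  (.l)))
  (.s 3 (.s 0 (.l)
  (.s 0 (.l)
  (.l)))
  (.s 0 (.l)
  (.l)))))))
  (.s 4 (.s 1 (.s 0 (.o)
  (.s 2 (.o)
  (.f (.s 0 (.o)
  (.o)))))
  (.s 2 (.s 0 (.o)
  (.f (.s 0 (.o)
  (.o))))
  (.s 3 (.s 0 (.o)
  (.f (.s 0 (.o)
  (.o))))
  (.o))))
  (.s 3 (.f (.s 1 (.s 0 (.l)
  (.l))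
  (.s 2 (.l)
  (.s 0 (.o)
  (.l)))))
  (.s 0 (.s 1 (.f (.l))
  (.o))
  (.f (.s 1 (.s 0 (.l)
  (.l))
  (.s 0 (.o)
  (.l)))))))))))
  (.s 1 (.s 3 (.s 2 (.s 0 (.f (.l))
  (.f (.l)))
  (.s 0 (.f (.l))
  (.f (.l))))
  (.s 0 (.s 2 (.f (.l))
  (.f (.l)))
  (.s 2 (.f (.l))
  (.f (.l)))))
  (.s 0 (.s 2 (.s 3 (.f (.l))
  (.f (.l)))
  (.s 3 (.f (.l))
  (.f (.l))))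
  (.s 3 (.s 2 (.f (.l))
  (.f (.l)))
  (.s 2 (.f (.l))
  (.f (.l)))))))
  (.s 4 (.s 0 (.f (.l))
  (.f (.l)))
  (.f (.l)))))
  (.f (.l)))
  (.f (.l))))
  (.f (.l))

theorem chkU66 : chkBoxU 15 11 11 9 WU TU66 = true := by decide +kernel

/-- subdivision tree of the box 67 -/
def TU67 : TU :=
  .s 4 (.f (.s 4 (.s 4 (.f (.s 4 (.s 3 (.s 4 (.s 0 (.s 3 (.s 1 (.s 2 (.s 4 (.o)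
  (.f (.s 0 (.s 1 (.s 0 (.l)
  (.l))
  (.l))
  (.s 1 (.l)
  (.l)))))
  (.s 0 (.o)
  (.s 4 (.o)
  (.f (.s 1 (.l)
  (.o))))))
  (.s 2 (.s 0 (.o)
  (.s 4 (.o)
  (.f (.s 1 (.l)
  (.o)))))
  (.o)))
  (.o))
  (.s 1 (.s 2 (.s 4 (.s 0 (.s 0 (.o)
  (.o))
  (.s 1 (.s 0 (.o)
  (.o))
  (.s 2 (.o)
  (.s 0 (.o)
  (.o)))))
  (.s 0 (.f (.s 1 (.s 2 (.l)
  (.l))
  (.s 2 (.l)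
  (.l))))
  (.s 1 (.f (.s 2 (.s 0 (.l)
  (.l))
  (.l)))
  (.f (.s 2 (.l)
  (.l))))))
  (.s 4 (.s 2 (.s 0 (.s 0 (.o)
  (.o))
  (.s 1 (.s 0 (.o)
  (.o))
  (.s 3 (.o)
  (.f (.s 0 (.o)
  (.o))))))
  (.s 3 (.s 0 (.o)
  (.s 1 (.o)
  (.s 0 (.o)
  (.o))))
  (.o)))
  (.s 0 (.s 3 (.f (.s 1 (.l)
  (.l)))
  (.o))
  (.s 2 (.f (.s 1 (.l)
  (.l)))
  (.s 1 (.f (.s 0 (.l)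
  (.l)))
  (.f (.l)))))))
  (.s 2 (.s 4 (.s 1 (.s 0 (.s 0 (.o)
  (.o))
  (.s 2 (.s 0 (.o)
  (.o))
  (.s 3 (.o)
  (.f (.s 0 (.o)
  (.o))))))
  (.s 3 (.s 0 (.o)
  (.s 2 (.o)
  (.s 0 (.o)
  (.o))))
  (.o)))
  (.s 0 (.s 3 (.f (.s 1 (.l)
  (.l)))
  (.o))
  (.s 1 (.f (.s 2 (.l)
  (.l)))
  (.s 2 (.f (.s 0 (.l)
  (.l)))
  (.f (.l))))))
  (.s 1 (.s 2 (.s 0 (.o)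
  (.s 4 (.s 3 (.s 0 (.o)
  (.o))
  (.o))
  (.f (.l))))
  (.o))
  (.o)))))
  (.s 0 (.s 1 (.s 2 (.f (.l))
  (.f (.l)))
  (.s 0 (.o)
  (.l)))
  (.s 1 (.s 2 (.f (.l))
  (.f (.l)))
  (.s 0 (.f (.l))
  (.l)))))
  (.o))
  (.s 4 (.s 0 (.l)
  (.f (.l)))
  (.f (.l)))))
  (.f (.l)))
  (.f (.l))))
  (.f (.l))

theorem chkU67 : chkBoxU 15 11 11 11 WU TU67 = true := by decide +kernel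

/-- subdivision tree of the box 68 -/
def TU68 : TU :=
  .s 4 (.f (.s 4 (.s 4 (.f (.s 4 (.s 0 (.o)
  (.s 1 (.s 3 (.o)
  (.s 2 (.s 4 (.s 2 (.s 0 (.o)
  (.s 1 (.s 3 (.o)
  (.f (.s 4 (.s 2 (.o)
  (.o))
  (.l))))
  (.o)))
  (.o))
  (.f (.l)))
  (.o)))
  (.o)))
  (.s 4 (.s 0 (.o)
  (.f (.l)))
  (.f (.l)))))
  (.f (.l)))
  (.f (.l))))
  (.f (.l))

theorem chkU68 : chkBoxU 15 11 13 5 WU TU68 = true := by decide +kernel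

/-- subdivision tree of the box 69 -/
def TU69 : TU :=
  .s 4 (.f (.s 4 (.s 4 (.f (.s 4 (.s 4 (.s 1 (.s 2 (.s 0 (.s 3 (.s 0 (.o)
  (.s 3 (.o)
  (.f (.s 2 (.s 4 (.o)
  (.l))
  (.o)))))
  (.s 4 (.s 0 (.o)
  (.s 0 (.o)
  (.o)))
  (.f (.s 2 (.s 1 (.s 0 (.l)
  (.l))
  (.s 0 (.l)
  (.l)))
  (.s 1 (.s 0 (.l)
  (.l))
  (.s 0 (.o)
  (.l)))))))
  (.s 3 (.s 4 (.s 2 (.s 0 (.s 0 (.o)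
  (.o))
  (.s 1 (.f (.s 0 (.o)
  (.o)))
  (.f (.s 0 (.o)
  (.s 2 (.o)
  (.o))))))
  (.s 1 (.s 0 (.s 0 (.o)
  (.o))
  (.s 3 (.f (.s 4 (.o)
  (.s 3 (.o)
  (.s 2 (.s 0 (.o)
  (.o))
  (.o)))))
  (.f (.s 4 (.o)
  (.s 0 (.o)
  (.s 0 (.o)
  (.o)))))))
  (.f (.s 3 (.o)
  (.s 0 (.o)
  (.s 4 (.o)
  (.s 2 (.s 1 (.s 0 (.o)
  (.o))
  (.o))
  (.o))))))))
  (.s 2 (.f (.s 3 (.s 0 (.l)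
  (.s 0 (.l)
  (.l)))
  (.s 0 (.l)
  (.l))))
  (.f (.s 3 (.s 0 (.o)
  (.l))
  (.s 0 (.l)
  (.l))))))
  (.s 4 (.s 1 (.s 3 (.s 0 (.f (.s 0 (.o)
  (.o)))
  (.f (.s 2 (.o)
  (.s 4 (.o)
  (.s 2 (.o)
  (.s 0 (.o)
  (.o)))))))
  (.s 0 (.f (.s 0 (.o)
  (.o)))
  (.s 2 (.o)
  (.f (.s 0 (.o)
  (.o))))))
  (.s 3 (.s 0 (.f (.s 2 (.o)
  (.s 0 (.o)
  (.o))))
  (.f (.s 2 (.s 0 (.o)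
  (.o))
  (.s 4 (.o)
  (.s 0 (.s 0 (.o)
  (.o))
  (.s 2 (.o)
  (.s 1 (.o)
  (.s 0 (.o)
  (.o)))))))))
  (.s 0 (.f (.s 2 (.o)
  (.o)))
  (.f (.s 2 (.s 0 (.o)
  (.o))
  (.s 4 (.o)
  (.s 0 (.o)
  (.s 1 (.o)
  (.s 0 (.o)
  (.o))))))))))
  (.s 2 (.f (.s 3 (.s 0 (.l)
  (.l))
  (.s 0 (.l)
  (.s 0 (.l)
  (.l)))))
  (.f (.s 3 (.s 0 (.l)
  (.l))
  (.s 0 (.l)
  (.s 0 (.l)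
  (.l)))))))))
  (.s 0 (.s 3 (.o)
  (.s 2 (.s 0 (.o)
  (.s 3 (.o)
  (.s 4 (.o)
  (.f (.l)))))
  (.o)))
  (.s 3 (.s 2 (.s 3 (.o)
  (.s 0 (.o)
  (.s 4 (.s 1 (.f (.s 4 (.o)
  (.s 2 (.s 3 (.o)
  (.s 0 (.o)
  (.s 0 (.o)
  (.o))))
  (.o))))
  (.o))
  (.f (.l)))))
  (.o))
  (.s 4 (.s 1 (.f (.s 2 (.s 3 (.s 0 (.s 0 (.o)
  (.o))
  (.s 4 (.o)
  (.s 1 (.s 0 (.o)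
  (.s 2 (.o)
  (.s 0 (.o)
  (.o))))
  (.s 2 (.s 0 (.o)
  (.s 0 (.o)
  (.o)))
  (.s 3 (.o)
  (.s 2 (.s 0 (.o)
  (.o))
  (.o)))))))
  (.s 0 (.s 0 (.o)
  (.o))
  (.s 4 (.o)
  (.s 1 (.s 2 (.o)
  (.s 0 (.o)
  (.o)))
  (.s 0 (.o)
  (.s 2 (.o)
  (.s 0 (.o)
  (.o))))))))
  (.s 0 (.s 3 (.o)
  (.s 4 (.o)
  (.s 2 (.s 0 (.o)
  (.o))
  (.o))))
  (.s 3 (.s 4 (.o)
  (.s 2 (.s 2 (.s 3 (.o)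
  (.s 0 (.o)
  (.s 1 (.s 0 (.o)
  (.o))
  (.o))))
  (.o))
  (.o)))
  (.s 4 (.o)
  (.s 1 (.s 2 (.s 0 (.o)
  (.s 0 (.o)
  (.s 1 (.o)
  (.o))))
  (.s 0 (.s 0 (.o)
  (.o))
  (.s 3 (.s 4 (.o)
  (.s 2 (.s 2 (.s 0 (.o)
  (.o))
  (.o))
  (.o)))
  (.s 4 (.o)
  (.s 1 (.s 0 (.o)
  (.o))
  (.s 0 (.o)
  (.o)))))))
  (.s 2 (.s 0 (.s 0 (.o)
  (.o))
  (.s 3 (.s 4 (.o)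
  (.l))
  (.s 4 (.o)
  (.s 0 (.o)
  (.s 1 (.o)
  (.l))))))
  (.s 2 (.s 0 (.o)
  (.s 0 (.o)
  (.o)))
  (.o)))))))))
  (.f (.s 2 (.s 0 (.s 3 (.o)
  (.s 2 (.o)
  (.o)))
  (.s 3 (.s 4 (.o)
  (.s 2 (.s 3 (.o)
  (.s 1 (.s 0 (.o)
  (.s 0 (.o)
  (.o)))
  (.o)))
  (.o)))
  (.s 4 (.o)
  (.s 0 (.s 2 (.o)
  (.s 1 (.o)
  (.o)))
  (.s 3 (.s 1 (.s 2 (.s 0 (.o)
  (.o))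
  (.s 4 (.o)
  (.l)))
  (.s 2 (.s 2 (.o)
  (.o))
  (.o)))
  (.s 1 (.s 2 (.o)
  (.s 4 (.o)
  (.l)))
  (.s 2 (.s 0 (.o)
  (.o))
  (.s 4 (.o)
  (.l)))))))))
  (.s 3 (.o)
  (.s 0 (.o)
  (.s 2 (.s 4 (.o)
  (.s 0 (.o)
  (.s 2 (.s 1 (.s 3 (.o)
  (.s 4 (.o)
  (.l)))
  (.o))
  (.o))))
  (.o)))))))
  (.f (.s 1 (.s 2 (.s 3 (.s 0 (.l)
  (.l))
  (.s 0 (.l)
  (.l)))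
  (.s 0 (.s 3 (.o)
  (.s 0 (.o)
  (.l)))
  (.s 3 (.s 0 (.o)
  (.l))
  (.s 4 (.l)
  (.l)))))
  (.s 2 (.s 0 (.l)
  (.s 0 (.l)
  (.l)))
  (.s 0 (.o)
  (.s 2 (.l)
  (.o))))))))))
  (.s 2 (.s 0 (.s 3 (.o)
  (.s 0 (.o)
  (.s 1 (.f (.s 2 (.s 4 (.o)
  (.l))
  (.o)))
  (.o))))
  (.s 3 (.s 1 (.s 3 (.o)
  (.s 2 (.s 4 (.s 0 (.o)
  (.f (.s 4 (.o)
  (.s 1 (.s 2 (.o)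
  (.o))
  (.o)))))
  (.f (.l)))
  (.o)))
  (.o))
  (.s 4 (.s 0 (.s 3 (.s 1 (.f (.s 2 (.o)
  (.o)))
  (.o))
  (.f (.s 1 (.s 2 (.o)
  (.s 0 (.o)
  (.o)))
  (.s 2 (.o)
  (.o)))))
  (.f (.s 3 (.s 2 (.s 1 (.s 4 (.o)
  (.s 0 (.o)
  (.s 0 (.o)
  (.o))))
  (.s 4 (.o)
  (.s 1 (.s 3 (.o)
  (.s 2 (.o)
  (.o)))
  (.o))))
  (.s 1 (.s 4 (.o)
  (.s 1 (.s 3 (.o)
  (.s 0 (.o)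
  (.s 2 (.o)
  (.o))))
  (.o)))
  (.o)))
  (.s 1 (.s 2 (.s 0 (.o)
  (.o))
  (.s 4 (.o)
  (.s 0 (.s 2 (.o)
  (.s 0 (.o)
  (.o)))
  (.s 3 (.s 1 (.s 2 (.o)
  (.s 0 (.o)
  (.o)))
  (.s 2 (.o)
  (.o)))
  (.s 1 (.s 2 (.o)
  (.s 0 (.o)
  (.o)))
  (.s 2 (.o)
  (.s 2 (.o)
  (.o))))))))
  (.s 2 (.s 4 (.o)
  (.s 0 (.o)
  (.s 2 (.o)
  (.s 0 (.o)
  (.o)))))
  (.s 4 (.o)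
  (.s 1 (.s 2 (.s 3 (.o)
  (.s 0 (.o)
  (.s 0 (.o)
  (.o))))
  (.o))
  (.o))))))))
  (.f (.s 1 (.s 2 (.s 3 (.s 0 (.l)
  (.l))
  (.s 0 (.l)
  (.l)))
  (.s 0 (.l)
  (.s 0 (.l)
  (.l))))
  (.s 2 (.s 0 (.s 1 (.l)
  (.o))
  (.s 3 (.l)
  (.s 0 (.l)
  (.l))))
  (.s 0 (.o)
  (.s 1 (.l)
  (.o)))))))))
  (.s 3 (.o)
  (.s 0 (.o)
  (.s 2 (.s 1 (.s 3 (.o)
  (.f (.s 4 (.s 0 (.o)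
  (.s 4 (.o)
  (.s 2 (.s 1 (.s 3 (.o)
  (.s 0 (.o)
  (.s 4 (.o)
  (.l))))
  (.o))
  (.o))))
  (.l))))
  (.o))
  (.o))))))
  (.s 1 (.s 2 (.s 0 (.f (.s 3 (.l)
  (.l)))
  (.f (.s 3 (.l)
  (.l))))
  (.s 0 (.s 0 (.o)
  (.f (.l)))
  (.s 3 (.f (.l))
  (.f (.l)))))
  (.s 2 (.s 0 (.s 3 (.o)
  (.f (.l)))
  (.f (.s 3 (.l)
  (.l))))
  (.s 0 (.o)
  (.s 1 (.l)
  (.o))))))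
  (.s 4 (.s 0 (.f (.l))
  (.l))
  (.f (.l)))))
  (.f (.l)))
  (.f (.l))))
  (.f (.l))

theorem chkU69 : chkBoxU 15 11 13 7 WU TU69 = true := by decide +kernel

/-- subdivision tree of the box 70 -/
def TU70 : TU :=
  .s 4 (.f (.s 4 (.s 4 (.f (.s 4 (.s 4 (.s 1 (.s 2 (.s 0 (.s 3 (.s 4 (.s 0 (.o)
  (.s 0 (.o)
  (.o)))
  (.f (.s 2 (.s 1 (.s 0 (.l)
  (.l))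
  (.s 0 (.l)
  (.l)))
  (.s 1 (.s 0 (.l)
  (.l))
  (.s 0 (.o)
  (.l))))))
  (.s 0 (.o)
  (.s 3 (.f (.s 2 (.s 4 (.o)
  (.l))
  (.o)))
  (.o))))
  (.s 3 (.s 4 (.s 1 (.s 3 (.s 0 (.f (.s 0 (.o)
  (.o)))
  (.s 2 (.o)
  (.f (.s 0 (.o)
  (.o)))))
  (.s 0 (.f (.s 0 (.o)
  (.o)))
  (.f (.s 2 (.o)
  (.s 4 (.o)
  (.s 2 (.o)
  (.s 0 (.o)
  (.o))))))))
  (.s 3 (.s 0 (.f (.s 2 (.o)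
  (.o)))
  (.f (.s 2 (.s 0 (.o)
  (.o))
  (.s 4 (.o)
  (.s 0 (.o)
  (.s 1 (.o)
  (.s 0 (.o)
  (.o))))))))
  (.s 0 (.f (.s 2 (.o)
  (.s 0 (.o)
  (.o))))
  (.f (.s 2 (.s 0 (.o)
  (.o))
  (.s 4 (.o)
  (.s 0 (.s 0 (.o)
  (.o))
  (.s 2 (.o)
  (.s 1 (.o)
  (.s 0 (.o)
  (.o)))))))))))
  (.s 2 (.f (.s 3 (.s 0 (.l)
  (.s 0 (.l)
  (.l)))
  (.s 0 (.l)
  (.l))))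
  (.f (.s 3 (.s 0 (.l)
  (.s 0 (.l)
  (.l)))
  (.s 0 (.l)
  (.l))))))
  (.s 4 (.s 2 (.s 0 (.s 0 (.o)
  (.o))
  (.s 1 (.f (.s 0 (.o)
  (.o)))
  (.f (.s 0 (.o)
  (.s 2 (.o)
  (.o))))))
  (.s 1 (.s 0 (.s 0 (.o)
  (.o))
  (.s 3 (.f (.s 4 (.o)
  (.s 0 (.o)
  (.s 0 (.o)
  (.o)))))
  (.f (.s 4 (.o)
  (.s 3 (.s 2 (.s 0 (.o)
  (.o))
  (.o))
  (.o))))))
  (.f (.s 3 (.s 0 (.o)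
  (.s 4 (.o)
  (.s 2 (.s 1 (.s 0 (.o)
  (.o))
  (.o))
  (.o))))
  (.o)))))
  (.s 2 (.f (.s 3 (.s 0 (.l)
  (.l))
  (.s 0 (.l)
  (.s 0 (.l)
  (.l)))))
  (.f (.s 3 (.s 0 (.l)
  (.l))
  (.s 0 (.o)
  (.l))))))))
  (.s 0 (.s 3 (.s 2 (.s 0 (.o)
  (.s 3 (.s 4 (.o)
  (.f (.l)))
  (.o)))
  (.o))
  (.o))
  (.s 3 (.s 4 (.s 1 (.f (.s 2 (.s 3 (.s 0 (.s 0 (.o)
  (.o))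
  (.s 4 (.o)
  (.s 1 (.s 2 (.o)
  (.s 0 (.o)
  (.o)))
  (.s 0 (.o)
  (.s 2 (.o)
  (.s 0 (.o)
  (.o)))))))
  (.s 0 (.s 0 (.o)
  (.o))
  (.s 4 (.o)
  (.s 1 (.s 0 (.o)
  (.s 2 (.o)
  (.s 0 (.o)
  (.o))))
  (.s 2 (.s 0 (.o)
  (.s 0 (.o)
  (.o)))
  (.s 3 (.s 2 (.s 0 (.o)
  (.o))
  (.o))
  (.o)))))))
  (.s 0 (.s 3 (.s 4 (.o)
  (.s 2 (.s 0 (.o)
  (.o))
  (.o)))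
  (.o))
  (.s 3 (.s 4 (.o)
  (.s 1 (.s 2 (.s 0 (.o)
  (.s 0 (.o)
  (.s 1 (.o)
  (.o))))
  (.s 0 (.s 0 (.o)
  (.o))
  (.s 3 (.s 4 (.o)
  (.s 1 (.s 0 (.o)
  (.o))
  (.s 0 (.o)
  (.o))))
  (.s 4 (.o)
  (.s 2 (.s 2 (.s 0 (.o)
  (.o))
  (.o))
  (.o))))))
  (.s 2 (.s 0 (.s 0 (.o)
  (.o))
  (.s 3 (.s 4 (.o)
  (.s 0 (.o)
  (.s 1 (.o)
  (.l))))
  (.s 4 (.o)
  (.l))))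
  (.s 2 (.s 0 (.o)
  (.s 0 (.o)
  (.o)))
  (.o)))))
  (.s 4 (.o)
  (.s 2 (.s 2 (.s 3 (.s 0 (.o)
  (.s 1 (.s 0 (.o)
  (.o))
  (.o)))
  (.o))
  (.o))
  (.o)))))))
  (.f (.s 2 (.s 0 (.s 3 (.s 2 (.o)
  (.o))
  (.o))
  (.s 3 (.s 4 (.o)
  (.s 0 (.s 2 (.o)
  (.s 1 (.o)
  (.o)))
  (.s 3 (.s 1 (.s 2 (.o)
  (.s 4 (.o)
  (.l)))
  (.s 2 (.s 0 (.o)
  (.o))
  (.s 4 (.o)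
  (.l))))
  (.s 1 (.s 2 (.s 0 (.o)
  (.o))
  (.s 4 (.o)
  (.l)))
  (.s 2 (.s 2 (.o)
  (.o))
  (.o))))))
  (.s 4 (.o)
  (.s 2 (.s 3 (.s 1 (.s 0 (.o)
  (.s 0 (.o)
  (.o)))
  (.o))
  (.o))
  (.o)))))
  (.s 3 (.s 0 (.o)
  (.s 2 (.s 4 (.o)
  (.s 0 (.o)
  (.s 2 (.s 1 (.s 3 (.s 4 (.o)
  (.l))
  (.o))
  (.o))
  (.o))))
  (.o)))
  (.o)))))
  (.f (.s 1 (.s 2 (.s 3 (.s 0 (.l)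
  (.l))
  (.s 0 (.l)
  (.l)))
  (.s 0 (.s 3 (.s 0 (.o)
  (.l))
  (.o))
  (.s 3 (.s 4 (.l)
  (.l))
  (.s 0 (.o)
  (.l)))))
  (.s 2 (.s 0 (.l)
  (.s 0 (.l)
  (.l)))
  (.s 0 (.o)
  (.s 2 (.l)
  (.o)))))))
  (.s 2 (.s 3 (.s 0 (.o)
  (.s 4 (.s 1 (.f (.s 4 (.o)
  (.s 2 (.s 3 (.s 0 (.o)
  (.s 0 (.o)
  (.o)))
  (.o))
  (.o))))
  (.o))
  (.f (.l))))
  (.o))
  (.o)))))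
  (.s 2 (.s 0 (.s 3 (.s 0 (.o)
  (.s 1 (.f (.s 2 (.s 4 (.o)
  (.l))
  (.o)))
  (.o)))
  (.o))
  (.s 3 (.s 4 (.s 0 (.s 3 (.f (.s 1 (.s 2 (.o)
  (.s 0 (.o)
  (.o)))
  (.s 2 (.o)
  (.o))))
  (.s 1 (.f (.s 2 (.o)
  (.o)))
  (.o)))
  (.f (.s 3 (.s 1 (.s 2 (.s 0 (.o)
  (.o))
  (.s 4 (.o)
  (.s 0 (.s 2 (.o)
  (.s 0 (.o)
  (.o)))
  (.s 3 (.s 1 (.s 2 (.o)
  (.s 0 (.o)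
  (.o)))
  (.s 2 (.o)
  (.s 2 (.o)
  (.o))))
  (.s 1 (.s 2 (.o)
  (.s 0 (.o)
  (.o)))
  (.s 2 (.o)
  (.o)))))))
  (.s 2 (.s 4 (.o)
  (.s 0 (.o)
  (.s 2 (.o)
  (.s 0 (.o)
  (.o)))))
  (.s 4 (.o)
  (.s 1 (.s 2 (.s 3 (.s 0 (.o)
  (.s 0 (.o)
  (.o)))
  (.o))
  (.o))
  (.o)))))
  (.s 2 (.s 1 (.s 4 (.o)
  (.s 0 (.o)
  (.s 0 (.o)
  (.o))))
  (.s 4 (.o)
  (.s 1 (.s 3 (.s 2 (.o)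
  (.o))
  (.o))
  (.o))))
  (.s 1 (.s 4 (.o)
  (.s 1 (.s 3 (.s 0 (.o)
  (.s 2 (.o)
  (.o)))
  (.o))
  (.o)))
  (.o))))))
  (.f (.s 1 (.s 2 (.s 3 (.s 0 (.l)
  (.l))
  (.s 0 (.l)
  (.l)))
  (.s 0 (.l)
  (.s 0 (.l)
  (.l))))
  (.s 2 (.s 0 (.s 1 (.l)
  (.o))
  (.s 3 (.s 0 (.l)
  (.l))
  (.l)))
  (.s 0 (.o)
  (.s 1 (.l)
  (.o)))))))
  (.s 1 (.s 3 (.s 2 (.s 4 (.s 0 (.o)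
  (.f (.s 4 (.o)
  (.s 1 (.s 2 (.o)
  (.o))
  (.o)))))
  (.f (.l)))
  (.o))
  (.o))
  (.o))))
  (.s 3 (.s 0 (.o)
  (.s 2 (.s 1 (.s 3 (.f (.s 4 (.s 0 (.o)
  (.s 4 (.o)
  (.s 2 (.s 1 (.s 3 (.s 0 (.o)
  (.s 4 (.o)
  (.l)))
  (.o))
  (.o))
  (.o))))
  (.l)))
  (.o))
  (.o))
  (.o)))
  (.o))))
  (.s 1 (.s 2 (.s 0 (.f (.s 3 (.l)
  (.l)))
  (.f (.s 3 (.l)
  (.l))))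
  (.s 0 (.s 0 (.o)
  (.f (.l)))
  (.s 3 (.f (.l))
  (.f (.l)))))
  (.s 2 (.s 0 (.s 3 (.f (.l))
  (.o))
  (.f (.s 3 (.l)
  (.l))))
  (.s 0 (.o)
  (.s 1 (.l)
  (.o))))))
  (.s 4 (.s 0 (.f (.l))
  (.l))
  (.f (.l)))))
  (.f (.l)))
  (.f (.l))))
  (.f (.l))

theorem chkU70 : chkBoxU 15 11 13 9 WU TU70 = true := by decide +kernel

/-- subdivision tree of the box 71 -/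
def TU71 : TU :=
  .s 4 (.f (.s 4 (.s 4 (.f (.s 4 (.s 0 (.o)
  (.s 1 (.s 3 (.s 2 (.s 4 (.s 2 (.s 0 (.o)
  (.s 1 (.s 3 (.f (.s 4 (.s 2 (.o)
  (.o))
  (.l)))
  (.o))
  (.o)))
  (.o))
  (.f (.l)))
  (.o))
  (.o))
  (.o)))
  (.s 4 (.s 0 (.o)
  (.f (.l)))
  (.f (.l)))))
  (.f (.l)))
  (.f (.l))))
  (.f (.l))

theorem chkU71 : chkBoxU 15 11 13 11 WU TU71 = true := by decide +kernel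

/-- subdivision tree of the box 72 -/
def TU72 : TU :=
  .s 4 (.f (.s 4 (.s 4 (.f (.s 4 (.s 1 (.s 2 (.s 3 (.o)
  (.s 0 (.o)
  (.s 4 (.s 2 (.s 1 (.s 0 (.o)
  (.s 3 (.o)
  (.f (.s 2 (.s 4 (.s 0 (.o)
  (.o))
  (.s 0 (.o)
  (.l)))
  (.o)))))
  (.o))
  (.o))
  (.f (.l)))))
  (.o))
  (.o))
  (.s 4 (.s 0 (.o)
  (.l))
  (.f (.l)))))
  (.f (.l)))
  (.f (.l))))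
  (.f (.l))

theorem chkU72 : chkBoxU 15 11 15 7 WU TU72 = true := by decide +kernel

/-- subdivision tree of the box 73 -/
def TU73 : TU :=
  .s 4 (.f (.s 4 (.s 4 (.f (.s 4 (.s 1 (.s 2 (.s 3 (.s 0 (.o)
  (.s 4 (.s 2 (.s 1 (.s 0 (.o)
  (.s 3 (.f (.s 2 (.s 4 (.s 0 (.o)
  (.o))
  (.s 0 (.o)
  (.l)))
  (.o)))
  (.o)))
  (.o))
  (.o))
  (.f (.l))))
  (.o))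
  (.o))
  (.o))
  (.s 4 (.s 0 (.o)
  (.l))
  (.f (.l)))))
  (.f (.l)))
  (.f (.l))))
  (.f (.l))

theorem chkU73 : chkBoxU 15 11 15 9 WU TU73 = true := by decide +kernel

/-- subdivision tree of the box 74 -/
def TU74 : TU :=
  .s 4 (.f (.s 4 (.s 4 (.f (.s 4 (.s 3 (.o)
  (.s 1 (.s 0 (.o)
  (.s 2 (.o)
  (.s 4 (.s 1 (.s 0 (.o)
  (.s 2 (.o)
  (.s 3 (.o)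
  (.f (.s 4 (.s 0 (.o)
  (.o))
  (.l))))))
  (.o))
  (.f (.l)))))
  (.o)))
  (.s 4 (.s 0 (.o)
  (.l))
  (.f (.l)))))
  (.f (.l)))
  (.f (.l))))
  (.f (.l))

theorem chkU74 : chkBoxU 15 13 9 5 WU TU74 = true := by decide +kernel

/-- subdivision tree of the box 75 -/
def TU75 : TU :=
  .s 4 (.f (.s 4 (.s 4 (.f (.s 4 (.s 4 (.s 1 (.s 2 (.s 3 (.s 3 (.o)
  (.s 2 (.o)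
  (.s 0 (.s 4 (.s 0 (.o)
  (.o))
  (.s 0 (.l)
  (.l)))
  (.s 2 (.o)
  (.s 4 (.s 0 (.o)
  (.s 0 (.o)
  (.o)))
  (.f (.s 0 (.l)
  (.l))))))))
  (.s 0 (.s 4 (.o)
  (.s 1 (.s 2 (.s 0 (.f (.l))
  (.f (.l)))
  (.s 0 (.f (.l))
  (.f (.l))))
  (.s 2 (.s 0 (.l)
  (.f (.l)))
  (.s 0 (.f (.l))
  (.f (.l))))))
  (.s 4 (.s 0 (.o)
  (.s 0 (.o)
  (.o)))
  (.s 1 (.s 2 (.s 3 (.f (.l))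
  (.f (.s 0 (.l)
  (.l))))
  (.f (.s 3 (.l)
  (.l))))
  (.s 2 (.s 3 (.f (.l))
  (.f (.s 0 (.l)
  (.l))))
  (.s 3 (.f (.l))
  (.f (.l))))))))
  (.s 0 (.s 3 (.s 4 (.s 0 (.o)
  (.o))
  (.s 1 (.s 0 (.s 3 (.o)
  (.f (.l)))
  (.s 2 (.l)
  (.l)))
  (.s 3 (.o)
  (.s 0 (.f (.l))
  (.f (.l))))))
  (.s 4 (.s 0 (.o)
  (.o))
  (.s 1 (.s 2 (.s 0 (.f (.l))
  (.l))
  (.s 3 (.f (.l))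
  (.l)))
  (.s 2 (.s 0 (.f (.l))
  (.l))
  (.s 0 (.f (.l))
  (.f (.l)))))))
  (.s 3 (.s 4 (.s 2 (.s 3 (.s 0 (.o)
  (.s 1 (.o)
  (.f (.s 0 (.o)
  (.o)))))
  (.s 0 (.o)
  (.s 1 (.o)
  (.f (.s 0 (.o)
  (.o))))))
  (.s 0 (.s 0 (.o)
  (.o))
  (.s 1 (.o)
  (.f (.s 0 (.o)
  (.o))))))
  (.s 1 (.s 2 (.s 3 (.l)
  (.f (.l)))
  (.s 3 (.f (.s 0 (.l)
  (.l)))
  (.l)))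
  (.f (.s 2 (.s 0 (.l)
  (.l))
  (.s 3 (.s 0 (.l)
  (.l))
  (.l))))))
  (.s 4 (.s 0 (.o)
  (.s 1 (.o)
  (.s 0 (.o)
  (.o))))
  (.s 2 (.s 3 (.f (.s 0 (.l)
  (.l)))
  (.s 1 (.f (.l))
  (.f (.l))))
  (.s 3 (.s 1 (.l)
  (.f (.l)))
  (.s 0 (.f (.s 0 (.l)
  (.l)))
  (.f (.s 1 (.l)
  (.l))))))))))
  (.s 2 (.s 0 (.s 3 (.s 1 (.s 2 (.o)
  (.s 3 (.o)
  (.s 4 (.o)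
  (.f (.l)))))
  (.o))
  (.s 4 (.s 1 (.o)
  (.s 0 (.o)
  (.o)))
  (.s 1 (.s 2 (.s 3 (.f (.l))
  (.f (.s 0 (.l)
  (.l))))
  (.s 0 (.f (.l))
  (.f (.l))))
  (.s 2 (.s 3 (.f (.s 0 (.l)
  (.l)))
  (.f (.s 0 (.l)
  (.s 0 (.l)
  (.l)))))
  (.s 3 (.f (.s 0 (.l)
  (.l)))
  (.f (.s 0 (.l)
  (.l))))))))
  (.s 3 (.s 2 (.o)
  (.s 3 (.o)
  (.s 2 (.o)
  (.s 3 (.o)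
  (.s 4 (.f (.s 1 (.s 0 (.o)
  (.s 0 (.o)
  (.o)))
  (.s 0 (.s 0 (.o)
  (.o))
  (.s 4 (.o)
  (.s 2 (.o)
  (.s 3 (.o)
  (.s 1 (.s 0 (.o)
  (.o))
  (.s 0 (.o)
  (.s 4 (.o)
  (.s 2 (.o)
  (.s 0 (.o)
  (.s 0 (.o)
  (.o)))))))))))))
  (.f (.s 0 (.l)
  (.l))))))))
  (.s 4 (.s 1 (.s 0 (.o)
  (.s 0 (.o)
  (.o)))
  (.f (.s 2 (.s 0 (.o)
  (.s 0 (.o)
  (.s 1 (.o)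
  (.s 3 (.s 0 (.o)
  (.o))
  (.o)))))
  (.s 3 (.s 0 (.s 0 (.o)
  (.o))
  (.s 4 (.o)
  (.s 1 (.s 0 (.o)
  (.o))
  (.s 0 (.o)
  (.s 1 (.o)
  (.s 0 (.o)
  (.o)))))))
  (.s 0 (.o)
  (.s 4 (.o)
  (.s 0 (.o)
  (.s 1 (.o)
  (.s 0 (.o)
  (.o))))))))))
  (.s 1 (.f (.s 2 (.s 3 (.s 0 (.l)
  (.l))
  (.s 0 (.l)
  (.s 0 (.l)
  (.l))))
  (.s 3 (.s 0 (.l)
  (.l))
  (.s 0 (.l)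
  (.l)))))
  (.f (.s 2 (.s 3 (.s 2 (.o)
  (.s 0 (.l)
  (.s 0 (.l)
  (.l))))
  (.s 0 (.s 4 (.s 0 (.l)
  (.l))
  (.l))
  (.s 4 (.s 1 (.l)
  (.s 2 (.s 0 (.l)
  (.l))
  (.l)))
  (.l))))
  (.s 3 (.s 0 (.l)
  (.s 0 (.l)
  (.l)))
  (.s 0 (.s 0 (.l)
  (.l))
  (.s 4 (.s 0 (.l)
  (.l))
  (.l))))))))))
  (.s 0 (.s 3 (.s 1 (.s 2 (.s 3 (.o)
  (.s 4 (.o)
  (.f (.l))))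
  (.o))
  (.o))
  (.s 4 (.s 0 (.o)
  (.s 0 (.o)
  (.o)))
  (.s 1 (.s 2 (.s 0 (.l)
  (.l))
  (.s 0 (.f (.l))
  (.f (.l))))
  (.s 2 (.s 3 (.f (.s 0 (.o)
  (.l)))
  (.f (.s 0 (.l)
  (.l))))
  (.s 0 (.o)
  (.f (.s 1 (.l)
  (.o))))))))
  (.s 3 (.s 4 (.s 1 (.s 0 (.s 0 (.o)
  (.o))
  (.s 2 (.f (.s 3 (.s 4 (.o)
  (.s 1 (.s 0 (.o)
  (.o))
  (.o)))
  (.s 4 (.o)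
  (.s 0 (.o)
  (.s 1 (.o)
  (.o))))))
  (.f (.s 3 (.s 4 (.o)
  (.s 1 (.s 0 (.o)
  (.o))
  (.o)))
  (.s 4 (.o)
  (.s 0 (.o)
  (.s 1 (.o)
  (.s 0 (.o)
  (.o)))))))))
  (.s 3 (.o)
  (.s 0 (.f (.s 1 (.s 0 (.o)
  (.o))
  (.o)))
  (.f (.s 2 (.s 4 (.o)
  (.s 1 (.s 0 (.o)
  (.s 0 (.o)
  (.s 1 (.o)
  (.o))))
  (.s 3 (.o)
  (.s 0 (.s 0 (.o)
  (.o))
  (.s 2 (.s 4 (.o)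
  (.s 0 (.o)
  (.s 1 (.o)
  (.s 0 (.o)
  (.o)))))
  (.s 4 (.o)
  (.s 1 (.l)
  (.o))))))))
  (.s 4 (.o)
  (.s 1 (.s 2 (.s 1 (.s 0 (.o)
  (.o))
  (.o))
  (.o))
  (.o))))))))
  (.s 1 (.f (.s 2 (.s 3 (.s 0 (.o)
  (.l))
  (.l))
  (.s 3 (.s 0 (.o)
  (.l))
  (.s 0 (.l)
  (.l)))))
  (.f (.s 3 (.o)
  (.s 0 (.s 0 (.o)
  (.l))
  (.s 2 (.l)
  (.l)))))))
  (.s 4 (.s 1 (.s 0 (.o)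
  (.s 0 (.o)
  (.s 1 (.o)
  (.s 2 (.o)
  (.o)))))
  (.s 3 (.f (.s 0 (.s 0 (.o)
  (.s 1 (.o)
  (.o)))
  (.s 2 (.s 4 (.o)
  (.s 1 (.s 0 (.o)
  (.s 0 (.o)
  (.o)))
  (.s 0 (.s 0 (.o)
  (.o))
  (.s 3 (.s 2 (.s 4 (.o)
  (.s 0 (.o)
  (.s 1 (.o)
  (.o))))
  (.s 4 (.o)
  (.s 0 (.o)
  (.s 1 (.o)
  (.s 0 (.o)
  (.o))))))
  (.s 0 (.o)
  (.s 1 (.o)
  (.s 2 (.o)
  (.o))))))))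
  (.s 4 (.o)
  (.s 1 (.s 0 (.o)
  (.s 1 (.o)
  (.s 0 (.o)
  (.o))))
  (.s 0 (.s 0 (.o)
  (.o))
  (.s 3 (.s 1 (.s 2 (.s 0 (.o)
  (.o))
  (.o))
  (.o))
  (.s 2 (.s 4 (.o)
  (.s 0 (.o)
  (.s 1 (.o)
  (.s 0 (.o)
  (.o)))))
  (.s 4 (.o)
  (.s 1 (.s 0 (.o)
  (.o))
  (.o)))))))))))
  (.f (.s 0 (.s 0 (.o)
  (.o))
  (.s 2 (.s 4 (.o)
  (.s 1 (.s 0 (.o)
  (.o))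
  (.s 0 (.o)
  (.s 1 (.o)
  (.s 0 (.o)
  (.o))))))
  (.s 4 (.o)
  (.s 1 (.s 0 (.o)
  (.s 0 (.o)
  (.o)))
  (.s 0 (.o)
  (.s 0 (.o)
  (.s 1 (.o)
  (.s 2 (.o)
  (.o))))))))))))
  (.s 1 (.f (.s 2 (.s 3 (.s 0 (.l)
  (.l))
  (.s 0 (.l)
  (.l)))
  (.s 0 (.s 0 (.l)
  (.l))
  (.s 3 (.l)
  (.l)))))
  (.f (.s 0 (.s 3 (.s 2 (.l)
  (.l))
  (.s 2 (.s 0 (.l)
  (.l))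
  (.s 0 (.l)
  (.l))))
  (.s 3 (.s 2 (.s 0 (.l)
  (.l))
  (.s 0 (.l)
  (.l)))
  (.s 2 (.s 4 (.s 0 (.l)
  (.l))
  (.l))
  (.s 4 (.s 0 (.l)
  (.l))
  (.l))))))))))))
  (.s 1 (.s 2 (.s 3 (.s 0 (.f (.l))
  (.f (.l)))
  (.s 0 (.l)
  (.l)))
  (.s 3 (.s 0 (.l)
  (.f (.l)))
  (.s 0 (.f (.l))
  (.f (.l)))))
  (.s 0 (.s 2 (.s 3 (.l)
  (.l))
  (.s 3 (.l)
  (.l)))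
  (.s 2 (.f (.s 3 (.l)
  (.l)))
  (.f (.s 3 (.l)
  (.l)))))))
  (.s 4 (.s 0 (.l)
  (.f (.l)))
  (.f (.l)))))
  (.f (.l)))
  (.f (.l))))
  (.f (.l))

theorem chkU75 : chkBoxU 15 13 9 7 WU TU75 = true := by decide +kernel

/-- subdivision tree of the box 76 -/
def TU76 : TU :=
  .s 4 (.f (.s 4 (.s 4 (.f (.s 4 (.s 4 (.s 1 (.s 2 (.s 3 (.s 0 (.s 4 (.o)
  (.s 1 (.s 2 (.s 0 (.f (.l))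
  (.f (.l)))
  (.s 0 (.f (.l))
  (.f (.l))))
  (.s 2 (.s 0 (.l)
  (.f (.l)))
  (.s 0 (.f (.l))
  (.f (.l))))))
  (.s 4 (.s 0 (.o)
  (.s 0 (.o)
  (.o)))
  (.s 1 (.s 2 (.s 3 (.f (.s 0 (.l)
  (.l)))
  (.f (.l)))
  (.f (.s 3 (.l)
  (.l))))
  (.s 2 (.s 3 (.f (.s 0 (.l)
  (.l)))
  (.f (.l)))
  (.s 3 (.f (.l))
  (.f (.l)))))))
  (.s 3 (.s 2 (.o)
  (.s 0 (.s 4 (.s 0 (.o)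
  (.o))
  (.s 0 (.l)
  (.l)))
  (.s 2 (.o)
  (.s 4 (.s 0 (.o)
  (.s 0 (.o)
  (.o)))
  (.f (.s 0 (.l)
  (.l)))))))
  (.o)))
  (.s 0 (.s 3 (.s 4 (.s 0 (.o)
  (.o))
  (.s 1 (.s 2 (.s 0 (.f (.l))
  (.l))
  (.s 3 (.l)
  (.f (.l))))
  (.s 2 (.s 0 (.f (.l))
  (.l))
  (.s 0 (.f (.l))
  (.f (.l))))))
  (.s 4 (.s 0 (.o)
  (.o))
  (.s 1 (.s 0 (.s 3 (.f (.l))
  (.o))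
  (.s 2 (.l)
  (.l)))
  (.s 3 (.s 0 (.f (.l))
  (.f (.l)))
  (.o)))))
  (.s 3 (.s 4 (.s 0 (.o)
  (.s 1 (.o)
  (.s 0 (.o)
  (.o))))
  (.s 2 (.s 3 (.s 1 (.f (.l))
  (.f (.l)))
  (.f (.s 0 (.l)
  (.l))))
  (.s 3 (.s 0 (.f (.s 0 (.l)
  (.l)))
  (.f (.s 1 (.l)
  (.l))))
  (.s 1 (.l)
  (.f (.l))))))
  (.s 4 (.s 2 (.s 3 (.s 0 (.o)
  (.s 1 (.o)
  (.f (.s 0 (.o)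
  (.o)))))
  (.s 0 (.o)
  (.s 1 (.o)
  (.f (.s 0 (.o)
  (.o))))))
  (.s 0 (.s 0 (.o)
  (.o))
  (.s 1 (.o)
  (.f (.s 0 (.o)
  (.o))))))
  (.s 1 (.s 2 (.s 3 (.f (.l))
  (.l))
  (.s 3 (.l)
  (.f (.s 0 (.l)
  (.l)))))
  (.f (.s 2 (.s 0 (.l)
  (.l))
  (.s 3 (.l)
  (.s 0 (.l)
  (.l))))))))))
  (.s 2 (.s 0 (.s 3 (.s 4 (.s 1 (.o)
  (.s 0 (.o)
  (.o)))
  (.s 1 (.s 2 (.s 3 (.f (.s 0 (.l)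
  (.l)))
  (.f (.l)))
  (.s 0 (.f (.l))
  (.f (.l))))
  (.s 2 (.s 3 (.f (.s 0 (.l)
  (.s 0 (.l)
  (.l))))
  (.f (.s 0 (.l)
  (.l))))
  (.s 3 (.f (.s 0 (.l)
  (.l)))
  (.f (.s 0 (.l)
  (.l)))))))
  (.s 1 (.s 2 (.o)
  (.s 3 (.s 4 (.o)
  (.f (.l)))
  (.o)))
  (.o)))
  (.s 3 (.s 4 (.s 1 (.s 0 (.o)
  (.s 0 (.o)
  (.o)))
  (.f (.s 2 (.s 0 (.o)
  (.s 0 (.o)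
  (.s 1 (.o)
  (.s 3 (.o)
  (.s 0 (.o)
  (.o))))))
  (.s 3 (.s 0 (.o)
  (.s 4 (.o)
  (.s 0 (.o)
  (.s 1 (.o)
  (.s 0 (.o)
  (.o))))))
  (.s 0 (.s 0 (.o)
  (.o))
  (.s 4 (.o)
  (.s 1 (.s 0 (.o)
  (.o))
  (.s 0 (.o)
  (.s 1 (.o)
  (.s 0 (.o)
  (.o)))))))))))
  (.s 1 (.f (.s 2 (.s 3 (.s 0 (.l)
  (.s 0 (.l)
  (.l)))
  (.s 0 (.l)
  (.l)))
  (.s 3 (.s 0 (.l)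
  (.l))
  (.s 0 (.l)
  (.l)))))
  (.f (.s 2 (.s 3 (.s 0 (.s 4 (.s 0 (.l)
  (.l))
  (.l))
  (.s 4 (.s 1 (.l)
  (.s 2 (.s 0 (.l)
  (.l))
  (.l)))
  (.l)))
  (.s 2 (.o)
  (.s 0 (.l)
  (.s 0 (.l)
  (.l)))))
  (.s 3 (.s 0 (.s 0 (.l)
  (.l))
  (.s 4 (.s 0 (.l)
  (.l))
  (.l)))
  (.s 0 (.l)
  (.s 0 (.l)
  (.l))))))))
  (.s 2 (.o)
  (.s 3 (.s 2 (.o)
  (.s 3 (.s 4 (.f (.s 1 (.s 0 (.o)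
  (.s 0 (.o)
  (.o)))
  (.s 0 (.s 0 (.o)
  (.o))
  (.s 4 (.o)
  (.s 2 (.o)
  (.s 3 (.s 1 (.s 0 (.o)
  (.o))
  (.s 0 (.o)
  (.s 4 (.o)
  (.s 2 (.o)
  (.s 0 (.o)
  (.s 0 (.o)
  (.o)))))))
  (.o)))))))
  (.f (.s 0 (.l)
  (.l))))
  (.o)))
  (.o)))))
  (.s 0 (.s 3 (.s 4 (.s 0 (.o)
  (.s 0 (.o)
  (.o)))
  (.s 1 (.s 2 (.s 0 (.l)
  (.l))
  (.s 0 (.f (.l))
  (.f (.l))))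
  (.s 2 (.s 3 (.f (.s 0 (.l)
  (.l)))
  (.f (.s 0 (.o)
  (.l))))
  (.s 0 (.o)
  (.f (.s 1 (.l)
  (.o)))))))
  (.s 1 (.s 2 (.s 3 (.s 4 (.o)
  (.f (.l)))
  (.o))
  (.o))
  (.o)))
  (.s 3 (.s 4 (.s 1 (.s 0 (.o)
  (.s 0 (.o)
  (.s 1 (.o)
  (.s 2 (.o)
  (.o)))))
  (.s 3 (.f (.s 0 (.s 0 (.o)
  (.o))
  (.s 2 (.s 4 (.o)
  (.s 1 (.s 0 (.o)
  (.o))
  (.s 0 (.o)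
  (.s 1 (.o)
  (.s 0 (.o)
  (.o))))))
  (.s 4 (.o)
  (.s 1 (.s 0 (.o)
  (.s 0 (.o)
  (.o)))
  (.s 0 (.o)
  (.s 0 (.o)
  (.s 1 (.o)
  (.s 2 (.o)
  (.o))))))))))
  (.f (.s 0 (.s 0 (.o)
  (.s 1 (.o)
  (.o)))
  (.s 2 (.s 4 (.o)
  (.s 1 (.s 0 (.o)
  (.s 0 (.o)
  (.o)))
  (.s 0 (.s 0 (.o)
  (.o))
  (.s 3 (.s 0 (.o)
  (.s 1 (.o)
  (.s 2 (.o)
  (.o))))
  (.s 2 (.s 4 (.o)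
  (.s 0 (.o)
  (.s 1 (.o)
  (.o))))
  (.s 4 (.o)
  (.s 0 (.o)
  (.s 1 (.o)
  (.s 0 (.o)
  (.o))))))))))
  (.s 4 (.o)
  (.s 1 (.s 0 (.o)
  (.s 1 (.o)
  (.s 0 (.o)
  (.o))))
  (.s 0 (.s 0 (.o)
  (.o))
  (.s 3 (.s 2 (.s 4 (.o)
  (.s 0 (.o)
  (.s 1 (.o)
  (.s 0 (.o)
  (.o)))))
  (.s 4 (.o)
  (.s 1 (.s 0 (.o)
  (.o))
  (.o))))
  (.s 1 (.s 2 (.s 0 (.o)
  (.o))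
  (.o))
  (.o)))))))))))
  (.s 1 (.f (.s 2 (.s 3 (.s 0 (.l)
  (.l))
  (.s 0 (.l)
  (.l)))
  (.s 0 (.s 0 (.l)
  (.l))
  (.s 3 (.l)
  (.l)))))
  (.f (.s 0 (.s 3 (.s 2 (.s 0 (.l)
  (.l))
  (.s 0 (.l)
  (.l)))
  (.s 2 (.l)
  (.l)))
  (.s 3 (.s 2 (.s 4 (.s 0 (.l)
  (.l))
  (.l))
  (.s 4 (.s 0 (.l)
  (.l))
  (.l)))
  (.s 2 (.s 0 (.l)
  (.l))
  (.s 0 (.l)
  (.l))))))))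
  (.s 4 (.s 1 (.s 0 (.s 0 (.o)
  (.o))
  (.s 2 (.f (.s 3 (.s 4 (.o)
  (.s 0 (.o)
  (.s 1 (.o)
  (.o))))
  (.s 4 (.o)
  (.s 1 (.s 0 (.o)
  (.o))
  (.o)))))
  (.f (.s 3 (.s 4 (.o)
  (.s 0 (.o)
  (.s 1 (.o)
  (.s 0 (.o)
  (.o)))))
  (.s 4 (.o)
  (.s 1 (.s 0 (.o)
  (.o))
  (.o)))))))
  (.s 3 (.s 0 (.f (.s 1 (.s 0 (.o)
  (.o))
  (.o)))
  (.f (.s 2 (.s 4 (.o)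
  (.s 1 (.s 0 (.o)
  (.s 0 (.o)
  (.s 1 (.o)
  (.o))))
  (.s 3 (.s 0 (.s 0 (.o)
  (.o))
  (.s 2 (.s 4 (.o)
  (.s 0 (.o)
  (.s 1 (.o)
  (.s 0 (.o)
  (.o)))))
  (.s 4 (.o)
  (.s 1 (.l)
  (.o)))))
  (.o))))
  (.s 4 (.o)
  (.s 1 (.s 2 (.s 1 (.s 0 (.o)
  (.o))
  (.o))
  (.o))
  (.o))))))
  (.o)))
  (.s 1 (.f (.s 2 (.s 3 (.l)
  (.s 0 (.o)
  (.l)))
  (.s 3 (.s 0 (.l)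
  (.l))
  (.s 0 (.o)
  (.l)))))
  (.f (.s 3 (.s 0 (.s 0 (.o)
  (.l))
  (.s 2 (.l)
  (.l)))
  (.o)))))))))
  (.s 1 (.s 2 (.s 3 (.s 0 (.l)
  (.l))
  (.s 0 (.f (.l))
  (.f (.l))))
  (.s 3 (.s 0 (.f (.l))
  (.f (.l)))
  (.s 0 (.l)
  (.f (.l)))))
  (.s 0 (.s 2 (.s 3 (.l)
  (.l))
  (.s 3 (.l)
  (.l)))
  (.s 2 (.f (.s 3 (.l)
  (.l)))
  (.f (.s 3 (.l)
  (.l)))))))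
  (.s 4 (.s 0 (.l)
  (.f (.l)))
  (.f (.l)))))
  (.f (.l)))
  (.f (.l))))
  (.f (.l))

theorem chkU76 : chkBoxU 15 13 9 9 WU TU76 = true := by decide +kernel

end Pool.Agent.Helper10.Qc
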