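import Pool.Agent.Helper10.Qc.WU

set_option autoImplicit false

/-! # Certificates for the upper bound: boxes 77 to 87 -/

namespace Pool.Agent.Helper10.Qc

/-- subdivision tree of the box 77 -/
def TU77 : TU :=
  .s 4 (.f (.s 4 (.s 4 (.f (.s 4 (.s 3 (.s 1 (.s 0 (.o)
  (.s 2 (.o)
  (.s 4 (.s 1 (.s 0 (.o)
  (.s 2 (.o)
  (.s 3 (.f (.s 4 (.s 0 (.o)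
  (.o))
  (.l)))
  (.o))))
  (.o))
  (.f (.l)))))
  (.o))
  (.o))
  (.s 4 (.s 0 (.o)
  (.l))
  (.f (.l)))))
  (.f (.l)))
  (.f (.l))))
  (.f (.l))

theorem chkU77 : chkBoxU 15 13 9 11 WU TU77 = true := by decide +kernel

/-- subdivision tree of the box 78 -/
def TU78 : TU :=
  .s 4 (.f (.s 4 (.s 4 (.f (.s 4 (.s 0 (.o)
  (.s 2 (.s 3 (.o)
  (.s 1 (.s 4 (.s 1 (.s 0 (.o)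
  (.s 2 (.s 3 (.o)
  (.f (.s 4 (.s 1 (.o)
  (.o))
  (.l))))
  (.o)))
  (.o))
  (.f (.l)))
  (.o)))
  (.o)))
  (.s 4 (.s 0 (.o)
  (.f (.l)))
  (.f (.l)))))
  (.f (.l)))
  (.f (.l))))
  (.f (.l))

theorem chkU78 : chkBoxU 15 13 11 5 WU TU78 = true := by decide +kernel

/-- subdivision tree of the box 79 -/
def TU79 : TU :=
  .s 4 (.f (.s 4 (.s 4 (.f (.s 4 (.s 4 (.s 1 (.s 2 (.s 0 (.s 3 (.s 0 (.o)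
  (.s 3 (.o)
  (.f (.s 1 (.s 4 (.o)
  (.l))
  (.o)))))
  (.s 4 (.s 0 (.o)
  (.s 0 (.o)
  (.o)))
  (.f (.s 1 (.s 2 (.s 0 (.l)
  (.l))
  (.s 0 (.l)
  (.l)))
  (.s 2 (.s 0 (.l)
  (.l))
  (.s 0 (.o)
  (.l)))))))
  (.s 3 (.s 4 (.s 1 (.s 0 (.s 0 (.o)
  (.o))
  (.s 2 (.f (.s 0 (.o)
  (.o)))
  (.f (.s 0 (.o)
  (.s 1 (.o)
  (.o))))))
  (.s 2 (.s 0 (.s 0 (.o)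
  (.o))
  (.s 3 (.f (.s 4 (.o)
  (.s 3 (.o)
  (.s 1 (.s 0 (.o)
  (.o))
  (.o)))))
  (.f (.s 4 (.o)
  (.s 0 (.o)
  (.s 0 (.o)
  (.o)))))))
  (.f (.s 3 (.o)
  (.s 0 (.o)
  (.s 4 (.o)
  (.s 1 (.s 2 (.s 0 (.o)
  (.o))
  (.o))
  (.o))))))))
  (.s 1 (.f (.s 3 (.s 0 (.l)
  (.s 0 (.l)
  (.l)))
  (.s 0 (.l)
  (.l))))
  (.f (.s 3 (.s 0 (.o)
  (.l))
  (.s 0 (.l)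
  (.l))))))
  (.s 4 (.s 2 (.s 3 (.s 0 (.f (.s 0 (.o)
  (.o)))
  (.f (.s 1 (.o)
  (.s 4 (.o)
  (.s 1 (.o)
  (.s 0 (.o)
  (.o)))))))
  (.s 0 (.f (.s 0 (.o)
  (.o)))
  (.s 1 (.o)
  (.f (.s 0 (.o)
  (.o))))))
  (.s 3 (.s 0 (.f (.s 1 (.o)
  (.s 0 (.o)
  (.o))))
  (.f (.s 1 (.s 0 (.o)
  (.o))
  (.s 4 (.o)
  (.s 0 (.s 0 (.o)
  (.o))
  (.s 1 (.o)
  (.s 2 (.o)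
  (.s 0 (.o)
  (.o)))))))))
  (.s 0 (.f (.s 1 (.o)
  (.o)))
  (.f (.s 1 (.s 0 (.o)
  (.o))
  (.s 4 (.o)
  (.s 0 (.o)
  (.s 2 (.o)
  (.s 0 (.o)
  (.o))))))))))
  (.s 1 (.f (.s 3 (.s 0 (.l)
  (.l))
  (.s 0 (.l)
  (.s 0 (.l)
  (.l)))))
  (.f (.s 3 (.s 0 (.l)
  (.l))
  (.s 0 (.l)
  (.s 0 (.l)
  (.l)))))))))
  (.s 0 (.s 3 (.o)
  (.s 0 (.o)
  (.s 2 (.f (.s 1 (.s 4 (.o)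
  (.l))
  (.o)))
  (.o))))
  (.s 3 (.s 2 (.s 3 (.o)
  (.s 1 (.s 4 (.s 0 (.o)
  (.f (.s 4 (.o)
  (.s 2 (.s 1 (.o)
  (.o))
  (.o)))))
  (.f (.l)))
  (.o)))
  (.o))
  (.s 4 (.s 0 (.s 3 (.s 2 (.f (.s 1 (.o)
  (.o)))
  (.o))
  (.f (.s 2 (.s 1 (.o)
  (.s 0 (.o)
  (.o)))
  (.s 1 (.o)
  (.o)))))
  (.f (.s 3 (.s 1 (.s 2 (.s 4 (.o)
  (.s 0 (.o)
  (.s 0 (.o)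
  (.o))))
  (.s 4 (.o)
  (.s 2 (.s 3 (.o)
  (.s 1 (.o)
  (.o)))
  (.o))))
  (.s 2 (.s 4 (.o)
  (.s 2 (.s 3 (.o)
  (.s 0 (.o)
  (.s 1 (.o)
  (.o))))
  (.o)))
  (.o)))
  (.s 1 (.s 2 (.s 0 (.o)
  (.o))
  (.s 4 (.o)
  (.s 0 (.o)
  (.s 1 (.o)
  (.s 0 (.o)
  (.o))))))
  (.s 2 (.s 4 (.o)
  (.s 0 (.s 1 (.o)
  (.s 0 (.o)
  (.o)))
  (.s 3 (.s 2 (.s 1 (.o)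
  (.s 0 (.o)
  (.o)))
  (.s 1 (.o)
  (.o)))
  (.s 1 (.s 0 (.o)
  (.o))
  (.s 0 (.o)
  (.s 2 (.o)
  (.s 0 (.o)
  (.o))))))))
  (.s 4 (.o)
  (.s 2 (.s 1 (.s 3 (.o)
  (.s 0 (.o)
  (.s 0 (.o)
  (.o))))
  (.o))
  (.o))))))))
  (.f (.s 1 (.s 2 (.s 3 (.s 0 (.l)
  (.l))
  (.s 0 (.l)
  (.l)))
  (.s 0 (.s 2 (.l)
  (.o))
  (.s 3 (.l)
  (.s 0 (.l)
  (.l)))))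
  (.s 2 (.s 0 (.l)
  (.s 0 (.l)
  (.l)))
  (.s 0 (.o)
  (.s 2 (.l)
  (.o))))))))))
  (.s 2 (.s 0 (.s 3 (.o)
  (.s 1 (.s 0 (.o)
  (.s 3 (.o)
  (.s 4 (.o)
  (.f (.l)))))
  (.o)))
  (.s 3 (.s 1 (.s 3 (.o)
  (.s 0 (.o)
  (.s 4 (.s 2 (.f (.s 4 (.o)
  (.s 1 (.s 3 (.o)
  (.s 0 (.o)
  (.s 0 (.o)
  (.o))))
  (.o))))
  (.o))
  (.f (.l)))))
  (.o))
  (.s 4 (.s 1 (.f (.s 2 (.s 3 (.s 0 (.s 0 (.o)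
  (.o))
  (.s 4 (.o)
  (.s 2 (.s 0 (.o)
  (.s 1 (.o)
  (.s 0 (.o)
  (.o))))
  (.s 1 (.s 0 (.o)
  (.s 0 (.o)
  (.o)))
  (.s 3 (.o)
  (.s 1 (.s 0 (.o)
  (.o))
  (.o)))))))
  (.s 0 (.s 0 (.o)
  (.o))
  (.s 4 (.o)
  (.s 2 (.s 1 (.o)
  (.s 0 (.o)
  (.o)))
  (.s 0 (.o)
  (.s 1 (.o)
  (.s 0 (.o)
  (.o))))))))
  (.s 0 (.s 3 (.o)
  (.s 1 (.o)
  (.o)))
  (.s 3 (.s 4 (.o)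
  (.s 1 (.s 3 (.o)
  (.s 2 (.s 0 (.o)
  (.s 0 (.o)
  (.o)))
  (.o)))
  (.o)))
  (.s 4 (.o)
  (.s 0 (.s 1 (.o)
  (.s 1 (.o)
  (.o)))
  (.s 3 (.s 2 (.s 1 (.s 0 (.o)
  (.o))
  (.s 4 (.o)
  (.l)))
  (.s 1 (.s 1 (.o)
  (.o))
  (.o)))
  (.s 1 (.s 2 (.o)
  (.s 0 (.o)
  (.o)))
  (.s 2 (.s 4 (.o)
  (.l))
  (.s 4 (.o)
  (.l)))))))))))
  (.f (.s 2 (.s 0 (.s 3 (.o)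
  (.s 4 (.o)
  (.s 1 (.s 0 (.o)
  (.o))
  (.o))))
  (.s 3 (.s 4 (.o)
  (.s 1 (.s 1 (.s 3 (.o)
  (.s 0 (.o)
  (.s 2 (.s 0 (.o)
  (.o))
  (.o))))
  (.o))
  (.o)))
  (.s 4 (.o)
  (.s 1 (.s 2 (.s 0 (.o)
  (.s 0 (.o)
  (.s 1 (.o)
  (.o))))
  (.s 0 (.s 0 (.o)
  (.o))
  (.s 3 (.s 4 (.o)
  (.l))
  (.s 4 (.o)
  (.s 0 (.o)
  (.s 1 (.o)
  (.l)))))))
  (.s 2 (.s 0 (.s 0 (.o)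
  (.o))
  (.s 3 (.s 4 (.o)
  (.s 1 (.s 1 (.s 0 (.o)
  (.o))
  (.o))
  (.o)))
  (.s 4 (.o)
  (.s 1 (.s 0 (.o)
  (.o))
  (.s 0 (.o)
  (.o))))))
  (.s 1 (.s 0 (.o)
  (.s 0 (.o)
  (.o)))
  (.o)))))))
  (.s 3 (.o)
  (.s 0 (.o)
  (.s 1 (.s 4 (.o)
  (.s 0 (.o)
  (.s 1 (.s 2 (.s 3 (.o)
  (.s 4 (.o)
  (.l)))
  (.o))
  (.o))))
  (.o)))))))
  (.f (.s 1 (.s 2 (.s 3 (.s 0 (.l)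
  (.l))
  (.s 0 (.l)
  (.l)))
  (.s 0 (.l)
  (.s 0 (.l)
  (.l))))
  (.s 2 (.s 0 (.s 3 (.o)
  (.s 0 (.o)
  (.l)))
  (.s 3 (.s 0 (.o)
  (.l))
  (.s 4 (.l)
  (.l))))
  (.s 0 (.o)
  (.s 1 (.l)
  (.o)))))))))
  (.s 3 (.o)
  (.s 0 (.o)
  (.s 1 (.s 2 (.s 3 (.o)
  (.f (.s 4 (.s 0 (.o)
  (.s 4 (.o)
  (.s 1 (.s 2 (.s 3 (.o)
  (.s 0 (.o)
  (.s 4 (.o)
  (.l))))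
  (.o))
  (.o))))
  (.l))))
  (.o))
  (.o))))))
  (.s 1 (.s 2 (.s 0 (.f (.s 3 (.l)
  (.l)))
  (.f (.s 3 (.l)
  (.l))))
  (.s 0 (.s 3 (.o)
  (.f (.l)))
  (.f (.s 3 (.l)
  (.l)))))
  (.s 2 (.s 0 (.s 0 (.o)
  (.f (.l)))
  (.s 3 (.f (.l))
  (.f (.l))))
  (.s 0 (.o)
  (.s 2 (.l)
  (.o))))))
  (.s 4 (.s 0 (.f (.l))
  (.l))
  (.f (.l)))))
  (.f (.l)))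
  (.f (.l))))
  (.f (.l))

theorem chkU79 : chkBoxU 15 13 11 7 WU TU79 = true := by decide +kernel

/-- subdivision tree of the box 80 -/
def TU80 : TU :=
  .s 4 (.f (.s 4 (.s 4 (.f (.s 4 (.s 4 (.s 1 (.s 2 (.s 0 (.s 3 (.s 4 (.s 0 (.o)
  (.s 0 (.o)
  (.o)))
  (.f (.s 1 (.s 2 (.s 0 (.l)
  (.l))
  (.s 0 (.l)
  (.l)))
  (.s 2 (.s 0 (.l)
  (.l))
  (.s 0 (.o)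
  (.l))))))
  (.s 0 (.o)
  (.s 3 (.f (.s 1 (.s 4 (.o)
  (.l))
  (.o)))
  (.o))))
  (.s 3 (.s 4 (.s 2 (.s 3 (.s 0 (.f (.s 0 (.o)
  (.o)))
  (.s 1 (.o)
  (.f (.s 0 (.o)
  (.o)))))
  (.s 0 (.f (.s 0 (.o)
  (.o)))
  (.f (.s 1 (.o)
  (.s 4 (.o)
  (.s 1 (.o)
  (.s 0 (.o)
  (.o))))))))
  (.s 3 (.s 0 (.f (.s 1 (.o)
  (.o)))
  (.f (.s 1 (.s 0 (.o)
  (.o))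
  (.s 4 (.o)
  (.s 0 (.o)
  (.s 2 (.o)
  (.s 0 (.o)
  (.o))))))))
  (.s 0 (.f (.s 1 (.o)
  (.s 0 (.o)
  (.o))))
  (.f (.s 1 (.s 0 (.o)
  (.o))
  (.s 4 (.o)
  (.s 0 (.s 0 (.o)
  (.o))
  (.s 1 (.o)
  (.s 2 (.o)
  (.s 0 (.o)
  (.o)))))))))))
  (.s 1 (.f (.s 3 (.s 0 (.l)
  (.s 0 (.l)
  (.l)))
  (.s 0 (.l)
  (.l))))
  (.f (.s 3 (.s 0 (.l)
  (.s 0 (.l)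
  (.l)))
  (.s 0 (.l)
  (.l))))))
  (.s 4 (.s 1 (.s 0 (.s 0 (.o)
  (.o))
  (.s 2 (.f (.s 0 (.o)
  (.o)))
  (.f (.s 0 (.o)
  (.s 1 (.o)
  (.o))))))
  (.s 2 (.s 0 (.s 0 (.o)
  (.o))
  (.s 3 (.f (.s 4 (.o)
  (.s 0 (.o)
  (.s 0 (.o)
  (.o)))))
  (.f (.s 4 (.o)
  (.s 3 (.s 1 (.s 0 (.o)
  (.o))
  (.o))
  (.o))))))
  (.f (.s 3 (.s 0 (.o)
  (.s 4 (.o)
  (.s 1 (.s 2 (.s 0 (.o)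
  (.o))
  (.o))
  (.o))))
  (.o)))))
  (.s 1 (.f (.s 3 (.s 0 (.l)
  (.l))
  (.s 0 (.l)
  (.s 0 (.l)
  (.l)))))
  (.f (.s 3 (.s 0 (.l)
  (.l))
  (.s 0 (.o)
  (.l))))))))
  (.s 0 (.s 3 (.s 0 (.o)
  (.s 2 (.f (.s 1 (.s 4 (.o)
  (.l))
  (.o)))
  (.o)))
  (.o))
  (.s 3 (.s 4 (.s 0 (.s 3 (.f (.s 2 (.s 1 (.o)
  (.s 0 (.o)
  (.o)))
  (.s 1 (.o)
  (.o))))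
  (.s 2 (.f (.s 1 (.o)
  (.o)))
  (.o)))
  (.f (.s 3 (.s 1 (.s 2 (.s 0 (.o)
  (.o))
  (.s 4 (.o)
  (.s 0 (.o)
  (.s 1 (.o)
  (.s 0 (.o)
  (.o))))))
  (.s 2 (.s 4 (.o)
  (.s 0 (.s 1 (.o)
  (.s 0 (.o)
  (.o)))
  (.s 3 (.s 1 (.s 0 (.o)
  (.o))
  (.s 0 (.o)
  (.s 2 (.o)
  (.s 0 (.o)
  (.o)))))
  (.s 2 (.s 1 (.o)
  (.s 0 (.o)
  (.o)))
  (.s 1 (.o)
  (.o))))))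
  (.s 4 (.o)
  (.s 2 (.s 1 (.s 3 (.s 0 (.o)
  (.s 0 (.o)
  (.o)))
  (.o))
  (.o))
  (.o)))))
  (.s 1 (.s 2 (.s 4 (.o)
  (.s 0 (.o)
  (.s 0 (.o)
  (.o))))
  (.s 4 (.o)
  (.s 2 (.s 3 (.s 1 (.o)
  (.o))
  (.o))
  (.o))))
  (.s 2 (.s 4 (.o)
  (.s 2 (.s 3 (.s 0 (.o)
  (.s 1 (.o)
  (.o)))
  (.o))
  (.o)))
  (.o))))))
  (.f (.s 1 (.s 2 (.s 3 (.s 0 (.l)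
  (.l))
  (.s 0 (.l)
  (.l)))
  (.s 0 (.s 2 (.l)
  (.o))
  (.s 3 (.s 0 (.l)
  (.l))
  (.l))))
  (.s 2 (.s 0 (.l)
  (.s 0 (.l)
  (.l)))
  (.s 0 (.o)
  (.s 2 (.l)
  (.o)))))))
  (.s 2 (.s 3 (.s 1 (.s 4 (.s 0 (.o)
  (.f (.s 4 (.o)
  (.s 2 (.s 1 (.o)
  (.o))
  (.o)))))
  (.f (.l)))
  (.o))
  (.o))
  (.o)))))
  (.s 2 (.s 0 (.s 3 (.s 1 (.s 0 (.o)
  (.s 3 (.s 4 (.o)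
  (.f (.l)))
  (.o)))
  (.o))
  (.o))
  (.s 3 (.s 4 (.s 1 (.f (.s 2 (.s 3 (.s 0 (.s 0 (.o)
  (.o))
  (.s 4 (.o)
  (.s 2 (.s 1 (.o)
  (.s 0 (.o)
  (.o)))
  (.s 0 (.o)
  (.s 1 (.o)
  (.s 0 (.o)
  (.o)))))))
  (.s 0 (.s 0 (.o)
  (.o))
  (.s 4 (.o)
  (.s 2 (.s 0 (.o)
  (.s 1 (.o)
  (.s 0 (.o)
  (.o))))
  (.s 1 (.s 0 (.o)
  (.s 0 (.o)
  (.o)))
  (.s 3 (.s 1 (.s 0 (.o)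
  (.o))
  (.o))
  (.o)))))))
  (.s 0 (.s 3 (.s 1 (.o)
  (.o))
  (.o))
  (.s 3 (.s 4 (.o)
  (.s 0 (.s 1 (.o)
  (.s 1 (.o)
  (.o)))
  (.s 3 (.s 1 (.s 2 (.o)
  (.s 0 (.o)
  (.o)))
  (.s 2 (.s 4 (.o)
  (.l))
  (.s 4 (.o)
  (.l))))
  (.s 2 (.s 1 (.s 0 (.o)
  (.o))
  (.s 4 (.o)
  (.l)))
  (.s 1 (.s 1 (.o)
  (.o))
  (.o))))))
  (.s 4 (.o)
  (.s 1 (.s 3 (.s 2 (.s 0 (.o)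
  (.s 0 (.o)
  (.o)))
  (.o))
  (.o))
  (.o)))))))
  (.f (.s 2 (.s 0 (.s 3 (.s 4 (.o)
  (.s 1 (.s 0 (.o)
  (.o))
  (.o)))
  (.o))
  (.s 3 (.s 4 (.o)
  (.s 1 (.s 2 (.s 0 (.o)
  (.s 0 (.o)
  (.s 1 (.o)
  (.o))))
  (.s 0 (.s 0 (.o)
  (.o))
  (.s 3 (.s 4 (.o)
  (.s 0 (.o)
  (.s 1 (.o)
  (.l))))
  (.s 4 (.o)
  (.l)))))
  (.s 2 (.s 0 (.s 0 (.o)
  (.o))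
  (.s 3 (.s 4 (.o)
  (.s 1 (.s 0 (.o)
  (.o))
  (.s 0 (.o)
  (.o))))
  (.s 4 (.o)
  (.s 1 (.s 1 (.s 0 (.o)
  (.o))
  (.o))
  (.o)))))
  (.s 1 (.s 0 (.o)
  (.s 0 (.o)
  (.o)))
  (.o)))))
  (.s 4 (.o)
  (.s 1 (.s 1 (.s 3 (.s 0 (.o)
  (.s 2 (.s 0 (.o)
  (.o))
  (.o)))
  (.o))
  (.o))
  (.o)))))
  (.s 3 (.s 0 (.o)
  (.s 1 (.s 4 (.o)
  (.s 0 (.o)
  (.s 1 (.s 2 (.s 3 (.s 4 (.o)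
  (.l))
  (.o))
  (.o))
  (.o))))
  (.o)))
  (.o)))))
  (.f (.s 1 (.s 2 (.s 3 (.s 0 (.l)
  (.l))
  (.s 0 (.l)
  (.l)))
  (.s 0 (.l)
  (.s 0 (.l)
  (.l))))
  (.s 2 (.s 0 (.s 3 (.s 0 (.o)
  (.l))
  (.o))
  (.s 3 (.s 4 (.l)
  (.l))
  (.s 0 (.o)
  (.l))))
  (.s 0 (.o)
  (.s 1 (.l)
  (.o)))))))
  (.s 1 (.s 3 (.s 0 (.o)
  (.s 4 (.s 2 (.f (.s 4 (.o)
  (.s 1 (.s 3 (.s 0 (.o)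
  (.s 0 (.o)
  (.o)))
  (.o))
  (.o))))
  (.o))
  (.f (.l))))
  (.o))
  (.o))))
  (.s 3 (.s 0 (.o)
  (.s 1 (.s 2 (.s 3 (.f (.s 4 (.s 0 (.o)
  (.s 4 (.o)
  (.s 1 (.s 2 (.s 3 (.s 0 (.o)
  (.s 4 (.o)
  (.l)))
  (.o))
  (.o))
  (.o))))
  (.l)))
  (.o))
  (.o))
  (.o)))
  (.o))))
  (.s 1 (.s 2 (.s 0 (.f (.s 3 (.l)
  (.l)))
  (.f (.s 3 (.l)
  (.l))))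
  (.s 0 (.s 3 (.f (.l))
  (.o))
  (.f (.s 3 (.l)
  (.l)))))
  (.s 2 (.s 0 (.s 0 (.o)
  (.f (.l)))
  (.s 3 (.f (.l))
  (.f (.l))))
  (.s 0 (.o)
  (.s 2 (.l)
  (.o))))))
  (.s 4 (.s 0 (.f (.l))
  (.l))
  (.f (.l)))))
  (.f (.l)))
  (.f (.l))))
  (.f (.l))

theorem chkU80 : chkBoxU 15 13 11 9 WU TU80 = true := by decide +kernel

/-- subdivision tree of the box 81 -/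
def TU81 : TU :=
  .s 4 (.f (.s 4 (.s 4 (.f (.s 4 (.s 0 (.o)
  (.s 2 (.s 3 (.s 1 (.s 4 (.s 1 (.s 0 (.o)
  (.s 2 (.s 3 (.f (.s 4 (.s 1 (.o)
  (.o))
  (.l)))
  (.o))
  (.o)))
  (.o))
  (.f (.l)))
  (.o))
  (.o))
  (.o)))
  (.s 4 (.s 0 (.o)
  (.f (.l)))
  (.f (.l)))))
  (.f (.l)))
  (.f (.l))))
  (.f (.l))

theorem chkU81 : chkBoxU 15 13 11 11 WU TU81 = true := by decide +kernel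

/-- subdivision tree of the box 82 -/
def TU82 : TU :=
  .s 4 (.f (.s 4 (.s 4 (.f (.s 4 (.s 3 (.o)
  (.s 1 (.s 2 (.s 0 (.o)
  (.s 4 (.s 1 (.s 2 (.f (.s 3 (.o)
  (.s 0 (.o)
  (.s 4 (.s 4 (.o)
  (.s 1 (.s 2 (.s 0 (.o)
  (.o))
  (.o))
  (.o)))
  (.s 0 (.o)
  (.l))))))
  (.o))
  (.o))
  (.f (.l))))
  (.o))
  (.o)))
  (.s 4 (.s 0 (.o)
  (.l))
  (.f (.l)))))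
  (.f (.l)))
  (.f (.l))))
  (.f (.l))

theorem chkU82 : chkBoxU 15 13 13 7 WU TU82 = true := by decide +kernel

/-- subdivision tree of the box 83 -/
def TU83 : TU :=
  .s 4 (.f (.s 4 (.s 4 (.f (.s 4 (.s 3 (.s 1 (.s 2 (.s 0 (.o)
  (.s 4 (.s 1 (.s 2 (.f (.s 3 (.s 0 (.o)
  (.s 4 (.s 4 (.o)
  (.s 1 (.s 2 (.s 0 (.o)
  (.o))
  (.o))
  (.o)))
  (.s 0 (.o)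
  (.l))))
  (.o)))
  (.o))
  (.o))
  (.f (.l))))
  (.o))
  (.o))
  (.o))
  (.s 4 (.s 0 (.o)
  (.l))
  (.f (.l)))))
  (.f (.l)))
  (.f (.l))))
  (.f (.l))

theorem chkU83 : chkBoxU 15 13 13 9 WU TU83 = true := by decide +kernel

/-- subdivision tree of the box 84 -/
def TU84 : TU :=
  .s 4 (.f (.s 4 (.s 4 (.f (.s 4 (.s 4 (.s 0 (.s 3 (.o)
  (.s 2 (.s 1 (.s 4 (.s 2 (.f (.s 0 (.s 3 (.o)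
  (.s 1 (.o)
  (.o)))
  (.s 3 (.s 1 (.s 0 (.o)
  (.o))
  (.o))
  (.s 1 (.o)
  (.s 4 (.o)
  (.s 0 (.o)
  (.s 1 (.o)
  (.s 0 (.o)
  (.o)))))))))
  (.s 0 (.s 1 (.o)
  (.o))
  (.f (.s 3 (.s 1 (.s 0 (.o)
  (.o))
  (.o))
  (.s 1 (.s 0 (.o)
  (.o))
  (.s 4 (.o)
  (.s 1 (.s 0 (.o)
  (.o))
  (.o))))))))
  (.f (.s 2 (.s 3 (.s 1 (.s 0 (.o)
  (.l))
  (.o))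
  (.s 0 (.s 1 (.s 0 (.l)
  (.l))
  (.s 1 (.l)
  (.o)))
  (.s 1 (.s 4 (.l)
  (.l))
  (.s 4 (.s 0 (.l)
  (.l))
  (.l)))))
  (.s 3 (.s 1 (.s 0 (.o)
  (.l))
  (.o))
  (.s 0 (.s 1 (.l)
  (.o))
  (.s 1 (.l)
  (.s 0 (.o)
  (.l))))))))
  (.f (.s 1 (.s 2 (.s 3 (.o)
  (.s 0 (.o)
  (.s 1 (.s 2 (.s 4 (.s 4 (.o)
  (.s 1 (.s 3 (.o)
  (.s 0 (.o)
  (.o)))
  (.o)))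
  (.s 0 (.o)
  (.l)))
  (.o))
  (.o))))
  (.o))
  (.o))))
  (.s 1 (.s 1 (.s 2 (.s 3 (.o)
  (.f (.s 0 (.o)
  (.s 4 (.s 0 (.o)
  (.o))
  (.l)))))
  (.o))
  (.o))
  (.o))))
  (.s 2 (.s 1 (.s 3 (.f (.s 2 (.o)
  (.s 1 (.s 3 (.o)
  (.s 0 (.o)
  (.s 2 (.o)
  (.s 4 (.s 1 (.s 4 (.o)
  (.s 0 (.o)
  (.s 3 (.o)
  (.s 4 (.o)
  (.s 2 (.o)
  (.s 1 (.s 0 (.o)
  (.o))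
  (.o)))))))
  (.o))
  (.l)))))
  (.o))))
  (.f (.s 4 (.s 2 (.s 0 (.s 3 (.s 2 (.o)
  (.s 3 (.o)
  (.s 1 (.s 4 (.o)
  (.s 0 (.o)
  (.s 2 (.o)
  (.s 1 (.o)
  (.s 0 (.o)
  (.o))))))
  (.s 4 (.o)
  (.s 1 (.s 2 (.o)
  (.s 0 (.o)
  (.s 4 (.o)
  (.s 1 (.s 1 (.o)
  (.o))
  (.o)))))
  (.o))))))
  (.s 1 (.s 4 (.o)
  (.s 0 (.o)
  (.s 1 (.o)
  (.s 0 (.o)
  (.o)))))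
  (.s 4 (.o)
  (.s 2 (.s 3 (.s 2 (.o)
  (.s 3 (.o)
  (.s 0 (.s 1 (.o)
  (.s 1 (.o)
  (.o)))
  (.s 1 (.s 4 (.o)
  (.s 2 (.o)
  (.s 1 (.o)
  (.s 0 (.o)
  (.s 0 (.o)
  (.o))))))
  (.s 4 (.o)
  (.s 0 (.s 2 (.o)
  (.s 3 (.o)
  (.s 1 (.o)
  (.s 0 (.o)
  (.o)))))
  (.o)))))))
  (.s 0 (.s 1 (.o)
  (.s 4 (.o)
  (.s 1 (.o)
  (.s 0 (.o)
  (.o)))))
  (.s 1 (.s 4 (.o)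
  (.s 1 (.o)
  (.s 0 (.o)
  (.o))))
  (.s 4 (.o)
  (.s 0 (.s 1 (.o)
  (.s 2 (.o)
  (.s 3 (.s 4 (.o)
  (.l))
  (.o))))
  (.o))))))
  (.s 3 (.s 0 (.s 1 (.s 0 (.o)
  (.o))
  (.s 4 (.o)
  (.s 1 (.s 0 (.o)
  (.o))
  (.o))))
  (.s 1 (.s 4 (.o)
  (.s 0 (.s 1 (.o)
  (.o))
  (.s 1 (.o)
  (.s 1 (.o)
  (.s 0 (.o)
  (.s 2 (.o)
  (.o)))))))
  (.s 4 (.o)
  (.s 2 (.s 3 (.s 1 (.s 2 (.o)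
  (.s 0 (.o)
  (.o)))
  (.o))
  (.s 0 (.s 1 (.s 0 (.o)
  (.o))
  (.s 0 (.o)
  (.o)))
  (.s 2 (.o)
  (.o))))
  (.s 3 (.s 1 (.s 1 (.s 0 (.o)
  (.s 0 (.o)
  (.o)))
  (.o))
  (.o))
  (.s 0 (.s 1 (.s 1 (.o)
  (.o))
  (.o))
  (.s 2 (.o)
  (.o))))))))
  (.s 0 (.s 1 (.o)
  (.s 4 (.o)
  (.s 3 (.s 2 (.s 0 (.o)
  (.s 1 (.o)
  (.s 0 (.o)
  (.o))))
  (.s 1 (.s 0 (.o)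
  (.o))
  (.o)))
  (.s 0 (.o)
  (.s 1 (.o)
  (.s 0 (.o)
  (.o)))))))
  (.s 1 (.s 4 (.o)
  (.s 1 (.o)
  (.s 0 (.o)
  (.s 0 (.o)
  (.o)))))
  (.s 4 (.o)
  (.s 3 (.s 2 (.s 0 (.s 1 (.s 0 (.o)
  (.o))
  (.s 4 (.o)
  (.l)))
  (.o))
  (.s 0 (.s 1 (.s 0 (.o)
  (.o))
  (.s 0 (.o)
  (.o)))
  (.o)))
  (.s 0 (.s 2 (.s 1 (.o)
  (.s 2 (.o)
  (.o)))
  (.s 1 (.s 0 (.o)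
  (.o))
  (.s 2 (.o)
  (.o))))
  (.o)))))))))))
  (.s 3 (.s 2 (.o)
  (.s 3 (.o)
  (.s 1 (.s 4 (.o)
  (.s 2 (.o)
  (.s 3 (.o)
  (.s 0 (.s 1 (.o)
  (.s 4 (.o)
  (.s 2 (.o)
  (.s 3 (.o)
  (.s 0 (.s 0 (.o)
  (.o))
  (.s 1 (.o)
  (.s 0 (.o)
  (.o))))))))
  (.s 1 (.s 4 (.o)
  (.s 2 (.o)
  (.s 3 (.o)
  (.s 0 (.o)
  (.s 1 (.o)
  (.o))))))
  (.s 4 (.o)
  (.s 0 (.s 0 (.s 1 (.o)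
  (.o))
  (.o))
  (.o))))))))
  (.s 4 (.o)
  (.s 0 (.s 1 (.s 4 (.o)
  (.s 0 (.s 2 (.o)
  (.s 1 (.s 2 (.o)
  (.s 3 (.o)
  (.s 4 (.o)
  (.l))))
  (.o)))
  (.o)))
  (.o))
  (.o))))))
  (.s 1 (.s 4 (.o)
  (.s 2 (.s 0 (.s 1 (.o)
  (.s 0 (.o)
  (.s 1 (.o)
  (.s 3 (.s 0 (.o)
  (.o))
  (.o)))))
  (.s 3 (.s 2 (.o)
  (.s 3 (.o)
  (.s 1 (.s 4 (.o)
  (.s 2 (.o)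
  (.s 0 (.o)
  (.s 0 (.o)
  (.o)))))
  (.s 4 (.o)
  (.s 0 (.s 1 (.o)
  (.o))
  (.o))))))
  (.s 1 (.s 0 (.o)
  (.o))
  (.s 4 (.o)
  (.s 0 (.s 1 (.o)
  (.o))
  (.o))))))
  (.s 0 (.s 1 (.o)
  (.s 3 (.s 4 (.o)
  (.s 0 (.s 0 (.o)
  (.o))
  (.s 1 (.o)
  (.s 1 (.o)
  (.s 0 (.o)
  (.o))))))
  (.s 4 (.o)
  (.s 0 (.o)
  (.s 1 (.o)
  (.s 0 (.o)
  (.o)))))))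
  (.s 3 (.s 1 (.s 4 (.o)
  (.s 1 (.o)
  (.s 0 (.o)
  (.o))))
  (.s 4 (.o)
  (.s 0 (.s 1 (.s 0 (.o)
  (.o))
  (.o))
  (.o))))
  (.s 1 (.s 4 (.o)
  (.s 1 (.o)
  (.s 0 (.o)
  (.o))))
  (.s 4 (.o)
  (.s 0 (.s 1 (.o)
  (.o))
  (.o))))))))
  (.s 4 (.o)
  (.s 0 (.s 1 (.s 0 (.s 2 (.s 1 (.s 3 (.s 0 (.o)
  (.o))
  (.o))
  (.o))
  (.s 1 (.s 3 (.s 4 (.o)
  (.s 0 (.o)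
  (.s 1 (.o)
  (.o))))
  (.s 0 (.o)
  (.o)))
  (.o)))
  (.o))
  (.o))
  (.o))))))
  (.s 0 (.s 3 (.s 1 (.s 4 (.o)
  (.s 0 (.s 1 (.o)
  (.o))
  (.s 1 (.o)
  (.s 3 (.o)
  (.s 0 (.o)
  (.s 1 (.o)
  (.o)))))))
  (.s 1 (.s 4 (.o)
  (.s 2 (.s 0 (.o)
  (.s 3 (.o)
  (.s 4 (.o)
  (.s 1 (.s 0 (.o)
  (.s 1 (.o)
  (.o)))
  (.o)))))
  (.o)))
  (.o)))
  (.s 1 (.s 4 (.o)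
  (.s 3 (.s 0 (.s 0 (.o)
  (.o))
  (.s 1 (.o)
  (.s 0 (.o)
  (.s 1 (.o)
  (.o)))))
  (.s 0 (.o)
  (.s 1 (.o)
  (.s 0 (.o)
  (.o))))))
  (.s 4 (.s 0 (.o)
  (.o))
  (.s 3 (.s 0 (.s 1 (.s 1 (.o)
  (.o))
  (.o))
  (.s 2 (.s 1 (.s 4 (.o)
  (.s 0 (.s 1 (.o)
  (.s 0 (.o)
  (.o)))
  (.s 3 (.s 2 (.s 1 (.o)
  (.s 4 (.o)
  (.l)))
  (.s 1 (.o)
  (.o)))
  (.s 1 (.o)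
  (.s 2 (.s 4 (.o)
  (.l))
  (.s 1 (.o)
  (.o)))))))
  (.s 4 (.o)
  (.s 1 (.s 1 (.s 3 (.o)
  (.s 2 (.s 0 (.o)
  (.o))
  (.o)))
  (.o))
  (.o))))
  (.s 1 (.s 4 (.o)
  (.s 1 (.s 0 (.o)
  (.s 1 (.o)
  (.o)))
  (.o)))
  (.o))))
  (.s 0 (.s 2 (.s 1 (.s 0 (.o)
  (.o))
  (.s 4 (.o)
  (.s 1 (.s 0 (.o)
  (.o))
  (.o))))
  (.s 1 (.s 0 (.o)
  (.o))
  (.o)))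
  (.s 2 (.s 1 (.s 4 (.o)
  (.s 3 (.s 0 (.s 0 (.o)
  (.o))
  (.s 1 (.o)
  (.s 1 (.o)
  (.s 0 (.o)
  (.o)))))
  (.s 0 (.s 0 (.o)
  (.o))
  (.s 1 (.o)
  (.s 0 (.o)
  (.s 1 (.o)
  (.o)))))))
  (.s 4 (.o)
  (.s 0 (.s 3 (.s 1 (.s 1 (.o)
  (.o))
  (.o))
  (.s 2 (.s 1 (.s 0 (.o)
  (.o))
  (.o))
  (.s 1 (.s 1 (.o)
  (.o))
  (.o))))
  (.o))))
  (.s 1 (.s 4 (.o)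
  (.s 3 (.s 0 (.s 1 (.o)
  (.o))
  (.s 1 (.o)
  (.s 1 (.s 0 (.o)
  (.o))
  (.o))))
  (.s 0 (.s 1 (.o)
  (.o))
  (.s 1 (.o)
  (.s 1 (.o)
  (.s 0 (.o)
  (.o)))))))
  (.s 0 (.o)
  (.o)))))))))
  (.s 3 (.s 1 (.s 4 (.s 0 (.o)
  (.o))
  (.s 0 (.s 2 (.s 3 (.s 2 (.o)
  (.s 3 (.o)
  (.s 1 (.s 0 (.o)
  (.o))
  (.s 4 (.o)
  (.s 1 (.s 2 (.o)
  (.s 0 (.o)
  (.s 0 (.o)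
  (.o))))
  (.o))))))
  (.s 1 (.s 0 (.o)
  (.o))
  (.s 4 (.o)
  (.s 0 (.s 1 (.o)
  (.s 0 (.o)
  (.s 1 (.o)
  (.o))))
  (.s 2 (.s 3 (.s 2 (.o)
  (.s 1 (.o)
  (.s 4 (.o)
  (.l))))
  (.s 1 (.o)
  (.s 4 (.o)
  (.l))))
  (.s 3 (.s 1 (.s 0 (.o)
  (.o))
  (.s 4 (.o)
  (.l)))
  (.s 1 (.o)
  (.s 4 (.o)
  (.l)))))))))
  (.s 3 (.s 1 (.s 4 (.o)
  (.s 1 (.o)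
  (.s 0 (.o)
  (.o))))
  (.s 4 (.o)
  (.s 1 (.s 2 (.s 3 (.o)
  (.s 0 (.o)
  (.l)))
  (.o))
  (.o))))
  (.s 1 (.s 4 (.o)
  (.s 1 (.o)
  (.s 0 (.o)
  (.o))))
  (.s 4 (.o)
  (.s 0 (.s 1 (.o)
  (.s 1 (.o)
  (.o)))
  (.s 3 (.s 2 (.s 1 (.s 0 (.o)
  (.o))
  (.s 0 (.o)
  (.o)))
  (.s 1 (.s 0 (.o)
  (.l))
  (.o)))
  (.s 2 (.s 1 (.s 0 (.o)
  (.o))
  (.s 4 (.o)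
  (.l)))
  (.s 1 (.s 0 (.o)
  (.o))
  (.s 0 (.o)
  (.o))))))))))
  (.s 2 (.s 3 (.s 2 (.o)
  (.s 3 (.o)
  (.s 1 (.s 4 (.o)
  (.s 2 (.o)
  (.s 3 (.o)
  (.s 0 (.s 1 (.o)
  (.s 0 (.o)
  (.o)))
  (.s 1 (.o)
  (.o))))))
  (.s 1 (.o)
  (.o)))))
  (.s 1 (.s 4 (.o)
  (.s 0 (.s 1 (.o)
  (.s 0 (.o)
  (.o)))
  (.s 1 (.o)
  (.o))))
  (.s 4 (.o)
  (.s 0 (.s 1 (.s 0 (.s 1 (.o)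
  (.o))
  (.o))
  (.o))
  (.o)))))
  (.s 3 (.s 1 (.s 4 (.o)
  (.s 0 (.s 1 (.o)
  (.s 2 (.s 1 (.o)
  (.s 0 (.o)
  (.o)))
  (.s 3 (.l)
  (.s 4 (.o)
  (.l)))))
  (.s 0 (.s 1 (.o)
  (.o))
  (.o))))
  (.o))
  (.s 1 (.s 4 (.o)
  (.s 0 (.s 1 (.o)
  (.s 1 (.o)
  (.s 0 (.o)
  (.o))))
  (.s 0 (.s 1 (.o)
  (.o))
  (.o))))
  (.s 4 (.o)
  (.s 0 (.s 0 (.s 1 (.s 1 (.o)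
  (.o))
  (.o))
  (.o))
  (.o))))))))
  (.s 4 (.o)
  (.s 0 (.s 1 (.s 0 (.s 2 (.s 3 (.o)
  (.s 4 (.o)
  (.s 1 (.s 3 (.o)
  (.s 2 (.s 4 (.o)
  (.l))
  (.s 4 (.o)
  (.l))))
  (.o))))
  (.o))
  (.o))
  (.o))
  (.o))))
  (.s 1 (.s 4 (.o)
  (.s 3 (.s 0 (.s 2 (.s 1 (.s 0 (.o)
  (.o))
  (.s 4 (.o)
  (.s 0 (.s 1 (.o)
  (.o))
  (.s 1 (.o)
  (.s 0 (.s 1 (.o)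
  (.o))
  (.o))))))
  (.s 1 (.s 0 (.o)
  (.o))
  (.s 4 (.o)
  (.s 0 (.s 1 (.o)
  (.s 0 (.o)
  (.o)))
  (.s 3 (.s 2 (.s 1 (.o)
  (.s 4 (.o)
  (.l)))
  (.s 1 (.s 0 (.o)
  (.o))
  (.s 4 (.o)
  (.l))))
  (.s 1 (.o)
  (.s 0 (.s 1 (.o)
  (.o))
  (.o))))))))
  (.s 2 (.s 1 (.s 4 (.o)
  (.s 0 (.s 0 (.o)
  (.o))
  (.s 1 (.o)
  (.o))))
  (.s 4 (.o)
  (.s 0 (.s 1 (.s 0 (.o)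
  (.o))
  (.o))
  (.o))))
  (.s 1 (.s 4 (.o)
  (.s 0 (.s 1 (.o)
  (.s 0 (.o)
  (.o)))
  (.s 1 (.o)
  (.o))))
  (.s 4 (.o)
  (.s 0 (.s 0 (.s 1 (.s 1 (.o)
  (.o))
  (.o))
  (.o))
  (.o))))))
  (.s 0 (.s 2 (.s 1 (.o)
  (.s 4 (.o)
  (.s 0 (.s 0 (.o)
  (.o))
  (.s 1 (.o)
  (.s 0 (.o)
  (.o))))))
  (.s 1 (.s 0 (.o)
  (.o))
  (.s 4 (.o)
  (.s 3 (.s 0 (.s 1 (.o)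
  (.o))
  (.s 1 (.o)
  (.s 0 (.o)
  (.o))))
  (.s 0 (.s 0 (.o)
  (.o))
  (.s 1 (.o)
  (.s 0 (.o)
  (.o))))))))
  (.s 2 (.s 1 (.s 4 (.o)
  (.s 1 (.o)
  (.s 0 (.o)
  (.o))))
  (.s 4 (.o)
  (.s 0 (.s 1 (.s 0 (.o)
  (.o))
  (.o))
  (.o))))
  (.s 1 (.s 4 (.o)
  (.s 3 (.s 0 (.s 0 (.o)
  (.o))
  (.s 1 (.o)
  (.o)))
  (.s 1 (.o)
  (.s 0 (.o)
  (.o)))))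
  (.s 4 (.o)
  (.s 3 (.s 0 (.s 0 (.s 1 (.o)
  (.o))
  (.o))
  (.o))
  (.o))))))))
  (.s 4 (.o)
  (.s 0 (.s 1 (.s 0 (.s 1 (.s 3 (.s 2 (.s 4 (.o)
  (.s 3 (.s 2 (.s 4 (.o)
  (.l))
  (.s 4 (.o)
  (.l)))
  (.s 0 (.o)
  (.s 1 (.o)
  (.o)))))
  (.s 4 (.o)
  (.s 3 (.s 2 (.s 4 (.o)
  (.l))
  (.o))
  (.s 2 (.s 4 (.o)
  (.l))
  (.s 0 (.o)
  (.o))))))
  (.s 2 (.s 4 (.o)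
  (.s 0 (.o)
  (.s 1 (.o)
  (.o))))
  (.s 4 (.o)
  (.s 3 (.s 2 (.s 4 (.o)
  (.l))
  (.s 4 (.o)
  (.l)))
  (.s 0 (.o)
  (.o))))))
  (.o))
  (.o))
  (.o))
  (.o)))))))
  (.s 2 (.s 3 (.s 2 (.o)
  (.s 3 (.o)
  (.s 0 (.s 1 (.l)
  (.l))
  (.s 1 (.s 0 (.l)
  (.l))
  (.s 0 (.l)
  (.l))))))
  (.s 0 (.s 1 (.s 4 (.s 0 (.l)
  (.l))
  (.l))
  (.s 4 (.s 0 (.l)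
  (.s 1 (.l)
  (.l)))
  (.l)))
  (.s 1 (.s 4 (.s 2 (.s 3 (.l)
  (.s 0 (.l)
  (.l)))
  (.s 0 (.l)
  (.l)))
  (.l))
  (.s 4 (.s 2 (.s 0 (.s 1 (.l)
  (.l))
  (.s 1 (.s 0 (.l)
  (.l))
  (.o)))
  (.s 0 (.l)
  (.s 1 (.l)
  (.o))))
  (.l)))))
  (.s 3 (.s 0 (.s 1 (.l)
  (.s 0 (.o)
  (.l)))
  (.s 1 (.s 4 (.l)
  (.l))
  (.s 4 (.l)
  (.l))))
  (.s 0 (.s 1 (.s 4 (.l)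
  (.l))
  (.s 4 (.s 0 (.l)
  (.l))
  (.l)))
  (.s 1 (.s 4 (.s 3 (.l)
  (.s 0 (.l)
  (.l)))
  (.l))
  (.s 4 (.s 0 (.l)
  (.s 1 (.l)
  (.o)))
  (.l)))))))))
  (.f (.s 3 (.o)
  (.s 4 (.s 0 (.s 1 (.s 3 (.o)
  (.s 0 (.s 2 (.s 4 (.o)
  (.s 1 (.s 3 (.o)
  (.s 2 (.s 4 (.o)
  (.s 2 (.s 3 (.s 1 (.s 2 (.o)
  (.s 1 (.s 0 (.o)
  (.o))
  (.o)))
  (.o))
  (.s 0 (.s 1 (.o)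
  (.o))
  (.o)))
  (.s 3 (.s 1 (.s 1 (.s 0 (.o)
  (.s 0 (.o)
  (.o)))
  (.o))
  (.o))
  (.s 0 (.s 1 (.o)
  (.o))
  (.s 1 (.s 0 (.o)
  (.o))
  (.o))))))
  (.s 4 (.o)
  (.s 1 (.s 1 (.s 3 (.o)
  (.s 2 (.s 0 (.o)
  (.s 0 (.o)
  (.o)))
  (.o)))
  (.o))
  (.o)))))
  (.o)))
  (.o))
  (.o)))
  (.o))
  (.o))
  (.s 0 (.s 3 (.o)
  (.s 2 (.s 1 (.s 4 (.s 2 (.s 3 (.l)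
  (.s 0 (.l)
  (.s 0 (.l)
  (.l))))
  (.s 0 (.l)
  (.l)))
  (.l))
  (.s 4 (.o)
  (.l)))
  (.s 1 (.s 4 (.s 1 (.l)
  (.o))
  (.l))
  (.o))))
  (.s 1 (.s 2 (.s 3 (.s 4 (.o)
  (.l))
  (.s 4 (.o)
  (.l)))
  (.s 3 (.s 4 (.o)
  (.l))
  (.s 4 (.o)
  (.l))))
  (.o)))))))
  (.s 1 (.s 3 (.s 1 (.s 2 (.f (.s 3 (.o)
  (.s 0 (.o)
  (.s 4 (.s 1 (.s 4 (.o)
  (.s 2 (.s 0 (.o)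
  (.s 0 (.o)
  (.o)))
  (.o)))
  (.o))
  (.l)))))
  (.o))
  (.o))
  (.f (.s 4 (.s 0 (.s 3 (.s 1 (.s 2 (.s 4 (.o)
  (.s 1 (.s 3 (.o)
  (.s 0 (.o)
  (.o)))
  (.o)))
  (.o))
  (.o))
  (.s 1 (.s 2 (.s 4 (.o)
  (.s 3 (.s 0 (.s 1 (.o)
  (.o))
  (.s 1 (.o)
  (.s 1 (.o)
  (.o))))
  (.s 0 (.s 0 (.o)
  (.o))
  (.s 1 (.o)
  (.s 1 (.o)
  (.s 0 (.o)
  (.o)))))))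
  (.s 4 (.o)
  (.s 2 (.s 1 (.s 0 (.o)
  (.o))
  (.o))
  (.o))))
  (.s 2 (.s 1 (.s 4 (.o)
  (.s 3 (.o)
  (.s 0 (.o)
  (.s 2 (.s 4 (.o)
  (.s 1 (.s 3 (.o)
  (.s 1 (.o)
  (.o)))
  (.o)))
  (.o)))))
  (.o))
  (.o))))
  (.s 3 (.s 2 (.s 1 (.s 4 (.s 0 (.o)
  (.o))
  (.s 0 (.s 3 (.s 1 (.s 2 (.s 1 (.o)
  (.o))
  (.o))
  (.o))
  (.s 2 (.s 1 (.s 4 (.o)
  (.s 1 (.o)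
  (.s 0 (.o)
  (.o))))
  (.s 4 (.o)
  (.s 1 (.s 3 (.o)
  (.s 2 (.s 0 (.o)
  (.s 1 (.o)
  (.o)))
  (.o)))
  (.o))))
  (.s 1 (.s 1 (.o)
  (.o))
  (.o))))
  (.s 1 (.s 3 (.s 2 (.s 4 (.o)
  (.s 0 (.s 3 (.s 1 (.o)
  (.o))
  (.s 1 (.o)
  (.s 0 (.o)
  (.o))))
  (.s 0 (.s 1 (.s 1 (.o)
  (.o))
  (.o))
  (.o))))
  (.s 0 (.o)
  (.o)))
  (.s 2 (.s 4 (.o)
  (.s 0 (.s 1 (.o)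
  (.s 1 (.o)
  (.s 0 (.o)
  (.o))))
  (.s 0 (.s 1 (.o)
  (.o))
  (.o))))
  (.s 4 (.o)
  (.s 0 (.s 1 (.o)
  (.s 0 (.o)
  (.o)))
  (.o)))))
  (.o))))
  (.s 0 (.o)
  (.o)))
  (.s 1 (.s 1 (.s 4 (.o)
  (.s 2 (.s 0 (.o)
  (.s 0 (.o)
  (.o)))
  (.o)))
  (.o))
  (.o)))
  (.s 1 (.s 2 (.s 4 (.s 0 (.o)
  (.o))
  (.s 3 (.s 0 (.s 2 (.s 1 (.s 4 (.o)
  (.s 1 (.o)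
  (.s 0 (.o)
  (.o))))
  (.s 4 (.o)
  (.s 0 (.s 1 (.o)
  (.s 1 (.o)
  (.o)))
  (.s 3 (.s 2 (.s 1 (.s 0 (.o)
  (.o))
  (.s 0 (.o)
  (.o)))
  (.s 1 (.s 1 (.o)
  (.o))
  (.o)))
  (.s 2 (.s 1 (.s 0 (.o)
  (.o))
  (.s 4 (.o)
  (.l)))
  (.s 1 (.s 0 (.o)
  (.o))
  (.o)))))))
  (.s 1 (.s 4 (.o)
  (.s 1 (.o)
  (.s 0 (.o)
  (.o))))
  (.s 4 (.o)
  (.s 1 (.s 3 (.o)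
  (.s 0 (.o)
  (.s 1 (.o)
  (.o))))
  (.o)))))
  (.s 1 (.s 2 (.s 4 (.o)
  (.s 0 (.s 1 (.o)
  (.s 1 (.o)
  (.s 0 (.o)
  (.o))))
  (.s 0 (.s 1 (.o)
  (.o))
  (.o))))
  (.s 4 (.o)
  (.s 0 (.s 1 (.o)
  (.s 0 (.o)
  (.o)))
  (.s 1 (.o)
  (.o)))))
  (.o)))
  (.s 0 (.s 2 (.s 1 (.s 0 (.o)
  (.o))
  (.s 4 (.o)
  (.s 3 (.s 0 (.s 1 (.o)
  (.s 0 (.o)
  (.o)))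
  (.s 2 (.s 1 (.o)
  (.s 4 (.o)
  (.l)))
  (.s 1 (.o)
  (.o))))
  (.s 0 (.s 1 (.o)
  (.o))
  (.s 1 (.o)
  (.s 1 (.o)
  (.o)))))))
  (.s 1 (.s 0 (.o)
  (.o))
  (.s 4 (.o)
  (.s 0 (.s 1 (.o)
  (.s 1 (.o)
  (.o)))
  (.s 1 (.s 0 (.o)
  (.o))
  (.o))))))
  (.s 1 (.s 2 (.s 4 (.o)
  (.s 3 (.s 0 (.s 1 (.o)
  (.o))
  (.s 1 (.o)
  (.o)))
  (.s 0 (.s 0 (.o)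
  (.o))
  (.s 1 (.o)
  (.o)))))
  (.s 4 (.o)
  (.s 0 (.s 1 (.o)
  (.s 0 (.o)
  (.o)))
  (.o))))
  (.o)))))
  (.s 4 (.s 0 (.o)
  (.o))
  (.s 0 (.s 3 (.s 2 (.s 1 (.s 1 (.o)
  (.o))
  (.o))
  (.o))
  (.s 2 (.s 1 (.s 4 (.o)
  (.s 1 (.o)
  (.s 0 (.o)
  (.o))))
  (.s 4 (.o)
  (.s 1 (.s 2 (.s 0 (.o)
  (.s 0 (.o)
  (.o)))
  (.o))
  (.o))))
  (.s 1 (.s 1 (.o)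
  (.o))
  (.o))))
  (.s 1 (.s 0 (.s 1 (.s 2 (.o)
  (.o))
  (.o))
  (.o))
  (.o)))))
  (.s 2 (.s 4 (.o)
  (.s 0 (.s 1 (.s 0 (.s 3 (.o)
  (.s 2 (.s 4 (.o)
  (.s 1 (.s 0 (.s 1 (.o)
  (.o))
  (.o))
  (.o)))
  (.o)))
  (.o))
  (.o))
  (.o)))
  (.o)))))
  (.s 0 (.s 3 (.s 2 (.s 1 (.l)
  (.o))
  (.o))
  (.s 2 (.s 1 (.s 0 (.l)
  (.l))
  (.s 0 (.o)
  (.l)))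
  (.s 1 (.s 0 (.o)
  (.l))
  (.o))))
  (.s 3 (.s 1 (.s 2 (.s 0 (.l)
  (.l))
  (.s 0 (.o)
  (.l)))
  (.s 2 (.s 0 (.o)
  (.l))
  (.o)))
  (.s 1 (.s 2 (.s 4 (.s 0 (.l)
  (.l))
  (.l))
  (.s 4 (.s 0 (.l)
  (.l))
  (.l)))
  (.s 2 (.s 4 (.s 0 (.l)
  (.l))
  (.l))
  (.s 4 (.s 0 (.o)
  (.l))
  (.l)))))))))
  (.s 3 (.o)
  (.f (.s 1 (.s 3 (.o)
  (.s 0 (.o)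
  (.s 4 (.o)
  (.s 2 (.s 4 (.o)
  (.l))
  (.o)))))
  (.o)))))))
  (.s 0 (.s 3 (.o)
  (.s 2 (.f (.s 1 (.l)
  (.l)))
  (.f (.s 1 (.l)
  (.o)))))
  (.s 2 (.f (.s 1 (.s 3 (.l)
  (.l))
  (.s 3 (.o)
  (.s 0 (.l)
  (.l)))))
  (.s 1 (.f (.s 3 (.l)
  (.l)))
  (.f (.s 3 (.o)
  (.l)))))))
  (.s 4 (.s 0 (.f (.l))
  (.l))
  (.l))))
  (.f (.l)))
  (.f (.l))))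
  (.f (.l))

theorem chkU84 : chkBoxU 15 15 9 7 WU TU84 = true := by decide +kernel

/-- subdivision tree of the box 85 -/
def TU85 : TU :=
  .s 4 (.f (.s 4 (.s 4 (.f (.s 4 (.s 4 (.s 0 (.s 3 (.s 2 (.s 1 (.s 4 (.s 2 (.f (.s 0 (.s 3 (.s 1 (.o)
  (.o))
  (.o))
  (.s 3 (.s 1 (.o)
  (.s 4 (.o)
  (.s 0 (.o)
  (.s 1 (.o)
  (.s 0 (.o)
  (.o))))))
  (.s 1 (.s 0 (.o)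
  (.o))
  (.o)))))
  (.s 0 (.s 1 (.o)
  (.o))
  (.f (.s 3 (.s 1 (.s 0 (.o)
  (.o))
  (.s 4 (.o)
  (.s 1 (.s 0 (.o)
  (.o))
  (.o))))
  (.s 1 (.s 0 (.o)
  (.o))
  (.o))))))
  (.f (.s 2 (.s 3 (.s 0 (.s 1 (.s 0 (.l)
  (.l))
  (.s 1 (.l)
  (.o)))
  (.s 1 (.s 4 (.l)
  (.l))
  (.s 4 (.s 0 (.l)
  (.l))
  (.l))))
  (.s 1 (.s 0 (.o)
  (.l))
  (.o)))
  (.s 3 (.s 0 (.s 1 (.l)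
  (.o))
  (.s 1 (.l)
  (.s 0 (.o)
  (.l))))
  (.s 1 (.s 0 (.o)
  (.l))
  (.o))))))
  (.f (.s 1 (.s 2 (.s 3 (.s 0 (.o)
  (.s 1 (.s 2 (.s 4 (.s 4 (.o)
  (.s 1 (.s 3 (.s 0 (.o)
  (.o))
  (.o))
  (.o)))
  (.s 0 (.o)
  (.l)))
  (.o))
  (.o)))
  (.o))
  (.o))
  (.o))))
  (.s 1 (.s 1 (.s 2 (.s 3 (.f (.s 0 (.o)
  (.s 4 (.s 0 (.o)
  (.o))
  (.l))))
  (.o))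
  (.o))
  (.o))
  (.o)))
  (.o))
  (.s 2 (.s 1 (.s 3 (.f (.s 4 (.s 2 (.s 0 (.s 3 (.s 1 (.s 4 (.o)
  (.s 0 (.o)
  (.s 1 (.o)
  (.s 0 (.o)
  (.o)))))
  (.s 4 (.o)
  (.s 2 (.s 3 (.s 0 (.s 1 (.o)
  (.s 4 (.o)
  (.s 1 (.o)
  (.s 0 (.o)
  (.o)))))
  (.s 1 (.s 4 (.o)
  (.s 1 (.o)
  (.s 0 (.o)
  (.o))))
  (.s 4 (.o)
  (.s 0 (.s 1 (.o)
  (.s 2 (.o)
  (.s 3 (.o)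
  (.s 4 (.o)
  (.l)))))
  (.o)))))
  (.s 2 (.o)
  (.s 3 (.s 0 (.s 1 (.o)
  (.s 1 (.o)
  (.o)))
  (.s 1 (.s 4 (.o)
  (.s 2 (.o)
  (.s 1 (.o)
  (.s 0 (.o)
  (.s 0 (.o)
  (.o))))))
  (.s 4 (.o)
  (.s 0 (.s 2 (.o)
  (.s 3 (.s 1 (.o)
  (.s 0 (.o)
  (.o)))
  (.o)))
  (.o)))))
  (.o))))
  (.s 3 (.s 0 (.s 1 (.o)
  (.s 4 (.o)
  (.s 3 (.s 0 (.o)
  (.s 1 (.o)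
  (.s 0 (.o)
  (.o))))
  (.s 2 (.s 0 (.o)
  (.s 1 (.o)
  (.s 0 (.o)
  (.o))))
  (.s 1 (.s 0 (.o)
  (.o))
  (.o))))))
  (.s 1 (.s 4 (.o)
  (.s 1 (.o)
  (.s 0 (.o)
  (.s 0 (.o)
  (.o)))))
  (.s 4 (.o)
  (.s 3 (.s 0 (.s 2 (.s 1 (.o)
  (.s 2 (.o)
  (.o)))
  (.s 1 (.s 0 (.o)
  (.o))
  (.s 2 (.o)
  (.o))))
  (.o))
  (.s 2 (.s 0 (.s 1 (.s 0 (.o)
  (.o))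
  (.s 4 (.o)
  (.l)))
  (.o))
  (.s 0 (.s 1 (.s 0 (.o)
  (.o))
  (.s 0 (.o)
  (.o)))
  (.o)))))))
  (.s 0 (.s 1 (.s 0 (.o)
  (.o))
  (.s 4 (.o)
  (.s 1 (.s 0 (.o)
  (.o))
  (.o))))
  (.s 1 (.s 4 (.o)
  (.s 0 (.s 1 (.o)
  (.o))
  (.s 1 (.o)
  (.s 1 (.o)
  (.s 0 (.o)
  (.s 2 (.o)
  (.o)))))))
  (.s 4 (.o)
  (.s 2 (.s 3 (.s 0 (.s 1 (.s 0 (.o)
  (.o))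
  (.s 0 (.o)
  (.o)))
  (.s 2 (.o)
  (.o)))
  (.s 1 (.s 2 (.o)
  (.s 0 (.o)
  (.o)))
  (.o)))
  (.s 3 (.s 0 (.s 1 (.s 1 (.o)
  (.o))
  (.o))
  (.s 2 (.o)
  (.o)))
  (.s 1 (.s 1 (.s 0 (.o)
  (.s 0 (.o)
  (.o)))
  (.o))
  (.o)))))))))))
  (.s 2 (.o)
  (.s 3 (.s 1 (.s 4 (.o)
  (.s 0 (.o)
  (.s 2 (.o)
  (.s 1 (.o)
  (.s 0 (.o)
  (.o))))))
  (.s 4 (.o)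
  (.s 1 (.s 2 (.o)
  (.s 0 (.o)
  (.s 4 (.o)
  (.s 1 (.s 1 (.o)
  (.o))
  (.o)))))
  (.o))))
  (.o))))
  (.s 3 (.s 1 (.s 4 (.o)
  (.s 2 (.s 0 (.s 1 (.o)
  (.s 0 (.o)
  (.s 1 (.o)
  (.s 3 (.o)
  (.s 0 (.o)
  (.o))))))
  (.s 3 (.s 1 (.s 0 (.o)
  (.o))
  (.s 4 (.o)
  (.s 0 (.s 1 (.o)
  (.o))
  (.o))))
  (.s 2 (.o)
  (.s 3 (.s 1 (.s 4 (.o)
  (.s 2 (.o)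
  (.s 0 (.o)
  (.s 0 (.o)
  (.o)))))
  (.s 4 (.o)
  (.s 0 (.s 1 (.o)
  (.o))
  (.o))))
  (.o)))))
  (.s 0 (.s 1 (.o)
  (.s 3 (.s 4 (.o)
  (.s 0 (.o)
  (.s 1 (.o)
  (.s 0 (.o)
  (.o)))))
  (.s 4 (.o)
  (.s 0 (.s 0 (.o)
  (.o))
  (.s 1 (.o)
  (.s 1 (.o)
  (.s 0 (.o)
  (.o))))))))
  (.s 3 (.s 1 (.s 4 (.o)
  (.s 1 (.o)
  (.s 0 (.o)
  (.o))))
  (.s 4 (.o)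
  (.s 0 (.s 1 (.o)
  (.o))
  (.o))))
  (.s 1 (.s 4 (.o)
  (.s 1 (.o)
  (.s 0 (.o)
  (.o))))
  (.s 4 (.o)
  (.s 0 (.s 1 (.s 0 (.o)
  (.o))
  (.o))
  (.o))))))))
  (.s 4 (.o)
  (.s 0 (.s 1 (.s 0 (.s 2 (.s 1 (.s 3 (.o)
  (.s 0 (.o)
  (.o)))
  (.o))
  (.s 1 (.s 3 (.s 0 (.o)
  (.o))
  (.s 4 (.o)
  (.s 0 (.o)
  (.s 1 (.o)
  (.o)))))
  (.o)))
  (.o))
  (.o))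
  (.o))))
  (.s 2 (.o)
  (.s 3 (.s 1 (.s 4 (.o)
  (.s 2 (.o)
  (.s 3 (.s 0 (.s 1 (.o)
  (.s 4 (.o)
  (.s 2 (.o)
  (.s 3 (.s 0 (.s 0 (.o)
  (.o))
  (.s 1 (.o)
  (.s 0 (.o)
  (.o))))
  (.o)))))
  (.s 1 (.s 4 (.o)
  (.s 2 (.o)
  (.s 3 (.s 0 (.o)
  (.s 1 (.o)
  (.o)))
  (.o))))
  (.s 4 (.o)
  (.s 0 (.s 0 (.s 1 (.o)
  (.o))
  (.o))
  (.o)))))
  (.o))))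
  (.s 4 (.o)
  (.s 0 (.s 1 (.s 4 (.o)
  (.s 0 (.s 2 (.o)
  (.s 1 (.s 2 (.o)
  (.s 3 (.s 4 (.o)
  (.l))
  (.o)))
  (.o)))
  (.o)))
  (.o))
  (.o))))
  (.o)))))
  (.s 0 (.s 3 (.s 1 (.s 4 (.o)
  (.s 3 (.s 0 (.o)
  (.s 1 (.o)
  (.s 0 (.o)
  (.o))))
  (.s 0 (.s 0 (.o)
  (.o))
  (.s 1 (.o)
  (.s 0 (.o)
  (.s 1 (.o)
  (.o)))))))
  (.s 4 (.s 0 (.o)
  (.o))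
  (.s 3 (.s 0 (.s 2 (.s 1 (.s 0 (.o)
  (.o))
  (.s 4 (.o)
  (.s 1 (.s 0 (.o)
  (.o))
  (.o))))
  (.s 1 (.s 0 (.o)
  (.o))
  (.o)))
  (.s 2 (.s 1 (.s 4 (.o)
  (.s 3 (.s 0 (.s 0 (.o)
  (.o))
  (.s 1 (.o)
  (.s 0 (.o)
  (.s 1 (.o)
  (.o)))))
  (.s 0 (.s 0 (.o)
  (.o))
  (.s 1 (.o)
  (.s 1 (.o)
  (.s 0 (.o)
  (.o)))))))
  (.s 4 (.o)
  (.s 0 (.s 3 (.s 2 (.s 1 (.s 0 (.o)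
  (.o))
  (.o))
  (.s 1 (.s 1 (.o)
  (.o))
  (.o)))
  (.s 1 (.s 1 (.o)
  (.o))
  (.o)))
  (.o))))
  (.s 1 (.s 4 (.o)
  (.s 3 (.s 0 (.s 1 (.o)
  (.o))
  (.s 1 (.o)
  (.s 1 (.o)
  (.s 0 (.o)
  (.o)))))
  (.s 0 (.s 1 (.o)
  (.o))
  (.s 1 (.o)
  (.s 1 (.s 0 (.o)
  (.o))
  (.o))))))
  (.s 0 (.o)
  (.o)))))
  (.s 0 (.s 1 (.s 1 (.o)
  (.o))
  (.o))
  (.s 2 (.s 1 (.s 4 (.o)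
  (.s 0 (.s 1 (.o)
  (.s 0 (.o)
  (.o)))
  (.s 3 (.s 1 (.o)
  (.s 2 (.s 4 (.o)
  (.l))
  (.s 1 (.o)
  (.o))))
  (.s 2 (.s 1 (.o)
  (.s 4 (.o)
  (.l)))
  (.s 1 (.o)
  (.o))))))
  (.s 4 (.o)
  (.s 1 (.s 1 (.s 3 (.s 2 (.s 0 (.o)
  (.o))
  (.o))
  (.o))
  (.o))
  (.o))))
  (.s 1 (.s 4 (.o)
  (.s 1 (.s 0 (.o)
  (.s 1 (.o)
  (.o)))
  (.o)))
  (.o)))))))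
  (.s 1 (.s 4 (.o)
  (.s 0 (.s 1 (.o)
  (.o))
  (.s 1 (.o)
  (.s 3 (.s 0 (.o)
  (.s 1 (.o)
  (.o)))
  (.o)))))
  (.s 1 (.s 4 (.o)
  (.s 2 (.s 0 (.o)
  (.s 3 (.s 4 (.o)
  (.s 1 (.s 0 (.o)
  (.s 1 (.o)
  (.o)))
  (.o)))
  (.o)))
  (.o)))
  (.o))))
  (.s 3 (.s 1 (.s 4 (.o)
  (.s 3 (.s 0 (.s 2 (.s 1 (.o)
  (.s 4 (.o)
  (.s 0 (.s 0 (.o)
  (.o))
  (.s 1 (.o)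
  (.s 0 (.o)
  (.o))))))
  (.s 1 (.s 0 (.o)
  (.o))
  (.s 4 (.o)
  (.s 3 (.s 0 (.s 0 (.o)
  (.o))
  (.s 1 (.o)
  (.s 0 (.o)
  (.o))))
  (.s 0 (.s 1 (.o)
  (.o))
  (.s 1 (.o)
  (.s 0 (.o)
  (.o))))))))
  (.s 2 (.s 1 (.s 4 (.o)
  (.s 1 (.o)
  (.s 0 (.o)
  (.o))))
  (.s 4 (.o)
  (.s 0 (.s 1 (.s 0 (.o)
  (.o))
  (.o))
  (.o))))
  (.s 1 (.s 4 (.o)
  (.s 3 (.s 1 (.o)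
  (.s 0 (.o)
  (.o)))
  (.s 0 (.s 0 (.o)
  (.o))
  (.s 1 (.o)
  (.o)))))
  (.s 4 (.o)
  (.s 3 (.o)
  (.s 0 (.s 0 (.s 1 (.o)
  (.o))
  (.o))
  (.o)))))))
  (.s 0 (.s 2 (.s 1 (.s 0 (.o)
  (.o))
  (.s 4 (.o)
  (.s 0 (.s 1 (.o)
  (.o))
  (.s 1 (.o)
  (.s 0 (.s 1 (.o)
  (.o))
  (.o))))))
  (.s 1 (.s 0 (.o)
  (.o))
  (.s 4 (.o)
  (.s 0 (.s 1 (.o)
  (.s 0 (.o)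
  (.o)))
  (.s 3 (.s 1 (.o)
  (.s 0 (.s 1 (.o)
  (.o))
  (.o)))
  (.s 2 (.s 1 (.o)
  (.s 4 (.o)
  (.l)))
  (.s 1 (.s 0 (.o)
  (.o))
  (.s 4 (.o)
  (.l)))))))))
  (.s 2 (.s 1 (.s 4 (.o)
  (.s 0 (.s 0 (.o)
  (.o))
  (.s 1 (.o)
  (.o))))
  (.s 4 (.o)
  (.s 0 (.s 1 (.s 0 (.o)
  (.o))
  (.o))
  (.o))))
  (.s 1 (.s 4 (.o)
  (.s 0 (.s 1 (.o)
  (.s 0 (.o)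
  (.o)))
  (.s 1 (.o)
  (.o))))
  (.s 4 (.o)
  (.s 0 (.s 0 (.s 1 (.s 1 (.o)
  (.o))
  (.o))
  (.o))
  (.o))))))))
  (.s 4 (.o)
  (.s 0 (.s 1 (.s 0 (.s 1 (.s 3 (.s 2 (.s 4 (.o)
  (.s 0 (.o)
  (.s 1 (.o)
  (.o))))
  (.s 4 (.o)
  (.s 3 (.s 0 (.o)
  (.o))
  (.s 2 (.s 4 (.o)
  (.l))
  (.s 4 (.o)
  (.l))))))
  (.s 2 (.s 4 (.o)
  (.s 3 (.s 0 (.o)
  (.s 1 (.o)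
  (.o)))
  (.s 2 (.s 4 (.o)
  (.l))
  (.s 4 (.o)
  (.l)))))
  (.s 4 (.o)
  (.s 3 (.s 2 (.s 4 (.o)
  (.l))
  (.s 0 (.o)
  (.o)))
  (.s 2 (.s 4 (.o)
  (.l))
  (.o))))))
  (.o))
  (.o))
  (.o))
  (.o))))
  (.s 1 (.s 4 (.s 0 (.o)
  (.o))
  (.s 0 (.s 2 (.s 3 (.s 1 (.s 0 (.o)
  (.o))
  (.s 4 (.o)
  (.s 0 (.s 1 (.o)
  (.s 0 (.o)
  (.s 1 (.o)
  (.o))))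
  (.s 2 (.s 3 (.s 1 (.o)
  (.s 4 (.o)
  (.l)))
  (.s 2 (.o)
  (.s 1 (.o)
  (.s 4 (.o)
  (.l)))))
  (.s 3 (.s 1 (.o)
  (.s 4 (.o)
  (.l)))
  (.s 1 (.s 0 (.o)
  (.o))
  (.s 4 (.o)
  (.l))))))))
  (.s 2 (.o)
  (.s 3 (.s 1 (.s 0 (.o)
  (.o))
  (.s 4 (.o)
  (.s 1 (.s 2 (.o)
  (.s 0 (.o)
  (.s 0 (.o)
  (.o))))
  (.o))))
  (.o))))
  (.s 3 (.s 1 (.s 4 (.o)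
  (.s 1 (.o)
  (.s 0 (.o)
  (.o))))
  (.s 4 (.o)
  (.s 0 (.s 1 (.o)
  (.s 1 (.o)
  (.o)))
  (.s 3 (.s 2 (.s 1 (.s 0 (.o)
  (.o))
  (.s 4 (.o)
  (.l)))
  (.s 1 (.s 0 (.o)
  (.o))
  (.s 0 (.o)
  (.o))))
  (.s 2 (.s 1 (.s 0 (.o)
  (.o))
  (.s 0 (.o)
  (.o)))
  (.s 1 (.s 0 (.o)
  (.l))
  (.o)))))))
  (.s 1 (.s 4 (.o)
  (.s 1 (.o)
  (.s 0 (.o)
  (.o))))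
  (.s 4 (.o)
  (.s 1 (.s 2 (.s 3 (.s 0 (.o)
  (.l))
  (.o))
  (.o))
  (.o))))))
  (.s 2 (.s 3 (.s 1 (.s 4 (.o)
  (.s 0 (.s 1 (.o)
  (.s 0 (.o)
  (.o)))
  (.s 1 (.o)
  (.o))))
  (.s 4 (.o)
  (.s 0 (.s 1 (.s 0 (.s 1 (.o)
  (.o))
  (.o))
  (.o))
  (.o))))
  (.s 2 (.o)
  (.s 3 (.s 1 (.s 4 (.o)
  (.s 2 (.o)
  (.s 3 (.s 0 (.s 1 (.o)
  (.s 0 (.o)
  (.o)))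
  (.s 1 (.o)
  (.o)))
  (.o))))
  (.s 1 (.o)
  (.o)))
  (.o))))
  (.s 3 (.s 1 (.s 4 (.o)
  (.s 0 (.s 1 (.o)
  (.s 1 (.o)
  (.s 0 (.o)
  (.o))))
  (.s 0 (.s 1 (.o)
  (.o))
  (.o))))
  (.s 4 (.o)
  (.s 0 (.s 0 (.s 1 (.s 1 (.o)
  (.o))
  (.o))
  (.o))
  (.o))))
  (.s 1 (.s 4 (.o)
  (.s 0 (.s 1 (.o)
  (.s 2 (.s 1 (.o)
  (.s 0 (.o)
  (.o)))
  (.s 3 (.s 4 (.o)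
  (.l))
  (.l))))
  (.s 0 (.s 1 (.o)
  (.o))
  (.o))))
  (.o))))))
  (.s 4 (.o)
  (.s 0 (.s 1 (.s 0 (.s 2 (.s 3 (.s 4 (.o)
  (.s 1 (.s 3 (.s 2 (.s 4 (.o)
  (.l))
  (.s 4 (.o)
  (.l)))
  (.o))
  (.o)))
  (.o))
  (.o))
  (.o))
  (.o))
  (.o)))))))
  (.s 2 (.s 3 (.s 0 (.s 1 (.s 4 (.s 0 (.l)
  (.l))
  (.l))
  (.s 4 (.s 0 (.l)
  (.s 1 (.l)
  (.l)))
  (.l)))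
  (.s 1 (.s 4 (.s 2 (.s 3 (.s 0 (.l)
  (.l))
  (.l))
  (.s 0 (.l)
  (.l)))
  (.l))
  (.s 4 (.s 2 (.s 0 (.s 1 (.l)
  (.l))
  (.s 1 (.s 0 (.l)
  (.l))
  (.o)))
  (.s 0 (.l)
  (.s 1 (.l)
  (.o))))
  (.l))))
  (.s 2 (.o)
  (.s 3 (.s 0 (.s 1 (.l)
  (.l))
  (.s 1 (.s 0 (.l)
  (.l))
  (.s 0 (.l)
  (.l))))
  (.o))))
  (.s 3 (.s 0 (.s 1 (.s 4 (.l)
  (.l))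
  (.s 4 (.s 0 (.l)
  (.l))
  (.l)))
  (.s 1 (.s 4 (.s 3 (.s 0 (.l)
  (.l))
  (.l))
  (.l))
  (.s 4 (.s 0 (.l)
  (.s 1 (.l)
  (.o)))
  (.l))))
  (.s 0 (.s 1 (.l)
  (.s 0 (.o)
  (.l)))
  (.s 1 (.s 4 (.l)
  (.l))
  (.s 4 (.l)
  (.l))))))))
  (.f (.s 2 (.o)
  (.s 1 (.s 3 (.s 0 (.o)
  (.s 2 (.o)
  (.s 4 (.s 1 (.s 4 (.o)
  (.s 0 (.o)
  (.s 3 (.s 4 (.o)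
  (.s 2 (.o)
  (.s 1 (.s 0 (.o)
  (.o))
  (.o))))
  (.o))))
  (.o))
  (.l))))
  (.o))
  (.o)))))
  (.f (.s 3 (.s 4 (.s 0 (.s 1 (.s 3 (.s 0 (.s 2 (.s 4 (.o)
  (.s 1 (.s 3 (.s 2 (.s 4 (.o)
  (.s 2 (.s 3 (.s 0 (.s 1 (.o)
  (.o))
  (.o))
  (.s 1 (.s 2 (.o)
  (.s 1 (.s 0 (.o)
  (.o))
  (.o)))
  (.o)))
  (.s 3 (.s 0 (.s 1 (.o)
  (.o))
  (.s 1 (.s 0 (.o)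
  (.o))
  (.o)))
  (.s 1 (.s 1 (.s 0 (.o)
  (.s 0 (.o)
  (.o)))
  (.o))
  (.o)))))
  (.s 4 (.o)
  (.s 1 (.s 1 (.s 3 (.s 2 (.s 0 (.o)
  (.s 0 (.o)
  (.o)))
  (.o))
  (.o))
  (.o))
  (.o))))
  (.o))
  (.o)))
  (.o))
  (.o))
  (.o))
  (.o))
  (.o))
  (.s 0 (.s 3 (.s 2 (.s 1 (.s 4 (.s 2 (.s 3 (.s 0 (.l)
  (.s 0 (.l)
  (.l)))
  (.l))
  (.s 0 (.l)
  (.l)))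
  (.l))
  (.s 4 (.o)
  (.l)))
  (.s 1 (.s 4 (.s 1 (.l)
  (.o))
  (.l))
  (.o)))
  (.o))
  (.s 1 (.s 2 (.s 3 (.s 4 (.o)
  (.l))
  (.s 4 (.o)
  (.l)))
  (.s 3 (.s 4 (.o)
  (.l))
  (.s 4 (.o)
  (.l))))
  (.o))))
  (.o))))
  (.s 1 (.s 3 (.f (.s 4 (.s 0 (.s 3 (.s 1 (.s 2 (.s 4 (.o)
  (.s 3 (.s 0 (.s 0 (.o)
  (.o))
  (.s 1 (.o)
  (.s 1 (.o)
  (.s 0 (.o)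
  (.o)))))
  (.s 0 (.s 1 (.o)
  (.o))
  (.s 1 (.o)
  (.s 1 (.o)
  (.o))))))
  (.s 4 (.o)
  (.s 2 (.s 1 (.s 0 (.o)
  (.o))
  (.o))
  (.o))))
  (.s 2 (.s 1 (.s 4 (.o)
  (.s 3 (.s 0 (.o)
  (.s 2 (.s 4 (.o)
  (.s 1 (.s 3 (.s 1 (.o)
  (.o))
  (.o))
  (.o)))
  (.o)))
  (.o)))
  (.o))
  (.o)))
  (.s 1 (.s 2 (.s 4 (.o)
  (.s 1 (.s 3 (.s 0 (.o)
  (.o))
  (.o))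
  (.o)))
  (.o))
  (.o)))
  (.s 3 (.s 1 (.s 2 (.s 4 (.s 0 (.o)
  (.o))
  (.s 3 (.s 0 (.s 2 (.s 1 (.s 0 (.o)
  (.o))
  (.s 4 (.o)
  (.s 3 (.s 0 (.s 1 (.o)
  (.o))
  (.s 1 (.o)
  (.s 1 (.o)
  (.o))))
  (.s 0 (.s 1 (.o)
  (.s 0 (.o)
  (.o)))
  (.s 2 (.s 1 (.o)
  (.s 4 (.o)
  (.l)))
  (.s 1 (.o)
  (.o)))))))
  (.s 1 (.s 0 (.o)
  (.o))
  (.s 4 (.o)
  (.s 0 (.s 1 (.o)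
  (.s 1 (.o)
  (.o)))
  (.s 1 (.s 0 (.o)
  (.o))
  (.o))))))
  (.s 1 (.s 2 (.s 4 (.o)
  (.s 3 (.s 0 (.s 0 (.o)
  (.o))
  (.s 1 (.o)
  (.o)))
  (.s 0 (.s 1 (.o)
  (.o))
  (.s 1 (.o)
  (.o)))))
  (.s 4 (.o)
  (.s 0 (.s 1 (.o)
  (.s 0 (.o)
  (.o)))
  (.o))))
  (.o)))
  (.s 0 (.s 2 (.s 1 (.s 4 (.o)
  (.s 1 (.o)
  (.s 0 (.o)
  (.o))))
  (.s 4 (.o)
  (.s 0 (.s 1 (.o)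
  (.s 1 (.o)
  (.o)))
  (.s 3 (.s 2 (.s 1 (.s 0 (.o)
  (.o))
  (.s 4 (.o)
  (.l)))
  (.s 1 (.s 0 (.o)
  (.o))
  (.o)))
  (.s 2 (.s 1 (.s 0 (.o)
  (.o))
  (.s 0 (.o)
  (.o)))
  (.s 1 (.s 1 (.o)
  (.o))
  (.o)))))))
  (.s 1 (.s 4 (.o)
  (.s 1 (.o)
  (.s 0 (.o)
  (.o))))
  (.s 4 (.o)
  (.s 1 (.s 3 (.s 0 (.o)
  (.s 1 (.o)
  (.o)))
  (.o))
  (.o)))))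
  (.s 1 (.s 2 (.s 4 (.o)
  (.s 0 (.s 1 (.o)
  (.s 1 (.o)
  (.s 0 (.o)
  (.o))))
  (.s 0 (.s 1 (.o)
  (.o))
  (.o))))
  (.s 4 (.o)
  (.s 0 (.s 1 (.o)
  (.s 0 (.o)
  (.o)))
  (.s 1 (.o)
  (.o)))))
  (.o)))))
  (.s 4 (.s 0 (.o)
  (.o))
  (.s 0 (.s 3 (.s 2 (.s 1 (.s 4 (.o)
  (.s 1 (.o)
  (.s 0 (.o)
  (.o))))
  (.s 4 (.o)
  (.s 1 (.s 2 (.s 0 (.o)
  (.s 0 (.o)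
  (.o)))
  (.o))
  (.o))))
  (.s 1 (.s 1 (.o)
  (.o))
  (.o)))
  (.s 2 (.s 1 (.s 1 (.o)
  (.o))
  (.o))
  (.o)))
  (.s 1 (.s 0 (.s 1 (.s 2 (.o)
  (.o))
  (.o))
  (.o))
  (.o)))))
  (.s 2 (.s 4 (.o)
  (.s 0 (.s 1 (.s 0 (.s 3 (.s 2 (.s 4 (.o)
  (.s 1 (.s 0 (.s 1 (.o)
  (.o))
  (.o))
  (.o)))
  (.o))
  (.o))
  (.o))
  (.o))
  (.o)))
  (.o)))
  (.s 2 (.s 1 (.s 4 (.s 0 (.o)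
  (.o))
  (.s 0 (.s 3 (.s 2 (.s 1 (.s 4 (.o)
  (.s 1 (.o)
  (.s 0 (.o)
  (.o))))
  (.s 4 (.o)
  (.s 1 (.s 3 (.s 2 (.s 0 (.o)
  (.s 1 (.o)
  (.o)))
  (.o))
  (.o))
  (.o))))
  (.s 1 (.s 1 (.o)
  (.o))
  (.o)))
  (.s 1 (.s 2 (.s 1 (.o)
  (.o))
  (.o))
  (.o)))
  (.s 1 (.s 3 (.s 2 (.s 4 (.o)
  (.s 0 (.s 1 (.o)
  (.s 1 (.o)
  (.s 0 (.o)
  (.o))))
  (.s 0 (.s 1 (.o)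
  (.o))
  (.o))))
  (.s 4 (.o)
  (.s 0 (.s 1 (.o)
  (.s 0 (.o)
  (.o)))
  (.o))))
  (.s 2 (.s 4 (.o)
  (.s 0 (.s 3 (.s 1 (.o)
  (.s 0 (.o)
  (.o)))
  (.s 1 (.o)
  (.o)))
  (.s 0 (.s 1 (.s 1 (.o)
  (.o))
  (.o))
  (.o))))
  (.s 0 (.o)
  (.o))))
  (.o))))
  (.s 0 (.o)
  (.o)))
  (.s 1 (.s 1 (.s 4 (.o)
  (.s 2 (.s 0 (.o)
  (.s 0 (.o)
  (.o)))
  (.o)))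
  (.o))
  (.o)))))
  (.s 0 (.s 3 (.s 2 (.s 1 (.s 0 (.l)
  (.l))
  (.s 0 (.o)
  (.l)))
  (.s 1 (.s 0 (.o)
  (.l))
  (.o)))
  (.s 2 (.s 1 (.l)
  (.o))
  (.o)))
  (.s 3 (.s 1 (.s 2 (.s 4 (.s 0 (.l)
  (.l))
  (.l))
  (.s 4 (.s 0 (.l)
  (.l))
  (.l)))
  (.s 2 (.s 4 (.s 0 (.l)
  (.l))
  (.l))
  (.s 4 (.s 0 (.o)
  (.l))
  (.l))))
  (.s 1 (.s 2 (.s 0 (.l)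
  (.l))
  (.s 0 (.o)
  (.l)))
  (.s 2 (.s 0 (.o)
  (.l))
  (.o)))))))
  (.s 1 (.s 2 (.f (.s 3 (.s 0 (.o)
  (.s 4 (.s 1 (.s 4 (.o)
  (.s 2 (.s 0 (.o)
  (.s 0 (.o)
  (.o)))
  (.o)))
  (.o))
  (.l)))
  (.o)))
  (.o))
  (.o)))
  (.s 3 (.f (.s 1 (.s 3 (.s 0 (.o)
  (.s 4 (.o)
  (.s 2 (.s 4 (.o)
  (.l))
  (.o))))
  (.o))
  (.o)))
  (.o)))))
  (.s 0 (.s 3 (.s 2 (.f (.s 1 (.l)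
  (.l)))
  (.f (.s 1 (.l)
  (.o))))
  (.o))
  (.s 2 (.f (.s 1 (.s 3 (.l)
  (.l))
  (.s 3 (.s 0 (.l)
  (.l))
  (.o))))
  (.s 1 (.f (.s 3 (.l)
  (.l)))
  (.f (.s 3 (.l)
  (.o)))))))
  (.s 4 (.s 0 (.f (.l))
  (.l))
  (.l))))
  (.f (.l)))
  (.f (.l))))
  (.f (.l))

theorem chkU85 : chkBoxU 15 15 9 9 WU TU85 = true := by decide +kernel

/-- subdivision tree of the box 86 -/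
def TU86 : TU :=
  .s 4 (.f (.s 4 (.s 4 (.f (.s 4 (.s 2 (.s 1 (.s 3 (.o)
  (.s 0 (.o)
  (.s 4 (.s 1 (.s 2 (.s 0 (.o)
  (.s 3 (.o)
  (.f (.s 1 (.s 4 (.s 0 (.o)
  (.o))
  (.s 0 (.o)
  (.l)))
  (.o)))))
  (.o))
  (.o))
  (.f (.l)))))
  (.o))
  (.o))
  (.s 4 (.s 0 (.o)
  (.l))
  (.f (.l)))))
  (.f (.l)))
  (.f (.l))))
  (.f (.l))

theorem chkU86 : chkBoxU 15 15 11 7 WU TU86 = true := by decide +kernel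

/-- subdivision tree of the box 87 -/
def TU87 : TU :=
  .s 4 (.f (.s 4 (.s 4 (.f (.s 4 (.s 2 (.s 1 (.s 3 (.s 0 (.o)
  (.s 4 (.s 1 (.s 2 (.s 0 (.o)
  (.s 3 (.f (.s 1 (.s 4 (.s 0 (.o)
  (.o))
  (.s 0 (.o)
  (.l)))
  (.o)))
  (.o)))
  (.o))
  (.o))
  (.f (.l))))
  (.o))
  (.o))
  (.o))
  (.s 4 (.s 0 (.o)
  (.l))
  (.f (.l)))))
  (.f (.l)))
  (.f (.l))))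
  (.f (.l))

theorem chkU87 : chkBoxU 15 15 11 9 WU TU87 = true := by decide +kernel

end Pool.Agent.Helper10.Qc
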