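import Pool.Agent.Helper10.Qc.P0
import Pool.Agent.Helper10.Qc.P1
import Pool.Agent.Helper10.Qc.P2
import Pool.Agent.Helper10.Qc.P3
import Pool.Agent.Helper10.Qc.P4
import Pool.Agent.Helper10.Qc.P5
import Pool.Agent.Helper10.Qc.P6
import Pool.Agent.Helper10.Qc.P7
import Pool.Agent.Helper10.Qc.Stmts

set_option autoImplicit false

/-! # Module BU : the data of all boxes -/

namespace Pool.Agent.Helper10.Qc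

/-- the boxes which meet the domain -/
def bu_list : List (ℕ × ℕ × ℕ × ℕ) := [
  (9, 9, 9, 7), (9, 9, 9, 9), (9, 9, 11, 7), (9, 9, 11, 9), (9, 11, 9, 7), (9, 11, 9, 9),
  (11, 9, 9, 7), (11, 9, 9, 9), (11, 9, 11, 7), (11, 9, 11, 9), (11, 9, 13, 7), (11, 9, 13, 9),
  (11, 11, 9, 7), (11, 11, 9, 9), (11, 11, 11, 7), (11, 11, 11, 9), (11, 13, 9, 7),
  (11, 13, 9, 9), (13, 9, 9, 5), (13, 9, 9, 7), (13, 9, 9, 9), (13, 9, 9, 11), (13, 9, 11, 5),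
  (13, 9, 11, 7), (13, 9, 11, 9), (13, 9, 11, 11), (13, 9, 13, 7), (13, 9, 13, 9),
  (13, 9, 15, 7), (13, 9, 15, 9), (13, 11, 9, 5), (13, 11, 9, 7), (13, 11, 9, 9),
  (13, 11, 9, 11), (13, 11, 11, 5), (13, 11, 11, 7), (13, 11, 11, 9), (13, 11, 11, 11),
  (13, 11, 13, 7), (13, 11, 13, 9), (13, 13, 9, 7), (13, 13, 9, 9), (13, 13, 11, 7),
  (13, 13, 11, 9), (13, 15, 9, 7), (13, 15, 9, 9), (15, 9, 9, 5), (15, 9, 9, 7), (15, 9, 9, 9),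
  (15, 9, 9, 11), (15, 9, 11, 5), (15, 9, 11, 7), (15, 9, 11, 9), (15, 9, 11, 11),
  (15, 9, 13, 5), (15, 9, 13, 7), (15, 9, 13, 9), (15, 9, 13, 11), (15, 9, 15, 7),
  (15, 9, 15, 9), (15, 11, 9, 5), (15, 11, 9, 7), (15, 11, 9, 9), (15, 11, 9, 11),
  (15, 11, 11, 5), (15, 11, 11, 7), (15, 11, 11, 9), (15, 11, 11, 11), (15, 11, 13, 5),
  (15, 11, 13, 7), (15, 11, 13, 9), (15, 11, 13, 11), (15, 11, 15, 7), (15, 11, 15, 9),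
  (15, 13, 9, 5), (15, 13, 9, 7), (15, 13, 9, 9), (15, 13, 9, 11), (15, 13, 11, 5),
  (15, 13, 11, 7), (15, 13, 11, 9), (15, 13, 11, 11), (15, 13, 13, 7), (15, 13, 13, 9),
  (15, 15, 9, 7), (15, 15, 9, 9), (15, 15, 11, 7), (15, 15, 11, 9)]

theorem bu_data : ∀ q ∈ bu_list, ∃ t, chkBoxU q.1 q.2.1 q.2.2.1 q.2.2.2 WU t = true := by
  unfold bu_list
  refine List.forall_mem_cons.2 ⟨⟨TU0, chkU0⟩, ?_⟩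
  refine List.forall_mem_cons.2 ⟨⟨TU1, chkU1⟩, ?_⟩
  refine List.forall_mem_cons.2 ⟨⟨TU2, chkU2⟩, ?_⟩
  refine List.forall_mem_cons.2 ⟨⟨TU3, chkU3⟩, ?_⟩
  refine List.forall_mem_cons.2 ⟨⟨TU4, chkU4⟩, ?_⟩
  refine List.forall_mem_cons.2 ⟨⟨TU5, chkU5⟩, ?_⟩
  refine List.forall_mem_cons.2 ⟨⟨TU6, chkU6⟩, ?_⟩
  refine List.forall_mem_cons.2 ⟨⟨TU7, chkU7⟩, ?_⟩
  refine List.forall_mem_cons.2 ⟨⟨TU8, chkU8⟩, ?_⟩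
  refine List.forall_mem_cons.2 ⟨⟨TU9, chkU9⟩, ?_⟩
  refine List.forall_mem_cons.2 ⟨⟨TU10, chkU10⟩, ?_⟩
  refine List.forall_mem_cons.2 ⟨⟨TU11, chkU11⟩, ?_⟩
  refine List.forall_mem_cons.2 ⟨⟨TU12, chkU12⟩, ?_⟩
  refine List.forall_mem_cons.2 ⟨⟨TU13, chkU13⟩, ?_⟩
  refine List.forall_mem_cons.2 ⟨⟨TU14, chkU14⟩, ?_⟩
  refine List.forall_mem_cons.2 ⟨⟨TU15, chkU15⟩, ?_⟩
  refine List.forall_mem_cons.2 ⟨⟨TU16, chkU16⟩, ?_⟩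
  refine List.forall_mem_cons.2 ⟨⟨TU17, chkU17⟩, ?_⟩
  refine List.forall_mem_cons.2 ⟨⟨TU18, chkU18⟩, ?_⟩
  refine List.forall_mem_cons.2 ⟨⟨TU19, chkU19⟩, ?_⟩
  refine List.forall_mem_cons.2 ⟨⟨TU20, chkU20⟩, ?_⟩
  refine List.forall_mem_cons.2 ⟨⟨TU21, chkU21⟩, ?_⟩
  refine List.forall_mem_cons.2 ⟨⟨TU22, chkU22⟩, ?_⟩
  refine List.forall_mem_cons.2 ⟨⟨TU23, chkU23⟩, ?_⟩
  refine List.forall_mem_cons.2 ⟨⟨TU24, chkU24⟩, ?_⟩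
  refine List.forall_mem_cons.2 ⟨⟨TU25, chkU25⟩, ?_⟩
  refine List.forall_mem_cons.2 ⟨⟨TU26, chkU26⟩, ?_⟩
  refine List.forall_mem_cons.2 ⟨⟨TU27, chkU27⟩, ?_⟩
  refine List.forall_mem_cons.2 ⟨⟨TU28, chkU28⟩, ?_⟩
  refine List.forall_mem_cons.2 ⟨⟨TU29, chkU29⟩, ?_⟩
  refine List.forall_mem_cons.2 ⟨⟨TU30, chkU30⟩, ?_⟩
  refine List.forall_mem_cons.2 ⟨⟨TU31, chkU31⟩, ?_⟩
  refine List.forall_mem_cons.2 ⟨⟨TU32, chkU32⟩, ?_⟩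
  refine List.forall_mem_cons.2 ⟨⟨TU33, chkU33⟩, ?_⟩
  refine List.forall_mem_cons.2 ⟨⟨TU34, chkU34⟩, ?_⟩
  refine List.forall_mem_cons.2 ⟨⟨TU35, chkU35⟩, ?_⟩
  refine List.forall_mem_cons.2 ⟨⟨TU36, chkU36⟩, ?_⟩
  refine List.forall_mem_cons.2 ⟨⟨TU37, chkU37⟩, ?_⟩
  refine List.forall_mem_cons.2 ⟨⟨TU38, chkU38⟩, ?_⟩
  refine List.forall_mem_cons.2 ⟨⟨TU39, chkU39⟩, ?_⟩
  refine List.forall_mem_cons.2 ⟨⟨TU40, chkU40⟩, ?_⟩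
  refine List.forall_mem_cons.2 ⟨⟨TU41, chkU41⟩, ?_⟩
  refine List.forall_mem_cons.2 ⟨⟨TU42, chkU42⟩, ?_⟩
  refine List.forall_mem_cons.2 ⟨⟨TU43, chkU43⟩, ?_⟩
  refine List.forall_mem_cons.2 ⟨⟨TU44, chkU44⟩, ?_⟩
  refine List.forall_mem_cons.2 ⟨⟨TU45, chkU45⟩, ?_⟩
  refine List.forall_mem_cons.2 ⟨⟨TU46, chkU46⟩, ?_⟩
  refine List.forall_mem_cons.2 ⟨⟨TU47, chkU47⟩, ?_⟩
  refine List.forall_mem_cons.2 ⟨⟨TU48, chkU48⟩, ?_⟩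
  refine List.forall_mem_cons.2 ⟨⟨TU49, chkU49⟩, ?_⟩
  refine List.forall_mem_cons.2 ⟨⟨TU50, chkU50⟩, ?_⟩
  refine List.forall_mem_cons.2 ⟨⟨TU51, chkU51⟩, ?_⟩
  refine List.forall_mem_cons.2 ⟨⟨TU52, chkU52⟩, ?_⟩
  refine List.forall_mem_cons.2 ⟨⟨TU53, chkU53⟩, ?_⟩
  refine List.forall_mem_cons.2 ⟨⟨TU54, chkU54⟩, ?_⟩
  refine List.forall_mem_cons.2 ⟨⟨TU55, chkU55⟩, ?_⟩
  refine List.forall_mem_cons.2 ⟨⟨TU56, chkU56⟩, ?_⟩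
  refine List.forall_mem_cons.2 ⟨⟨TU57, chkU57⟩, ?_⟩
  refine List.forall_mem_cons.2 ⟨⟨TU58, chkU58⟩, ?_⟩
  refine List.forall_mem_cons.2 ⟨⟨TU59, chkU59⟩, ?_⟩
  refine List.forall_mem_cons.2 ⟨⟨TU60, chkU60⟩, ?_⟩
  refine List.forall_mem_cons.2 ⟨⟨TU61, chkU61⟩, ?_⟩
  refine List.forall_mem_cons.2 ⟨⟨TU62, chkU62⟩, ?_⟩
  refine List.forall_mem_cons.2 ⟨⟨TU63, chkU63⟩, ?_⟩
  refine List.forall_mem_cons.2 ⟨⟨TU64, chkU64⟩, ?_⟩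
  refine List.forall_mem_cons.2 ⟨⟨TU65, chkU65⟩, ?_⟩
  refine List.forall_mem_cons.2 ⟨⟨TU66, chkU66⟩, ?_⟩
  refine List.forall_mem_cons.2 ⟨⟨TU67, chkU67⟩, ?_⟩
  refine List.forall_mem_cons.2 ⟨⟨TU68, chkU68⟩, ?_⟩
  refine List.forall_mem_cons.2 ⟨⟨TU69, chkU69⟩, ?_⟩
  refine List.forall_mem_cons.2 ⟨⟨TU70, chkU70⟩, ?_⟩
  refine List.forall_mem_cons.2 ⟨⟨TU71, chkU71⟩, ?_⟩
  refine List.forall_mem_cons.2 ⟨⟨TU72, chkU72⟩, ?_⟩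
  refine List.forall_mem_cons.2 ⟨⟨TU73, chkU73⟩, ?_⟩
  refine List.forall_mem_cons.2 ⟨⟨TU74, chkU74⟩, ?_⟩
  refine List.forall_mem_cons.2 ⟨⟨TU75, chkU75⟩, ?_⟩
  refine List.forall_mem_cons.2 ⟨⟨TU76, chkU76⟩, ?_⟩
  refine List.forall_mem_cons.2 ⟨⟨TU77, chkU77⟩, ?_⟩
  refine List.forall_mem_cons.2 ⟨⟨TU78, chkU78⟩, ?_⟩
  refine List.forall_mem_cons.2 ⟨⟨TU79, chkU79⟩, ?_⟩
  refine List.forall_mem_cons.2 ⟨⟨TU80, chkU80⟩, ?_⟩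
  refine List.forall_mem_cons.2 ⟨⟨TU81, chkU81⟩, ?_⟩
  refine List.forall_mem_cons.2 ⟨⟨TU82, chkU82⟩, ?_⟩
  refine List.forall_mem_cons.2 ⟨⟨TU83, chkU83⟩, ?_⟩
  refine List.forall_mem_cons.2 ⟨⟨TU84, chkU84⟩, ?_⟩
  refine List.forall_mem_cons.2 ⟨⟨TU85, chkU85⟩, ?_⟩
  refine List.forall_mem_cons.2 ⟨⟨TU86, chkU86⟩, ?_⟩
  refine List.forall_mem_cons.2 ⟨⟨TU87, chkU87⟩, ?_⟩
  intro q hq
  exact absurd hq List.not_mem_nil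

theorem bu_grid : ∀ z0 ∈ [9, 11, 13, 15], ∀ z1 ∈ [9, 11, 13, 15], ∀ z2 ∈ [9, 11, 13, 15],
  ∀ z3 ∈ [1, 3, 5, 7, 9, 11, 13, 15], (z0, z1, z2, z3) ∈ bu_list ∨
    out z0 z1 z2 z3 0 128 0 128 0 128 0 128 = true := by decide +kernel

theorem st_BU : ST_BU := by
  intro z0 h0 z1 h1 z2 h2 z3 h3
  rcases bu_grid z0 h0 z1 h1 z2 h2 z3 h3 with h | h
  · exact Or.inl (bu_data _ h)
  · exact Or.inr h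

end Pool.Agent.Helper10.Qc
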