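import Pool.Agent.Helper10.Qc.Stmts

set_option autoImplicit false

/-! # Module LOWA : the lower bound for reduced points -/

namespace Pool.Agent.Helper10.Qc

open MeasureTheory
open Pool.Agent.Helper19.Qh Pool.Agent.Helper19.Qc

theorem lowa_df (x o : ℕ) : ((df x o : ℕ) : ℤ) ^ 2 = ((x : ℤ) - o) ^ 2 := by
  have h : df x o = (x - o) + (o - x) := rfl
  rw [h]
  rcases le_total x o with h1 | h1
  · rw [Nat.sub_eq_zero_of_le h1, Nat.zero_add, Nat.cast_sub h1]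
    ring
  · rw [Nat.sub_eq_zero_of_le h1, Nat.add_zero, Nat.cast_sub h1]

theorem lowa_nsq (x0 x1 x2 x3 o : ℕ) : ((nsq x0 x1 x2 x3 o : ℕ) : ℤ) =
    ((x0 : ℤ) - o) ^ 2 + ((x1 : ℤ) - o) ^ 2 + ((x2 : ℤ) - o) ^ 2 + ((x3 : ℤ) - o) ^ 2 := by
  have h : nsq x0 x1 x2 x3 o = (df x0 o * df x0 o + df x1 o * df x1 o) +
      (df x2 o * df x2 o + df x3 o * df x3 o) := rfl
  rw [h]
  push_cast
  have h0 := lowa_df x0 o
  have h1 := lowa_df x1 o
  have h2 := lowa_df x2 o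
  have h3 := lowa_df x3 o
  nlinarith [h0, h1, h2, h3]

theorem lowa_cond {a b : Bool} (h : (cond a b false) = true) : a = true ∧ b = true := by
  cases a <;> simp_all

/-- the arithmetic content of the parity test -/
theorem lowa_par {c : ℕ} (h : cOK c) : (2 : ℤ) ∣ cB c 1 - cB c 0 ∧ (2 : ℤ) ∣ cB c 2 - cB c 0 ∧
    (2 : ℤ) ∣ cB c 3 - cB c 0 ∧
    4 * (cN c : ℤ) = cB c 0 ^ 2 + cB c 1 ^ 2 + cB c 2 ^ 2 + cB c 3 ^ 2 ∧
    (2 : ℤ) ∣ cA c 1 - cA c 0 ∧ (2 : ℤ) ∣ cA c 2 - cA c 0 ∧ (2 : ℤ) ∣ cA c 3 - cA c 0 := by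
  obtain ⟨-, h⟩ := h
  unfold parOK at h
  obtain ⟨h1, h⟩ := lowa_cond h
  obtain ⟨h2, h⟩ := lowa_cond h
  obtain ⟨h3, h⟩ := lowa_cond h
  obtain ⟨h4, h⟩ := lowa_cond h
  obtain ⟨h5, h⟩ := lowa_cond h
  obtain ⟨h6, h7⟩ := lowa_cond h
  replace h1 := Nat.eq_of_beq_eq_true h1
  replace h2 := Nat.eq_of_beq_eq_true h2
  replace h3 := Nat.eq_of_beq_eq_true h3
  replace h4 := Nat.eq_of_beq_eq_true h4
  replace h5 := Nat.eq_of_beq_eq_true h5
  replace h6 := Nat.eq_of_beq_eq_true h6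
  replace h7 := Nat.eq_of_beq_eq_true h7
  change (d32 c 0 + d32 c 1) % 2 = 0 at h1
  change (d32 c 0 + d32 c 2) % 2 = 0 at h2
  change (d32 c 0 + d32 c 3) % 2 = 0 at h3
  change 4 * cN c = _ at h4
  change (cN c + d32 c 4) % 2 = 0 at h5
  change (cN c + d32 c 5) % 2 = 0 at h6
  change (cN c + d32 c 6) % 2 = 0 at h7
  have e : 4 * (cN c : ℤ) = cB c 0 ^ 2 + cB c 1 ^ 2 + cB c 2 ^ 2 + cB c 3 ^ 2 := by
    have := lowa_nsq (d32 c 0) (d32 c 1) (d32 c 2) (d32 c 3) 8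
    rw [← h4] at this
    push_cast at this
    exact this
  have a0 : cA c 0 = -(cN c : ℤ) := rfl
  have a1 : cA c 1 = (d32 c 4 : ℤ) - 16 := rfl
  have a2 : cA c 2 = (d32 c 5 : ℤ) - 16 := rfl
  have a3 : cA c 3 = (d32 c 6 : ℤ) - 16 := rfl
  have b0 : cB c 0 = (d32 c 0 : ℤ) - 8 := rfl
  have b1 : cB c 1 = (d32 c 1 : ℤ) - 8 := rfl
  have b2 : cB c 2 = (d32 c 2 : ℤ) - 8 := rfl
  have b3 : cB c 3 = (d32 c 3 : ℤ) - 8 := rfl
  refine ⟨?_, ?_, ?_, e, ?_, ?_, ?_⟩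
  · rw [b0, b1]; omega
  · rw [b0, b2]; omega
  · rw [b0, b3]; omega
  · rw [a0, a1]; omega
  · rw [a0, a2]; omega
  · rw [a0, a3]; omega

theorem lowa_NO (hHZ : ST_HZ) {c : ℕ} (h : cOK c) : NO (hf (cA c)) (e1 (hf (cB c))) := by
  obtain ⟨h1, h2, h3, h4, h5, h6, h7⟩ := lowa_par h
  refine ⟨(hHZ _).2 ⟨cA c, h5, h6, h7, rfl⟩, (hHZ _).2 ⟨cB c, h1, h2, h3, rfl⟩, ?_⟩
  rw [e1_norm, q_norm_sq]
  have e : 4 * (cN c : ℝ) = (cB c 0 : ℝ) ^ 2 + (cB c 1 : ℝ) ^ 2 + (cB c 2 : ℝ) ^ 2 +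
      (cB c 3 : ℝ) ^ 2 := by exact_mod_cast h4
  have a0 : (cA c 0 : ℝ) = -(cN c : ℝ) := by
    have : cA c 0 = -(cN c : ℤ) := rfl
    rw [this]; push_cast; rfl
  change 2 * ((cA c 0 : ℝ) / 2) + (((cB c 0 : ℝ) / 2) ^ 2 + ((cB c 1 : ℝ) / 2) ^ 2 +
    ((cB c 2 : ℝ) / 2) ^ 2 + ((cB c 3 : ℝ) / 2) ^ 2) = 0
  rw [a0]
  linarith

theorem lowa_orb (hHZ : ST_HZ) (hOT : ST_OT) {c : ℕ} (h : cOK c) : wv c ∈ Orb MO :=
  hOT _ _ (lowa_NO hHZ h)

theorem lowa_sum {l : List ℕ} {f g : ℕ → ℝ} (hg : ∀ c ∈ l, 0 ≤ g c) (a : ℝ)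
    (h : ∀ c ∈ l, a * f c ≤ g c) :
    ENNReal.ofReal (a * (l.map f).sum) ≤ (l.map fun c => ENNReal.ofReal (g c)).sum := by
  induction l with
  | nil => simp
  | cons c l ih =>
    simp only [List.map_cons, List.sum_cons]
    rw [mul_add]
    refine (ENNReal.ofReal_add_le).trans ?_
    refine add_le_add (ENNReal.ofReal_le_ofReal (h c List.mem_cons_self)) ?_
    exact ih (fun c hc => hg c (List.mem_cons_of_mem _ hc))
      (fun c hc => h c (List.mem_cons_of_mem _ hc))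

theorem lowa_zs {z : ℕ} (h : z ∈ [9, 11, 13, 15]) : 1 ≤ z ∧ z ≤ 15 := by
  simp only [List.mem_cons, List.not_mem_nil, or_false] at h
  omega

theorem lowa_z3 {z : ℕ} (h : z ∈ [1, 3, 5, 7, 9, 11, 13, 15]) : 1 ≤ z ∧ z ≤ 15 := by
  simp only [List.mem_cons, List.not_mem_nil, or_false] at h
  omega

theorem lowa_eta (z0 z1 z2 z3 : ℕ) (p : Pt 1)
    (h : ∀ i, 0 ≤ eC z0 z1 z2 z3 p i ∧ eC z0 z1 z2 z3 p i ≤ 128) :
    ‖p.2 0 - zc z0 z1 z2 z3‖ ^ 2 ≤ 1 / 64 := by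
  rw [q_norm_sq]
  have h0 : (0 : ℝ) ≤ 1024 * ((p.2 0).re - ((z0 : ℝ) - 8) / 16) + 64 ∧
    1024 * ((p.2 0).re - ((z0 : ℝ) - 8) / 16) + 64 ≤ 128 := h 0
  have h1 : (0 : ℝ) ≤ 1024 * ((p.2 0).imI - ((z1 : ℝ) - 8) / 16) + 64 ∧
    1024 * ((p.2 0).imI - ((z1 : ℝ) - 8) / 16) + 64 ≤ 128 := h 1
  have h2 : (0 : ℝ) ≤ 1024 * ((p.2 0).imJ - ((z2 : ℝ) - 8) / 16) + 64 ∧
    1024 * ((p.2 0).imJ - ((z2 : ℝ) - 8) / 16) + 64 ≤ 128 := h 2
  have h3 : (0 : ℝ) ≤ 1024 * ((p.2 0).imK - ((z3 : ℝ) - 8) / 16) + 64 ∧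
    1024 * ((p.2 0).imK - ((z3 : ℝ) - 8) / 16) + 64 ≤ 128 := h 3
  change ((p.2 0).re - ((z0 : ℝ) - 8) / 16) ^ 2 + ((p.2 0).imI - ((z1 : ℝ) - 8) / 16) ^ 2 +
    ((p.2 0).imJ - ((z2 : ℝ) - 8) / 16) ^ 2 + ((p.2 0).imK - ((z3 : ℝ) - 8) / 16) ^ 2 ≤ 1 / 64
  have key : ∀ x : ℝ, 0 ≤ 1024 * x + 64 ∧ 1024 * x + 64 ≤ 128 → x ^ 2 ≤ 1 / 256 := by
    intro x ⟨ha, hb⟩
    have h1 : -(1 / 16) ≤ x := by linarith
    have h2 : x ≤ 1 / 16 := by linarith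
    nlinarith
  have k0 := key _ h0
  have k1 := key _ h1
  have k2 := key _ h2
  have k3 := key _ h3
  linarith

theorem st_LOWA (hBL : ST_BL) (hCHK : ST_CHK) (hCRD : ST_CRD) (hOL : ST_OL) (hMIN : ST_MIN)
    (hHIGH : ST_HIGH) (hCENT : ST_CENT) (hBOX : ST_BOX) (hINV : ST_INV) (hOUT : ST_OUT)
    (hOT : ST_OT) (hHZ : ST_HZ) : ST_LOWA := by
  intro p hT hD hh
  obtain ⟨z0, z1, z2, z3, m0, m1, m2, m3, he, hzE⟩ := hBOX p hD
  have hp : 0 < hgt p := hT.1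
  have hpi : (0 : ℝ) ≤ 4 * Real.pi ^ 2 := by positivity
  set F : ℝ → ENNReal := fun x => ENNReal.ofReal (muP 1 2 1 (1 / x) * psi (1 / x)) with hF
  have hFM : ∀ x : ℝ, 1 / (23829 / 10000) ≤ x → ENNReal.ofReal (4 * Real.pi ^ 2 * phL x) ≤ F x :=
    fun x hx => ENNReal.ofReal_le_ofReal (hMIN x hx).2
  change _ ≤ ∑' w : Orb MO, F (uval w p)
  by_cases hY : 512 * (hgt p + ‖p.2 0 - zc z0 z1 z2 z3‖ ^ 2) ≤ 1220
  · obtain ⟨g, hg, hTq, hgq, h2q, i1, i2, i3⟩ := hCENT p hT (p.2 0 * star (zc z0 z1 z2 z3))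
    rw [← hINV F g hg p hT.1]
    set q := act g p with hq
    have heq : eC z0 z1 z2 z3 q = eC z0 z1 z2 z3 p := by unfold eC; rw [h2q]
    have hqh : 0 < hgt q := by rw [hgq]; exact hp
    rcases hBL z0 m0 z1 m1 z2 m2 z3 m3 with ⟨W, t, hW⟩ | hout
    · obtain ⟨a0, b0⟩ := lowa_zs m0
      obtain ⟨a1, b1⟩ := lowa_zs m1
      obtain ⟨a2, b2⟩ := lowa_zs m2
      obtain ⟨a3, b3⟩ := lowa_z3 m3
      obtain ⟨hnd, hok, hconc⟩ := hCHK z0 z1 z2 z3 W t b0 b1 b2 b3 a0 a1 a2 a3 hW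
      obtain ⟨cH, cQ⟩ := hCRD z0 z1 z2 z3 q
      have hin : InL 0 128 0 128 0 128 0 128 0 708 0 1024 0 1024 0 1024 (eC z0 z1 z2 z3 q)
          (uC z0 z1 z2 z3 q) := by
        rw [heq]
        refine ⟨?_, ?_, ?_, ?_, ⟨?_, ?_⟩, ⟨?_, ?_⟩, ⟨?_, ?_⟩, ⟨?_, ?_⟩⟩
        · exact_mod_cast he 0
        · exact_mod_cast he 1
        · exact_mod_cast he 2
        · exact_mod_cast he 3
        · change ((0 : ℕ) : ℝ) ≤ 1220 - 512 * (hgt q + ‖q.2 0 - zc z0 z1 z2 z3‖ ^ 2)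
          rw [hgq, h2q]
          push_cast
          linarith
        · change 1220 - 512 * (hgt q + ‖q.2 0 - zc z0 z1 z2 z3‖ ^ 2) ≤ ((708 : ℕ) : ℝ)
          rw [hgq, h2q]
          push_cast
          nlinarith [sq_nonneg ‖p.2 0 - zc z0 z1 z2 z3‖]
        · change ((0 : ℕ) : ℝ) ≤ 1024 * (q.1 + q.2 0 * star (zc z0 z1 z2 z3)).imI
          rw [h2q]
          push_cast
          linarith [i1.1]
        · change 1024 * (q.1 + q.2 0 * star (zc z0 z1 z2 z3)).imI ≤ ((1024 : ℕ) : ℝ)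
          rw [h2q]
          push_cast
          linarith [i1.2]
        · change ((0 : ℕ) : ℝ) ≤ 1024 * (q.1 + q.2 0 * star (zc z0 z1 z2 z3)).imJ
          rw [h2q]
          push_cast
          linarith [i2.1]
        · change 1024 * (q.1 + q.2 0 * star (zc z0 z1 z2 z3)).imJ ≤ ((1024 : ℕ) : ℝ)
          rw [h2q]
          push_cast
          linarith [i2.2]
        · change ((0 : ℕ) : ℝ) ≤ 1024 * (q.1 + q.2 0 * star (zc z0 z1 z2 z3)).imK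
          rw [h2q]
          push_cast
          linarith [i3.1]
        · change 1024 * (q.1 + q.2 0 * star (zc z0 z1 z2 z3)).imK ≤ ((1024 : ℕ) : ℝ)
          rw [h2q]
          push_cast
          linarith [i3.2]
      have huv : ∀ c ∈ W, Qv (cD z0 z1 z2 z3 c) (cK z0 z1 z2 z3 c) (eC z0 z1 z2 z3 q)
          (uC z0 z1 z2 z3 q) / HH (eC z0 z1 z2 z3 q) (uC z0 z1 z2 z3 q) = uval (wv c) q := by
        intro c hc
        rw [cQ c (hok c hc), cH]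
        unfold uval
        rw [mul_div_mul_left _ _ (by norm_num)]
      have hinf : 2 ^ 30 / HH (eC z0 z1 z2 z3 q) (uC z0 z1 z2 z3 q) = 1 / hgt q := by
        rw [cH]
        field_simp
      have hge : ∀ c ∈ W, 1 / hgt q ≤ uval (wv c) q := fun c hc =>
        hTq.2 _ (lowa_orb hHZ hOT (hok c hc))
      have h238 : 1 / (23829 / 10000) ≤ 1 / hgt q := by
        rw [hgq]
        refine one_div_le_one_div_of_le hp ?_
        nlinarith [sq_nonneg ‖p.2 0 - zc z0 z1 z2 z3‖]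
      have hc := hconc _ _ hin (by rw [heq, hzE]; exact hD) (by rw [cH]; positivity) (by
        intro c hc
        rw [cQ c (hok c hc)]
        have h1 := hge c hc
        unfold uval at h1
        rw [div_le_div_iff_of_pos_right hqh] at h1
        nlinarith)
      rw [hinf, List.map_congr_left (fun c hc => by rw [huv c hc] :
        ∀ c ∈ W, phL (Qv (cD z0 z1 z2 z3 c) (cK z0 z1 z2 z3 c) (eC z0 z1 z2 z3 q)
          (uC z0 z1 z2 z3 q) / HH (eC z0 z1 z2 z3 q) (uC z0 z1 z2 z3 q)) =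
          phL (uval (wv c) q))] at hc
      refine le_trans ?_ (hOL F q hTq.1 W hnd hok)
      rw [ENNReal.ofReal_mul (by norm_num : (0 : ℝ) ≤ 24)]
      have e24 : ENNReal.ofReal 24 = 24 := by norm_num
      rw [e24]
      refine mul_le_mul_right ?_ 24
      refine (ENNReal.ofReal_le_ofReal (mul_le_mul_of_nonneg_left hc hpi)).trans ?_
      rw [mul_add]
      refine ENNReal.ofReal_add_le.trans (add_le_add ?_ ?_)
      · exact hFM _ h238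
      · refine lowa_sum (f := fun c => phL (uval (wv c) q))
          (g := fun c => muP 1 2 1 (1 / uval (wv c) q) * psi (1 / uval (wv c) q)) ?_ _ ?_
        · intro c hc
          have := hMIN _ (h238.trans (hge c hc))
          exact le_trans (mul_nonneg hpi this.1) this.2
        · intro c hc
          exact (hMIN _ (h238.trans (hge c hc))).2
    · exfalso
      have h0 := hOUT z0 z1 z2 z3 0 128 0 128 0 128 0 128 hout (eC z0 z1 z2 z3 p)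
        (by exact_mod_cast he 0) (by exact_mod_cast he 1) (by exact_mod_cast he 2)
        (by exact_mod_cast he 3)
      rw [hzE] at h0
      exact h0 hD
  · push Not at hY
    have h1 := lowa_eta z0 z1 z2 z3 p he
    have h2 : 2367 / 1000 ≤ hgt p := by linarith
    have h3 := hOL F p hT.1 [] List.nodup_nil (fun c hc => absurd hc List.not_mem_nil)
    refine le_trans ?_ h3
    simp only [List.map_nil, List.sum_nil, add_zero]
    rw [ENNReal.ofReal_mul (by norm_num : (0 : ℝ) ≤ 24)]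
    have e24 : ENNReal.ofReal 24 = 24 := by norm_num
    rw [e24]
    refine mul_le_mul_right ?_ 24
    refine ENNReal.ofReal_le_ofReal ?_
    rw [one_div_one_div]
    exact hHIGH _ h2

end Pool.Agent.Helper10.Qc
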