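import Pool.Agent.Helper10.Qc.Stmts

set_option autoImplicit false

namespace Pool.Agent.Helper10.Qc

open Pool.Agent.Helper19.Qh Pool.Agent.Helper19.Qc

theorem mkp_subK {ofs p n : ℕ} {f : ℕ → ℕ} (h : subK ofs p n f ≠ 0) :
    n ≤ p + ofs ∧ subK ofs p n f = f (p + ofs - n) := by
  have e : subK ofs p n f = cond (Nat.ble n (p + ofs)) (f (p + ofs - n)) 0 := rfl
  cases hb : Nat.ble n (p + ofs) with
  | true => exact ⟨Nat.le_of_ble_eq_true hb, by rw [e, hb]; rfl⟩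
  | false => exfalso; apply h; rw [e, hb]; rfl

theorem mkp_df (x o : ℕ) : ((Nat.mul (df x o) (df x o) : ℕ) : ℝ) = ((x : ℝ) - o) ^ 2 := by
  have e : Nat.mul (df x o) (df x o) = ((x - o) + (o - x)) * ((x - o) + (o - x)) := rfl
  rw [e]
  rcases le_total x o with h | h
  · have h1 : x - o = 0 := by omega
    rw [h1]; push_cast [Nat.cast_sub h]; ring
  · have h1 : o - x = 0 := by omega
    rw [h1]; push_cast [Nat.cast_sub h]; ring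

theorem mkp_s4 (a b c d : ℕ) : ((s4 a b c d : ℕ) : ℝ) = (a : ℝ) + b + (c + d) ∨
    ((s4 a b c d : ℕ) : ℝ) = (a : ℝ) + b + c + d := by
  right
  have e : s4 a b c d = (a + b) + (c + d) := rfl
  rw [e]; push_cast; ring

theorem mkp_s4' (a b c d : ℕ) : ((s4 a b c d : ℕ) : ℝ) = (a : ℝ) + b + c + d := by
  have e : s4 a b c d = (a + b) + (c + d) := rfl
  rw [e]; push_cast; ring

theorem mkp_nsq (x0 x1 x2 x3 o : ℕ) : ((nsq x0 x1 x2 x3 o : ℕ) : ℝ) =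
    ((x0 : ℝ) - o) ^ 2 + ((x1 : ℝ) - o) ^ 2 + ((x2 : ℝ) - o) ^ 2 + ((x3 : ℝ) - o) ^ 2 := by
  unfold nsq
  rw [mkp_s4', mkp_df, mkp_df, mkp_df, mkp_df]

theorem mkp_qp (x y o p : ℕ) : ((qp x y o p : ℕ) : ℝ) = (x : ℝ) * y + o * p := by
  have e : qp x y o p = x * y + o * p := rfl
  rw [e]; push_cast; ring

theorem mkp_qn (x y o p : ℕ) : ((qn x y o p : ℕ) : ℝ) = (o : ℝ) * y + p * x := by
  have e : qn x y o p = o * y + p * x := rfl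
  rw [e]; push_cast; ring

theorem mkp_3 {d0 d1 d2 d3 k0 k1 k2 k3 : ℕ} (h : mkP3 d0 d1 d2 d3 k0 k1 k2 k3 ≠ 0) :
    ∃ q0 q1 q2 q3 : ℕ, mkP3 d0 d1 d2 d3 k0 k1 k2 k3 =
      pack (nsq d0 d1 d2 d3 64) d0 d1 d2 d3 k0 k1 k2 k3 q0 q1 q2 q3 (nsq k0 k1 k2 k3 262144) ∧
    (q0 : ℝ) = mu ![(k0 : ℝ) - 262144, (k1 : ℝ) - 262144, (k2 : ℝ) - 262144, (k3 : ℝ) - 262144]
      ![(d0 : ℝ) - 64, (d1 : ℝ) - 64, (d2 : ℝ) - 64, (d3 : ℝ) - 64] 0 + 67108864 ∧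
    (q1 : ℝ) = mu ![(k0 : ℝ) - 262144, (k1 : ℝ) - 262144, (k2 : ℝ) - 262144, (k3 : ℝ) - 262144]
      ![(d0 : ℝ) - 64, (d1 : ℝ) - 64, (d2 : ℝ) - 64, (d3 : ℝ) - 64] 1 + 67108864 ∧
    (q2 : ℝ) = mu ![(k0 : ℝ) - 262144, (k1 : ℝ) - 262144, (k2 : ℝ) - 262144, (k3 : ℝ) - 262144]
      ![(d0 : ℝ) - 64, (d1 : ℝ) - 64, (d2 : ℝ) - 64, (d3 : ℝ) - 64] 2 + 67108864 ∧
    (q3 : ℝ) = mu ![(k0 : ℝ) - 262144, (k1 : ℝ) - 262144, (k2 : ℝ) - 262144, (k3 : ℝ) - 262144]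
      ![(d0 : ℝ) - 64, (d1 : ℝ) - 64, (d2 : ℝ) - 64, (d3 : ℝ) - 64] 3 + 67108864 := by
  unfold mkP3 at h ⊢
  obtain ⟨a0, b0⟩ := mkp_subK h
  rw [b0] at h ⊢
  obtain ⟨a1, b1⟩ := mkp_subK h
  rw [b1] at h ⊢
  obtain ⟨a2, b2⟩ := mkp_subK h
  rw [b2] at h ⊢
  obtain ⟨a3, b3⟩ := mkp_subK h
  rw [b3] at h ⊢
  refine ⟨_, _, _, _, rfl, ?_, ?_, ?_, ?_⟩
  · rw [Nat.cast_sub a0]
    unfold mp0 mn0
    push_cast
    rw [mkp_s4', mkp_s4']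
    simp only [mkp_qp, mkp_qn, mu, Matrix.cons_val_zero, Matrix.cons_val_one, Matrix.cons_val]
    push_cast
    ring
  · rw [Nat.cast_sub a1]
    unfold mp1 mn1
    push_cast
    rw [mkp_s4', mkp_s4']
    simp only [mkp_qp, mkp_qn, mu, Matrix.cons_val_zero, Matrix.cons_val_one, Matrix.cons_val]
    push_cast
    ring
  · rw [Nat.cast_sub a2]
    unfold mp2 mn2
    push_cast
    rw [mkp_s4', mkp_s4']
    simp only [mkp_qp, mkp_qn, mu, Matrix.cons_val_zero, Matrix.cons_val_one, Matrix.cons_val]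
    push_cast
    ring
  · rw [Nat.cast_sub a3]
    unfold mp3 mn3
    push_cast
    rw [mkp_s4', mkp_s4']
    simp only [mkp_qp, mkp_qn, mu, Matrix.cons_val_zero, Matrix.cons_val_one, Matrix.cons_val]
    push_cast
    ring

theorem mkp_bnd {x0 x1 x2 x3 B : ℕ} (h : bnd x0 x1 x2 x3 B = true) :
    x0 ≤ B ∧ x1 ≤ B ∧ x2 ≤ B ∧ x3 ≤ B := by
  unfold bnd at h
  cases h0 : Nat.ble x0 B with
  | false => rw [h0] at h; exact absurd h (by simp)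
  | true =>
    cases h1 : Nat.ble x1 B with
    | false => rw [h0, h1] at h; exact absurd h (by simp)
    | true =>
      cases h2 : Nat.ble x2 B with
      | false => rw [h0, h1, h2] at h; exact absurd h (by simp)
      | true =>
        rw [h0, h1, h2] at h
        simp only [cond_true] at h
        exact ⟨Nat.le_of_ble_eq_true h0, Nat.le_of_ble_eq_true h1, Nat.le_of_ble_eq_true h2,
          Nat.le_of_ble_eq_true h⟩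

theorem mkp_subK2 {ofs p n : ℕ} {f : ℕ → ℕ} (h : subK ofs p n f ≠ 0) :
    ∃ k : ℕ, subK ofs p n f = f k ∧ (k : ℝ) = (p : ℝ) + ofs - n := by
  obtain ⟨a, b⟩ := mkp_subK h
  refine ⟨p + ofs - n, b, ?_⟩
  rw [Nat.cast_sub a]; push_cast; ring

theorem mkp_add (a b : ℕ) : ((Nat.add a b : ℕ) : ℝ) = (a : ℝ) + b := by
  have e : Nat.add a b = a + b := rfl
  rw [e]; push_cast; ring

theorem mkp_mul (a b : ℕ) : ((Nat.mul a b : ℕ) : ℝ) = (a : ℝ) * b := by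
  have e : Nat.mul a b = a * b := rfl
  rw [e]; push_cast; ring

theorem mkp_2 {zz x0 x1 x2 x3 d0 d1 d2 d3 n a1 a2 a3 : ℕ}
    (h : mkP2 zz x0 x1 x2 x3 d0 d1 d2 d3 n a1 a2 a3 ≠ 0) :
    ∃ k0 k1 k2 k3 : ℕ, mkP2 zz x0 x1 x2 x3 d0 d1 d2 d3 n a1 a2 a3 = mkP3 d0 d1 d2 d3 k0 k1 k2 k3 ∧
    (k0 ≤ 524287 ∧ k1 ≤ 524287 ∧ k2 ≤ 524287 ∧ k3 ≤ 524287) ∧
    (k0 : ℝ) = 128 * ms ![(x0 : ℝ) - 8, (x1 : ℝ) - 8, (x2 : ℝ) - 8, (x3 : ℝ) - 8]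
      ![(d0 : ℝ) - 64, (d1 : ℝ) - 64, (d2 : ℝ) - 64, (d3 : ℝ) - 64] 0 + 64 * zz - 16384 * n - 39040
      + 262144 ∧
    (k1 : ℝ) = 128 * ms ![(x0 : ℝ) - 8, (x1 : ℝ) - 8, (x2 : ℝ) - 8, (x3 : ℝ) - 8]
      ![(d0 : ℝ) - 64, (d1 : ℝ) - 64, (d2 : ℝ) - 64, (d3 : ℝ) - 64] 1 - 16384 * ((a1 : ℝ) - 16)
      + 262144 ∧
    (k2 : ℝ) = 128 * ms ![(x0 : ℝ) - 8, (x1 : ℝ) - 8, (x2 : ℝ) - 8, (x3 : ℝ) - 8]
      ![(d0 : ℝ) - 64, (d1 : ℝ) - 64, (d2 : ℝ) - 64, (d3 : ℝ) - 64] 2 - 16384 * ((a2 : ℝ) - 16)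
      + 262144 ∧
    (k3 : ℝ) = 128 * ms ![(x0 : ℝ) - 8, (x1 : ℝ) - 8, (x2 : ℝ) - 8, (x3 : ℝ) - 8]
      ![(d0 : ℝ) - 64, (d1 : ℝ) - 64, (d2 : ℝ) - 64, (d3 : ℝ) - 64] 3 - 16384 * ((a3 : ℝ) - 16)
      + 262144 := by
  unfold mkP2 at h ⊢
  obtain ⟨k0, b0, e0⟩ := mkp_subK2 h
  rw [b0] at h ⊢
  obtain ⟨k1, b1, e1⟩ := mkp_subK2 h
  rw [b1] at h ⊢
  obtain ⟨k2, b2, e2⟩ := mkp_subK2 h
  rw [b2] at h ⊢
  obtain ⟨k3, b3, e3⟩ := mkp_subK2 h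
  rw [b3] at h ⊢
  clear b0 b1 b2 b3
  beta_reduce at h ⊢
  have hb : bnd k0 k1 k2 k3 524287 = true := by
    by_contra hb
    apply h
    rw [Bool.not_eq_true] at hb
    rw [hb]
    exact cond_false _ _
  rw [hb, cond_true]
  · refine ⟨k0, k1, k2, k3, rfl, mkp_bnd hb, ?_, ?_, ?_, ?_⟩
    · rw [e0]
      unfold cp0 cn0
      simp only [mkp_add, mkp_mul, mkp_s4', mkp_qp, mkp_qn, ms, Matrix.cons_val_zero,
        Matrix.cons_val_one, Matrix.cons_val]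
      push_cast
      ring
    · rw [e1]
      unfold cp1 cn1
      simp only [mkp_add, mkp_mul, mkp_s4', mkp_qp, mkp_qn, ms, Matrix.cons_val_zero,
        Matrix.cons_val_one, Matrix.cons_val]
      push_cast
      ring
    · rw [e2]
      unfold cp2 cn2
      simp only [mkp_add, mkp_mul, mkp_s4', mkp_qp, mkp_qn, ms, Matrix.cons_val_zero,
        Matrix.cons_val_one, Matrix.cons_val]
      push_cast
      ring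
    · rw [e3]
      unfold cp3 cn3
      simp only [mkp_add, mkp_mul, mkp_s4', mkp_qp, mkp_qn, ms, Matrix.cons_val_zero,
        Matrix.cons_val_one, Matrix.cons_val]
      push_cast
      ring

theorem mkp_d32 (S i : ℕ) : d32 S i < 32 := by
  have e : d32 S i = (Nat.shiftRight S (Nat.mul 5 i)) % 32 := rfl
  rw [e]; exact Nat.mod_lt _ (by norm_num)

/-- bound of a product -/
theorem mkp_ab {x y A B : ℝ} (hx : |x| ≤ A) (hy : |y| ≤ B) : |x * y| ≤ A * B := by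
  rw [abs_mul]
  exact mul_le_mul hx hy (abs_nonneg _) ((abs_nonneg _).trans hx)

theorem mkp_1 {z0 z1 z2 z3 b0 b1 b2 b3 n a1 a2 a3 : ℕ} (hz0 : z0 ≤ 15) (hz1 : z1 ≤ 15)
    (hz2 : z2 ≤ 15) (hz3 : z3 ≤ 15) (h0 : 1 ≤ z0) (h1 : 1 ≤ z1) (h2 : 1 ≤ z2) (h3 : 1 ≤ z3)
    (hb0 : b0 < 32) (hb1 : b1 < 32) (hb2 : b2 < 32) (hb3 : b3 < 32)
    (h : mkP1 z0 z1 z2 z3 b0 b1 b2 b3 n a1 a2 a3 ≠ 0) :
    parOK b0 b1 b2 b3 n a1 a2 a3 = true ∧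
    ∃ (n2 d0 d1 d2 d3 k0 k1 k2 k3 q0 q1 q2 q3 kk : ℕ),
    mkP1 z0 z1 z2 z3 b0 b1 b2 b3 n a1 a2 a3 = pack n2 d0 d1 d2 d3 k0 k1 k2 k3 q0 q1 q2 q3 kk ∧
    (n2 < 2 ^ 38 ∧ d0 < 2 ^ 38 ∧ d1 < 2 ^ 38 ∧ d2 < 2 ^ 38 ∧ d3 < 2 ^ 38 ∧ k0 < 2 ^ 38 ∧
      k1 < 2 ^ 38 ∧ k2 < 2 ^ 38 ∧ k3 < 2 ^ 38 ∧ q0 < 2 ^ 38 ∧ q1 < 2 ^ 38 ∧ q2 < 2 ^ 38 ∧
      q3 < 2 ^ 38 ∧ kk ≤ 2 ^ 38) ∧
    ∃ D K : Fin 4 → ℝ,
    D = ![8 * ((b0 : ℝ) - 8) - ((z0 : ℝ) - 8), 8 * ((b1 : ℝ) - 8) - ((z1 : ℝ) - 8),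
      8 * ((b2 : ℝ) - 8) - ((z2 : ℝ) - 8), 8 * ((b3 : ℝ) - 8) - ((z3 : ℝ) - 8)] ∧
    K = ![128 * ms ![(z0 : ℝ) - 8 - 1, (z1 : ℝ) - 8 - 1, (z2 : ℝ) - 8 - 1, (z3 : ℝ) - 8 - 1] D 0 +
        64 * (((z0 : ℝ) - 8) ^ 2 + ((z1 : ℝ) - 8) ^ 2 + ((z2 : ℝ) - 8) ^ 2 + ((z3 : ℝ) - 8) ^ 2) -
        16384 * (n : ℝ) - 39040,
      128 * ms ![(z0 : ℝ) - 8 - 1, (z1 : ℝ) - 8 - 1, (z2 : ℝ) - 8 - 1, (z3 : ℝ) - 8 - 1] D 1 -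
        16384 * ((a1 : ℝ) - 16),
      128 * ms ![(z0 : ℝ) - 8 - 1, (z1 : ℝ) - 8 - 1, (z2 : ℝ) - 8 - 1, (z3 : ℝ) - 8 - 1] D 2 -
        16384 * ((a2 : ℝ) - 16),
      128 * ms ![(z0 : ℝ) - 8 - 1, (z1 : ℝ) - 8 - 1, (z2 : ℝ) - 8 - 1, (z3 : ℝ) - 8 - 1] D 3 -
        16384 * ((a3 : ℝ) - 16)] ∧
    (n2 : ℝ) = dt D D ∧
    ((d0 : ℝ) = D 0 + 64 ∧ (d1 : ℝ) = D 1 + 64 ∧ (d2 : ℝ) = D 2 + 64 ∧ (d3 : ℝ) = D 3 + 64) ∧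
    ((k0 : ℝ) = K 0 + 262144 ∧ (k1 : ℝ) = K 1 + 262144 ∧ (k2 : ℝ) = K 2 + 262144 ∧
      (k3 : ℝ) = K 3 + 262144) ∧
    ((q0 : ℝ) = mu K D 0 + 67108864 ∧ (q1 : ℝ) = mu K D 1 + 67108864 ∧
      (q2 : ℝ) = mu K D 2 + 67108864 ∧ (q3 : ℝ) = mu K D 3 + 67108864) ∧
    (kk : ℝ) = dt K K := by
  unfold mkP1 at h ⊢
  cases hp : parOK b0 b1 b2 b3 n a1 a2 a3 with
  | false => exfalso; apply h; rw [hp]; rfl
  | true =>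
  refine ⟨rfl, ?_⟩
  rw [hp] at h
  rw [cond_true] at h ⊢
  obtain ⟨d0, g0, e0⟩ := mkp_subK2 h
  rw [g0] at h ⊢
  obtain ⟨d1, g1, e1⟩ := mkp_subK2 h
  rw [g1] at h ⊢
  obtain ⟨d2, g2, e2⟩ := mkp_subK2 h
  rw [g2] at h ⊢
  obtain ⟨d3, g3, e3⟩ := mkp_subK2 h
  rw [g3] at h ⊢
  clear g0 g1 g2 g3
  beta_reduce at h ⊢
  rw [mkp_mul] at e0 e1 e2 e3
  obtain ⟨k0, k1, k2, k3, f1, ⟨hk0, hk1, hk2, hk3⟩, f2, f3, f4, f5⟩ := mkp_2 h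
  rw [f1] at h ⊢
  obtain ⟨q0, q1, q2, q3, g1, g2, g3, g4, g5⟩ := mkp_3 h
  rw [g1]
  have hx : ∀ z : ℕ, 1 ≤ z → ((Nat.sub z 1 : ℕ) : ℝ) = (z : ℝ) - 1 := by
    intro z hz
    have e : Nat.sub z 1 = z - 1 := rfl
    rw [e, Nat.cast_sub hz]; push_cast; ring
  rw [hx z0 h0, hx z1 h1, hx z2 h2, hx z3 h3] at f2 f3 f4 f5
  rw [mkp_nsq] at f2
  set D : Fin 4 → ℝ := ![8 * ((b0 : ℝ) - 8) - ((z0 : ℝ) - 8), 8 * ((b1 : ℝ) - 8) - ((z1 : ℝ) - 8),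
      8 * ((b2 : ℝ) - 8) - ((z2 : ℝ) - 8), 8 * ((b3 : ℝ) - 8) - ((z3 : ℝ) - 8)] with hD
  have D0 : (d0 : ℝ) = D 0 + 64 := by rw [e0, hD]; simp; ring
  have D1 : (d1 : ℝ) = D 1 + 64 := by rw [e1, hD]; simp; ring
  have D2 : (d2 : ℝ) = D 2 + 64 := by rw [e2, hD]; simp; ring
  have D3 : (d3 : ℝ) = D 3 + 64 := by rw [e3, hD]; simp; ring
  set K : Fin 4 → ℝ := ![128 * ms ![(z0 : ℝ) - 8 - 1, (z1 : ℝ) - 8 - 1, (z2 : ℝ) - 8 - 1, (z3 : ℝ) - 8 - 1] D 0 +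
        64 * (((z0 : ℝ) - 8) ^ 2 + ((z1 : ℝ) - 8) ^ 2 + ((z2 : ℝ) - 8) ^ 2 + ((z3 : ℝ) - 8) ^ 2) -
        16384 * (n : ℝ) - 39040,
      128 * ms ![(z0 : ℝ) - 8 - 1, (z1 : ℝ) - 8 - 1, (z2 : ℝ) - 8 - 1, (z3 : ℝ) - 8 - 1] D 1 -
        16384 * ((a1 : ℝ) - 16),
      128 * ms ![(z0 : ℝ) - 8 - 1, (z1 : ℝ) - 8 - 1, (z2 : ℝ) - 8 - 1, (z3 : ℝ) - 8 - 1] D 2 -
        16384 * ((a2 : ℝ) - 16),
      128 * ms ![(z0 : ℝ) - 8 - 1, (z1 : ℝ) - 8 - 1, (z2 : ℝ) - 8 - 1, (z3 : ℝ) - 8 - 1] D 3 -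
        16384 * ((a3 : ℝ) - 16)] with hK
  have K0 : (k0 : ℝ) = K 0 + 262144 := by
    rw [f2, hK]
    simp only [ms, Matrix.cons_val_zero, Matrix.cons_val_one, Matrix.cons_val]
    rw [D0, D1, D2, D3]; push_cast; ring
  have K1 : (k1 : ℝ) = K 1 + 262144 := by
    rw [f3, hK]
    simp only [ms, Matrix.cons_val_zero, Matrix.cons_val_one, Matrix.cons_val]
    rw [D0, D1, D2, D3]; push_cast; ring
  have K2 : (k2 : ℝ) = K 2 + 262144 := by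
    rw [f4, hK]
    simp only [ms, Matrix.cons_val_zero, Matrix.cons_val_one, Matrix.cons_val]
    rw [D0, D1, D2, D3]; push_cast; ring
  have K3 : (k3 : ℝ) = K 3 + 262144 := by
    rw [f5, hK]
    simp only [ms, Matrix.cons_val_zero, Matrix.cons_val_one, Matrix.cons_val]
    rw [D0, D1, D2, D3]; push_cast; ring
  have hDv : (![(d0 : ℝ) - 64, (d1 : ℝ) - 64, (d2 : ℝ) - 64, (d3 : ℝ) - 64] : Fin 4 → ℝ) = D := by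
    funext i
    fin_cases i
    · simp [D0]
    · simp [D1]
    · simp [D2]
    · simp [D3]
  have hKv : (![(k0 : ℝ) - 262144, (k1 : ℝ) - 262144, (k2 : ℝ) - 262144, (k3 : ℝ) - 262144] :
      Fin 4 → ℝ) = K := by
    funext i
    fin_cases i
    · simp [K0]
    · simp [K1]
    · simp [K2]
    · simp [K3]
  rw [hDv, hKv] at g2 g3 g4 g5
  have N2 : ((nsq d0 d1 d2 d3 64 : ℕ) : ℝ) = dt D D := by
    rw [mkp_nsq, D0, D1, D2, D3]; unfold dt; push_cast; ring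
  have KK : ((nsq k0 k1 k2 k3 262144 : ℕ) : ℝ) = dt K K := by
    rw [mkp_nsq, K0, K1, K2, K3]; unfold dt; push_cast; ring
  -- bounds
  have cz : ∀ z : ℕ, 1 ≤ z → z ≤ 15 → (1 : ℝ) ≤ z ∧ (z : ℝ) ≤ 15 := by
    intro z c1 c2; exact ⟨by exact_mod_cast c1, by exact_mod_cast c2⟩
  have cb : ∀ b : ℕ, b < 32 → (0 : ℝ) ≤ b ∧ (b : ℝ) ≤ 31 := by
    intro b c1; exact ⟨Nat.cast_nonneg b, by exact_mod_cast (by omega : b ≤ 31)⟩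
  have hDb : ∀ b z : ℕ, b < 32 → 1 ≤ z → z ≤ 15 → ∀ d : ℕ,
      (d : ℝ) = 8 * ((b : ℝ) - 8) - ((z : ℝ) - 8) + 64 → 0 ≤ d ∧ (d : ℝ) ≤ 256 ∧
      |8 * ((b : ℝ) - 8) - ((z : ℝ) - 8)| ≤ 200 := by
    intro b z c1 c2 c3 d hd
    obtain ⟨u1, u2⟩ := cz z c2 c3
    obtain ⟨v1, v2⟩ := cb b c1
    have hd0 : (0 : ℝ) ≤ d := Nat.cast_nonneg d
    refine ⟨Nat.zero_le d, by linarith, ?_⟩
    rw [abs_le]; constructor <;> linarith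
  have A0 := hDb b0 z0 hb0 h0 hz0 d0 (by rw [D0, hD]; simp)
  have A1 := hDb b1 z1 hb1 h1 hz1 d1 (by rw [D1, hD]; simp)
  have A2 := hDb b2 z2 hb2 h2 hz2 d2 (by rw [D2, hD]; simp)
  have A3 := hDb b3 z3 hb3 h3 hz3 d3 (by rw [D3, hD]; simp)
  have B0 : |D 0| ≤ 200 := by rw [hD]; simpa using A0.2.2
  have B1 : |D 1| ≤ 200 := by rw [hD]; simpa using A1.2.2
  have B2 : |D 2| ≤ 200 := by rw [hD]; simpa using A2.2.2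
  have B3 : |D 3| ≤ 200 := by rw [hD]; simpa using A3.2.2
  have hKb : ∀ (k : ℕ) (x : ℝ), k ≤ 524287 → (k : ℝ) = x + 262144 → |x| ≤ 262144 := by
    intro k x c1 c2
    have c3 : (k : ℝ) ≤ 524287 := by exact_mod_cast c1
    have c4 : (0 : ℝ) ≤ k := Nat.cast_nonneg k
    rw [abs_le]; constructor <;> linarith
  have C0 := hKb k0 (K 0) hk0 K0
  have C1 := hKb k1 (K 1) hk1 K1
  have C2 := hKb k2 (K 2) hk2 K2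
  have C3 := hKb k3 (K 3) hk3 K3
  have sm : ∀ d : ℕ, (d : ℝ) < 2 ^ 38 → d < 2 ^ 38 := by
    intro d c; exact_mod_cast c
  have smle : ∀ d : ℕ, (d : ℝ) ≤ 2 ^ 38 → d ≤ 2 ^ 38 := by
    intro d c; exact_mod_cast c
  have hsq : ∀ (x B : ℝ), |x| ≤ B → x ^ 2 ≤ B ^ 2 := by
    intro x B c
    exact sq_le_sq' (abs_le.1 c).1 (abs_le.1 c).2
  have Q : ∀ i j : Fin 4, -(262144 * 200) ≤ K i * D j ∧ K i * D j ≤ 262144 * 200 := by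
    intro i j
    have hKi : |K i| ≤ 262144 := by fin_cases i <;> assumption
    have hDj : |D j| ≤ 200 := by fin_cases j <;> assumption
    have := mkp_ab hKi hDj
    exact abs_le.1 this
  refine ⟨_, d0, d1, d2, d3, k0, k1, k2, k3, q0, q1, q2, q3, _, rfl, ⟨?_, ?_, ?_, ?_, ?_, ?_, ?_,
    ?_, ?_, ?_, ?_, ?_, ?_, ?_⟩, D, K, rfl, rfl, N2, ⟨D0, D1, D2, D3⟩, ⟨K0, K1, K2, K3⟩,
    ⟨g2, g3, g4, g5⟩, KK⟩
  · apply sm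
    rw [N2]
    have e : dt D D = D 0 ^ 2 + D 1 ^ 2 + D 2 ^ 2 + D 3 ^ 2 := by unfold dt; ring
    rw [e]
    have t0 := hsq _ _ B0
    have t1 := hsq _ _ B1
    have t2 := hsq _ _ B2
    have t3 := hsq _ _ B3
    linarith only [t0, t1, t2, t3]
  · apply sm; linarith [A0.2.1]
  · apply sm; linarith [A1.2.1]
  · apply sm; linarith [A2.2.1]
  · apply sm; linarith [A3.2.1]
  · apply lt_of_le_of_lt hk0; norm_num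
  · apply lt_of_le_of_lt hk1; norm_num
  · apply lt_of_le_of_lt hk2; norm_num
  · apply lt_of_le_of_lt hk3; norm_num
  · apply sm
    have em : mu K D 0 = K 0 * D 0 - K 1 * D 1 - K 2 * D 2 - K 3 * D 3 := rfl
    rw [g2, em]
    linarith only [(Q 0 0).1, (Q 0 0).2, (Q 1 1).1, (Q 1 1).2, (Q 2 2).1, (Q 2 2).2, (Q 3 3).1,
      (Q 3 3).2]
  · apply sm
    have em : mu K D 1 = K 0 * D 1 + K 1 * D 0 + K 2 * D 3 - K 3 * D 2 := rfl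
    rw [g3, em]
    linarith only [(Q 0 1).1, (Q 0 1).2, (Q 1 0).1, (Q 1 0).2, (Q 2 3).1, (Q 2 3).2, (Q 3 2).1,
      (Q 3 2).2]
  · apply sm
    have em : mu K D 2 = K 0 * D 2 - K 1 * D 3 + K 2 * D 0 + K 3 * D 1 := rfl
    rw [g4, em]
    linarith only [(Q 0 2).1, (Q 0 2).2, (Q 1 3).1, (Q 1 3).2, (Q 2 0).1, (Q 2 0).2, (Q 3 1).1,
      (Q 3 1).2]
  · apply sm
    have em : mu K D 3 = K 0 * D 3 + K 1 * D 2 - K 2 * D 1 + K 3 * D 0 := rfl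
    rw [g5, em]
    linarith only [(Q 0 3).1, (Q 0 3).2, (Q 1 2).1, (Q 1 2).2, (Q 2 1).1, (Q 2 1).2, (Q 3 0).1,
      (Q 3 0).2]
  · apply smle
    rw [KK]
    have e : dt K K = K 0 ^ 2 + K 1 ^ 2 + K 2 ^ 2 + K 3 ^ 2 := by unfold dt; ring
    rw [e]
    have t0 := hsq _ _ C0
    have t1 := hsq _ _ C1
    have t2 := hsq _ _ C2
    have t3 := hsq _ _ C3
    linarith only [t0, t1, t2, t3]

theorem st_MKP : ST_MKP := by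
  intro z0 z1 z2 z3 c hz0 hz1 hz2 hz3 h0 h1 h2 h3 h hc
  unfold mkP at h ⊢
  obtain ⟨hp, n2, d0, d1, d2, d3, k0, k1, k2, k3, q0, q1, q2, q3, kk, e1, e2, D, K, hD, hK, e3,
    e4, e5, e6, e7⟩ := mkp_1 hz0 hz1 hz2 hz3 h0 h1 h2 h3 (mkp_d32 c 0) (mkp_d32 c 1)
      (mkp_d32 c 2) (mkp_d32 c 3) h
  have hcD : cD z0 z1 z2 z3 c = D := by
    rw [hD]
    funext i
    fin_cases i
    · simp [cD, cB, zZ]
    · simp [cD, cB, zZ]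
    · simp [cD, cB, zZ]
    · simp [cD, cB, zZ]
  have hcK : cK z0 z1 z2 z3 c = K := by
    rw [hK]
    unfold cK
    rw [hcD]
    have hN : (cN c : ℝ) = (Nat.div (nsq (d32 c 0) (d32 c 1) (d32 c 2) (d32 c 3) 8) 4 : ℕ) := rfl
    have hZ : (fun i => zZ z0 z1 z2 z3 i - 1) =
        ![(z0 : ℝ) - 8 - 1, (z1 : ℝ) - 8 - 1, (z2 : ℝ) - 8 - 1, (z3 : ℝ) - 8 - 1] := by
      funext i
      fin_cases i <;> simp [zZ]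
    simp only []
    rw [hZ, hN]
    funext i
    fin_cases i
    · simp [zZ]
    · simp [cA]
    · simp [cA]
    · simp [cA]
  refine ⟨⟨by norm_num; exact hc, hp⟩, n2, d0, d1, d2, d3, k0, k1, k2, k3, q0, q1, q2, q3, kk,
    e1, e2, ?_, ?_, ?_, ?_, ?_⟩
  · rw [hcD]; exact e3
  · rw [hcD]; exact e4
  · rw [hcK]; exact e5
  · rw [hcK, hcD]; exact e6
  · rw [hcK]; exact e7

end Pool.Agent.Helper10.Qc
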