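import Pool.Agent.Helper10.Qc.Stmts

set_option autoImplicit false

/-! # Module UPA : the upper bound for reduced points -/

namespace Pool.Agent.Helper10.Qc

open MeasureTheory
open Pool.Agent.Helper19.Qh Pool.Agent.Helper19.Qc

theorem upa_psi_nonneg (n : ℕ) (x : ℝ) : 0 ≤ Psi n x := by
  unfold Psi
  split
  · exact le_trans (sq_nonneg _) (le_max_left _ _)
  · split
    · exact sq_nonneg _
    · rename_i h
      push Not at h
      have h1 : 0 < 2 * x - 1 := by linarith
      have h2 : 0 < 6 * x - 1 := by linarith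
      positivity
  · exact sq_nonneg _

/-- the bound for a position -/
noncomputable def upa_G (h : ℝ) (ζ : Q) (n : ℕ) (β : Q) : ENNReal :=
  ENNReal.ofReal (Psi n (Bv n h ζ β) / h ^ 2)

theorem upa_sum (h : ℝ) (ζ : Q) (l : List ℕ) :
    (l.map fun c => upa_G h ζ (d32 c 0) (bet c)).sum =
      ENNReal.ofReal ((l.map fun c => Psi (d32 c 0) (Bv (d32 c 0) h ζ (bet c))).sum / h ^ 2) := by
  induction l with
  | nil => simp
  | cons c l ih =>
    simp only [List.map_cons, List.sum_cons]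
    rw [ih, add_div, ENNReal.ofReal_add]
    · rfl
    · exact div_nonneg (upa_psi_nonneg _ _) (sq_nonneg _)
    · refine div_nonneg (List.sum_nonneg ?_) (sq_nonneg _)
      intro x hx
      rw [List.mem_map] at hx
      obtain ⟨c, -, rfl⟩ := hx
      exact upa_psi_nonneg _ _

theorem upa_zero {n : ℕ} (h0 : Monotone (Psi n)) (h1 : Psi n 0 = 0) {h : ℝ} {ζ β : Q}
    (hB : Bv n h ζ β ≤ 0) : upa_G h ζ n β = 0 := by
  unfold upa_G
  refine ENNReal.ofReal_of_nonpos (div_nonpos_of_nonpos_of_nonneg ?_ (sq_nonneg _))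
  rw [← h1]
  exact h0 hB

theorem upa_inf {h : ℝ} (hh : 0 < h) : F5 (1 / h) = ENNReal.ofReal (Psi 3 (5 / 4 * h - 1) / h ^ 2) := by
  unfold F5
  congr 1
  have e : Psi 3 (5 / 4 * h - 1) = (max (5 / 4 * h - 1) 0) ^ 2 := rfl
  rw [e, ← div_pow]
  congr 1
  rcases le_total (5 / 4 * h - 1) 0 with h1 | h1
  · rw [max_eq_right h1, zero_div]
    refine max_eq_right ?_
    rw [sub_nonpos, le_div_iff₀ hh]
    linarith
  · rw [max_eq_left h1]
    have h2 : 0 ≤ 5 / 4 - 1 / h := by
      rw [sub_nonneg, div_le_iff₀ hh]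
      linarith
    rw [max_eq_left h2]
    field_simp

theorem st_UPA (hDEC : ST_DEC) (hFIB1 : ST_FIB1) (hFIB2 : ST_FIB2) (hFIB3 : ST_FIB3) (hN4 : ST_N4)
    (hLST : ST_LST) (hFAR : ST_FAR) (hUB : ST_UB) (hBU : ST_BU) (hBOX : ST_BOX) (hOUT : ST_OUT)
    (hDN : ST_DN) (hPS1 : ST_PS1) (hPS2 : ST_PS2) (hPS3 : ST_PS3) (hPI : ST_PI) (hFG : ST_FG) :
    ST_UPA := by
  intro p hT hD hR hh
  have hp : 0 < hgt p := hT.1
  have hpS : p ∈ SD 1 := hT.1
  have e0 : ∀ w : Orb MO, ENNReal.ofReal (psi (1 / uval (w : V 1) p)) = F5 (uval (w : V 1) p) := by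
    intro w
    unfold psi F5
    rw [one_div_one_div]
  rw [tsum_congr e0]
  refine (hDEC p hpS hh).trans ?_
  set T : Fin 7 → ENNReal := fun i => ∑' b : HO, ∑' a : FibA i (b : Q),
    F5 (uval (((a : Q), e1 (b : Q), rho i) : V 1) p) with hTd
  have hTs : ∑ i : Fin 7, T i = T 0 + T 1 + T 2 + T 3 + T 4 + T 5 + T 6 := by
    rw [Fin.sum_univ_seven]
  change 24 * (F5 (1 / hgt p) + ∑ i : Fin 7, T i) ≤ _
  have e24 : ENNReal.ofReal 24 = 24 := by norm_num
  rcases le_or_gt (hgt p) 5 with h5 | h5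
  · set G := upa_G (hgt p) (p.2 0) with hG
    have t0 : T 0 ≤ ∑' b : HO, G 1 b := by
      refine ENNReal.tsum_le_tsum fun b => ?_
      have := hFIB1 p hpS b b.2
      exact this
    have t1 : T 1 ≤ ∑' b : HO, G 2 b := by
      set f : HO → ENNReal := fun b => ∑' a : FibA 1 (b : Q),
        F5 (uval (((a : Q), e1 (b : Q), rho 1) : V 1) p) with hf
      have hr1 : rho 1 ∈ HO := by
        have := ((hPI (rho 1 * 1)).2 ⟨1, HO.one_mem, rfl⟩).1
        rwa [mul_one] at this
      set k : HO → HO := fun b => ⟨rho 1 * b, HO.mul_mem hr1 b.2⟩ with hk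
      have hr0 : rho 1 ≠ 0 := by
        intro h
        have h2 : (rho 1).re = (1 : ℝ) := rfl
        rw [h, Quaternion.re_zero] at h2
        exact zero_ne_one h2
      have hki : Function.Injective k := by
        intro b b' hbb
        have h1 : rho 1 * (b : Q) = rho 1 * (b' : Q) := congrArg Subtype.val hbb
        exact Subtype.ext (mul_left_cancel₀ hr0 h1)
      have hsup : Function.support f ⊆ Set.range k := by
        intro b hb
        by_contra hcon
        apply hb
        have hne : ¬ EvN (b : Q) := by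
          intro hE
          obtain ⟨q, hq, hbq⟩ := (hPI (b : Q)).1 ⟨b.2, hE⟩
          exact hcon ⟨⟨q, hq⟩, Subtype.ext hbq.symm⟩
        have he := (hFIB2 p hpS b b.2).2 hne
        rw [hf]
        change ∑' a : FibA 1 (b : Q), F5 (uval (((a : Q), e1 (b : Q), rho 1) : V 1) p) = 0
        rw [ENNReal.tsum_eq_zero]
        rintro ⟨a, ha⟩
        rw [he] at ha
        exact absurd ha (Set.notMem_empty _)
      have hT1 : T 1 = ∑' b : HO, f (k b) := (hki.tsum_eq hsup).symm
      rw [hT1]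
      refine ENNReal.tsum_le_tsum fun b => ?_
      exact (hFIB2 p hpS b b.2).1
    have t3 : ∀ i : Fin 7, 2 ≤ i → i ≤ 5 → T i ≤ ∑' b : HO, G 3 ((rho i)⁻¹ * b) := by
      intro i hi2 hi5
      refine ENNReal.tsum_le_tsum fun b => ?_
      exact hFIB3 p hpS hh b b.2 i hi2 hi5
    have t6 : T 6 ≤ ENNReal.ofReal (1 / (16 * hgt p ^ 2)) := hN4 p hpS hh
    have hz := hDN _ hD
    have hl := hLST G (fun β hβ => upa_zero hPS1.1 hPS1.2.2.1 ((hFAR _ _ β hh hz).1 hβ))
      (fun β hβ => upa_zero hPS2.1 hPS2.2.2.1 ((hFAR _ _ β hh hz).2.1 hβ))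
      (fun β hβ => upa_zero (hPS3 3 (by norm_num) (by norm_num)).2.1
        (hPS3 3 (by norm_num) (by norm_num)).2.2.2.1 ((hFAR _ _ β hh hz).2.2 hβ))
    rw [hG, upa_sum] at hl
    obtain ⟨z0, z1, z2, z3, m0, m1, m2, m3, he, hzE⟩ := hBOX p hD
    have hfin : Psi 3 (5 / 4 * hgt p - 1) +
        (WU.map fun c => Psi (d32 c 0) (Bv (d32 c 0) (hgt p) (p.2 0) (bet c))).sum ≤
          505 / 100 * hgt p ^ 2 := by
      have key : ∀ z ∈ [9, 11, 13, 15], z ≤ 15 := by
        intro z h
        simp only [List.mem_cons, List.not_mem_nil, or_false] at h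
        omega
      have key3 : ∀ z ∈ [1, 3, 5, 7, 9, 11, 13, 15], z ≤ 15 := by
        intro z h
        simp only [List.mem_cons, List.not_mem_nil, or_false] at h
        omega
      rcases hBU z0 m0 z1 m1 z2 m2 z3 m3 with ⟨t, ht⟩ | hout
      · exact hUB z0 z1 z2 z3 t (key _ m0) (key _ m1) (key _ m2) (key3 _ m3) ht (hgt p) (p.2 0)
          hh h5 hD hR ⟨_, he, hzE⟩
      · exfalso
        have h0 := hOUT z0 z1 z2 z3 0 128 0 128 0 128 0 128 hout (eC z0 z1 z2 z3 p)
          (by exact_mod_cast he 0) (by exact_mod_cast he 1) (by exact_mod_cast he 2)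
          (by exact_mod_cast he 3)
        rw [hzE] at h0
        exact h0 hD
    set A := (WU.map fun c => Psi (d32 c 0) (Bv (d32 c 0) (hgt p) (p.2 0) (bet c))).sum with hA
    have hA0 : 0 ≤ A := by
      rw [hA]
      refine List.sum_nonneg ?_
      intro x hx
      rw [List.mem_map] at hx
      obtain ⟨c, -, rfl⟩ := hx
      exact upa_psi_nonneg _ _
    have hsum : T 0 + T 1 + T 2 + T 3 + T 4 + T 5 ≤ ENNReal.ofReal (A / hgt p ^ 2) := by
      rw [← hl]
      refine add_le_add (add_le_add (add_le_add (add_le_add (add_le_add t0 t1) ?_) ?_) ?_) ?_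
      · exact t3 2 (by decide) (by decide)
      · exact t3 3 (by decide) (by decide)
      · exact t3 4 (by decide) (by decide)
      · exact t3 5 (by decide) (by decide)
    have hh2 : 0 < hgt p ^ 2 := by positivity
    have htot : F5 (1 / hgt p) + ∑ i : Fin 7, T i ≤ ENNReal.ofReal (5113 / 1000 - 1 / 2000) := by
      rw [hTs, upa_inf hp]
      refine (add_le_add_right (add_le_add hsum t6) _).trans ?_
      rw [← ENNReal.ofReal_add (by positivity) (by positivity),
        ← ENNReal.ofReal_add (div_nonneg (upa_psi_nonneg _ _) (sq_nonneg _)) (by positivity)]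
      refine ENNReal.ofReal_le_ofReal ?_
      have e1 : Psi 3 (5 / 4 * hgt p - 1) / hgt p ^ 2 + A / hgt p ^ 2 ≤ 505 / 100 := by
        rw [← add_div, div_le_iff₀ hh2]
        exact hfin
      have e2 : 1 / (16 * hgt p ^ 2) ≤ 1 / 16 := by
        refine one_div_le_one_div_of_le (by norm_num) ?_
        nlinarith
      linarith
    refine (mul_le_mul_right htot 24).trans ?_
    rw [← e24, ← ENNReal.ofReal_mul (by norm_num)]
    refine ENNReal.ofReal_le_ofReal ?_
    norm_num
  · have hz : ∑ i : Fin 7, T i = 0 := by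
      refine Finset.sum_eq_zero fun i _ => ?_
      rw [hTd]
      change ∑' b : HO, ∑' a : FibA i (b : Q),
        F5 (uval (((a : Q), e1 (b : Q), rho i) : V 1) p) = 0
      rw [ENNReal.tsum_eq_zero]
      intro b
      rw [ENNReal.tsum_eq_zero]
      rintro ⟨a, ha⟩
      have h1 := hFG p i b a ha.2.1
      have h2 : (rN i : ℝ) * (hgt p + ‖p.2 0 - (rho i)⁻¹ * b‖ ^ 2) ^ 2 / 4 ≤
          ‖herm (vec p) ((a, e1 (b : Q), rho i) : V 1)‖ ^ 2 := by
        have := sq_nonneg ‖herm (vec p) ((a, e1 (b : Q), rho i) : V 1) +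
          ((hgt p + ‖p.2 0 - (rho i)⁻¹ * b‖ ^ 2) / 2) • star (rho i)‖
        linarith
      have h3 : (1 : ℝ) ≤ rN i := by
        have : 1 ≤ rN i := by fin_cases i <;> decide
        exact_mod_cast this
      have h4 : hgt p ^ 2 ≤ (hgt p + ‖p.2 0 - (rho i)⁻¹ * b‖ ^ 2) ^ 2 := by
        have := sq_nonneg ‖p.2 0 - (rho i)⁻¹ * b‖
        nlinarith
      have h5' : 5 / 4 ≤ uval ((a, e1 (b : Q), rho i) : V 1) p := by
        unfold uval
        rw [le_div_iff₀ hp]
        nlinarith [sq_nonneg (hgt p)]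
      unfold F5
      rw [max_eq_right (by linarith)]
      simp
    rw [hz, add_zero]
    have h1 : F5 (1 / hgt p) ≤ ENNReal.ofReal ((5 / 4) ^ 2) := by
      unfold F5
      refine ENNReal.ofReal_le_ofReal ?_
      refine pow_le_pow_left₀ (le_max_right _ _) ?_ 2
      refine max_le ?_ (by norm_num)
      have : 0 < 1 / hgt p := by positivity
      linarith
    refine (mul_le_mul_right h1 24).trans ?_
    rw [← e24, ← ENNReal.ofReal_mul (by norm_num)]
    refine ENNReal.ofReal_le_ofReal ?_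
    norm_num

end Pool.Agent.Helper10.Qc
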