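import Pool.Agent.Helper10.Qc.Stmts

set_option autoImplicit false

/-! # Module WTS : the weights -/

namespace Pool.Agent.Helper10.Qc

open MeasureTheory
open Pool.Agent.Helper19.Qh Pool.Agent.Helper19.Qc

theorem st_WTS (hLOWA : ST_LOWA) (hUPA : ST_UPA) (hRED : ST_RED) (hINV : ST_INV) (hH1 : ST_H1)
    (hH2 : ST_H2) (hHG1 : ST_HG1) (hDN : ST_DN) : ST_WTS := by
  have red : ∀ p ∈ SD 1, ∃ g ∈ Gam MO, Top (act g p) ∧ Dom ((act g p).2 0) ∧
      RedI (hgt (act g p)) ((act g p).2 0) ∧ 1 ≤ hgt (act g p) := by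
    intro p hp
    obtain ⟨g, hg, hT, hD⟩ := hRED p hp
    have hn := hDN _ hD
    have hR : RedI (hgt (act g p)) ((act g p).2 0) := ⟨hH1 _ hT hn, hH2 _ hT hD⟩
    exact ⟨g, hg, hT, hD, hR, hHG1 _ _ hT.1 hn hR⟩
  refine ⟨?_, ?_, by norm_num, ?_, ?_⟩
  · unfold psi
    fun_prop
  · intro r
    exact sq_nonneg _
  · intro p hp
    obtain ⟨g, hg, hT, hD, hR, h1⟩ := red p hp
    have := hINV (fun x => ENNReal.ofReal (psi (1 / x))) g hg p hp
    rw [← this]
    exact hUPA _ hT hD hR h1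
  · refine ae_hyp_mem.mono fun p hp => ?_
    obtain ⟨g, hg, hT, hD, hR, h1⟩ := red p hp
    have := hINV (fun x => ENNReal.ofReal (muP 1 2 1 (1 / x) * psi (1 / x))) g hg p hp
    rw [← this]
    refine le_trans (ENNReal.ofReal_le_ofReal ?_) (hLOWA _ hT hD h1)
    have hpi := Real.pi_gt_d6
    nlinarith [hpi, Real.pi_pos]

end Pool.Agent.Helper10.Qc
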