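import Pool.Agent.Helper12.Qc.PS1
import Pool.Agent.Helper12.Qc.PS2
import Pool.Agent.Helper13.Qc.DIAG
import Pool.Agent.Helper13.Qc.FOLD
import Pool.Agent.Helper15.Qc.LST
import Pool.Agent.Helper19.QcM.HG1
import Pool.Agent.Helper19.QcM.HZ
import Pool.Agent.Helper19.QcM.INV
import Pool.Agent.Helper2.Qc.LEAF
import Pool.Agent.Helper24.Qc.FIN
import Pool.Agent.Helper25.Qc.OL
import Pool.Agent.Helper30.Qc.REP
import Pool.Agent.Helper31.Qc.FIB1
import Pool.Agent.Helper31.Qc.GRAM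
import Pool.Agent.Helper10.Qc.MKP
import Pool.Agent.Helper41.Qc.C123
import Pool.Agent.Helper49.Qc.FG
import Pool.Agent.Helper49.Qc.FIB3
import Pool.Agent.Helper49.Qc.HLOW
import Pool.Agent.Helper49.Qc.MIN
import Pool.Agent.Helper5.Qc.CENT
import Pool.Agent.Helper5.Qc.COL
import Pool.Agent.Helper5.Qc.DIG
import Pool.Agent.Helper5.Qc.FAR
import Pool.Agent.Helper5.Qc.MKT
import Pool.Agent.Helper5.Qc.OM
import Pool.Agent.Helper5.Qc.OUT
import Pool.Agent.Helper5.Qc.PI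
import Pool.Agent.Helper5.Qc.PS3
import Pool.Agent.Helper51.Qc.UF
import Pool.Agent.Helper52.Qc.CRD
import Pool.Agent.Helper53.Qc.H2
import Pool.Agent.Helper58.Qc.UT
import Pool.Agent.Helper63.Qc.UNI
import Pool.Agent.Helper68.Qc.CONJ
import Pool.Agent.Helper71.Qc.FB
import Pool.Agent.Helper72.Qc.BOX
import Pool.Agent.Helper75.Qc.DOMR
import Pool.Agent.Helper77.Qc.UO
import Pool.Agent.Helper81.Qc.SUMAB
import Pool.Agent.Helper81.Qc.TAB
import Pool.Agent.Helper81.Qc.UB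
import Pool.Agent.Helper82.Qc.CHK
import Pool.Agent.Helper83.Qc.UL
import Pool.Agent.Helper85.Qc.F1
import Pool.Agent.Helper92.Qc.FIB2
import Pool.Agent.Helper92.Qc.N4
import Pool.Agent.Helper92.Qc.RED
import Pool.Agent.Helper94.Qc.H1
import Pool.Agent.Helper95.Qc.DEC
import Pool.Agent.Helper10.Qc.BL
import Pool.Agent.Helper10.Qc.BU
import Pool.Agent.Helper10.Qc.LOWA
import Pool.Agent.Helper10.Qc.UPA
import Pool.Agent.Helper10.Qc.WTS

set_option autoImplicit false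

/-! # Assembly: the weights of the lattice `O³` -/

namespace Pool.Agent.Helper10.Qc

open Pool.Agent.Helper19.Qh Pool.Agent.Helper19.Qc

theorem all_ou : ST_OU := st_OU st_DIAG

theorem all_uni : ST_UNI := st_UNI st_HZ

theorem all_red : ST_RED := st_RED (st_DOMR st_HZ all_uni st_CONJ) st_DIAG st_TOPI

theorem all_leaf : ST_LEAF := Pool.Agent.Helper2.Qc.st_LEAF st_MKP st_MKT st_SUMA st_SUMB st_DIG
  st_FIN st_TAB

theorem all_chk : ST_CHK := st_CHK st_OUT all_leaf st_MKP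

theorem all_lowa : ST_LOWA := st_LOWA st_BL all_chk st_CRD (st_OL all_uni all_ou st_OT st_HZ)
  st_MIN st_HIGH (st_CENT st_TOPI) st_BOX st_INV st_OUT st_OT st_HZ

theorem all_fg : ST_FG := st_FG st_HLOW

theorem all_c1 : ST_C1 := st_C1 st_GRAM st_S1

theorem all_fib2 : ST_FIB2 := st_FIB2 all_fg (st_C3 st_GRAM st_S1) (st_COL st_HZ) st_HZ

theorem all_dec : ST_DEC := st_DEC all_uni (st_REP st_HZ) st_OM all_ou st_OP st_O0 st_HLOW
  (st_PI st_HZ) all_fib2

theorem all_ut : ST_UT := st_UT (st_UL st_PS1 st_PS2 st_PS3) (st_UF st_PS1 st_PS2 st_PS3)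
  (st_UO st_OUT)

theorem all_upa : ST_UPA := st_UPA all_dec (st_FIB1 all_fg (st_F1 st_FOLD st_FB
  (st_C2 st_GRAM st_S1))) all_fib2 (st_FIB3 all_fg all_c1) (st_N4 all_fg all_c1 (st_COL st_HZ))
  (st_LST st_HZ) st_FAR (st_UB all_ut) st_BU st_BOX st_OUT st_DN st_PS1 st_PS2 st_PS3
  (st_PI st_HZ) all_fg

/-- the weights -/
theorem wts_O : Wts MO 2 1 psi (1227 / 10) 25 := st_WTS all_lowa all_upa all_red st_INV
  (st_H1 all_uni st_OT st_HZ) (st_H2 st_OT st_HZ) st_HG1 st_DN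

end Pool.Agent.Helper10.Qc
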