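import Mathlib.Data.Nat.Notation

set_option autoImplicit false

/-!
# Certificate for the lower bound (computation)

All functions of this file are evaluated by the kernel, on natural numbers.  Integers are coded by
adding an offset, or as differences of two natural numbers.
-/

namespace Pool.Agent.Helper10.Qc

/-- positive part of `(x - o) (y - p)` -/
def qp (x y o p : ℕ) : ℕ := Nat.add (Nat.mul x y) (Nat.mul o p)

/-- negative part of `(x - o) (y - p)` -/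
def qn (x y o p : ℕ) : ℕ := Nat.add (Nat.mul o y) (Nat.mul p x)

/-- sum of four numbers -/
def s4 (a b c d : ℕ) : ℕ := Nat.add (Nat.add a b) (Nat.add c d)

/-- distance of two natural numbers -/
def df (p n : ℕ) : ℕ := Nat.add (Nat.sub p n) (Nat.sub n p)

/-! components of `(x - o) * star (y - p)`: positive parts `cp`, negative parts `cn` -/

def cp0 (x0 x1 x2 x3 y0 y1 y2 y3 o p : ℕ) : ℕ :=
  s4 (qp x0 y0 o p) (qp x1 y1 o p) (qp x2 y2 o p) (qp x3 y3 o p)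
def cn0 (x0 x1 x2 x3 y0 y1 y2 y3 o p : ℕ) : ℕ :=
  s4 (qn x0 y0 o p) (qn x1 y1 o p) (qn x2 y2 o p) (qn x3 y3 o p)
def cp1 (x0 x1 x2 x3 y0 y1 y2 y3 o p : ℕ) : ℕ :=
  s4 (qn x0 y1 o p) (qp x1 y0 o p) (qn x2 y3 o p) (qp x3 y2 o p)
def cn1 (x0 x1 x2 x3 y0 y1 y2 y3 o p : ℕ) : ℕ :=
  s4 (qp x0 y1 o p) (qn x1 y0 o p) (qp x2 y3 o p) (qn x3 y2 o p)
def cp2 (x0 x1 x2 x3 y0 y1 y2 y3 o p : ℕ) : ℕ :=
  s4 (qn x0 y2 o p) (qp x2 y0 o p) (qn x3 y1 o p) (qp x1 y3 o p)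
def cn2 (x0 x1 x2 x3 y0 y1 y2 y3 o p : ℕ) : ℕ :=
  s4 (qp x0 y2 o p) (qn x2 y0 o p) (qp x3 y1 o p) (qn x1 y3 o p)
def cp3 (x0 x1 x2 x3 y0 y1 y2 y3 o p : ℕ) : ℕ :=
  s4 (qn x0 y3 o p) (qp x3 y0 o p) (qn x1 y2 o p) (qp x2 y1 o p)
def cn3 (x0 x1 x2 x3 y0 y1 y2 y3 o p : ℕ) : ℕ :=
  s4 (qp x0 y3 o p) (qn x3 y0 o p) (qp x1 y2 o p) (qn x2 y1 o p)

/-! components of `(x - o) * (y - p)`: positive parts `mp`, negative parts `mn` -/

def mp0 (x0 x1 x2 x3 y0 y1 y2 y3 o p : ℕ) : ℕ :=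
  s4 (qp x0 y0 o p) (qn x1 y1 o p) (qn x2 y2 o p) (qn x3 y3 o p)
def mn0 (x0 x1 x2 x3 y0 y1 y2 y3 o p : ℕ) : ℕ :=
  s4 (qn x0 y0 o p) (qp x1 y1 o p) (qp x2 y2 o p) (qp x3 y3 o p)
def mp1 (x0 x1 x2 x3 y0 y1 y2 y3 o p : ℕ) : ℕ :=
  s4 (qp x0 y1 o p) (qp x1 y0 o p) (qp x2 y3 o p) (qn x3 y2 o p)
def mn1 (x0 x1 x2 x3 y0 y1 y2 y3 o p : ℕ) : ℕ :=
  s4 (qn x0 y1 o p) (qn x1 y0 o p) (qn x2 y3 o p) (qp x3 y2 o p)
def mp2 (x0 x1 x2 x3 y0 y1 y2 y3 o p : ℕ) : ℕ :=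
  s4 (qp x0 y2 o p) (qn x1 y3 o p) (qp x2 y0 o p) (qp x3 y1 o p)
def mn2 (x0 x1 x2 x3 y0 y1 y2 y3 o p : ℕ) : ℕ :=
  s4 (qn x0 y2 o p) (qp x1 y3 o p) (qn x2 y0 o p) (qn x3 y1 o p)
def mp3 (x0 x1 x2 x3 y0 y1 y2 y3 o p : ℕ) : ℕ :=
  s4 (qp x0 y3 o p) (qp x1 y2 o p) (qn x2 y1 o p) (qp x3 y0 o p)
def mn3 (x0 x1 x2 x3 y0 y1 y2 y3 o p : ℕ) : ℕ :=
  s4 (qn x0 y3 o p) (qn x1 y2 o p) (qp x2 y1 o p) (qn x3 y0 o p)

/-- the digit number `i` in base `2 ^ 80` -/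
def dig (S i : ℕ) : ℕ := Nat.mod (Nat.shiftRight S (Nat.mul 80 i)) (Nat.pow 2 80)

/-- the digit number `i` in base `2 ^ 1200` -/
def big (S i : ℕ) : ℕ := Nat.mod (Nat.shiftRight S (Nat.mul 1200 i)) (Nat.pow 2 1200)

/-- the digit number `i` in base `32` -/
def d32 (S i : ℕ) : ℕ := Nat.mod (Nat.shiftRight S (Nat.mul 5 i)) 32

def cons80 (d h : ℕ) : ℕ := Nat.add d (Nat.mul (Nat.pow 2 80) h)

/-- pack 15 coefficients -/
def pack (n2 d0 d1 d2 d3 k0 k1 k2 k3 q0 q1 q2 q3 kk : ℕ) : ℕ :=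
  cons80 1 (cons80 n2 (cons80 d0 (cons80 d1 (cons80 d2 (cons80 d3 (cons80 k0 (cons80 k1
    (cons80 k2 (cons80 k3 (cons80 q0 (cons80 q1 (cons80 q2 (cons80 q3 kk)))))))))))))

/-- `p - n` plus offset, checked -/
def subK (ofs p n : ℕ) (f : ℕ → ℕ) : ℕ :=
  cond (Nat.ble n (Nat.add p ofs)) (f (Nat.sub (Nat.add p ofs) n)) 0

/-- squared norm of `x - o` -/
def nsq (x0 x1 x2 x3 o : ℕ) : ℕ :=
  s4 (Nat.mul (df x0 o) (df x0 o)) (Nat.mul (df x1 o) (df x1 o)) (Nat.mul (df x2 o) (df x2 o))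
    (Nat.mul (df x3 o) (df x3 o))

/-- four bounds -/
def bnd (x0 x1 x2 x3 B : ℕ) : Bool :=
  cond (Nat.ble x0 B) (cond (Nat.ble x1 B) (cond (Nat.ble x2 B) (Nat.ble x3 B) false) false) false

/-- third stage: multiply `k (offset 2^18)` by `d (offset 64)` and pack -/
def mkP3 (d0 d1 d2 d3 k0 k1 k2 k3 : ℕ) : ℕ :=
  subK 67108864 (mp0 k0 k1 k2 k3 d0 d1 d2 d3 262144 64) (mn0 k0 k1 k2 k3 d0 d1 d2 d3 262144 64)
    fun q0 =>
  subK 67108864 (mp1 k0 k1 k2 k3 d0 d1 d2 d3 262144 64) (mn1 k0 k1 k2 k3 d0 d1 d2 d3 262144 64)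
    fun q1 =>
  subK 67108864 (mp2 k0 k1 k2 k3 d0 d1 d2 d3 262144 64) (mn2 k0 k1 k2 k3 d0 d1 d2 d3 262144 64)
    fun q2 =>
  subK 67108864 (mp3 k0 k1 k2 k3 d0 d1 d2 d3 262144 64) (mn3 k0 k1 k2 k3 d0 d1 d2 d3 262144 64)
    fun q3 =>
  pack (nsq d0 d1 d2 d3 64) d0 d1 d2 d3 k0 k1 k2 k3 q0 q1 q2 q3 (nsq k0 k1 k2 k3 262144)

/-- second stage: `k = 64 |Z|^2 + 128 (Z - 1) d^* - 16384 (n, a) - 39040`, with
`x = Z - 1` (offset `8`), `a` (offset `16`), `zz = |Z|^2` -/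
def mkP2 (zz x0 x1 x2 x3 d0 d1 d2 d3 n a1 a2 a3 : ℕ) : ℕ :=
  subK 262144 (Nat.add (Nat.mul 64 zz) (Nat.mul 128 (cp0 x0 x1 x2 x3 d0 d1 d2 d3 8 64)))
    (Nat.add (Nat.add (Nat.mul 128 (cn0 x0 x1 x2 x3 d0 d1 d2 d3 8 64)) (Nat.mul 16384 n)) 39040)
    fun k0 =>
  subK 262144 (Nat.add 262144 (Nat.mul 128 (cp1 x0 x1 x2 x3 d0 d1 d2 d3 8 64)))
    (Nat.add (Nat.mul 128 (cn1 x0 x1 x2 x3 d0 d1 d2 d3 8 64)) (Nat.mul 16384 a1))
    fun k1 =>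
  subK 262144 (Nat.add 262144 (Nat.mul 128 (cp2 x0 x1 x2 x3 d0 d1 d2 d3 8 64)))
    (Nat.add (Nat.mul 128 (cn2 x0 x1 x2 x3 d0 d1 d2 d3 8 64)) (Nat.mul 16384 a2))
    fun k2 =>
  subK 262144 (Nat.add 262144 (Nat.mul 128 (cp3 x0 x1 x2 x3 d0 d1 d2 d3 8 64)))
    (Nat.add (Nat.mul 128 (cn3 x0 x1 x2 x3 d0 d1 d2 d3 8 64)) (Nat.mul 16384 a3))
    fun k3 =>
  cond (bnd k0 k1 k2 k3 524287) (mkP3 d0 d1 d2 d3 k0 k1 k2 k3) 0

/-- parity test of the code of a cusp vector: `b` all of the same parity, `4 n = |B|^2`,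
`a` of the parity of `n` -/
def parOK (b0 b1 b2 b3 n a1 a2 a3 : ℕ) : Bool :=
  cond (Nat.beq (Nat.mod (Nat.add b0 b1) 2) 0)
    (cond (Nat.beq (Nat.mod (Nat.add b0 b2) 2) 0)
      (cond (Nat.beq (Nat.mod (Nat.add b0 b3) 2) 0)
        (cond (Nat.beq (Nat.mul 4 n) (nsq b0 b1 b2 b3 8))
          (cond (Nat.beq (Nat.mod (Nat.add n a1) 2) 0)
            (cond (Nat.beq (Nat.mod (Nat.add n a2) 2) 0)
              (Nat.beq (Nat.mod (Nat.add n a3) 2) 0) false) false) false) false) false) false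

/-- first stage; `z = Z + 8`, `b = B + 8` -/
def mkP1 (z0 z1 z2 z3 b0 b1 b2 b3 n a1 a2 a3 : ℕ) : ℕ :=
  cond (parOK b0 b1 b2 b3 n a1 a2 a3)
    (subK 8 (Nat.mul 8 b0) z0 fun d0 =>
     subK 8 (Nat.mul 8 b1) z1 fun d1 =>
     subK 8 (Nat.mul 8 b2) z2 fun d2 =>
     subK 8 (Nat.mul 8 b3) z3 fun d3 =>
      mkP2 (nsq z0 z1 z2 z3 8) (Nat.sub z0 1) (Nat.sub z1 1) (Nat.sub z2 1) (Nat.sub z3 1)
        d0 d1 d2 d3 n a1 a2 a3) 0

/-- coefficients of the cusp vector with the given code -/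
def mkP (z0 z1 z2 z3 code : ℕ) : ℕ :=
  mkP1 z0 z1 z2 z3 (d32 code 0) (d32 code 1) (d32 code 2) (d32 code 3)
    (Nat.div (nsq (d32 code 0) (d32 code 1) (d32 code 2) (d32 code 3) 8) 4)
    (d32 code 4) (d32 code 5) (d32 code 6)

/-- table of the coefficients of a list of cusp vectors -/
def mkT (z0 z1 z2 z3 : ℕ) : List ℕ → ℕ
  | [] => 0
  | c :: l => Nat.add (mkP z0 z1 z2 z3 c) (Nat.mul (Nat.pow 2 1200) (mkT z0 z1 z2 z3 l))

/-- the codes are decreasing -/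
def decr : List ℕ → Bool
  | [] => true
  | c :: l => match l with
    | [] => true
    | d :: _ => cond (Nat.blt d c) (decr l) false

/-- the table of the tangents: `α_j + 2^32 I_j`, `j < 64`, in base `2 ^ 64` -/
def lin : ℕ := 2268225664452554634009774265596701774271182999863928020640022011453928181031302622545096876591676186917642772916433268983952824669598987172546004885501238783046664175785812102747348422973124470693393963966672543377803331560965395831667387353133263752697722073911987049327615092415442854730096470823612600170727134543902460272038876637928688519241736203444424726287309255666417843945324350448773555178802339321957147643718000926162940867458907316259737586060008006277500483223416456965288549833732982765651073053378557125717280379298908564285913079062457892582894598915803357940678251944318281069882552649948844148217115062368146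2557586321546245856043539061085875560471080143272161262340015350666072314099264857672146910753621916313823628713167641674020904714592010497707518685029518020105785250638716423457453857587878219662677704587735567562563872602671608135401943503126228173183659470261319121552509849153671389109621531786020669361116612239188319323145461233032778252420687892314445937467066115388225481671354349832607921903156999909630905293956093043753547724867496159154544597293617876861502509873578826752721366932485063261157202393233060043908776643951278923413951698633660031926706702997759867079462888911425266524356884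

def linA (j : ℕ) : ℕ := Nat.mod (Nat.shiftRight lin (Nat.mul 64 j)) 4294967296

def linI (j : ℕ) : ℕ :=
  Nat.mod (Nat.shiftRight lin (Nat.add (Nat.mul 64 j) 32)) 4294967296

/-- sum of the tangents: every entry of `code` (base `2 ^ 14`) is an index `w < m` of the table
`TT` and a number `j` of a tangent -/
def sumA (TT m : ℕ) : ℕ → ℕ → ℕ → ℕ → ℕ → (ℕ → ℕ → Bool) → Bool
  | 0, _, prev, K, S, f => cond (Nat.ble prev m) (f K S) false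
  | n + 1, code, prev, K, S, f =>
    (fun w j => cond (Nat.ble prev w)
      (sumA TT m n (Nat.shiftRight code 14) (Nat.succ w) (Nat.add K (linI j))
        (Nat.add S (Nat.mul (linA j) (big TT w))) f) false)
      (Nat.mod code 256) (Nat.mod (Nat.shiftRight code 8) 64)

/-- sum of the multiples `β (1 - val)`: entries in base `2 ^ 24` -/
def sumB (TT m : ℕ) : ℕ → ℕ → ℕ → ℕ → (ℕ → ℕ → Bool) → Bool
  | 0, _, b, S, f => f b S
  | n + 1, code, b, S, f =>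
    (fun w be => cond (Nat.blt w m) (sumB TT m n (Nat.shiftRight code 24) (Nat.add b be)
        (Nat.add S (Nat.mul be (big TT w))) f) false)
      (Nat.mod code 256) (Nat.mul 10000 (Nat.mod (Nat.shiftRight code 8) 65536))

/-- sum of products -/
def dot4 (x0 x1 x2 x3 y0 y1 y2 y3 : ℕ) : ℕ :=
  s4 (Nat.mul x0 y0) (Nat.mul x1 y1) (Nat.mul x2 y2) (Nat.mul x3 y3)

/-- final comparison -/
def fin5 (K b ai A C kk e0 e1 e2 e3 u0 u1 u2 u3 r0 r1 r2 r3 s0 s1 s2 s3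
    k0 k1 k2 k3 q0 q1 q2 q3 oK oQ tp0 tp1 tp2 tp3 tn0 tn1 tn2 tn3 wp0 wp1 wp2 wp3 wn0 wn1 wn2 wn3
    B0 B1 B2 B3 : ℕ) : Bool :=
  Nat.ble
    (Nat.add
      (s4
        (Nat.add (Nat.mul K (Nat.add (Nat.mul 1048576 u0) (Nat.mul 256 (dot4 e0 e1 e2 e3 e0 e1 e2 e3))))
          (Nat.mul 1073741824 ai))
        (Nat.add (Nat.mul (Nat.mul 256 A) (dot4 u0 u1 u2 u3 u0 u1 u2 u3))
          (Nat.mul C (dot4 e0 e1 e2 e3 e0 e1 e2 e3)))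
        (Nat.add kk (Nat.mul 32 (Nat.add (dot4 u0 u1 u2 u3 tp0 tp1 tp2 tp3)
          (dot4 u0 u1 u2 u3 k0 k1 k2 k3))))
        (Nat.mul 2 (dot4 e0 e1 e2 e3 q0 q1 q2 q3)))
      (s4
        (s4
          (Nat.mul s0 (df (Nat.mul 32 (Nat.add tn0 oK))
            (Nat.add (Nat.add (Nat.mul 1048576 K) (Nat.mul (Nat.mul 512 A) u0))
              (Nat.mul 32 (Nat.add tp0 k0)))))
          (Nat.mul s1 (df (Nat.mul 32 (Nat.add tn1 oK))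
            (Nat.add (Nat.mul (Nat.mul 512 A) u1) (Nat.mul 32 (Nat.add tp1 k1)))))
          (Nat.mul s2 (df (Nat.mul 32 (Nat.add tn2 oK))
            (Nat.add (Nat.mul (Nat.mul 512 A) u2) (Nat.mul 32 (Nat.add tp2 k2)))))
          (Nat.mul s3 (df (Nat.mul 32 (Nat.add tn3 oK))
            (Nat.add (Nat.mul (Nat.mul 512 A) u3) (Nat.mul 32 (Nat.add tp3 k3))))))
        (s4
          (Nat.mul r0 (df (Nat.add (Nat.mul 65536 K) (Nat.add (Nat.mul 32 wn0) (Nat.mul 2 oQ)))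
            (Nat.add (Nat.mul (Nat.add (Nat.mul 512 K) (Nat.mul 2 C)) e0)
              (Nat.add (Nat.mul 32 wp0) (Nat.mul 2 q0)))))
          (Nat.mul r1 (df (Nat.add (Nat.mul 65536 K) (Nat.add (Nat.mul 32 wn1) (Nat.mul 2 oQ)))
            (Nat.add (Nat.mul (Nat.add (Nat.mul 512 K) (Nat.mul 2 C)) e1)
              (Nat.add (Nat.mul 32 wp1) (Nat.mul 2 q1)))))
          (Nat.mul r2 (df (Nat.add (Nat.mul 65536 K) (Nat.add (Nat.mul 32 wn2) (Nat.mul 2 oQ)))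
            (Nat.add (Nat.mul (Nat.add (Nat.mul 512 K) (Nat.mul 2 C)) e2)
              (Nat.add (Nat.mul 32 wp2) (Nat.mul 2 q2)))))
          (Nat.mul r3 (df (Nat.add (Nat.mul 65536 K) (Nat.add (Nat.mul 32 wn3) (Nat.mul 2 oQ)))
            (Nat.add (Nat.mul (Nat.add (Nat.mul 512 K) (Nat.mul 2 C)) e3)
              (Nat.add (Nat.mul 32 wp3) (Nat.mul 2 q3))))))
        (Nat.add (Nat.mul (Nat.mul 256 A) (dot4 s0 s1 s2 s3 s0 s1 s2 s3))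
          (Nat.mul (Nat.add C (Nat.mul 256 K)) (dot4 r0 r1 r2 r3 r0 r1 r2 r3)))
        (Nat.mul 32 (dot4 s0 s1 s2 s3 (dot4 r0 r1 r2 r3 B0 B1 B2 B3) (dot4 r0 r1 r2 r3 B1 B0 B3 B2)
          (dot4 r0 r1 r2 r3 B2 B3 B0 B1) (dot4 r0 r1 r2 r3 B3 B2 B1 B0)))))
    (s4 (Nat.mul K (Nat.add 2541748224 (Nat.mul 65536 (s4 e0 e1 e2 e3))))
      (Nat.mul 1073741824 b)
      (Nat.mul 32 (Nat.add (dot4 u0 u1 u2 u3 tn0 tn1 tn2 tn3) (Nat.mul oK (s4 u0 u1 u2 u3))))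
      (Nat.mul 2 (Nat.mul oQ (s4 e0 e1 e2 e3))))

/-- computation of the products -/
def fin4 (K b ai A C kk e0 e1 e2 e3 u0 u1 u2 u3 r0 r1 r2 r3 s0 s1 s2 s3
    d0 d1 d2 d3 k0 k1 k2 k3 q0 q1 q2 q3 oD : ℕ) : Bool :=
  fin5 K b ai A C kk e0 e1 e2 e3 u0 u1 u2 u3 r0 r1 r2 r3 s0 s1 s2 s3 k0 k1 k2 k3 q0 q1 q2 q3
    (Nat.mul 262144 A) (Nat.mul 67108864 A)
    (cp0 e0 e1 e2 e3 d0 d1 d2 d3 0 oD) (cp1 e0 e1 e2 e3 d0 d1 d2 d3 0 oD)
    (cp2 e0 e1 e2 e3 d0 d1 d2 d3 0 oD) (cp3 e0 e1 e2 e3 d0 d1 d2 d3 0 oD)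
    (cn0 e0 e1 e2 e3 d0 d1 d2 d3 0 oD) (cn1 e0 e1 e2 e3 d0 d1 d2 d3 0 oD)
    (cn2 e0 e1 e2 e3 d0 d1 d2 d3 0 oD) (cn3 e0 e1 e2 e3 d0 d1 d2 d3 0 oD)
    (mp0 u0 u1 u2 u3 d0 d1 d2 d3 0 oD) (mp1 u0 u1 u2 u3 d0 d1 d2 d3 0 oD)
    (mp2 u0 u1 u2 u3 d0 d1 d2 d3 0 oD) (mp3 u0 u1 u2 u3 d0 d1 d2 d3 0 oD)
    (mn0 u0 u1 u2 u3 d0 d1 d2 d3 0 oD) (mn1 u0 u1 u2 u3 d0 d1 d2 d3 0 oD)
    (mn2 u0 u1 u2 u3 d0 d1 d2 d3 0 oD) (mn3 u0 u1 u2 u3 d0 d1 d2 d3 0 oD)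
    (df d0 oD) (df d1 oD) (df d2 oD) (df d3 oD)

/-- `10^6 τ` -/
def tau : ℕ := 3237600

/-- evaluation of the certificate on the box: `K` is the sum of the `I_j`, `S` the packed sum,
`b` the sum of the `β`, `ai` the slope of the tangent for the cusp at infinity -/
def fin3 (K b ai S l0 h0 l1 h1 l2 h2 l3 h3 l4 h4 l5 h5 l6 h6 l7 h7 : ℕ) : Bool :=
  cond (Nat.ble tau K)
    (cond (Nat.ble b 8589934591)
      (fin4 (Nat.sub K tau) b ai (dig S 0) (dig S 1) (dig S 14)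
        (Nat.add l0 h0) (Nat.add l1 h1) (Nat.add l2 h2) (Nat.add l3 h3)
        (Nat.add l4 h4) (Nat.add l5 h5) (Nat.add l6 h6) (Nat.add l7 h7)
        (Nat.sub h0 l0) (Nat.sub h1 l1) (Nat.sub h2 l2) (Nat.sub h3 l3)
        (Nat.sub h4 l4) (Nat.sub h5 l5) (Nat.sub h6 l6) (Nat.sub h7 l7)
        (dig S 2) (dig S 3) (dig S 4) (dig S 5) (dig S 6) (dig S 7) (dig S 8) (dig S 9)
        (dig S 10) (dig S 11) (dig S 12) (dig S 13) (Nat.mul 64 (dig S 0))) false) false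

/-- a leaf; `ji = 64` means that the cusp at infinity is not used -/
def leaf (TT m ji na ca nb cb l0 h0 l1 h1 l2 h2 l3 h3 l4 h4 l5 h5 l6 h6 l7 h7 : ℕ) : Bool :=
  cond (Nat.ble ji 64)
    (cond (Nat.ble na 255)
      (sumA TT m na ca 0 (linI ji) 0 fun K S => sumB TT m nb cb 0 S fun b S =>
        fin3 K b (linA ji) S l0 h0 l1 h1 l2 h2 l3 h3 l4 h4 l5 h5 l6 h6 l7 h7) false) false

/-- the `ζ`-box does not meet the domain; `z = Z + 8`; `l`, `h` are the bounds of `1024 η + 64` -/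
def out (z0 z1 z2 z3 l0 h0 l1 h1 l2 h2 l3 h3 : ℕ) : Bool :=
  (fun m3 =>
    cond (Nat.blt (Nat.add (Nat.mul 64 z1) h1) (Nat.add m3 576)) true
    (cond (Nat.blt (Nat.add (Nat.mul 64 z2) h2) (Nat.add m3 576)) true
    (cond (Nat.blt 1088 (Nat.add (Nat.mul 64 z0) l0)) true
      (Nat.blt (Nat.add (Nat.mul 64 z0) h0)
        (Nat.add (Nat.add m3 (Nat.max m3 (Nat.sub (Nat.add (Nat.mul 64 z1) l1) 576)))
          (Nat.add 576 (Nat.max m3 (Nat.sub (Nat.add (Nat.mul 64 z2) l2) 576))))))))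
    (Nat.add (Nat.sub (Nat.add (Nat.mul 64 z3) l3) 576) (Nat.sub 576 (Nat.add (Nat.mul 64 z3) h3)))

/-- subdivision tree -/
inductive Tr where
  | o : Tr
  | c : ℕ → ℕ → ℕ → ℕ → ℕ → Tr
  | s : ℕ → Tr → Tr → Tr

def mid (l h : ℕ) : ℕ := Nat.div (Nat.add l h) 2

def chk (z0 z1 z2 z3 TT m : ℕ) : Tr →
    ℕ → ℕ → ℕ → ℕ → ℕ → ℕ → ℕ → ℕ → ℕ → ℕ → ℕ → ℕ → ℕ → ℕ → ℕ → ℕ → Bool
  | .o, l0, h0, l1, h1, l2, h2, l3, h3, _, _, _, _, _, _, _, _ =>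
    out z0 z1 z2 z3 l0 h0 l1 h1 l2 h2 l3 h3
  | .c ji na ca nb cb, l0, h0, l1, h1, l2, h2, l3, h3, l4, h4, l5, h5, l6, h6, l7, h7 =>
    leaf TT m ji na ca nb cb l0 h0 l1 h1 l2 h2 l3 h3 l4 h4 l5 h5 l6 h6 l7 h7
  | .s k l r, l0, h0, l1, h1, l2, h2, l3, h3, l4, h4, l5, h5, l6, h6, l7, h7 =>
    match k with
    | 0 => chk z0 z1 z2 z3 TT m l l0 (mid l0 h0) l1 h1 l2 h2 l3 h3 l4 h4 l5 h5 l6 h6 l7 h7 &&
        chk z0 z1 z2 z3 TT m r (mid l0 h0) h0 l1 h1 l2 h2 l3 h3 l4 h4 l5 h5 l6 h6 l7 h7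
    | 1 => chk z0 z1 z2 z3 TT m l l0 h0 l1 (mid l1 h1) l2 h2 l3 h3 l4 h4 l5 h5 l6 h6 l7 h7 &&
        chk z0 z1 z2 z3 TT m r l0 h0 (mid l1 h1) h1 l2 h2 l3 h3 l4 h4 l5 h5 l6 h6 l7 h7
    | 2 => chk z0 z1 z2 z3 TT m l l0 h0 l1 h1 l2 (mid l2 h2) l3 h3 l4 h4 l5 h5 l6 h6 l7 h7 &&
        chk z0 z1 z2 z3 TT m r l0 h0 l1 h1 (mid l2 h2) h2 l3 h3 l4 h4 l5 h5 l6 h6 l7 h7
    | 3 => chk z0 z1 z2 z3 TT m l l0 h0 l1 h1 l2 h2 l3 (mid l3 h3) l4 h4 l5 h5 l6 h6 l7 h7 &&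
        chk z0 z1 z2 z3 TT m r l0 h0 l1 h1 l2 h2 (mid l3 h3) h3 l4 h4 l5 h5 l6 h6 l7 h7
    | 4 => chk z0 z1 z2 z3 TT m l l0 h0 l1 h1 l2 h2 l3 h3 l4 (mid l4 h4) l5 h5 l6 h6 l7 h7 &&
        chk z0 z1 z2 z3 TT m r l0 h0 l1 h1 l2 h2 l3 h3 (mid l4 h4) h4 l5 h5 l6 h6 l7 h7
    | 5 => chk z0 z1 z2 z3 TT m l l0 h0 l1 h1 l2 h2 l3 h3 l4 h4 l5 (mid l5 h5) l6 h6 l7 h7 &&
        chk z0 z1 z2 z3 TT m r l0 h0 l1 h1 l2 h2 l3 h3 l4 h4 (mid l5 h5) h5 l6 h6 l7 h7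
    | 6 => chk z0 z1 z2 z3 TT m l l0 h0 l1 h1 l2 h2 l3 h3 l4 h4 l5 h5 l6 (mid l6 h6) l7 h7 &&
        chk z0 z1 z2 z3 TT m r l0 h0 l1 h1 l2 h2 l3 h3 l4 h4 l5 h5 (mid l6 h6) h6 l7 h7
    | _ => chk z0 z1 z2 z3 TT m l l0 h0 l1 h1 l2 h2 l3 h3 l4 h4 l5 h5 l6 h6 l7 (mid l7 h7) &&
        chk z0 z1 z2 z3 TT m r l0 h0 l1 h1 l2 h2 l3 h3 l4 h4 l5 h5 l6 h6 (mid l7 h7) h7

/-- every code is valid -/
def allOK (z0 z1 z2 z3 : ℕ) : List ℕ → Bool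
  | [] => true
  | c :: l => cond (Nat.blt c 34359738368)
      (cond (Nat.beq (mkP z0 z1 z2 z3 c) 0) false (allOK z0 z1 z2 z3 l)) false

/-- the check of one `ζ`-box; coordinates: `E = 0, ..., 3`, then `YM - Y`, `V` -/
def chkBox (z0 z1 z2 z3 : ℕ) (W : List ℕ) (t : Tr) : Bool :=
  cond (decr W) (cond (allOK z0 z1 z2 z3 W)
    (chk z0 z1 z2 z3 (mkT z0 z1 z2 z3 W) W.length t 0 128 0 128 0 128 0 128 0 708 0 1024 0 1024 0 1024)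
    false) false

end Pool.Agent.Helper10.Qc
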