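import Pool.Agent.Helper10.Qc.Chk

set_option autoImplicit false

/-!
# Certificate for the upper bound (computation)

Scale: `S = 81 * 2 ^ 30`.
-/

namespace Pool.Agent.Helper10.Qc

/-- evaluate the argument before it is substituted -/
def force {α : Type} (n : ℕ) (f : ℕ → α) : α := Nat.rec (f 0) (fun m _ => f (Nat.succ m)) n

/-- entry: type `n`, `D + 128` and `64 |D|² + 384 ∑ (D_i + 128)`, where `D = 48 (β - ζ_c)` -/
structure En where
  n : ℕ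
  d0 : ℕ
  d1 : ℕ
  d2 : ℕ
  d3 : ℕ
  c : ℕ

/-- a code is `n + 32 (g_0 + 16) + ...` in base `32`, with `g = 6 β` -/
def mkE (z0 z1 z2 z3 code : ℕ) : En :=
  force (Nat.sub (Nat.add (Nat.mul 8 (d32 code 1)) 24) (Nat.mul 3 z0)) fun d0 =>
  force (Nat.sub (Nat.add (Nat.mul 8 (d32 code 2)) 24) (Nat.mul 3 z1)) fun d1 =>
  force (Nat.sub (Nat.add (Nat.mul 8 (d32 code 3)) 24) (Nat.mul 3 z2)) fun d2 =>
  force (Nat.sub (Nat.add (Nat.mul 8 (d32 code 4)) 24) (Nat.mul 3 z3)) fun d3 =>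
  force (Nat.add (Nat.mul 64 (nsq d0 d1 d2 d3 128)) (Nat.mul 384 (s4 d0 d1 d2 d3))) fun c =>
    ⟨d32 code 0, d0, d1, d2, d3, c⟩

/-- the code is admissible: no truncation in `mkE` -/
def okE (z0 z1 z2 z3 code : ℕ) : Bool :=
  cond (Nat.ble (Nat.mul 3 z0) (Nat.add (Nat.mul 8 (d32 code 1)) 24))
    (cond (Nat.ble (Nat.mul 3 z1) (Nat.add (Nat.mul 8 (d32 code 2)) 24))
      (cond (Nat.ble (Nat.mul 3 z2) (Nat.add (Nat.mul 8 (d32 code 3)) 24))
        (Nat.ble (Nat.mul 3 z3) (Nat.add (Nat.mul 8 (d32 code 4)) 24)) false) false) false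

/-- the data of a box: doubled centre `e`, `y`, radii `r`, `s`, and `H = 4096 y - |e - 128|²` -/
structure Bx where
  e0 : ℕ
  e1 : ℕ
  e2 : ℕ
  e3 : ℕ
  y : ℕ
  r0 : ℕ
  r1 : ℕ
  r2 : ℕ
  r3 : ℕ
  s : ℕ
  H : ℕ

/-- the box with the given bounds of the coordinates `1024 η + 64`, `Y` -/
def withB (l0 h0 l1 h1 l2 h2 l3 h3 l h : ℕ) (f : Bx → Bool) : Bool :=
  force (Nat.add l0 h0) fun e0 => force (Nat.add l1 h1) fun e1 => force (Nat.add l2 h2) fun e2 =>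
  force (Nat.add l3 h3) fun e3 => force (Nat.add l h) fun y =>
  cond (Nat.ble (nsq e0 e1 e2 e3 128) (Nat.mul 4096 y))
    (force (Nat.sub (Nat.mul 4096 y) (nsq e0 e1 e2 e3 128)) fun H =>
     force (Nat.sub h0 l0) fun r0 => force (Nat.sub h1 l1) fun r1 => force (Nat.sub h2 l2) fun r2 =>
     force (Nat.sub h3 l3) fun r3 => force (Nat.sub h l) fun s =>
      f ⟨e0, e1, e2, e3, y, r0, r1, r2, r3, s, H⟩) false

/-- `147456 (h + r)` at the centre -/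
def eT (b : Bx) (e : En) : ℕ :=
  Nat.sub (Nat.add (Nat.add (Nat.mul 144 b.y) e.c) (Nat.mul 384 (s4 b.e0 b.e1 b.e2 b.e3)))
    (Nat.add (Nat.mul 3 (dot4 b.e0 b.e1 b.e2 b.e3 e.d0 e.d1 e.d2 e.d3)) 196608)

/-- absolute value of the `i`-th derivative: `M = n T` -/
def eG (M ei di : ℕ) : ℕ :=
  df (Nat.add 6635520 (Nat.mul (Nat.mul 6 M) di)) (Nat.add (Nat.mul 51840 ei) (Nat.mul 768 M))

/-- variation on the box -/
def eL (b : Bx) (M : ℕ) (e : En) : ℕ :=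
  Nat.add (Nat.mul (df 106168320 (Nat.mul 288 M)) b.s)
    (dot4 (eG M b.e0 e.d0) (eG M b.e1 e.d1) (eG M b.e2 e.d2) (eG M b.e3 e.d3) b.r0 b.r1 b.r2 b.r3)

/-- the entry does not contribute on the box -/
def dropE (b : Bx) (e : En) : Bool :=
  force (eT b e) fun T => Nat.ble (Nat.add (Nat.mul 25920 b.H) (eL b (Nat.mul e.n T) e))
    (Nat.mul e.n (Nat.mul T T))

def filt (b : Bx) : List En → List En
  | [] => []
  | e :: l => cond (dropE b e) (filt b l) (e :: filt b l)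

/-- `S = 81 * 2 ^ 30` -/
def sS : ℕ := 86973087744

/-- `10^4` times the bound of the sum for `B = k / 8` -/
def tabF (k : ℕ) : ℕ :=
  match k with
  | 6 => 5625
  | 7 => 8000
  | 8 => 11500
  | 9 => 16400
  | 10 => 23400
  | 11 => 33000
  | 12 => 46500
  | 13 => 63000
  | _ => 1000000000000

/-- upper bound of `S F₁(x / S)` -/
def F1 (x : ℕ) : ℕ :=
  cond (Nat.ble (Nat.mul 4 x) (Nat.mul 3 sS)) (Nat.succ (Nat.div (Nat.mul x x) sS))
    (force (Nat.div (Nat.mul 8 x) sS) fun k =>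
      Nat.succ (Nat.div (Nat.add (Nat.mul (tabF k) sS)
        (Nat.mul (Nat.sub (tabF (Nat.succ k)) (tabF k)) (Nat.mod (Nat.mul 8 x) sS))) 10000))

/-- upper bound of `S F₂(x / S)` -/
def F2 (x : ℕ) : ℕ :=
  cond (Nat.ble (Nat.mul 3 x) (Nat.mul 2 sS)) (Nat.succ (Nat.div (Nat.mul x x) sS))
    (Nat.succ (Nat.div (Nat.mul (Nat.mul 9 (Nat.mul x x)) (Nat.sub (Nat.mul 2 x) sS))
      (Nat.mul (Nat.sub (Nat.mul 6 x) sS) sS)))

/-- upper bound of `S F_n(x / S)` -/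
def FF (n x : ℕ) : ℕ :=
  match n with
  | 1 => F1 x
  | 2 => F2 x
  | _ => Nat.succ (Nat.div (Nat.mul x x) sS)

/-- slope (times `2 ^ 20`) of the chord on an interval of length `2 L` -/
def slope (Fp Fm L : ℕ) : ℕ := Nat.succ (Nat.div (Nat.mul 1048576 (Nat.sub Fp Fm)) (Nat.mul 2 L))

/-- final comparison; `C`: constant, `Q`: sum of the slopes, `R`: sum of the `slope * M`,
`Ri`: sums of the `slope * M * d_i` -/
def finU (b : Bx) (C Q R R0 R1 R2 R3 : ℕ) : Bool :=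
  force (Nat.mul 261792 b.H) fun P =>
  Nat.ble
    (Nat.add (Nat.mul 5 C)
      (Nat.add
        (Nat.add
          (Nat.mul b.s (df (Nat.mul 530841600 Q) (Nat.add (Nat.mul 1440 R) (Nat.mul 4096 P))))
          (dot4 b.r0 b.r1 b.r2 b.r3
            (df (Nat.add (Nat.mul (Nat.mul 2 P) b.e0)
                (Nat.add (Nat.mul 33177600 Q) (Nat.mul 30 R0)))
              (Nat.add (Nat.mul (Nat.mul 259200 Q) b.e0)
                (Nat.add (Nat.mul 256 P) (Nat.mul 3840 R))))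
            (df (Nat.add (Nat.mul (Nat.mul 2 P) b.e1)
                (Nat.add (Nat.mul 33177600 Q) (Nat.mul 30 R1)))
              (Nat.add (Nat.mul (Nat.mul 259200 Q) b.e1)
                (Nat.add (Nat.mul 256 P) (Nat.mul 3840 R))))
            (df (Nat.add (Nat.mul (Nat.mul 2 P) b.e2)
                (Nat.add (Nat.mul 33177600 Q) (Nat.mul 30 R2)))
              (Nat.add (Nat.mul (Nat.mul 259200 Q) b.e2)
                (Nat.add (Nat.mul 256 P) (Nat.mul 3840 R))))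
            (df (Nat.add (Nat.mul (Nat.mul 2 P) b.e3)
                (Nat.add (Nat.mul 33177600 Q) (Nat.mul 30 R3)))
              (Nat.add (Nat.mul (Nat.mul 259200 Q) b.e3)
                (Nat.add (Nat.mul 256 P) (Nat.mul 3840 R))))))
        (Nat.mul P (dot4 b.r0 b.r1 b.r2 b.r3 b.r0 b.r1 b.r2 b.r3))))
    (Nat.mul 130896 (Nat.mul b.H b.H))

/-- sum over the entries -/
def accU (b : Bx) : List En → ℕ → ℕ → ℕ → ℕ → ℕ → ℕ → ℕ → Bool
  | [], C, Q, R, R0, R1, R2, R3 => finU b C Q R R0 R1 R2 R3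
  | e :: l, C, Q, R, R0, R1, R2, R3 =>
    force (eT b e) fun T => force (Nat.mul e.n T) fun M => force (eL b M e) fun L =>
    force (Nat.sub (Nat.add (Nat.mul 25920 b.H) L) (Nat.mul M T)) fun xp =>
    cond (Nat.beq xp 0) (accU b l C Q R R0 R1 R2 R3) <|
    cond (Nat.ble xp 1099511627776)
      (force (FF e.n xp) fun Fp =>
       force (FF e.n (Nat.sub (Nat.mul 25920 b.H) (Nat.add (Nat.mul M T) L))) fun Fm =>
       force (slope Fp Fm L) fun σ => force (Nat.mul σ M) fun σM =>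
        accU b l (Nat.add C (Nat.add (Nat.mul 1048576 Fm) (Nat.mul σ L))) (Nat.add Q σ)
          (Nat.add R σM) (Nat.add R0 (Nat.mul σM e.d0)) (Nat.add R1 (Nat.mul σM e.d1))
          (Nat.add R2 (Nat.mul σM e.d2)) (Nat.add R3 (Nat.mul σM e.d3))) false

/-- the check of a leaf; first the contribution of the cusp at infinity -/
def leafU (b : Bx) (l : List En) : Bool :=
  force (eL b 0 ⟨0, 0, 0, 0, 0, 0⟩) fun L =>
  force (Nat.sub (Nat.add (Nat.mul 25920 b.H) L) sS) fun xp =>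
  cond (Nat.beq xp 0) (accU b l 0 0 0 0 0 0 0)
    (force (FF 3 xp) fun Fp =>
     force (FF 3 (Nat.sub (Nat.mul 25920 b.H) (Nat.add sS L))) fun Fm =>
     force (slope Fp Fm L) fun σ =>
      accU b l (Nat.add (Nat.mul 1048576 Fm) (Nat.mul σ L)) σ 0 0 0 0 0)

/-- smallest absolute value of `1024 ζ_i` on the box -/
def minz (z l h : ℕ) : ℕ :=
  Nat.add (Nat.sub (Nat.add (Nat.mul 64 z) l) 576) (Nat.sub 576 (Nat.add (Nat.mul 64 z) h))

/-- smallest absolute value of `1024 η_i` on the box -/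
def mine (l h : ℕ) : ℕ := Nat.add (Nat.sub l 64) (Nat.sub 64 h)

/-- `z` coordinate of the corner where `⟨Z, E⟩` is largest -/
def cor (z l h : ℕ) : ℕ := cond (Nat.ble 8 z) h l

/-- upper bound of `2 ^ 20 (h + |ζ|²)` -/
def maxX (z0 z1 z2 z3 e0 e1 e2 e3 h : ℕ) : ℕ :=
  Nat.sub (Nat.add (Nat.mul 2048 h) (Nat.add (Nat.mul 4096 (nsq z0 z1 z2 z3 8))
      (Nat.mul 128 (s4 (qp z0 e0 8 64) (qp z1 e1 8 64) (qp z2 e2 8 64) (qp z3 e3 8 64)))))
    (Nat.mul 128 (s4 (qn z0 e0 8 64) (qn z1 e1 8 64) (qn z2 e2 8 64) (qn z3 e3 8 64)))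

/-- with `X = h + |ζ|²`, `q = |ζ|²`: `X² + X < 2` or `(X² + X - 2)² < 4 q (2 - q)` -/
def tstX (X q : ℕ) : Bool :=
  cond (Nat.blt (Nat.add (Nat.mul X X) (Nat.mul 1048576 X)) 2199023255552) true
    (force (Nat.sub (Nat.add (Nat.mul X X) (Nat.mul 1048576 X)) 2199023255552) fun L =>
      cond (Nat.ble q 1048576)
        (Nat.blt (Nat.mul L L) (Nat.mul 4398046511104 (Nat.mul q (Nat.sub 2097152 q)))) false)

/-- the box does not meet the domain, or it contains no reduced point -/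
def outU (z0 z1 z2 z3 l0 h0 l1 h1 l2 h2 l3 h3 h : ℕ) : Bool :=
  cond (out z0 z1 z2 z3 l0 h0 l1 h1 l2 h2 l3 h3) true
    (force (dot4 (minz z0 l0 h0) (minz z1 l1 h1) (minz z2 l2 h2) (minz z3 l3 h3)
      (minz z0 l0 h0) (minz z1 l1 h1) (minz z2 l2 h2) (minz z3 l3 h3)) fun q =>
     cond (tstX (maxX z0 z1 z2 z3 (cor z0 l0 h0) (cor z1 l1 h1) (cor z2 l2 h2) (cor z3 l3 h3) h) q)
      true
      (force (Nat.sub (Nat.add 1048576 (Nat.sub (Nat.mul 2048 h)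
        (dot4 (mine l0 h0) (mine l1 h1) (mine l2 h2) (mine l3 h3)
          (mine l0 h0) (mine l1 h1) (mine l2 h2) (mine l3 h3)))) q) fun t =>
        Nat.blt (Nat.mul t t) (Nat.add 2199023255552 (Nat.mul 2097152 q))))

/-- subdivision tree: out, leaf, filter, split -/
inductive TU where
  | o : TU
  | l : TU
  | f : TU → TU
  | s : ℕ → TU → TU → TU

def chkU (z0 z1 z2 z3 : ℕ) : TU → List En → ℕ → ℕ → ℕ → ℕ → ℕ → ℕ → ℕ → ℕ → ℕ → ℕ → Bool
  | .o, _, l0, h0, l1, h1, l2, h2, l3, h3, _, h =>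
    outU z0 z1 z2 z3 l0 h0 l1 h1 l2 h2 l3 h3 h
  | .l, L, l0, h0, l1, h1, l2, h2, l3, h3, l, h =>
    withB l0 h0 l1 h1 l2 h2 l3 h3 l h fun b => leafU b L
  | .f t, L, l0, h0, l1, h1, l2, h2, l3, h3, l, h =>
    withB l0 h0 l1 h1 l2 h2 l3 h3 l h fun b =>
      chkU z0 z1 z2 z3 t (filt b L) l0 h0 l1 h1 l2 h2 l3 h3 l h
  | .s k a b, L, l0, h0, l1, h1, l2, h2, l3, h3, l, h =>
    match k with
    | 0 => cond (chkU z0 z1 z2 z3 a L l0 (mid l0 h0) l1 h1 l2 h2 l3 h3 l h)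
        (chkU z0 z1 z2 z3 b L (mid l0 h0) h0 l1 h1 l2 h2 l3 h3 l h) false
    | 1 => cond (chkU z0 z1 z2 z3 a L l0 h0 l1 (mid l1 h1) l2 h2 l3 h3 l h)
        (chkU z0 z1 z2 z3 b L l0 h0 (mid l1 h1) h1 l2 h2 l3 h3 l h) false
    | 2 => cond (chkU z0 z1 z2 z3 a L l0 h0 l1 h1 l2 (mid l2 h2) l3 h3 l h)
        (chkU z0 z1 z2 z3 b L l0 h0 l1 h1 (mid l2 h2) h2 l3 h3 l h) false
    | 3 => cond (chkU z0 z1 z2 z3 a L l0 h0 l1 h1 l2 h2 l3 (mid l3 h3) l h)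
        (chkU z0 z1 z2 z3 b L l0 h0 l1 h1 l2 h2 (mid l3 h3) h3 l h) false
    | _ => cond (chkU z0 z1 z2 z3 a L l0 h0 l1 h1 l2 h2 l3 h3 l (mid l h))
        (chkU z0 z1 z2 z3 b L l0 h0 l1 h1 l2 h2 l3 h3 (mid l h) h) false

def mkL (z0 z1 z2 z3 : ℕ) : List ℕ → List En
  | [] => []
  | c :: l => mkE z0 z1 z2 z3 c :: mkL z0 z1 z2 z3 l

def okL (z0 z1 z2 z3 : ℕ) : List ℕ → Bool
  | [] => true
  | c :: l => cond (okE z0 z1 z2 z3 c) (okL z0 z1 z2 z3 l) false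

/-- the check of one `ζ`-box; coordinates `E_0, ..., E_3`, `Y` -/
def chkBoxU (z0 z1 z2 z3 : ℕ) (W : List ℕ) (t : TU) : Bool :=
  cond (okL z0 z1 z2 z3 W)
    (chkU z0 z1 z2 z3 t (mkL z0 z1 z2 z3 W) 0 128 0 128 0 128 0 128 512 2569) false

/-- the equations of `Helper10.Qc.tabF`, made here once -/
theorem eqn_tabF : True := by
  have h1 := @_root_.Pool.Agent.Helper10.Qc.tabF.eq_1
  have h2 := @_root_.Pool.Agent.Helper10.Qc.tabF.eq_2
  have h3 := @_root_.Pool.Agent.Helper10.Qc.tabF.eq_3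
  have h4 := @_root_.Pool.Agent.Helper10.Qc.tabF.eq_4
  have h5 := @_root_.Pool.Agent.Helper10.Qc.tabF.eq_5
  have h6 := @_root_.Pool.Agent.Helper10.Qc.tabF.eq_6
  have h7 := @_root_.Pool.Agent.Helper10.Qc.tabF.eq_7
  have h8 := @_root_.Pool.Agent.Helper10.Qc.tabF.eq_8
  have h9 := @_root_.Pool.Agent.Helper10.Qc.tabF.eq_9
  trivial

end Pool.Agent.Helper10.Qc
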