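import Pool.Agent.Helper10.Qc.ChkU
import Pool.Agent.Helper19.Qc.Lat

set_option autoImplicit false

/-!
# Definitions for the weights of the lattice `O³`
-/

namespace Pool.Agent.Helper10.Qc

open Pool.Agent.Helper19.Qh Pool.Agent.Helper19.Qc

/-! ## Reduced points -/

/-- no cusp is higher than the cusp at infinity -/
def Top (p : Pt 1) : Prop := p ∈ SD 1 ∧ ∀ w ∈ Orb MO, 1 / hgt p ≤ uval w p

/-- the domain of `ζ` -/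
def Dom (ζ : Q) : Prop := ζ.re ≤ 1 / 2 ∧ |ζ.imI| + |ζ.imJ| + |ζ.imK| ≤ ζ.re ∧
  |ζ.imK| ≤ ζ.imI ∧ |ζ.imK| ≤ ζ.imJ

/-- the weight, as a function of the height -/
noncomputable def psi (r : ℝ) : ℝ := (max (5 / 4 - 1 / r) 0) ^ 2

/-- the weight, as a function of the inverse height -/
noncomputable def F5 (x : ℝ) : ENNReal := ENNReal.ofReal ((max (5 / 4 - x) 0) ^ 2)

/-! ## Hurwitz integers -/

/-- even norm -/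
def EvN (a : Q) : Prop := ∃ N : ℕ, ‖a‖ ^ 2 = 2 * (N : ℝ)

/-- representatives of the Hurwitz integers of norm `1, ..., 4` up to left unit factors -/
def rho : Fin 7 → Q := ![⟨1, 0, 0, 0⟩, ⟨1, 1, 0, 0⟩, ⟨1, 1, 1, 0⟩, ⟨1, 1, -1, 0⟩, ⟨1, -1, 1, 0⟩,
  ⟨1, -1, -1, 0⟩, ⟨2, 0, 0, 0⟩]

def rN : Fin 7 → ℕ := ![1, 2, 3, 3, 3, 3, 4]

/-- first coordinates of the cusp vectors with third coordinate `rho i` and second coordinate `b`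
(for `i = 1` those which are not divisible by `1 + i`) -/
def FibA (i : Fin 7) (b : Q) : Set Q :=
  {a | a ∈ HO ∧ 2 * (a * star (rho i)).re + ‖b‖ ^ 2 = 0 ∧ (i = 1 → ¬ EvN a)}

/-! ## Lower bound: codes of cusp vectors, coordinates -/

/-- `2 b` for the cusp vector `(a, b, 1)` with code `c` -/
def cB (c : ℕ) (i : Fin 4) : ℤ := (d32 c i : ℤ) - 8

/-- `|b|²` -/
def cN (c : ℕ) : ℕ := nsq (d32 c 0) (d32 c 1) (d32 c 2) (d32 c 3) 8 / 4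

/-- `2 a` -/
def cA (c : ℕ) : Fin 4 → ℤ :=
  ![-(cN c : ℤ), (d32 c 4 : ℤ) - 16, (d32 c 5 : ℤ) - 16, (d32 c 6 : ℤ) - 16]

/-- the code is valid -/
def cOK (c : ℕ) : Prop := c < 2 ^ 35 ∧ parOK (d32 c 0) (d32 c 1) (d32 c 2) (d32 c 3)
  (nsq (d32 c 0) (d32 c 1) (d32 c 2) (d32 c 3) 8 / 4) (d32 c 4) (d32 c 5) (d32 c 6) = true

/-- the quaternion with the coordinates `x i / 2` -/
noncomputable def hf (x : Fin 4 → ℤ) : Q := ⟨(x 0 : ℝ) / 2, (x 1 : ℝ) / 2, (x 2 : ℝ) / 2,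
  (x 3 : ℝ) / 2⟩

/-- the cusp vector with code `c` -/
noncomputable def wv (c : ℕ) : V 1 := (hf (cA c), e1 (hf (cB c)), 1)

/-- the components of `x * star y` -/
def ms (x y : Fin 4 → ℝ) : Fin 4 → ℝ :=
  ![x 0 * y 0 + x 1 * y 1 + x 2 * y 2 + x 3 * y 3,
    -(x 0 * y 1) + x 1 * y 0 - x 2 * y 3 + x 3 * y 2,
    -(x 0 * y 2) + x 2 * y 0 - x 3 * y 1 + x 1 * y 3,
    -(x 0 * y 3) + x 3 * y 0 - x 1 * y 2 + x 2 * y 1]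

/-- the components of `x * y` -/
def mu (x y : Fin 4 → ℝ) : Fin 4 → ℝ :=
  ![x 0 * y 0 - x 1 * y 1 - x 2 * y 2 - x 3 * y 3,
    x 0 * y 1 + x 1 * y 0 + x 2 * y 3 - x 3 * y 2,
    x 0 * y 2 - x 1 * y 3 + x 2 * y 0 + x 3 * y 1,
    x 0 * y 3 + x 1 * y 2 - x 2 * y 1 + x 3 * y 0]

/-- scalar product -/
def dt (x y : Fin 4 → ℝ) : ℝ := x 0 * y 0 + x 1 * y 1 + x 2 * y 2 + x 3 * y 3

/-- `2 ^ 30` times the squared norm of the product of the point and a cusp vector, in the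
coordinates `e`, `u`, for the cusp vector with data `D`, `k` -/
def Qv (D k e u : Fin 4 → ℝ) : ℝ :=
  (32 * u 0 + 2 * ms e D 0 + k 0) ^ 2 + (32 * u 1 + 2 * ms e D 1 + k 1) ^ 2 +
    (32 * u 2 + 2 * ms e D 2 + k 2) ^ 2 + (32 * u 3 + 2 * ms e D 3 + k 3) ^ 2

/-- `2 ^ 30` times the height in the coordinates `e`, `u` -/
def HH (e u : Fin 4 → ℝ) : ℝ := 2 ^ 20 * (2440 - 2 * u 0) -
  2 ^ 8 * ((2 * e 0 - 128) ^ 2 + (2 * e 1 - 128) ^ 2 + (2 * e 2 - 128) ^ 2 + (2 * e 3 - 128) ^ 2)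

/-- `Z = z - 8` -/
def zZ (z0 z1 z2 z3 : ℕ) : Fin 4 → ℝ := ![(z0 : ℝ) - 8, (z1 : ℝ) - 8, (z2 : ℝ) - 8, (z3 : ℝ) - 8]

/-- `D = 8 B - Z` -/
def cD (z0 z1 z2 z3 c : ℕ) : Fin 4 → ℝ := fun i => 8 * (cB c i : ℝ) - zZ z0 z1 z2 z3 i

/-- the constant `k` -/
def cK (z0 z1 z2 z3 c : ℕ) : Fin 4 → ℝ :=
  let Z := zZ z0 z1 z2 z3
  let t := ms (fun i => Z i - 1) (cD z0 z1 z2 z3 c)
  ![128 * t 0 + 64 * (Z 0 ^ 2 + Z 1 ^ 2 + Z 2 ^ 2 + Z 3 ^ 2) - 16384 * (cN c : ℝ) - 39040,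
    128 * t 1 - 16384 * (cA c 1 : ℝ), 128 * t 2 - 16384 * (cA c 2 : ℝ),
    128 * t 3 - 16384 * (cA c 3 : ℝ)]

/-- the centre of the box -/
noncomputable def zc (z0 z1 z2 z3 : ℕ) : Q := ⟨((z0 : ℝ) - 8) / 16, ((z1 : ℝ) - 8) / 16,
  ((z2 : ℝ) - 8) / 16, ((z3 : ℝ) - 8) / 16⟩

/-- the coordinates `e = 1024 η + 64`, `η = ζ - zc` -/
noncomputable def eC (z0 z1 z2 z3 : ℕ) (p : Pt 1) : Fin 4 → ℝ :=
  ![1024 * ((p.2 0).re - ((z0 : ℝ) - 8) / 16) + 64, 1024 * ((p.2 0).imI - ((z1 : ℝ) - 8) / 16) + 64,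
    1024 * ((p.2 0).imJ - ((z2 : ℝ) - 8) / 16) + 64, 1024 * ((p.2 0).imK - ((z3 : ℝ) - 8) / 16) + 64]

/-- the coordinates `u` -/
noncomputable def uC (z0 z1 z2 z3 : ℕ) (p : Pt 1) : Fin 4 → ℝ :=
  ![1220 - 512 * (hgt p + ‖p.2 0 - zc z0 z1 z2 z3‖ ^ 2),
    1024 * (p.1 + p.2 0 * star (zc z0 z1 z2 z3)).imI,
    1024 * (p.1 + p.2 0 * star (zc z0 z1 z2 z3)).imJ,
    1024 * (p.1 + p.2 0 * star (zc z0 z1 z2 z3)).imK]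

/-- `ζ = zc + η` in the coordinates `e` -/
noncomputable def zE (z0 z1 z2 z3 : ℕ) (e : Fin 4 → ℝ) : Q :=
  ⟨(64 * (z0 : ℝ) + e 0 - 576) / 1024, (64 * (z1 : ℝ) + e 1 - 576) / 1024,
    (64 * (z2 : ℝ) + e 2 - 576) / 1024, (64 * (z3 : ℝ) + e 3 - 576) / 1024⟩

/-- the minorant of the terms of the lower sum; `x` is the inverse height -/
noncomputable def phL (x : ℝ) : ℝ :=
  if x ≤ 5 / 4 then (2285 / 1000 / x - 6793 / 10000) * (5 / 4 - x) ^ 2 else 0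

/-- the assertion of the certificate for the lower bound -/
def ConcL (z0 z1 z2 z3 : ℕ) (W : List ℕ) (e u : Fin 4 → ℝ) : Prop :=
  Dom (zE z0 z1 z2 z3 e) → 0 < HH e u →
    (∀ c ∈ W, 2 ^ 30 ≤ Qv (cD z0 z1 z2 z3 c) (cK z0 z1 z2 z3 c) e u) →
    32376 / 10000 ≤ phL (2 ^ 30 / HH e u) +
      (W.map fun c => phL (Qv (cD z0 z1 z2 z3 c) (cK z0 z1 z2 z3 c) e u / HH e u)).sum

/-- membership in a box of dimension 8 -/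
def InL (l0 h0 l1 h1 l2 h2 l3 h3 l4 h4 l5 h5 l6 h6 l7 h7 : ℕ) (e u : Fin 4 → ℝ) : Prop :=
  ((l0 : ℝ) ≤ e 0 ∧ e 0 ≤ h0) ∧ ((l1 : ℝ) ≤ e 1 ∧ e 1 ≤ h1) ∧ ((l2 : ℝ) ≤ e 2 ∧ e 2 ≤ h2) ∧
  ((l3 : ℝ) ≤ e 3 ∧ e 3 ≤ h3) ∧ ((l4 : ℝ) ≤ u 0 ∧ u 0 ≤ h4) ∧ ((l5 : ℝ) ≤ u 1 ∧ u 1 ≤ h5) ∧
  ((l6 : ℝ) ≤ u 2 ∧ u 2 ≤ h6) ∧ ((l7 : ℝ) ≤ u 3 ∧ u 3 ≤ h7)

/-! ## Upper bound -/

/-- chord of the table `tabF` -/
noncomputable def ell (k : ℕ) (x : ℝ) : ℝ :=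
  ((tabF k : ℝ) + ((tabF (k + 1) : ℝ) - (tabF k : ℝ)) * (8 * x - k)) / 10000

/-- bounds of the sums over a fibre of type `1`, `2`, `≥ 3` -/
noncomputable def Psi : ℕ → ℝ → ℝ
  | 1, x => max ((max x 0) ^ 2) (max (ell 6 x) (max (ell 7 x) (max (ell 8 x) (max (ell 9 x)
      (max (ell 10 x) (max (ell 11 x) (ell 12 x)))))))
  | 2, x => if x ≤ 2 / 3 then (max x 0) ^ 2 else 9 * x ^ 2 * (2 * x - 1) / (6 * x - 1)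
  | _, x => (max x 0) ^ 2

/-- the radius of a fibre of type `N` -/
noncomputable def Bv (N : ℕ) (h : ℝ) (ζ β : Q) : ℝ := 5 / 4 * h - N * (h + ‖ζ - β‖ ^ 2) ^ 2 / 4

/-- the position with the given code (of type `d32 c 0`) -/
noncomputable def bet (c : ℕ) : Q := ⟨((d32 c 1 : ℝ) - 16) / 6, ((d32 c 2 : ℝ) - 16) / 6,
  ((d32 c 3 : ℝ) - 16) / 6, ((d32 c 4 : ℝ) - 16) / 6⟩

/-- sum over a coset of the cubic lattice -/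
noncomputable def S3 (B : ℝ) (c : Fin 3 → ℝ) : ENNReal := ∑' n : Fin 3 → ℤ,
  ENNReal.ofReal ((max (B - ((c 0 + n 0) ^ 2 + (c 1 + n 1) ^ 2 + (c 2 + n 2) ^ 2)) 0) ^ 2)

/-- `2 ^ 22` times the height, in the coordinates `e`, `Y = 512 (h + |η|²)` -/
def hU (e : Fin 4 → ℝ) (Y : ℝ) : ℝ := 8192 * Y -
  ((2 * e 0 - 128) ^ 2 + (2 * e 1 - 128) ^ 2 + (2 * e 2 - 128) ^ 2 + (2 * e 3 - 128) ^ 2)

/-- `147456 (h + |ζ - β|²)` -/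
def tU (n : En) (e : Fin 4 → ℝ) (Y : ℝ) : ℝ := 288 * Y -
  3 * ((2 * e 0 - 128) * ((n.d0 : ℝ) - 128) + (2 * e 1 - 128) * ((n.d1 : ℝ) - 128) +
    (2 * e 2 - 128) * ((n.d2 : ℝ) - 128) + (2 * e 3 - 128) * ((n.d3 : ℝ) - 128)) +
  64 * (((n.d0 : ℝ) - 128) ^ 2 + ((n.d1 : ℝ) - 128) ^ 2 + ((n.d2 : ℝ) - 128) ^ 2 +
    ((n.d3 : ℝ) - 128) ^ 2)

/-- `S` times the radius of the fibre of the entry -/
def xU (n : En) (e : Fin 4 → ℝ) (Y : ℝ) : ℝ := 25920 * hU e Y - n.n * tU n e Y ^ 2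

/-- the redundant field of an entry is correct -/
def GoodE (n : En) : Prop :=
  n.c = 64 * nsq n.d0 n.d1 n.d2 n.d3 128 + 384 * (n.d0 + n.d1 + n.d2 + n.d3)

/-- the sum of the bounds: cusp at infinity and the entries -/
noncomputable def SU (L : List En) (e : Fin 4 → ℝ) (Y : ℝ) : ℝ :=
  Psi 3 ((25920 * hU e Y - sS) / sS) + (L.map fun n => Psi n.n (xU n e Y / sS)).sum

/-- the consequences of reducedness used in the computation; `h` is the height -/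
def RedI (h : ℝ) (ζ : Q) : Prop :=
  (2 ≤ (h + ‖ζ‖ ^ 2) ^ 2 + (h + ‖ζ‖ ^ 2) ∧
    4 * (‖ζ‖ ^ 2 * (2 - ‖ζ‖ ^ 2)) ≤ ((h + ‖ζ‖ ^ 2) ^ 2 + (h + ‖ζ‖ ^ 2) - 2) ^ 2) ∧
  2 + 2 * ‖ζ‖ ^ 2 ≤ (h + 1 - ‖ζ‖ ^ 2) ^ 2

/-- membership in a box of dimension 5 -/
def InU (l0 h0 l1 h1 l2 h2 l3 h3 l h : ℕ) (e : Fin 4 → ℝ) (Y : ℝ) : Prop :=
  ((l0 : ℝ) ≤ e 0 ∧ e 0 ≤ h0) ∧ ((l1 : ℝ) ≤ e 1 ∧ e 1 ≤ h1) ∧ ((l2 : ℝ) ≤ e 2 ∧ e 2 ≤ h2) ∧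
  ((l3 : ℝ) ≤ e 3 ∧ e 3 ≤ h3) ∧ ((l : ℝ) ≤ Y ∧ Y ≤ h)

/-- the assertion of the certificate for the upper bound -/
def ConcU (z0 z1 z2 z3 : ℕ) (L : List En) (e : Fin 4 → ℝ) (Y : ℝ) : Prop :=
  Dom (zE z0 z1 z2 z3 e) → 1 ≤ hU e Y / 2 ^ 22 → RedI (hU e Y / 2 ^ 22) (zE z0 z1 z2 z3 e) →
    SU L e Y ≤ 505 / 100 * (hU e Y / 2 ^ 22) ^ 2

end Pool.Agent.Helper10.Qc
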