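import Pool.Agent.Helper10.Qc.WU

set_option autoImplicit false

/-! # Certificates for the upper bound: boxes 0 to 10 -/

namespace Pool.Agent.Helper10.Qc

/-- subdivision tree of the box 0 -/
def TU0 : TU :=
  .s 4 (.f (.s 4 (.f (.s 4 (.s 4 (.s 3 (.o)
  (.s 4 (.s 0 (.s 3 (.o)
  (.s 1 (.s 2 (.s 0 (.l)
  (.l))
  (.s 2 (.s 0 (.o)
  (.f (.l)))
  (.o)))
  (.s 2 (.s 1 (.s 0 (.o)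
  (.f (.l)))
  (.o))
  (.o))))
  (.s 1 (.s 2 (.s 4 (.s 0 (.s 1 (.f (.l))
  (.f (.l)))
  (.f (.s 0 (.o)
  (.o))))
  (.f (.l)))
  (.f (.s 4 (.s 0 (.s 2 (.s 0 (.l)
  (.o))
  (.o))
  (.o))
  (.s 0 (.l)
  (.l)))))
  (.s 2 (.f (.s 4 (.s 0 (.s 1 (.s 0 (.l)
  (.o))
  (.o))
  (.o))
  (.s 0 (.l)
  (.l))))
  (.f (.s 1 (.s 4 (.o)
  (.l))
  (.o))))))
  (.s 0 (.f (.s 1 (.l)
  (.l)))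
  (.f (.s 1 (.l)
  (.s 0 (.l)
  (.l)))))))
  (.f (.s 0 (.l)
  (.l))))
  (.f (.l))))
  (.f (.l))))
  (.f (.s 4 (.l)
  (.f (.l))))

theorem chkU0 : chkBoxU 9 9 9 7 WU TU0 = true := by decide +kernel

/-- subdivision tree of the box 1 -/
def TU1 : TU :=
  .s 4 (.f (.s 4 (.f (.s 4 (.s 4 (.s 3 (.s 4 (.s 0 (.s 3 (.s 1 (.s 2 (.s 0 (.l)
  (.l))
  (.s 2 (.s 0 (.o)
  (.f (.l)))
  (.o)))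
  (.s 2 (.s 1 (.s 0 (.o)
  (.f (.l)))
  (.o))
  (.o)))
  (.o))
  (.s 1 (.s 2 (.s 4 (.s 0 (.s 1 (.f (.l))
  (.f (.l)))
  (.f (.s 0 (.o)
  (.o))))
  (.f (.l)))
  (.f (.s 4 (.s 0 (.s 2 (.s 0 (.l)
  (.o))
  (.o))
  (.o))
  (.s 0 (.l)
  (.l)))))
  (.s 2 (.f (.s 4 (.s 0 (.s 1 (.s 0 (.l)
  (.o))
  (.o))
  (.o))
  (.s 0 (.l)
  (.l))))
  (.f (.s 1 (.s 4 (.o)
  (.l))
  (.o))))))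
  (.s 0 (.f (.s 1 (.l)
  (.l)))
  (.f (.s 1 (.l)
  (.s 0 (.l)
  (.l))))))
  (.o))
  (.f (.s 0 (.l)
  (.l))))
  (.f (.l))))
  (.f (.l))))
  (.f (.s 4 (.l)
  (.f (.l))))

theorem chkU1 : chkBoxU 9 9 9 9 WU TU1 = true := by decide +kernel

/-- subdivision tree of the box 2 -/
def TU2 : TU :=
  .s 4 (.f (.s 4 (.f (.s 4 (.s 4 (.s 1 (.s 3 (.o)
  (.s 2 (.s 0 (.o)
  (.f (.s 4 (.s 4 (.o)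
  (.s 0 (.o)
  (.l)))
  (.l))))
  (.o)))
  (.o))
  (.f (.s 2 (.s 0 (.o)
  (.l))
  (.o))))
  (.f (.l))))
  (.f (.l))))
  (.f (.s 4 (.l)
  (.f (.l))))

theorem chkU2 : chkBoxU 9 9 11 7 WU TU2 = true := by decide +kernel

/-- subdivision tree of the box 3 -/
def TU3 : TU :=
  .s 4 (.f (.s 4 (.f (.s 4 (.s 4 (.s 1 (.s 3 (.s 2 (.s 0 (.o)
  (.f (.s 4 (.s 4 (.o)
  (.s 0 (.o)
  (.l)))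
  (.l))))
  (.o))
  (.o))
  (.o))
  (.f (.s 2 (.s 0 (.o)
  (.l))
  (.o))))
  (.f (.l))))
  (.f (.l))))
  (.f (.s 4 (.l)
  (.f (.l))))

theorem chkU3 : chkBoxU 9 9 11 9 WU TU3 = true := by decide +kernel

/-- subdivision tree of the box 4 -/
def TU4 : TU :=
  .s 4 (.f (.s 4 (.f (.s 4 (.s 4 (.s 2 (.s 3 (.o)
  (.s 1 (.s 0 (.o)
  (.f (.s 4 (.s 4 (.o)
  (.s 0 (.o)
  (.l)))
  (.l))))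
  (.o)))
  (.o))
  (.f (.s 1 (.s 0 (.o)
  (.l))
  (.o))))
  (.f (.l))))
  (.f (.l))))
  (.f (.s 4 (.l)
  (.f (.l))))

theorem chkU4 : chkBoxU 9 11 9 7 WU TU4 = true := by decide +kernel

/-- subdivision tree of the box 5 -/
def TU5 : TU :=
  .s 4 (.f (.s 4 (.f (.s 4 (.s 4 (.s 2 (.s 3 (.s 1 (.s 0 (.o)
  (.f (.s 4 (.s 4 (.o)
  (.s 0 (.o)
  (.l)))
  (.l))))
  (.o))
  (.o))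
  (.o))
  (.f (.s 1 (.s 0 (.o)
  (.l))
  (.o))))
  (.f (.l))))
  (.f (.l))))
  (.f (.s 4 (.l)
  (.f (.l))))

theorem chkU5 : chkBoxU 9 11 9 9 WU TU5 = true := by decide +kernel

/-- subdivision tree of the box 6 -/
def TU6 : TU :=
  .s 4 (.f (.s 4 (.f (.s 4 (.s 4 (.s 4 (.s 1 (.s 2 (.s 3 (.f (.s 3 (.o)
  (.s 1 (.o)
  (.s 2 (.o)
  (.s 0 (.s 4 (.o)
  (.l))
  (.s 4 (.o)
  (.l)))))))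
  (.f (.s 0 (.s 4 (.o)
  (.s 0 (.l)
  (.l)))
  (.s 4 (.o)
  (.s 0 (.l)
  (.s 0 (.o)
  (.o)))))))
  (.s 3 (.f (.s 3 (.o)
  (.s 1 (.o)
  (.s 0 (.s 4 (.o)
  (.l))
  (.s 4 (.o)
  (.l))))))
  (.f (.s 0 (.s 4 (.o)
  (.s 0 (.l)
  (.l)))
  (.s 4 (.o)
  (.s 0 (.s 1 (.l)
  (.l))
  (.s 0 (.o)
  (.o))))))))
  (.s 2 (.s 3 (.f (.s 3 (.o)
  (.s 2 (.o)
  (.s 0 (.s 4 (.o)
  (.l))
  (.s 4 (.o)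
  (.l))))))
  (.f (.s 0 (.s 4 (.o)
  (.s 0 (.l)
  (.l)))
  (.s 4 (.o)
  (.s 0 (.s 1 (.l)
  (.l))
  (.s 0 (.o)
  (.o)))))))
  (.f (.s 3 (.s 3 (.o)
  (.s 0 (.s 4 (.o)
  (.s 0 (.o)
  (.l)))
  (.s 4 (.o)
  (.s 1 (.s 0 (.l)
  (.o))
  (.s 0 (.l)
  (.o))))))
  (.s 0 (.s 4 (.o)
  (.s 1 (.s 0 (.l)
  (.l))
  (.s 0 (.l)
  (.l))))
  (.s 4 (.o)
  (.s 1 (.s 2 (.l)
  (.l))
  (.s 0 (.l)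
  (.o)))))))))
  (.f (.s 1 (.s 2 (.s 0 (.l)
  (.s 0 (.l)
  (.l)))
  (.s 0 (.s 0 (.l)
  (.l))
  (.s 0 (.l)
  (.l))))
  (.s 2 (.s 0 (.s 0 (.l)
  (.l))
  (.s 0 (.l)
  (.l)))
  (.s 3 (.s 0 (.l)
  (.l))
  (.s 0 (.l)
  (.l)))))))
  (.f (.s 4 (.s 0 (.l)
  (.l))
  (.l))))
  (.f (.l))))
  (.f (.l))))
  (.f (.s 4 (.l)
  (.f (.l))))

theorem chkU6 : chkBoxU 11 9 9 7 WU TU6 = true := by decide +kernel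

/-- subdivision tree of the box 7 -/
def TU7 : TU :=
  .s 4 (.f (.s 4 (.f (.s 4 (.s 4 (.s 4 (.s 1 (.s 2 (.s 3 (.f (.s 0 (.s 4 (.o)
  (.s 0 (.l)
  (.l)))
  (.s 4 (.o)
  (.s 0 (.l)
  (.s 0 (.o)
  (.o))))))
  (.f (.s 3 (.s 1 (.o)
  (.s 2 (.o)
  (.s 0 (.s 4 (.o)
  (.l))
  (.s 4 (.o)
  (.l)))))
  (.o))))
  (.s 3 (.f (.s 0 (.s 4 (.o)
  (.s 0 (.l)
  (.l)))
  (.s 4 (.o)
  (.s 0 (.s 1 (.l)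
  (.l))
  (.s 0 (.o)
  (.o))))))
  (.f (.s 3 (.s 1 (.o)
  (.s 0 (.s 4 (.o)
  (.l))
  (.s 4 (.o)
  (.l))))
  (.o)))))
  (.s 2 (.s 3 (.f (.s 0 (.s 4 (.o)
  (.s 0 (.l)
  (.l)))
  (.s 4 (.o)
  (.s 0 (.s 1 (.l)
  (.l))
  (.s 0 (.o)
  (.o))))))
  (.f (.s 3 (.s 2 (.o)
  (.s 0 (.s 4 (.o)
  (.l))
  (.s 4 (.o)
  (.l))))
  (.o))))
  (.f (.s 3 (.s 0 (.s 4 (.o)
  (.s 1 (.s 0 (.l)
  (.l))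
  (.s 0 (.l)
  (.l))))
  (.s 4 (.o)
  (.s 1 (.s 2 (.l)
  (.l))
  (.s 0 (.l)
  (.o)))))
  (.s 3 (.s 0 (.s 4 (.o)
  (.s 0 (.o)
  (.l)))
  (.s 4 (.o)
  (.s 1 (.s 0 (.l)
  (.o))
  (.s 0 (.l)
  (.o)))))
  (.o))))))
  (.f (.s 1 (.s 2 (.s 0 (.l)
  (.s 0 (.l)
  (.l)))
  (.s 0 (.s 0 (.l)
  (.l))
  (.s 0 (.l)
  (.l))))
  (.s 2 (.s 0 (.s 0 (.l)
  (.l))
  (.s 0 (.l)
  (.l)))
  (.s 3 (.s 0 (.l)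
  (.l))
  (.s 0 (.l)
  (.l)))))))
  (.f (.s 4 (.s 0 (.l)
  (.l))
  (.l))))
  (.f (.l))))
  (.f (.l))))
  (.f (.s 4 (.l)
  (.f (.l))))

theorem chkU7 : chkBoxU 11 9 9 9 WU TU7 = true := by decide +kernel

/-- subdivision tree of the box 8 -/
def TU8 : TU :=
  .s 4 (.f (.s 4 (.f (.s 4 (.s 4 (.s 4 (.s 1 (.s 3 (.f (.s 2 (.s 0 (.o)
  (.s 4 (.o)
  (.s 3 (.o)
  (.s 1 (.o)
  (.l)))))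
  (.o)))
  (.s 0 (.f (.s 2 (.s 4 (.o)
  (.s 0 (.l)
  (.l)))
  (.s 4 (.o)
  (.s 2 (.s 0 (.o)
  (.l))
  (.o)))))
  (.f (.s 2 (.s 4 (.o)
  (.s 0 (.s 0 (.l)
  (.l))
  (.s 2 (.o)
  (.o))))
  (.s 4 (.o)
  (.s 0 (.s 1 (.l)
  (.l))
  (.s 0 (.o)
  (.o))))))))
  (.s 0 (.f (.s 3 (.o)
  (.s 2 (.s 4 (.o)
  (.s 1 (.s 0 (.o)
  (.l))
  (.o)))
  (.o))))
  (.f (.s 3 (.s 2 (.s 4 (.o)
  (.s 1 (.s 3 (.o)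
  (.s 0 (.o)
  (.l)))
  (.o)))
  (.o))
  (.s 2 (.s 4 (.o)
  (.s 1 (.s 2 (.l)
  (.l))
  (.s 0 (.l)
  (.s 0 (.o)
  (.o)))))
  (.s 4 (.o)
  (.s 1 (.s 2 (.s 0 (.o)
  (.o))
  (.o))
  (.o))))))))
  (.f (.s 1 (.s 3 (.s 2 (.s 0 (.o)
  (.l))
  (.o))
  (.s 0 (.s 0 (.l)
  (.l))
  (.s 0 (.l)
  (.l))))
  (.s 3 (.s 2 (.s 0 (.o)
  (.l))
  (.o))
  (.s 0 (.s 0 (.o)
  (.l))
  (.s 2 (.l)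
  (.l)))))))
  (.f (.s 4 (.s 0 (.l)
  (.l))
  (.l))))
  (.f (.l))))
  (.f (.l))))
  (.f (.s 4 (.l)
  (.f (.l))))

theorem chkU8 : chkBoxU 11 9 11 7 WU TU8 = true := by decide +kernel

/-- subdivision tree of the box 9 -/
def TU9 : TU :=
  .s 4 (.f (.s 4 (.f (.s 4 (.s 4 (.s 4 (.s 1 (.s 3 (.s 0 (.f (.s 2 (.s 4 (.o)
  (.s 0 (.l)
  (.l)))
  (.s 4 (.o)
  (.s 2 (.s 0 (.o)
  (.l))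
  (.o)))))
  (.f (.s 2 (.s 4 (.o)
  (.s 0 (.s 0 (.l)
  (.l))
  (.s 2 (.o)
  (.o))))
  (.s 4 (.o)
  (.s 0 (.s 1 (.l)
  (.l))
  (.s 0 (.o)
  (.o)))))))
  (.f (.s 2 (.s 0 (.o)
  (.s 4 (.o)
  (.s 3 (.s 1 (.o)
  (.l))
  (.o))))
  (.o))))
  (.s 0 (.f (.s 3 (.s 2 (.s 4 (.o)
  (.s 1 (.s 0 (.o)
  (.l))
  (.o)))
  (.o))
  (.o)))
  (.f (.s 3 (.s 2 (.s 4 (.o)
  (.s 1 (.s 2 (.l)
  (.l))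
  (.s 0 (.l)
  (.s 0 (.o)
  (.o)))))
  (.s 4 (.o)
  (.s 1 (.s 2 (.s 0 (.o)
  (.o))
  (.o))
  (.o))))
  (.s 2 (.s 4 (.o)
  (.s 1 (.s 3 (.s 0 (.o)
  (.l))
  (.o))
  (.o)))
  (.o))))))
  (.f (.s 1 (.s 3 (.s 0 (.s 0 (.l)
  (.l))
  (.s 0 (.l)
  (.l)))
  (.s 2 (.s 0 (.o)
  (.l))
  (.o)))
  (.s 3 (.s 0 (.s 0 (.o)
  (.l))
  (.s 2 (.l)
  (.l)))
  (.s 2 (.s 0 (.o)
  (.l))
  (.o))))))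
  (.f (.s 4 (.s 0 (.l)
  (.l))
  (.l))))
  (.f (.l))))
  (.f (.l))))
  (.f (.s 4 (.l)
  (.f (.l))))

theorem chkU9 : chkBoxU 11 9 11 9 WU TU9 = true := by decide +kernel

/-- subdivision tree of the box 10 -/
def TU10 : TU :=
  .s 4 (.f (.s 4 (.f (.s 4 (.s 4 (.s 1 (.s 3 (.o)
  (.f (.s 2 (.s 0 (.o)
  (.s 4 (.s 4 (.o)
  (.s 1 (.s 3 (.o)
  (.s 0 (.o)
  (.l)))
  (.o)))
  (.l)))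
  (.o))))
  (.o))
  (.f (.s 4 (.s 0 (.o)
  (.l))
  (.l))))
  (.f (.l))))
  (.f (.l))))
  (.f (.s 4 (.l)
  (.f (.l))))

theorem chkU10 : chkBoxU 11 9 13 7 WU TU10 = true := by decide +kernel

end Pool.Agent.Helper10.Qc
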